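import Mathlib

set_option autoImplicit false

namespace Pool.Agent.Helper291.Bent

open Finset

/-- The butterfly (fast Walsh-Hadamard) transform of a sequence, level by level. -/
def bf (z : ℕ → ℤ) : ℕ → ℕ → ℕ → ℤ
  | 0, u, _ => z u
  | (c + 1), u, k =>
      if k % 2 = 0 then bf z c (2 * u) (k / 2) + bf z c (2 * u + 1) (k / 2)
      else bf z c (2 * u) (k / 2) - bf z c (2 * u + 1) (k / 2)

/-- The class of a point: all points with the same value. -/
noncomputable def cls {Ω α : Type*} [Fintype Ω] (X : Ω → α) (w : Ω) : Finset Ω := by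
  classical exact univ.filter (fun w' => X w' = X w)

/-- Sum of the logarithms of the class sizes. -/
noncomputable def LL {Ω α : Type*} [Fintype Ω] (X : Ω → α) : ℝ :=
  ∑ w, Real.log ((cls X w).card : ℝ)

/-- The past of a sequence up to `i` (exclusive). -/
def pst {Ω : Type*} (v : ℕ → Ω → ℤ) (i : ℕ) : Ω → (Fin i → ℤ) := fun w j => v j w

/-- Covariance of two bits under the uniform law on `Q`. -/
noncomputable def cv {Ω : Type*} (Q : Finset Ω) (U V : Ω → Bool) : ℝ :=
  ((Q.filter (fun w => U w = true ∧ V w = true)).card : ℝ) / Q.card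
    - ((Q.filter (fun w => U w = true)).card : ℝ) / Q.card
      * (((Q.filter (fun w => V w = true)).card : ℝ) / Q.card)

/-- extension by zero of a vector of length `2^d` -/
def ext0 (d : ℕ) (v : Fin (2 ^ d) → ℤ) : ℕ → ℤ :=
  fun u => if h : u < 2 ^ d then v ⟨u, h⟩ else 0

/-- The binary digits of `w` as a 0-1 vector. -/
def bits (n : ℕ) (w : ℕ) : Fin n → ZMod 2 := fun i => ((w / 2 ^ (i : ℕ) : ℕ) : ZMod 2)

/-- The sign sequence of a Boolean function. -/
def sgn (n : ℕ) (g : (Fin n → ZMod 2) → ZMod 2) : ℕ → ℤ := fun w => (-1 : ℤ) ^ (g (bits n w)).val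

end Pool.Agent.Helper291.Bent
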