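import Mathlib
import Pool.Agent.Helper291.BentDefs

set_option autoImplicit false

namespace Pool.Agent.Helper291.Bent.J4

open Finset

/-- distribution function -/
noncomputable def dF {Ω : Type*} (Q : Finset Ω) (X : Ω → ℤ) (n : ℤ) : ℝ :=
  ((Q.filter (fun w => X w ≤ n)).card : ℝ) / Q.card

theorem dF_least {Ω : Type*} (Q : Finset Ω) (hQ : Q.Nonempty) (X : Ω → ℤ) (t : ℝ)
    (ht : 0 < t) (ht1 : t ≤ 1) :
    ∃ n : ℤ, t ≤ dF Q X n ∧ dF Q X (n - 1) < t := by
  classical
  have hN : (0:ℝ) < Q.card := by exact_mod_cast hQ.card_pos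
  obtain ⟨b, hb⟩ := (Q.image X).finite_toSet.bddBelow
  obtain ⟨c, hc⟩ := (Q.image X).finite_toSet.bddAbove
  have hb' : ∀ w ∈ Q, b ≤ X w := fun w hw => hb (by simpa using ⟨w, hw, rfl⟩)
  have hc' : ∀ w ∈ Q, X w ≤ c := fun w hw => hc (by simpa using ⟨w, hw, rfl⟩)
  have hbdd : ∃ b : ℤ, ∀ z : ℤ, t ≤ dF Q X z → b ≤ z := by
    refine ⟨b, fun z hz => ?_⟩
    by_contra hlt
    push Not at hlt
    have : (Q.filter (fun w => X w ≤ z)) = ∅ := by
      apply Finset.filter_eq_empty_iff.mpr
      intro w hw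
      have := hb' w hw
      omega
    unfold dF at hz
    rw [this] at hz
    simp at hz
    linarith
  have hinh : ∃ z : ℤ, t ≤ dF Q X z := by
    refine ⟨c, ?_⟩
    have : (Q.filter (fun w => X w ≤ c)) = Q := Finset.filter_true_of_mem hc'
    unfold dF
    rw [this, div_self hN.ne']
    exact ht1
  obtain ⟨n, hn, hmin⟩ := Int.exists_least_of_bdd hbdd hinh
  refine ⟨n, hn, ?_⟩
  by_contra h
  push Not at h
  have := hmin _ h
  omega

theorem alg_fact (q0 q2 a1 a0 b1 b0 β : ℝ) (z0 : 0 ≤ q0) (z2 : 0 ≤ q2) (za1 : 0 ≤ a1)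
    (za0 : 0 ≤ a0) (zb1 : 0 ≤ b1) (zb0 : 0 ≤ b0) (e1 : q0 + q2 + a1 + a0 + b1 + b0 = 1)
    (h1 : |q2 + a1 - (q2 + a1 + a0) * (q2 + a1 + b1)| < β)
    (h2 : |q2 + b1 - (q2 + b1 + b0) * (q2 + a1 + b1)| < β)
    (h3 : |q2 - (q2 + a1 + a0) * (q2 + b1 + b0)| < β) :
    (q0 + b1 + b0) * (q0 + a1 + a0) < 3 * β ∨
      (1 - (q0 + b1 + b0)) * (1 - (q0 + a1 + a0)) < 3 * β := by
  rw [abs_lt] at h1 h2 h3
  have e2 : a0 = 1 - q0 - q2 - a1 - b1 - b0 := by linarith
  have hsum : (q2 + (a1 + b1)) * (q0 - q2) + q2 < 2 * β := by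
    have : (q2 + (a1 + b1)) * (q0 - q2) + q2 = (q2 + a1 - (q2 + a1 + a0) * (q2 + a1 + b1)) + (q2 + b1 - (q2 + b1 + b0) * (q2 + a1 + b1)) := by
      rw [e2]; ring
    rw [this]
    linarith [h1.2, h2.2]
  rcases le_total q2 q0 with hle | hle
  · right
    have h4 : q2 < 2 * β := by nlinarith
    have : (1 - (q0 + b1 + b0)) * (1 - (q0 + a1 + a0)) = (q2 + a1 + a0) * (q2 + b1 + b0) := by
      rw [e2]; ring
    rw [this]
    linarith [h3.1]
  · left
    have h4 : q0 < 2 * β := by
      have h5 : q0 * (1 - q0 + q2) ≤ (q2 + (a1 + b1)) * (q0 - q2) + q2 := by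
        have : (q2 + (a1 + b1)) * (q0 - q2) + q2 - q0 * (1 - q0 + q2) = (q2 - q0) * (a0 + b0) := by
          rw [e2]; ring
        have h6 : 0 ≤ (q2 - q0) * (a0 + b0) := mul_nonneg (by linarith) (by linarith)
        linarith
      have h7 : q0 ≤ q0 * (1 - q0 + q2) := by
        have : 0 ≤ q0 * (q2 - q0) := mul_nonneg z0 (by linarith)
        linarith
      linarith
    have : (q0 + b1 + b0) * (q0 + a1 + a0) - q0 = (q2 + a1 + a0) * (q2 + b1 + b0) - q2 := by
      rw [e2]; ring
    linarith [h3.1]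

theorem fact1 {Ω : Type*} (Q : Finset Ω) (hQ : Q.Nonempty) (X Y : Ω → ℤ) (n m : ℤ) :
    ∃ q0 q2 a1 a0 b1 b0 : ℝ, 0 ≤ q0 ∧ 0 ≤ q2 ∧ 0 ≤ a1 ∧ 0 ≤ a0 ∧ 0 ≤ b1 ∧ 0 ≤ b0 ∧
      q0 + q2 + a1 + a0 + b1 + b0 = 1 ∧
      cv Q (fun w => decide (n < X w)) (fun w => decide (n + m < X w + Y w)) =
        q2 + a1 - (q2 + a1 + a0) * (q2 + a1 + b1) ∧
      cv Q (fun w => decide (m < Y w)) (fun w => decide (n + m < X w + Y w)) =
        q2 + b1 - (q2 + b1 + b0) * (q2 + a1 + b1) ∧
      cv Q (fun w => decide (n < X w)) (fun w => decide (m < Y w)) =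
        q2 - (q2 + a1 + a0) * (q2 + b1 + b0) ∧
      dF Q X n = q0 + b1 + b0 ∧ dF Q Y m = q0 + a1 + a0 := by
  classical
  have hN : (0:ℝ) < Q.card := by exact_mod_cast hQ.card_pos
  have e1 : (Q.filter (fun w => X w ≤ n ∧ Y w ≤ m)).card + (Q.filter (fun w => n < X w ∧ m < Y w)).card
        + (Q.filter (fun w => n < X w ∧ Y w ≤ m ∧ n + m < X w + Y w)).card
        + (Q.filter (fun w => n < X w ∧ Y w ≤ m ∧ X w + Y w ≤ n + m)).card
        + (Q.filter (fun w => X w ≤ n ∧ m < Y w ∧ n + m < X w + Y w)).card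
        + (Q.filter (fun w => X w ≤ n ∧ m < Y w ∧ X w + Y w ≤ n + m)).card = Q.card := by
    rw [Finset.card_eq_sum_ones Q]
    simp only [Finset.card_filter, ← Finset.sum_add_distrib]
    apply Finset.sum_congr rfl
    intro w _
    split_ifs <;> omega
  have pU : (Q.filter (fun w => n < X w)).card = (Q.filter (fun w => n < X w ∧ m < Y w)).card
        + (Q.filter (fun w => n < X w ∧ Y w ≤ m ∧ n + m < X w + Y w)).card
        + (Q.filter (fun w => n < X w ∧ Y w ≤ m ∧ X w + Y w ≤ n + m)).card := by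
    simp only [Finset.card_filter, ← Finset.sum_add_distrib]
    apply Finset.sum_congr rfl
    intro w _
    split_ifs <;> omega
  have pV : (Q.filter (fun w => m < Y w)).card = (Q.filter (fun w => n < X w ∧ m < Y w)).card
        + (Q.filter (fun w => X w ≤ n ∧ m < Y w ∧ n + m < X w + Y w)).card
        + (Q.filter (fun w => X w ≤ n ∧ m < Y w ∧ X w + Y w ≤ n + m)).card := by
    simp only [Finset.card_filter, ← Finset.sum_add_distrib]
    apply Finset.sum_congr rfl
    intro w _
    split_ifs <;> omega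
  have pW : (Q.filter (fun w => n + m < X w + Y w)).card = (Q.filter (fun w => n < X w ∧ m < Y w)).card
        + (Q.filter (fun w => n < X w ∧ Y w ≤ m ∧ n + m < X w + Y w)).card
        + (Q.filter (fun w => X w ≤ n ∧ m < Y w ∧ n + m < X w + Y w)).card := by
    simp only [Finset.card_filter, ← Finset.sum_add_distrib]
    apply Finset.sum_congr rfl
    intro w _
    split_ifs <;> omega
  have pUW : (Q.filter (fun w => n < X w ∧ n + m < X w + Y w)).card = (Q.filter (fun w => n < X w ∧ m < Y w)).card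
        + (Q.filter (fun w => n < X w ∧ Y w ≤ m ∧ n + m < X w + Y w)).card := by
    simp only [Finset.card_filter, ← Finset.sum_add_distrib]
    apply Finset.sum_congr rfl
    intro w _
    split_ifs <;> omega
  have pVW : (Q.filter (fun w => m < Y w ∧ n + m < X w + Y w)).card = (Q.filter (fun w => n < X w ∧ m < Y w)).card
        + (Q.filter (fun w => X w ≤ n ∧ m < Y w ∧ n + m < X w + Y w)).card := by
    simp only [Finset.card_filter, ← Finset.sum_add_distrib]
    apply Finset.sum_congr rfl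
    intro w _
    split_ifs <;> omega
  have pF : (Q.filter (fun w => X w ≤ n)).card = (Q.filter (fun w => X w ≤ n ∧ Y w ≤ m)).card
        + (Q.filter (fun w => X w ≤ n ∧ m < Y w ∧ n + m < X w + Y w)).card
        + (Q.filter (fun w => X w ≤ n ∧ m < Y w ∧ X w + Y w ≤ n + m)).card := by
    simp only [Finset.card_filter, ← Finset.sum_add_distrib]
    apply Finset.sum_congr rfl
    intro w _
    split_ifs <;> omega
  have pG : (Q.filter (fun w => Y w ≤ m)).card = (Q.filter (fun w => X w ≤ n ∧ Y w ≤ m)).card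
        + (Q.filter (fun w => n < X w ∧ Y w ≤ m ∧ n + m < X w + Y w)).card
        + (Q.filter (fun w => n < X w ∧ Y w ≤ m ∧ X w + Y w ≤ n + m)).card := by
    simp only [Finset.card_filter, ← Finset.sum_add_distrib]
    apply Finset.sum_congr rfl
    intro w _
    split_ifs <;> omega
  refine ⟨((Q.filter (fun w => X w ≤ n ∧ Y w ≤ m)).card : ℝ) / Q.card,
    ((Q.filter (fun w => n < X w ∧ m < Y w)).card : ℝ) / Q.card,
    ((Q.filter (fun w => n < X w ∧ Y w ≤ m ∧ n + m < X w + Y w)).card : ℝ) / Q.card,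
    ((Q.filter (fun w => n < X w ∧ Y w ≤ m ∧ X w + Y w ≤ n + m)).card : ℝ) / Q.card,
    ((Q.filter (fun w => X w ≤ n ∧ m < Y w ∧ n + m < X w + Y w)).card : ℝ) / Q.card,
    ((Q.filter (fun w => X w ≤ n ∧ m < Y w ∧ X w + Y w ≤ n + m)).card : ℝ) / Q.card,
    by positivity, by positivity, by positivity, by positivity, by positivity, by positivity,
    ?_, ?_, ?_, ?_, ?_, ?_⟩
  · rw [← add_div, ← add_div, ← add_div, ← add_div, ← add_div, div_eq_one_iff_eq hN.ne']
    exact_mod_cast e1
  · unfold cv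
    simp only [decide_eq_true_eq]
    rw [pUW, pU, pW]
    push_cast
    simp only [add_div]
  · unfold cv
    simp only [decide_eq_true_eq]
    rw [pVW, pV, pW]
    push_cast
    simp only [add_div]
  · unfold cv
    simp only [decide_eq_true_eq]
    rw [pU, pV]
    push_cast
    simp only [add_div]
  · unfold dF
    rw [pF]
    push_cast
    simp only [add_div]
  · unfold dF
    rw [pG]
    push_cast
    simp only [add_div]

theorem fact2 {Ω : Type*} (Q : Finset Ω) (hQ : Q.Nonempty) (X Y : Ω → ℤ) (β : ℝ)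
    (H : ∀ n m : ℤ, |cv Q (fun w => decide (n < X w)) (fun w => decide (n + m < X w + Y w))| < β
      ∧ |cv Q (fun w => decide (m < Y w)) (fun w => decide (n + m < X w + Y w))| < β
      ∧ |cv Q (fun w => decide (n < X w)) (fun w => decide (m < Y w))| < β) (n m : ℤ) :
    dF Q X n * dF Q Y m < 3 * β ∨ (1 - dF Q X n) * (1 - dF Q Y m) < 3 * β := by
  obtain ⟨h1, h2, h3⟩ := H n m
  obtain ⟨q0, q2, a1, a0, b1, b0, z0, z2, za1, za0, zb1, zb0, e1, e2, e3, e4, e5, e6⟩ :=
    fact1 Q hQ X Y n m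
  rw [e2] at h1
  rw [e3] at h2
  rw [e4] at h3
  rw [e5, e6]
  exact alg_fact q0 q2 a1 a0 b1 b0 β z0 z2 za1 za0 zb1 zb0 e1 h1 h2 h3

/-- mass of the atom -/
theorem atom_mass {Ω : Type*} (Q : Finset Ω) (hQ : Q.Nonempty) (X : Ω → ℤ) (n : ℤ) :
    ((Q.filter (fun w => X w ≠ n)).card : ℝ) = (1 - (dF Q X n - dF Q X (n - 1))) * Q.card := by
  classical
  have hN : (0:ℝ) < Q.card := by exact_mod_cast hQ.card_pos
  have h : (Q.filter (fun w => X w ≠ n)).card + (Q.filter (fun w => X w ≤ n)).card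
      = Q.card + (Q.filter (fun w => X w ≤ n - 1)).card := by
    rw [Finset.card_eq_sum_ones Q]
    simp only [Finset.card_filter, ← Finset.sum_add_distrib]
    apply Finset.sum_congr rfl
    intro w _
    split_ifs <;> omega
  have h' : ((Q.filter (fun w => X w ≠ n)).card : ℝ) + (Q.filter (fun w => X w ≤ n)).card
      = Q.card + (Q.filter (fun w => X w ≤ n - 1)).card := by exact_mod_cast h
  have e1 : dF Q X n * Q.card = (Q.filter (fun w => X w ≤ n)).card := by
    unfold dF; field_simp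
  have e2 : dF Q X (n - 1) * Q.card = (Q.filter (fun w => X w ≤ n - 1)).card := by
    unfold dF; field_simp
  have : (1 - (dF Q X n - dF Q X (n - 1))) * Q.card
    = Q.card - dF Q X n * Q.card + dF Q X (n - 1) * Q.card := by ring
  rw [this, e1, e2]
  linarith

/-- the covariance when the other variable is almost constant -/
theorem cov_lower {Ω : Type*} (Q : Finset Ω) (hQ : Q.Nonempty) (X Y : Ω → ℤ) (n m : ℤ) (δ : ℝ)
    (hδ : ((Q.filter (fun w => Y w ≠ m)).card : ℝ) ≤ δ * Q.card) :
    (1 - dF Q X n) * dF Q X n - 2 * δ ≤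
      cv Q (fun w => decide (n < X w)) (fun w => decide (n + m < X w + Y w)) := by
  classical
  have hN : (0:ℝ) < Q.card := by exact_mod_cast hQ.card_pos
  have e1 : (Q.filter (fun w => n < X w)).card ≤
      (Q.filter (fun w => n < X w ∧ n + m < X w + Y w)).card + (Q.filter (fun w => Y w ≠ m)).card := by
    simp only [Finset.card_filter, ← Finset.sum_add_distrib]
    apply Finset.sum_le_sum
    intro w _
    split_ifs <;> omega
  have e2 : (Q.filter (fun w => n + m < X w + Y w)).card ≤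
      (Q.filter (fun w => n < X w)).card + (Q.filter (fun w => Y w ≠ m)).card := by
    simp only [Finset.card_filter, ← Finset.sum_add_distrib]
    apply Finset.sum_le_sum
    intro w _
    split_ifs <;> omega
  have e3 : (Q.filter (fun w => n < X w)).card + (Q.filter (fun w => X w ≤ n)).card = Q.card := by
    rw [Finset.card_eq_sum_ones Q]
    simp only [Finset.card_filter, ← Finset.sum_add_distrib]
    apply Finset.sum_congr rfl
    intro w _
    split_ifs <;> omega
  set N : ℝ := (Q.card : ℝ) with hNdef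
  set u : ℝ := ((Q.filter (fun w => n < X w)).card : ℝ) / N with hu
  set uw : ℝ := ((Q.filter (fun w => n < X w ∧ n + m < X w + Y w)).card : ℝ) / N with huw
  set ww : ℝ := ((Q.filter (fun w => n + m < X w + Y w)).card : ℝ) / N with hww
  set d : ℝ := ((Q.filter (fun w => Y w ≠ m)).card : ℝ) / N with hd
  have i1 : u ≤ uw + d := by
    rw [hu, huw, hd, ← add_div]
    apply div_le_div_of_nonneg_right _ hN.le
    exact_mod_cast e1
  have i2 : ww ≤ u + d := by
    rw [hu, hww, hd, ← add_div]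
    apply div_le_div_of_nonneg_right _ hN.le
    exact_mod_cast e2
  have i3 : u + dF Q X n = 1 := by
    unfold dF
    rw [hu, ← hNdef, ← add_div, div_eq_one_iff_eq hN.ne']
    rw [hNdef]
    exact_mod_cast e3
  have i4 : d ≤ δ := by
    rw [hd, div_le_iff₀ hN]
    exact hδ
  have hu0 : 0 ≤ u := by positivity
  have hF0 : 0 ≤ dF Q X n := by unfold dF; positivity
  have hd0 : 0 ≤ d := by positivity
  have hcv : cv Q (fun w => decide (n < X w)) (fun w => decide (n + m < X w + Y w)) = uw - u * ww := by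
    unfold cv
    simp only [decide_eq_true_eq]
    rfl
  rw [hcv]
  have hF : dF Q X n = 1 - u := by linarith
  rw [hF] at hF0 ⊢
  have h5 : u * ww ≤ u * (u + d) := mul_le_mul_of_nonneg_left i2 hu0
  have h6 : u * d ≤ 1 * d := mul_le_mul_of_nonneg_right (by linarith) hd0
  nlinarith

theorem one_side {Ω : Type*} (Q : Finset Ω) (hQ : Q.Nonempty) (X Y : Ω → ℤ) (ε : ℝ)
    (hε : 0 < ε) (hε2 : ε ≤ 1 / 2)
    (H : ∀ n m : ℤ, |cv Q (fun w => decide (n < X w)) (fun w => decide (n + m < X w + Y w))| < ε ^ 2 / 100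
      ∧ |cv Q (fun w => decide (m < Y w)) (fun w => decide (n + m < X w + Y w))| < ε ^ 2 / 100
      ∧ |cv Q (fun w => decide (n < X w)) (fun w => decide (m < Y w))| < ε ^ 2 / 100) :
    ∃ x0 : ℤ, ((Q.filter (fun w => X w ≠ x0)).card : ℝ) ≤ ε * Q.card := by
  classical
  have hN : (0:ℝ) < Q.card := by exact_mod_cast hQ.card_pos
  by_contra hcon
  push Not at hcon
  obtain ⟨n, hn1, hn2⟩ := dF_least Q hQ X (ε / 2) (by positivity) (by linarith)
  have hn3 : dF Q X n < 1 - ε / 2 := by
    have h := hcon n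
    rw [atom_mass Q hQ X n] at h
    have h' := lt_of_mul_lt_mul_right h hN.le
    linarith
  have hG : ∀ m : ℤ, dF Q Y m < 6 * ε / 100 ∨ 1 - dF Q Y m < 6 * ε / 100 := by
    intro m
    rcases fact2 Q hQ X Y _ H n m with h | h
    · left
      by_contra hcc
      push Not at hcc
      have : (ε / 2) * (6 * ε / 100) ≤ dF Q X n * dF Q Y m :=
        mul_le_mul hn1 hcc (by positivity) (by linarith)
      nlinarith
    · right
      by_contra hcc
      push Not at hcc
      have : (ε / 2) * (6 * ε / 100) ≤ (1 - dF Q X n) * (1 - dF Q Y m) :=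
        mul_le_mul (by linarith) hcc (by positivity) (by linarith)
      nlinarith
  obtain ⟨m, hm1, hm2⟩ := dF_least Q hQ Y (6 * ε / 100) (by positivity) (by linarith)
  have hm3 : 1 - dF Q Y m < 6 * ε / 100 := by
    rcases hG m with h | h
    · linarith
    · exact h
  have hY : ((Q.filter (fun w => Y w ≠ m)).card : ℝ) ≤ (12 * ε / 100) * Q.card := by
    rw [atom_mass Q hQ Y m]
    apply mul_le_mul_of_nonneg_right _ hN.le
    linarith
  have hc := cov_lower Q hQ X Y n m _ hY
  have h1 := (H n m).1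
  rw [abs_lt] at h1
  have h2 : (ε / 2) * (1 - ε / 2) ≤ (1 - dF Q X n) * dF Q X n := by nlinarith
  nlinarith

theorem cv_comm {Ω : Type*} (Q : Finset Ω) (U V : Ω → Bool) : cv Q U V = cv Q V U := by
  unfold cv
  have : (Q.filter (fun w => U w = true ∧ V w = true)) = (Q.filter (fun w => V w = true ∧ U w = true)) := by
    ext w
    simp only [Finset.mem_filter]
    tauto
  rw [this, mul_comm (((Q.filter (fun w => U w = true)).card : ℝ) / Q.card)]

/-- Either both variables are concentrated on one value, or some pair of thresholds gives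
a substantial covariance. -/
theorem atoms_or_cov {Ω : Type*} (Q : Finset Ω) (hQ : Q.Nonempty) (X Y : Ω → ℤ) (ε : ℝ)
    (hε : 0 < ε) (hε2 : ε ≤ 1 / 2) :
    (∃ x0 y0 : ℤ, ((Q.filter (fun w => X w ≠ x0)).card : ℝ) ≤ ε * Q.card ∧
        ((Q.filter (fun w => Y w ≠ y0)).card : ℝ) ≤ ε * Q.card) ∨
    (∃ n m : ℤ, ε ^ 4 / 10000 ≤
        cv Q (fun w => decide (n < X w)) (fun w => decide (n + m < X w + Y w)) ^ 2
        + cv Q (fun w => decide (m < Y w)) (fun w => decide (n + m < X w + Y w)) ^ 2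
        + cv Q (fun w => decide (n < X w)) (fun w => decide (m < Y w)) ^ 2) := by
  by_cases hneg : (∃ n m : ℤ, ε ^ 4 / 10000 ≤
        cv Q (fun w => decide (n < X w)) (fun w => decide (n + m < X w + Y w)) ^ 2
        + cv Q (fun w => decide (m < Y w)) (fun w => decide (n + m < X w + Y w)) ^ 2
        + cv Q (fun w => decide (n < X w)) (fun w => decide (m < Y w)) ^ 2)
  · right; exact hneg
  · left
    push Not at hneg
    have hb : (0:ℝ) ≤ ε ^ 2 / 100 := by positivity
    have hb2 : (ε ^ 2 / 100) ^ 2 = ε ^ 4 / 10000 := by ring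
    have H : ∀ n m : ℤ, |cv Q (fun w => decide (n < X w)) (fun w => decide (n + m < X w + Y w))| < ε ^ 2 / 100
      ∧ |cv Q (fun w => decide (m < Y w)) (fun w => decide (n + m < X w + Y w))| < ε ^ 2 / 100
      ∧ |cv Q (fun w => decide (n < X w)) (fun w => decide (m < Y w))| < ε ^ 2 / 100 := by
      intro n m
      have h := hneg n m
      rw [← hb2] at h
      refine ⟨?_, ?_, ?_⟩
      · apply abs_lt_of_sq_lt_sq _ hb
        nlinarith [sq_nonneg (cv Q (fun w => decide (m < Y w)) (fun w => decide (n + m < X w + Y w))),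
          sq_nonneg (cv Q (fun w => decide (n < X w)) (fun w => decide (m < Y w)))]
      · apply abs_lt_of_sq_lt_sq _ hb
        nlinarith [sq_nonneg (cv Q (fun w => decide (n < X w)) (fun w => decide (n + m < X w + Y w))),
          sq_nonneg (cv Q (fun w => decide (n < X w)) (fun w => decide (m < Y w)))]
      · apply abs_lt_of_sq_lt_sq _ hb
        nlinarith [sq_nonneg (cv Q (fun w => decide (n < X w)) (fun w => decide (n + m < X w + Y w))),
          sq_nonneg (cv Q (fun w => decide (m < Y w)) (fun w => decide (n + m < X w + Y w)))]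
    obtain ⟨x0, hx⟩ := one_side Q hQ X Y ε hε hε2 H
    have H' : ∀ n m : ℤ, |cv Q (fun w => decide (n < Y w)) (fun w => decide (n + m < Y w + X w))| < ε ^ 2 / 100
      ∧ |cv Q (fun w => decide (m < X w)) (fun w => decide (n + m < Y w + X w))| < ε ^ 2 / 100
      ∧ |cv Q (fun w => decide (n < Y w)) (fun w => decide (m < X w))| < ε ^ 2 / 100 := by
      intro n m
      obtain ⟨h1, h2, h3⟩ := H m n
      have e : (fun w => decide (n + m < Y w + X w)) = (fun w => decide (m + n < X w + Y w)) := by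
        funext w
        rw [add_comm n m, add_comm (Y w) (X w)]
      rw [e]
      refine ⟨h2, h1, ?_⟩
      rw [cv_comm]
      exact h3
    obtain ⟨y0, hy⟩ := one_side Q hQ Y X ε hε hε2 H'
    exact ⟨x0, y0, hx, hy⟩

end Pool.Agent.Helper291.Bent.J4
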