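import Mathlib
import Pool.Agent.Helper291.BentDefs

set_option autoImplicit false

namespace Pool.Agent.Helper291.Bent.J3

open Finset

theorem cell_bound (x n r s : ℝ) (hx : 0 ≤ x) (hn : 0 < n) (hxr : x ≤ r) (hxs : x ≤ s)
    (hr : r ≤ n) (hs : s ≤ n) :
    (x - r * s / n) ^ 2 / (4 * n) + (x - r * s / n) ≤ x * Real.log (n * x / (r * s)) := by
  have hr0 : 0 ≤ r := hx.trans hxr
  have hs0 : 0 ≤ s := hx.trans hxs
  have hy0 : 0 ≤ r * s / n := by positivity
  have hyn : r * s / n ≤ n := by
    rw [div_le_iff₀ hn]
    exact mul_le_mul hr hs hs0 hn.le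
  set y := r * s / n with hy
  rcases hx.eq_or_lt with h0 | h0
  · rw [← h0]
    simp only [zero_sub, zero_mul, even_two, Even.neg_pow]
    have : y ^ 2 / (4 * n) ≤ y := by
      rw [div_le_iff₀ (by positivity)]
      nlinarith
    linarith
  · have hrpos : 0 < r := lt_of_lt_of_le h0 hxr
    have hspos : 0 < s := lt_of_lt_of_le h0 hxs
    have hypos : 0 < y := by positivity
    have e1 : n * x / (r * s) = x / y := by
      rw [hy]; field_simp
    rw [e1]
    set u := Real.sqrt x with hu
    set v := Real.sqrt y with hv
    have hupos : 0 < u := Real.sqrt_pos.2 h0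
    have hvpos : 0 < v := Real.sqrt_pos.2 hypos
    have hux : x = u ^ 2 := (Real.sq_sqrt hx).symm
    have hvy : y = v ^ 2 := (Real.sq_sqrt hy0).symm
    have e2 : Real.log (x / y) = 2 * Real.log (u / v) := by
      rw [hux, hvy, ← div_pow, Real.log_pow]; norm_num
    have e3 : 1 - v / u ≤ Real.log (u / v) := by
      have := Real.one_sub_inv_le_log_of_pos (div_pos hupos hvpos)
      rwa [inv_div] at this
    have e4 : 2 * u ^ 2 - 2 * u * v ≤ x * Real.log (x / y) := by
      rw [e2, hux]
      have : 2 * u ^ 2 - 2 * u * v = u ^ 2 * (2 * (1 - v / u)) := by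
        field_simp
      rw [this]
      exact mul_le_mul_of_nonneg_left (by linarith) (by positivity)
    refine le_trans ?_ e4
    have hun : u ^ 2 ≤ n := by rw [← hux]; linarith
    have hvn : v ^ 2 ≤ n := by rw [← hvy]; exact hyn
    have huv : (u + v) ^ 2 ≤ 4 * n := by nlinarith [sq_nonneg (u - v)]
    have e5 : (x - y) ^ 2 / (4 * n) ≤ (u - v) ^ 2 := by
      rw [div_le_iff₀ (by positivity), hux, hvy]
      have : (u ^ 2 - v ^ 2) ^ 2 = (u - v) ^ 2 * (u + v) ^ 2 := by ring
      rw [this]
      exact mul_le_mul_of_nonneg_left huv (sq_nonneg _)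
    have e6 : x - y = u ^ 2 - v ^ 2 := by rw [hux, hvy]
    nlinarith

/-- The numerical core: mutual information of two bits is at least the squared covariance. -/
theorem four_cells (a b c d : ℝ) (ha : 0 ≤ a) (hb : 0 ≤ b) (hc : 0 ≤ c) (hd : 0 ≤ d)
    (hn : 0 < a + b + c + d) :
    (a + b + c + d) * ((a * d - b * c) / (a + b + c + d) ^ 2) ^ 2
      ≤ a * Real.log ((a + b + c + d) * a / ((a + b) * (a + c)))
        + b * Real.log ((a + b + c + d) * b / ((a + b) * (b + d)))
        + c * Real.log ((a + b + c + d) * c / ((c + d) * (a + c)))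
        + d * Real.log ((a + b + c + d) * d / ((c + d) * (b + d))) := by
  have h1 := cell_bound a (a + b + c + d) (a + b) (a + c) ha hn (by linarith) (by linarith)
    (by linarith) (by linarith)
  have h2 := cell_bound b (a + b + c + d) (a + b) (b + d) hb hn (by linarith) (by linarith)
    (by linarith) (by linarith)
  have h3 := cell_bound c (a + b + c + d) (c + d) (a + c) hc hn (by linarith) (by linarith)
    (by linarith) (by linarith)
  have h4 := cell_bound d (a + b + c + d) (c + d) (b + d) hd hn (by linarith) (by linarith)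
    (by linarith) (by linarith)
  set n := a + b + c + d with hndef
  have e1 : a - (a + b) * (a + c) / n = (a * d - b * c) / n := by
    field_simp; rw [hndef]; ring
  have e2 : b - (a + b) * (b + d) / n = -((a * d - b * c) / n) := by
    field_simp; rw [hndef]; ring
  have e3 : c - (c + d) * (a + c) / n = -((a * d - b * c) / n) := by
    field_simp; rw [hndef]; ring
  have e4 : d - (c + d) * (b + d) / n = (a * d - b * c) / n := by
    field_simp; rw [hndef]; ring
  rw [e1] at h1
  rw [e2] at h2
  rw [e3] at h3
  rw [e4] at h4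
  have e5 : n * ((a * d - b * c) / n ^ 2) ^ 2 = 4 * (((a * d - b * c) / n) ^ 2 / (4 * n)) := by
    field_simp
  rw [e5]
  rw [neg_sq] at h2 h3
  linarith

theorem mem_cls {Ω α : Type*} [Fintype Ω] (X : Ω → α) (w w' : Ω) :
    w' ∈ cls X w ↔ X w' = X w := by
  classical
  unfold cls
  simp

/-- Conditional mutual information of two bits dominates the mean squared covariance. -/
theorem MI_bits {Ω γ : Type*} [Fintype Ω] (C : Ω → γ) (U V : Ω → Bool) :
    ∑ w, (cv (cls C w) U V) ^ 2
      ≤ LL C + LL (fun w => (C w, U w, V w)) - LL (fun w => (C w, U w))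
        - LL (fun w => (C w, V w)) := by
  classical
  unfold LL
  rw [← Finset.sum_add_distrib, ← Finset.sum_sub_distrib, ← Finset.sum_sub_distrib]
  rw [← Finset.sum_fiberwise_of_maps_to (s := univ) (t := univ.image C) (g := C)
    (fun i _ => Finset.mem_image_of_mem _ (Finset.mem_univ i)) (fun w => (cv (cls C w) U V) ^ 2)]
  rw [← Finset.sum_fiberwise_of_maps_to (s := univ) (t := univ.image C) (g := C)
    (fun i _ => Finset.mem_image_of_mem _ (Finset.mem_univ i)) (fun w =>
      Real.log ((cls C w).card : ℝ) + Real.log ((cls (fun w => (C w, U w, V w)) w).card : ℝ) -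
        Real.log ((cls (fun w => (C w, U w)) w).card : ℝ) -
        Real.log ((cls (fun w => (C w, V w)) w).card : ℝ))]
  refine Finset.sum_le_sum (fun v hv => ?_)
  obtain ⟨w0, _, hw0⟩ := Finset.mem_image.1 hv
  set Q : Finset Ω := univ.filter (fun w => C w = v) with hQ
  have hmemQ : ∀ w, w ∈ Q ↔ C w = v := by intro w; simp [hQ]
  have hcls : ∀ w ∈ Q, cls C w = Q := by
    intro w hw
    ext w'
    rw [mem_cls, hmemQ, (hmemQ w).1 hw]
  have hw0Q : w0 ∈ Q := (hmemQ w0).2 hw0
  have hQpos : 0 < Q.card := Finset.card_pos.2 ⟨w0, hw0Q⟩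
  -- cells
  let k : Bool → Bool → ℕ := fun p q => (Q.filter (fun w => U w = p ∧ V w = q)).card
  have hkU : ∀ p, (Q.filter (fun w => U w = p)).card = k p true + k p false := by
    intro p
    have h := Finset.card_filter_add_card_filter_not (s := Q.filter (fun w => U w = p))
      (fun w => V w = true)
    have e1 : ((Q.filter (fun w => U w = p)).filter (fun w => V w = true)).card = k p true := by
      show _ = (Q.filter (fun w => U w = p ∧ V w = true)).card
      congr 1
      ext w
      simp only [Finset.mem_filter]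
      tauto
    have e2 : ((Q.filter (fun w => U w = p)).filter (fun w => ¬ V w = true)).card =
        k p false := by
      show _ = (Q.filter (fun w => U w = p ∧ V w = false)).card
      congr 1
      ext w
      simp only [Finset.mem_filter, Bool.not_eq_true]
      tauto
    omega
  have hkV : ∀ q, (Q.filter (fun w => V w = q)).card = k true q + k false q := by
    intro q
    have h := Finset.card_filter_add_card_filter_not (s := Q.filter (fun w => V w = q))
      (fun w => U w = true)
    have e1 : ((Q.filter (fun w => V w = q)).filter (fun w => U w = true)).card = k true q := by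
      show _ = (Q.filter (fun w => U w = true ∧ V w = q)).card
      congr 1
      ext w
      simp only [Finset.mem_filter]
      tauto
    have e2 : ((Q.filter (fun w => V w = q)).filter (fun w => ¬ U w = true)).card =
        k false q := by
      show _ = (Q.filter (fun w => U w = false ∧ V w = q)).card
      congr 1
      ext w
      simp only [Finset.mem_filter, Bool.not_eq_true]
      tauto
    omega
  have hkQ : Q.card = k true true + k true false + k false true + k false false := by
    have h := Finset.card_filter_add_card_filter_not (s := Q) (fun w => U w = true)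
    have h2 : (Q.filter (fun w => ¬ U w = true)) = Q.filter (fun w => U w = false) := by
      apply Finset.filter_congr; intro w _; simp
    rw [h2, hkU, hkU] at h
    omega
  let F : Bool × Bool → ℝ := fun pq =>
    Real.log (Q.card : ℝ) + Real.log (k pq.1 pq.2 : ℝ) -
      Real.log ((k pq.1 true + k pq.1 false : ℕ) : ℝ) -
      Real.log ((k true pq.2 + k false pq.2 : ℕ) : ℝ)
  have hF : ∀ w ∈ Q, Real.log ((cls C w).card : ℝ) +
      Real.log ((cls (fun w => (C w, U w, V w)) w).card : ℝ) -
        Real.log ((cls (fun w => (C w, U w)) w).card : ℝ) -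
        Real.log ((cls (fun w => (C w, V w)) w).card : ℝ) = F (U w, V w) := by
    intro w hw
    have hCw := (hmemQ w).1 hw
    have c1 : cls (fun w => (C w, U w, V w)) w = Q.filter (fun w' => U w' = U w ∧ V w' = V w) := by
      ext w'
      rw [mem_cls, Finset.mem_filter, hmemQ]
      simp only [Prod.mk.injEq, hCw]
    have c2 : cls (fun w => (C w, U w)) w = Q.filter (fun w' => U w' = U w) := by
      ext w'
      rw [mem_cls, Finset.mem_filter, hmemQ]
      simp only [Prod.mk.injEq, hCw]
    have c3 : cls (fun w => (C w, V w)) w = Q.filter (fun w' => V w' = V w) := by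
      ext w'
      rw [mem_cls, Finset.mem_filter, hmemQ]
      simp only [Prod.mk.injEq, hCw]
    rw [hcls w hw, c1, c2, c3, hkU, hkV]
  rw [Finset.sum_congr rfl hF, Finset.sum_congr rfl (fun w hw => by rw [hcls w hw] :
    ∀ w ∈ Q, (cv (cls C w) U V) ^ 2 = (cv Q U V) ^ 2), Finset.sum_const, nsmul_eq_mul]
  rw [← Finset.sum_fiberwise Q (fun w => (U w, V w)) (fun w => F (U w, V w))]
  have hinner : ∀ j : Bool × Bool, (∑ i ∈ Q with (U i, V i) = j, F (U i, V i)) =
      (k j.1 j.2 : ℝ) * F j := by
    intro j
    have h1 : (∑ i ∈ Q with (U i, V i) = j, F (U i, V i)) =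
        ∑ i ∈ Q with (U i, V i) = j, F j := by
      refine Finset.sum_congr rfl (fun i hi => ?_)
      rw [(Finset.mem_filter.1 hi).2]
    rw [h1, Finset.sum_const, nsmul_eq_mul]
    congr 2
    simp only [k]
    congr 1
    ext w
    simp only [Finset.mem_filter, Prod.ext_iff]
  simp_rw [hinner]
  rw [Fintype.sum_prod_type]
  simp only [Fintype.sum_bool]
  set a : ℝ := (k true true : ℝ) with ha
  set b : ℝ := (k true false : ℝ) with hb
  set c : ℝ := (k false true : ℝ) with hc
  set d : ℝ := (k false false : ℝ) with hd
  have hnR : (Q.card : ℝ) = a + b + c + d := by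
    rw [hkQ]; push_cast; ring
  have hnpos : 0 < a + b + c + d := by
    rw [← hnR]; exact_mod_cast hQpos
  have ha0 : 0 ≤ a := Nat.cast_nonneg _
  have hb0 : 0 ≤ b := Nat.cast_nonneg _
  have hc0 : 0 ≤ c := Nat.cast_nonneg _
  have hd0 : 0 ≤ d := Nat.cast_nonneg _
  have hcv : cv Q U V = (a * d - b * c) / (a + b + c + d) ^ 2 := by
    unfold cv
    rw [hkU, hkV, hnR]
    have : ((Q.filter (fun w => U w = true ∧ V w = true)).card : ℝ) = a := rfl
    rw [this]
    push_cast
    rw [← ha, ← hb, ← hc]
    field_simp
    ring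
  have hlog : ∀ x r s : ℝ, 0 ≤ x → x ≤ r → x ≤ s →
      x * (Real.log (a + b + c + d) + Real.log x - Real.log r - Real.log s) =
        x * Real.log ((a + b + c + d) * x / (r * s)) := by
    intro x r s hx hr hs
    rcases hx.eq_or_lt with h0 | h0
    · rw [← h0]; simp
    · rw [Real.log_div (by positivity) (by
        have : 0 < r := lt_of_lt_of_le h0 hr
        have : 0 < s := lt_of_lt_of_le h0 hs
        positivity), Real.log_mul (by positivity) (by positivity),
        Real.log_mul (lt_of_lt_of_le h0 hr).ne' (lt_of_lt_of_le h0 hs).ne']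
      ring
  have hmain := four_cells a b c d ha0 hb0 hc0 hd0 hnpos
  rw [hcv, hnR]
  refine hmain.trans (le_of_eq ?_)
  rw [← hlog a (a + b) (a + c) ha0 (by linarith) (by linarith),
    ← hlog b (a + b) (b + d) hb0 (by linarith) (by linarith),
    ← hlog c (c + d) (a + c) hc0 (by linarith) (by linarith),
    ← hlog d (c + d) (b + d) hd0 (by linarith) (by linarith)]
  simp only [F]
  push_cast
  rw [← ha, ← hb, ← hc, ← hd, hnR]
  ring

end Pool.Agent.Helper291.Bent.J3
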