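import Mathlib
import Pool.Agent.Helper291.BentDefs

set_option autoImplicit false

namespace Pool.Agent.Helper291.Bent.J1

open Finset

theorem odlyzko_aux {ι : Type*} [Fintype ι] (q : ℚ) (n : ℕ) : ∀ (W : Submodule ℚ (ι → ℚ))
    (X : Finset (ι → ℚ)), Module.finrank ℚ W = n →
    (∀ x ∈ X, ∀ k, x k = q ∨ x k = -q) →
    (∀ x ∈ X, ∀ y ∈ X, x - y ∈ W) → X.card ≤ 2 ^ n := by
  classical
  induction n using Nat.strong_induction_on with
  | _ n ih =>
    intro W X hn hX hW
    by_cases h1 : X.card ≤ 1
    · exact h1.trans Nat.one_le_two_pow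
    · push Not at h1
      obtain ⟨x, hx, y, hy, hxy⟩ := Finset.one_lt_card.1 h1
      obtain ⟨k, hk⟩ := Function.ne_iff.1 hxy
      set W' : Submodule ℚ (ι → ℚ) := W ⊓ LinearMap.ker (LinearMap.proj (R := ℚ) (φ := fun _ : ι => ℚ) k) with hW'
      have hlt : W' < W := by
        refine lt_of_le_of_ne inf_le_left ?_
        intro heq
        have h2 : x - y ∈ W' := by rw [heq]; exact hW x hx y hy
        have h3 : (x - y) k = 0 := h2.2
        rw [Pi.sub_apply, sub_eq_zero] at h3
        exact hk h3
      have hfr : Module.finrank ℚ W' < n := hn ▸ Submodule.finrank_lt_finrank_of_lt hlt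
      have key : ∀ c : ℚ, (X.filter fun z => z k = c).card ≤ 2 ^ (Module.finrank ℚ W') := by
        intro c
        refine ih _ hfr W' _ rfl ?_ ?_
        · intro z hz
          exact hX z (Finset.mem_filter.1 hz).1
        · intro z hz z' hz'
          rw [Finset.mem_filter] at hz hz'
          refine ⟨hW z hz.1 z' hz'.1, ?_⟩
          change (z - z') k = 0
          rw [Pi.sub_apply, hz.2, hz'.2, sub_self]
      have hsub : X ⊆ (X.filter fun z => z k = q) ∪ (X.filter fun z => z k = -q) := by
        intro z hz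
        rw [Finset.mem_union, Finset.mem_filter, Finset.mem_filter]
        rcases hX z hz k with h | h
        · exact Or.inl ⟨hz, h⟩
        · exact Or.inr ⟨hz, h⟩
      calc X.card ≤ _ := Finset.card_le_card hsub
        _ ≤ _ := Finset.card_union_le _ _
        _ ≤ 2 ^ (Module.finrank ℚ W') + 2 ^ (Module.finrank ℚ W') := Nat.add_le_add (key _) (key _)
        _ = 2 ^ (Module.finrank ℚ W' + 1) := by ring
        _ ≤ 2 ^ n := Nat.pow_le_pow_right (by norm_num) hfr

/-- Odlyzko-type bound: two-valued vectors whose differences lie in a subspace. -/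
theorem odlyzko {ι : Type*} [Fintype ι] (q : ℚ) (hq : q ≠ 0) (W : Submodule ℚ (ι → ℚ))
    (X : Finset (ι → ℚ))
    (hX : ∀ x ∈ X, ∀ k, x k = q ∨ x k = -q)
    (hW : ∀ x ∈ X, ∀ y ∈ X, x - y ∈ W) : X.card ≤ 2 ^ Module.finrank ℚ W :=
  odlyzko_aux q _ W X rfl hX hW

theorem bf_add (z z' : ℕ → ℤ) (c u k : ℕ) : bf (z + z') c u k = bf z c u k + bf z' c u k := by
  induction c generalizing u k with
  | zero => rfl
  | succ c ih =>
    simp only [bf]
    split_ifs
    · rw [ih, ih]; ring
    · rw [ih, ih]; ring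

theorem bf_smul (a : ℤ) (z : ℕ → ℤ) (c u k : ℕ) : bf (a • z) c u k = a * bf z c u k := by
  induction c generalizing u k with
  | zero => rfl
  | succ c ih =>
    simp only [bf]
    split_ifs
    · rw [ih, ih]; ring
    · rw [ih, ih]; ring

theorem bf_inj (z : ℕ → ℤ) (c : ℕ) : ∀ u, (∀ r < 2 ^ c, bf z c u r = 0) → ∀ b < 2 ^ c,
    z (2 ^ c * u + b) = 0 := by
  induction c with
  | zero =>
    intro u h b hb
    have hb0 : b = 0 := by simpa using hb
    have := h 0 (by norm_num)
    simp only [bf] at this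
    simpa [hb0] using this
  | succ c ih =>
    intro u h b hb
    have h0 : ∀ i < 2 ^ c, bf z c (2 * u) i = 0 ∧ bf z c (2 * u + 1) i = 0 := by
      intro i hi
      have e1 := h (2 * i) (by rw [pow_succ]; omega)
      have e2 := h (2 * i + 1) (by rw [pow_succ]; omega)
      simp only [bf] at e1 e2
      rw [if_pos (by omega), show 2 * i / 2 = i by omega] at e1
      rw [if_neg (by omega), show (2 * i + 1) / 2 = i by omega] at e2
      constructor <;> omega
    by_cases hb' : b < 2 ^ c
    · have := ih (2 * u) (fun r hr => (h0 r hr).1) b hb'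
      rw [← this]
      congr 1
      rw [pow_succ]; ring
    · have := ih (2 * u + 1) (fun r hr => (h0 r hr).2) (b - 2 ^ c) (by rw [pow_succ] at hb; omega)
      rw [← this]
      congr 1
      have hb2 : 2 ^ c ≤ b := not_lt.1 hb'
      obtain ⟨t, rfl⟩ := Nat.exists_eq_add_of_le hb2
      rw [Nat.add_sub_cancel_left, pow_succ]; ring

/-- The number of integer vectors whose full transform takes only the values `q, -q` and which
agree outside `E` is at most `2^|E|`. -/
theorem count_vec (d : ℕ) (q : ℤ) (hq : q ≠ 0) (E : Finset (Fin (2 ^ d)))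
    (V : Finset (Fin (2 ^ d) → ℤ))
    (hV : ∀ v ∈ V, ∀ r < 2 ^ d, bf (ext0 d v) d 0 r = q ∨ bf (ext0 d v) d 0 r = -q)
    (hE : ∀ v ∈ V, ∀ v' ∈ V, ∀ u, u ∉ E → v u = v' u) : V.card ≤ 2 ^ E.card := by
  classical
  -- the transform
  let F : (Fin (2 ^ d) → ℤ) → (Fin (2 ^ d) → ℚ) := fun v r => (bf (ext0 d v) d 0 (r : ℕ) : ℚ)
  have ext_add : ∀ v v', ext0 d (v + v') = ext0 d v + ext0 d v' := by
    intro v v'
    funext u
    simp only [ext0, Pi.add_apply]
    split_ifs <;> simp
  have ext_smul : ∀ (a : ℤ) v, ext0 d (a • v) = a • ext0 d v := by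
    intro a v
    funext u
    simp only [ext0, Pi.smul_apply]
    split_ifs <;> simp
  have F_add : ∀ v v', F (v + v') = F v + F v' := by
    intro v v'
    funext r
    simp only [F, Pi.add_apply]
    rw [ext_add, bf_add]
    push_cast
    ring
  have F_smul : ∀ (a : ℤ) v, F (a • v) = (a : ℚ) • F v := by
    intro a v
    funext r
    simp only [F, Pi.smul_apply, smul_eq_mul]
    rw [ext_smul, bf_smul]
    push_cast
    ring
  have F_zero : F 0 = 0 := by
    have := F_smul 0 0
    simpa using this
  have F_sum : ∀ (s : Finset (Fin (2 ^ d))) (g : Fin (2 ^ d) → (Fin (2 ^ d) → ℤ)),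
      F (∑ u ∈ s, g u) = ∑ u ∈ s, F (g u) := by
    intro s g
    induction s using Finset.induction_on with
    | empty => simpa using F_zero
    | insert a s ha ih => rw [Finset.sum_insert ha, Finset.sum_insert ha, F_add, ih]
  have F_sub : ∀ v v', F (v - v') = F v - F v' := by
    intro v v'
    have h1 : v - v' = v + (-1 : ℤ) • v' := by
      funext u; simp [sub_eq_add_neg]
    rw [h1, F_add, F_smul]
    simp [sub_eq_add_neg]
  have F_inj : Function.Injective F := by
    intro v v' h
    have h1 : F (v - v') = 0 := by rw [F_sub, h, sub_self]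
    have h2 : ∀ r < 2 ^ d, bf (ext0 d (v - v')) d 0 r = 0 := by
      intro r hr
      have := congrFun h1 ⟨r, hr⟩
      simp only [F, Pi.zero_apply] at this
      exact_mod_cast this
    funext u
    have h3 := bf_inj _ d 0 h2 u.1 u.2
    simp only [ext0, Nat.mul_zero, Nat.zero_add, Fin.is_lt, dif_pos, Fin.eta, Pi.sub_apply] at h3
    omega
  let W : Submodule ℚ (Fin (2 ^ d) → ℚ) :=
    Submodule.span ℚ ((E.image fun u => F (Pi.single u 1) : Finset (Fin (2 ^ d) → ℚ)) : Set _)
  have hfr : Module.finrank ℚ W ≤ E.card :=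
    (finrank_span_finset_le_card _).trans Finset.card_image_le
  have hcard : (V.image F).card ≤ 2 ^ Module.finrank ℚ W := by
    refine odlyzko (q : ℚ) (by exact_mod_cast hq) W (V.image F) ?_ ?_
    · intro x hx k
      obtain ⟨v, hv, rfl⟩ := Finset.mem_image.1 hx
      rcases hV v hv k.1 k.2 with h | h
      · left; simp only [F, h]
      · right; simp only [F, h]; push_cast; ring
    · intro x hx y hy
      obtain ⟨v, hv, rfl⟩ := Finset.mem_image.1 hx
      obtain ⟨v', hv', rfl⟩ := Finset.mem_image.1 hy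
      rw [← F_sub]
      have hdec : v - v' = ∑ u ∈ E, (v u - v' u) • (Pi.single u (1 : ℤ) : Fin (2 ^ d) → ℤ) := by
        funext w
        rw [Finset.sum_apply]
        simp only [Pi.smul_apply, Pi.sub_apply, smul_eq_mul, Pi.single_apply, mul_ite, mul_one, mul_zero]
        rw [Finset.sum_ite_eq]
        split_ifs with hw
        · rfl
        · rw [hE v hv v' hv' w hw, sub_self]
      rw [hdec, F_sum]
      refine Submodule.sum_mem _ fun u hu => ?_
      rw [F_smul]
      refine Submodule.smul_mem _ _ (Submodule.subset_span ?_)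
      rw [Finset.mem_coe, Finset.mem_image]
      exact ⟨u, hu, rfl⟩
  rw [Finset.card_image_of_injective _ F_inj] at hcard
  exact hcard.trans (Nat.pow_le_pow_right (by norm_num) hfr)

end Pool.Agent.Helper291.Bent.J1
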