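import Mathlib
import Pool.Agent.Helper291.BentDefs
import Pool.Agent.Helper291.BentVec

set_option autoImplicit false

namespace Pool.Agent.Helper291.Bent

open Finset

theorem bf_congr (z z' : ℕ → ℤ) (c : ℕ) : ∀ u k,
    (∀ b < 2 ^ c, z (2 ^ c * u + b) = z' (2 ^ c * u + b)) → bf z c u k = bf z' c u k := by
  induction c with
  | zero =>
    intro u k h
    have := h 0 (by norm_num)
    simpa [bf] using this
  | succ c ih =>
    intro u k h
    have h1 : bf z c (2 * u) (k / 2) = bf z' c (2 * u) (k / 2) := by
      apply ih
      intro b hb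
      have := h b (by rw [pow_succ]; omega)
      rw [show 2 ^ (c + 1) * u + b = 2 ^ c * (2 * u) + b by ring] at this
      exact this
    have h2 : bf z c (2 * u + 1) (k / 2) = bf z' c (2 * u + 1) (k / 2) := by
      apply ih
      intro b hb
      have := h (2 ^ c + b) (by rw [pow_succ]; omega)
      rw [show 2 ^ (c + 1) * u + (2 ^ c + b) = 2 ^ c * (2 * u + 1) + b by ring] at this
      exact this
    show (if k % 2 = 0 then _ else _) = (if k % 2 = 0 then _ else _)
    rw [h1, h2]

/-- transitivity of the butterfly -/
theorem bf_comp (z : ℕ → ℤ) (c i : ℕ) (d : ℕ) : ∀ u r, r < 2 ^ d →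
    bf z (c + d) u (2 ^ d * i + r) = bf (fun v => bf z c v i) d u r := by
  induction d with
  | zero =>
    intro u r hr
    have : r = 0 := by
      rw [pow_zero] at hr
      omega
    subst this
    simp [bf]
  | succ d ih =>
    intro u r hr
    have hr2 : r / 2 < 2 ^ d := by
      rw [pow_succ] at hr
      omega
    have e1 : (2 ^ (d + 1) * i + r) % 2 = r % 2 := by
      rw [show 2 ^ (d + 1) * i + r = 2 * (2 ^ d * i) + r by ring]
      omega
    have e2 : (2 ^ (d + 1) * i + r) / 2 = 2 ^ d * i + r / 2 := by
      rw [show 2 ^ (d + 1) * i + r = 2 * (2 ^ d * i) + r by ring]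
      omega
    have key : ∀ K : ℕ, bf z (c + (d + 1)) u K =
        if K % 2 = 0 then bf z (c + d) (2 * u) (K / 2) + bf z (c + d) (2 * u + 1) (K / 2)
        else bf z (c + d) (2 * u) (K / 2) - bf z (c + d) (2 * u + 1) (K / 2) := fun _ => rfl
    rw [key, e1, e2, ih (2 * u) (r / 2) hr2, ih (2 * u + 1) (r / 2) hr2]
    rfl

theorem bf_sub (z z' : ℕ → ℤ) (c u k : ℕ) : bf (z - z') c u k = bf z c u k - bf z' c u k := by
  have h1 := J1.bf_add z ((-1 : ℤ) • z') c u k
  have h2 := J1.bf_smul (-1) z' c u k
  have h3 : z + (-1 : ℤ) • z' = z - z' := by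
    rw [neg_smul, one_smul, sub_eq_add_neg]
  rw [h3, h2] at h1
  rw [h1]
  ring

variable {Ω : Type*} [Fintype Ω]

/-- the error pattern -/
def pat (Z : Ω → ℕ → ℤ) (l R : ℕ) (G : ℕ → ℕ → Ω → ℤ) (w : Ω) : Finset (ℕ × ℕ) :=
  ((range R) ×ˢ (range (2 ^ l))).filter (fun p => bf (Z w) l p.1 p.2 ≠ G p.1 p.2 w)

/-- the number of points with a given error pattern `P` is at most `2^|P|` -/
theorem pat_count (Z : Ω → ℕ → ℤ) (n l : ℕ) (hl : l ≤ n) (q : ℤ) (hq : q ≠ 0)
    (hZq : ∀ w, ∀ k < 2 ^ n, bf (Z w) n 0 k = q ∨ bf (Z w) n 0 k = -q)
    (hinj : ∀ w w', (∀ v < 2 ^ n, Z w v = Z w' v) → w = w')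
    (G : ℕ → ℕ → Ω → ℤ)
    (hG : ∀ u k w w', (∀ j < k, bf (Z w) l u j = bf (Z w') l u j) → G u k w = G u k w')
    (P : Finset (ℕ × ℕ)) (hP : P ⊆ (range (2 ^ (n - l))) ×ˢ (range (2 ^ l))) :
    (univ.filter (fun w => pat Z l (2 ^ (n - l)) G w = P)).card ≤ 2 ^ P.card := by
  classical
  set d : ℕ := n - l with hd
  set S : Finset Ω := univ.filter (fun w => pat Z l (2 ^ d) G w = P) with hS
  set GP : (k : ℕ) → Ω → (Fin k → Fin (2 ^ d) → ℤ) := fun k w j u => bf (Z w) l u j with hGP
  set pk : ℕ → Finset (ℕ × ℕ) := fun k => P.filter (fun p => p.2 = k) with hpk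
  have hstep : ∀ k ≤ 2 ^ l, (S.image (GP k)).card ≤ 2 ^ (∑ j ∈ range k, (pk j).card) := by
    intro k
    induction k with
    | zero =>
      intro _
      simp only [range_zero, sum_empty, pow_zero]
      apply Finset.card_le_one.mpr
      intro a _ b _
      exact Subsingleton.elim _ _
    | succ k ih =>
      intro hk
      have ih' := ih (by omega)
      -- restriction map
      set res : (Fin (k + 1) → Fin (2 ^ d) → ℤ) → (Fin k → Fin (2 ^ d) → ℤ) :=
        fun g j => g j.castSucc with hres
      have himg : (S.image (GP (k + 1))).image res = S.image (GP k) := by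
        rw [Finset.image_image]
        congr 1
      have hfib : ∀ γ ∈ (S.image (GP (k + 1))).image res,
          ((S.image (GP (k + 1))).filter (fun g => res g = γ)).card ≤ 2 ^ (pk k).card := by
        intro γ _
        set E : Finset (Fin (2 ^ d)) := univ.filter (fun u => ((u : ℕ), k) ∈ P) with hE
        set V : Finset (Fin (2 ^ d) → ℤ) :=
          ((S.image (GP (k + 1))).filter (fun g => res g = γ)).image (fun g => g (Fin.last k))
          with hV
        have hVcard : ((S.image (GP (k + 1))).filter (fun g => res g = γ)).card = V.card := by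
          rw [hV, Finset.card_image_of_injOn]
          intro g hg g' hg' hgg
          rw [Finset.mem_coe, Finset.mem_filter] at hg hg'
          funext j
          refine Fin.lastCases ?_ ?_ j
          · exact hgg
          · intro i
            have h1 := congrFun hg.2 i
            have h2 := congrFun hg'.2 i
            simp only [hres] at h1 h2
            rw [h1, h2]
        have hEcard : E.card ≤ (pk k).card := by
          apply Finset.card_le_card_of_injOn (fun u : Fin (2 ^ d) => ((u : ℕ), k))
          · intro u hu
            rw [Finset.mem_coe, hE, Finset.mem_filter] at hu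
            rw [Finset.mem_coe]
            simp only [hpk]
            rw [Finset.mem_filter]
            exact ⟨hu.2, rfl⟩
          · intro u _ u' _ huu
            simp only [Prod.mk.injEq, and_true] at huu
            exact Fin.ext huu
        have hmem : ∀ v ∈ V, ∃ w ∈ S, GP (k + 1) w ∈ (S.image (GP (k + 1))).filter
            (fun g => res g = γ) ∧ v = fun u : Fin (2 ^ d) => bf (Z w) l u k := by
          intro v hv
          rw [hV, Finset.mem_image] at hv
          obtain ⟨g, hg, hgv⟩ := hv
          have hg' := hg
          rw [Finset.mem_filter, Finset.mem_image] at hg'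
          obtain ⟨⟨w, hwS, hwg⟩, _⟩ := hg'
          refine ⟨w, hwS, by rw [hwg]; exact hg, ?_⟩
          rw [← hgv, ← hwg]
          funext u
          simp only [hGP, Fin.val_last]
        have hVb : V.card ≤ 2 ^ E.card := by
          apply J1.count_vec d q hq E V
          · intro v hv r hr
            obtain ⟨w, _, _, hvw⟩ := hmem v hv
            have e1 : bf (ext0 d v) d 0 r = bf (fun u => bf (Z w) l u k) d 0 r := by
              apply bf_congr
              intro b hb
              simp only [mul_zero, zero_add]
              unfold ext0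
              rw [dif_pos hb, hvw]
            have e2 := bf_comp (Z w) l k d 0 r hr
            rw [e1, ← e2]
            have hld : l + d = n := by omega
            rw [hld]
            apply hZq
            have h1 : 2 ^ d * k + r < 2 ^ d * (k + 1) := by
              rw [mul_add, mul_one]; omega
            have h2 : 2 ^ d * (k + 1) ≤ 2 ^ d * 2 ^ l := Nat.mul_le_mul_left _ hk
            have h3 : (2 : ℕ) ^ d * 2 ^ l = 2 ^ n := by
              rw [← pow_add]
              congr 1
              omega
            omega
          · intro v hv v' hv' u hu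
            obtain ⟨w, hwS, hwf, hvw⟩ := hmem v hv
            obtain ⟨w', hwS', hwf', hvw'⟩ := hmem v' hv'
            rw [Finset.mem_filter] at hwf hwf'
            have hpast : ∀ j < k, bf (Z w) l u j = bf (Z w') l u j := by
              intro j hj
              have h1 := congrFun (congrFun hwf.2 ⟨j, hj⟩) u
              have h2 := congrFun (congrFun hwf'.2 ⟨j, hj⟩) u
              simp only [hres, hGP, Fin.val_castSucc] at h1 h2
              rw [h1, h2]
            have hgu := hG u k w w' hpast
            have hnotP : ((u : ℕ), k) ∉ P := by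
              intro hcon
              apply hu
              rw [hE, Finset.mem_filter]
              exact ⟨Finset.mem_univ _, hcon⟩
            have hval : ∀ x ∈ S, bf (Z x) l u k = G u k x := by
              intro x hx
              rw [hS, Finset.mem_filter] at hx
              by_contra hcon
              apply hnotP
              rw [← hx.2]
              unfold pat
              rw [Finset.mem_filter, Finset.mem_product, Finset.mem_range, Finset.mem_range]
              exact ⟨⟨u.2, by simpa using (by omega : k < 2 ^ l)⟩, hcon⟩
            rw [hvw, hvw']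
            simp only
            rw [hval w hwS, hval w' hwS', hgu]
        rw [hVcard]
        exact le_trans hVb (Nat.pow_le_pow_right (by norm_num) hEcard)
      have hmul := Finset.card_le_mul_card_image (f := res) (S.image (GP (k + 1)))
        (2 ^ (pk k).card) hfib
      rw [himg] at hmul
      calc (S.image (GP (k + 1))).card ≤ 2 ^ (pk k).card * (S.image (GP k)).card := hmul
        _ ≤ 2 ^ (pk k).card * 2 ^ (∑ j ∈ range k, (pk j).card) := Nat.mul_le_mul_left _ ih'
        _ = 2 ^ (∑ j ∈ range (k + 1), (pk j).card) := by
            rw [← pow_add, Finset.sum_range_succ]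
            congr 1
            ring
  -- the last map is injective
  have hlast : (S.image (GP (2 ^ l))).card = S.card := by
    apply Finset.card_image_of_injOn
    intro w _ w' _ hww
    apply hinj
    intro v hv
    have hblock : ∀ u < 2 ^ d, ∀ b < 2 ^ l, Z w (2 ^ l * u + b) = Z w' (2 ^ l * u + b) := by
      intro u hu b hb
      have h0 : ∀ r < 2 ^ l, bf (Z w - Z w') l u r = 0 := by
        intro r hr
        rw [bf_sub]
        have := congrFun (congrFun hww ⟨r, hr⟩) ⟨u, hu⟩
        simp only [hGP] at this
        rw [this, sub_self]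
      have h1 := J1.bf_inj (Z w - Z w') l u h0 b hb
      rw [Pi.sub_apply, sub_eq_zero] at h1
      exact h1
    have h2 := hblock (v / 2 ^ l) (by
      rw [Nat.div_lt_iff_lt_mul (by positivity)]
      rw [← pow_add]
      have : d + l = n := by omega
      rw [this]
      exact hv) (v % 2 ^ l) (Nat.mod_lt _ (by positivity))
    rw [Nat.div_add_mod] at h2
    exact h2
  have hfin := hstep (2 ^ l) le_rfl
  rw [hlast] at hfin
  refine le_trans hfin (Nat.pow_le_pow_right (by norm_num) ?_)
  -- sum of the fibres of P
  have : P.card = ∑ j ∈ range (2 ^ l), (pk j).card := by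
    apply Finset.card_eq_sum_card_fiberwise
    intro p hp
    have := hP hp
    rw [Finset.mem_product] at this
    exact this.2
  omega

end Pool.Agent.Helper291.Bent
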