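import Mathlib
import Pool.Agent.Helper291.BentDefs

set_option autoImplicit false

namespace Pool.Agent.Helper291.Bent.J2

open Finset


theorem mem_cls {Ω α : Type*} [Fintype Ω] (X : Ω → α) (w w' : Ω) :
    w' ∈ cls X w ↔ X w' = X w := by
  simp [cls]

theorem cls_pos {Ω α : Type*} [Fintype Ω] (X : Ω → α) (w : Ω) :
    (0 : ℝ) < ((cls X w).card : ℝ) := by
  have : 0 < (cls X w).card := Finset.card_pos.2 ⟨w, (mem_cls X w w).2 rfl⟩
  exact_mod_cast this

theorem cls_congr {Ω α : Type*} [Fintype Ω] (X : Ω → α) (w w' : Ω) (h : X w' = X w) :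
    cls X w' = cls X w := by
  ext v
  rw [mem_cls, mem_cls, h]

theorem key_sum {Ω α β γ : Type*} [Fintype Ω] (A : Ω → α) (X : Ω → β) (Y : Ω → γ) :
    ∑ w, ((cls (fun w => (A w, X w)) w).card : ℝ) * ((cls (fun w => (A w, Y w)) w).card : ℝ) /
      (((cls A w).card : ℝ) * ((cls (fun w => (A w, X w, Y w)) w).card : ℝ)) ≤
      (Fintype.card Ω : ℝ) := by
  classical
  have hterm : ∀ w, ((cls (fun w => (A w, X w)) w).card : ℝ) *
      ((cls (fun w => (A w, Y w)) w).card : ℝ) /
      (((cls A w).card : ℝ) * ((cls (fun w => (A w, X w, Y w)) w).card : ℝ)) =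
      ∑ w', ∑ w'', (if w' ∈ cls (fun w => (A w, X w)) w then (1 : ℝ) else 0) *
        ((if w'' ∈ cls (fun w => (A w, Y w)) w then (1 : ℝ) else 0) *
        (1 / (((cls A w).card : ℝ) * ((cls (fun w => (A w, X w, Y w)) w).card : ℝ)))) := by
    intro w
    have e1 : ((cls (fun w => (A w, X w)) w).card : ℝ) =
        ∑ w', (if w' ∈ cls (fun w => (A w, X w)) w then (1 : ℝ) else 0) := by
      rw [Finset.sum_ite_mem, Finset.univ_inter, Finset.sum_const, nsmul_eq_mul, mul_one]
    have e2 : ((cls (fun w => (A w, Y w)) w).card : ℝ) =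
        ∑ w', (if w' ∈ cls (fun w => (A w, Y w)) w then (1 : ℝ) else 0) := by
      rw [Finset.sum_ite_mem, Finset.univ_inter, Finset.sum_const, nsmul_eq_mul, mul_one]
    conv_lhs => rw [e1, e2]
    rw [mul_div_assoc, Finset.sum_mul]
    apply Finset.sum_congr rfl
    intro w' _
    rw [← Finset.mul_sum, ← Finset.sum_mul]
    congr 1
    rw [mul_one_div]
  simp only [hterm]
  rw [Finset.sum_comm]
  have hswap : ∀ w', ∑ w, ∑ w'', (if w' ∈ cls (fun w => (A w, X w)) w then (1 : ℝ) else 0) *
        ((if w'' ∈ cls (fun w => (A w, Y w)) w then (1 : ℝ) else 0) *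
        (1 / (((cls A w).card : ℝ) * ((cls (fun w => (A w, X w, Y w)) w).card : ℝ)))) ≤ 1 := by
    intro w'
    rw [Finset.sum_comm]
    have hin : ∀ w'', ∑ w, (if w' ∈ cls (fun w => (A w, X w)) w then (1 : ℝ) else 0) *
        ((if w'' ∈ cls (fun w => (A w, Y w)) w then (1 : ℝ) else 0) *
        (1 / (((cls A w).card : ℝ) * ((cls (fun w => (A w, X w, Y w)) w).card : ℝ)))) ≤
        if w'' ∈ cls A w' then 1 / ((cls A w').card : ℝ) else 0 := by
      intro w''
      by_cases hA : A w'' = A w'
      · rw [if_pos ((mem_cls A w' w'').2 hA)]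
        let S : Finset Ω := univ.filter (fun w => A w = A w' ∧ X w = X w' ∧ Y w = Y w'')
        have ht : ∀ w, (if w' ∈ cls (fun w => (A w, X w)) w then (1 : ℝ) else 0) *
            ((if w'' ∈ cls (fun w => (A w, Y w)) w then (1 : ℝ) else 0) *
            (1 / (((cls A w).card : ℝ) * ((cls (fun w => (A w, X w, Y w)) w).card : ℝ)))) =
            if w ∈ S then 1 / (((cls A w').card : ℝ) * (S.card : ℝ)) else 0 := by
          intro w
          by_cases hS : w ∈ S
          · rw [if_pos hS]
            have hS' := (Finset.mem_filter.1 hS).2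
            rw [if_pos ((mem_cls _ w w').2 (by
              show (A w', X w') = (A w, X w)
              rw [hS'.1, hS'.2.1])), if_pos ((mem_cls _ w w'').2 (by
              show (A w'', Y w'') = (A w, Y w)
              rw [hS'.1, hS'.2.2, hA])), one_mul, one_mul, cls_congr A w' w hS'.1]
            have : cls (fun w => (A w, X w, Y w)) w = S := by
              ext v
              rw [mem_cls, Finset.mem_filter]
              simp only [Prod.mk.injEq, Finset.mem_univ, true_and]
              rw [hS'.1, hS'.2.1, hS'.2.2]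
            rw [this]
          · rw [if_neg hS]
            by_cases h1 : w' ∈ cls (fun w => (A w, X w)) w
            · by_cases h2 : w'' ∈ cls (fun w => (A w, Y w)) w
              · exfalso
                apply hS
                rw [mem_cls] at h1 h2
                simp only [Prod.mk.injEq] at h1 h2
                rw [Finset.mem_filter]
                exact ⟨Finset.mem_univ _, h1.1.symm, h1.2.symm, h2.2.symm⟩
              · rw [if_neg h2, zero_mul, mul_zero]
            · rw [if_neg h1, zero_mul]
        simp only [ht]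
        rw [Finset.sum_ite_mem, Finset.univ_inter, Finset.sum_const, nsmul_eq_mul]
        have hc := cls_pos A w'
        rcases Nat.eq_zero_or_pos S.card with h0 | h0
        · rw [h0, Nat.cast_zero, zero_mul]
          positivity
        · have hSp : (0 : ℝ) < (S.card : ℝ) := by exact_mod_cast h0
          apply le_of_eq
          field_simp
      · rw [if_neg (fun h => hA ((mem_cls A w' w'').1 h))]
        apply le_of_eq
        apply Finset.sum_eq_zero
        intro w _
        by_cases h1 : w' ∈ cls (fun w => (A w, X w)) w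
        · by_cases h2 : w'' ∈ cls (fun w => (A w, Y w)) w
          · exfalso
            apply hA
            rw [mem_cls] at h1 h2
            simp only [Prod.mk.injEq] at h1 h2
            rw [h2.1, h1.1]
          · rw [if_neg h2, zero_mul, mul_zero]
        · rw [if_neg h1, zero_mul]
    refine (Finset.sum_le_sum (fun w'' _ => hin w'')).trans ?_
    rw [Finset.sum_ite_mem, Finset.univ_inter, Finset.sum_const, nsmul_eq_mul]
    have hc := cls_pos A w'
    apply le_of_eq
    field_simp
  refine (Finset.sum_le_sum (fun w' _ => hswap w')).trans ?_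
  rw [Finset.sum_const, nsmul_eq_mul, mul_one, Finset.card_univ]

/-- Submodularity (conditional entropies decrease under conditioning). -/
theorem LL_submod {Ω α β γ : Type*} [Fintype Ω] (A : Ω → α) (X : Ω → β) (Y : Ω → γ) :
    LL (fun w => (A w, X w)) + LL (fun w => (A w, Y w))
      ≤ LL A + LL (fun w => (A w, X w, Y w)) := by
  unfold LL
  rw [← Finset.sum_add_distrib, ← Finset.sum_add_distrib, ← sub_nonpos, ← Finset.sum_sub_distrib]
  have hk := key_sum A X Y
  have hpt : ∀ w, Real.log ((cls (fun w => (A w, X w)) w).card : ℝ) +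
      Real.log ((cls (fun w => (A w, Y w)) w).card : ℝ) -
      (Real.log ((cls A w).card : ℝ) +
        Real.log ((cls (fun w => (A w, X w, Y w)) w).card : ℝ)) ≤
      ((cls (fun w => (A w, X w)) w).card : ℝ) * ((cls (fun w => (A w, Y w)) w).card : ℝ) /
      (((cls A w).card : ℝ) * ((cls (fun w => (A w, X w, Y w)) w).card : ℝ)) - 1 := by
    intro w
    have p1 := cls_pos (fun w => (A w, X w)) w
    have p2 := cls_pos (fun w => (A w, Y w)) w
    have p0 := cls_pos A w
    have p3 := cls_pos (fun w => (A w, X w, Y w)) w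
    rw [← Real.log_mul p1.ne' p2.ne', ← Real.log_mul p0.ne' p3.ne',
      ← Real.log_div (mul_pos p1 p2).ne' (mul_pos p0 p3).ne']
    exact Real.log_le_sub_one_of_pos (div_pos (mul_pos p1 p2) (mul_pos p0 p3))
  refine (Finset.sum_le_sum (fun w _ => hpt w)).trans ?_
  rw [Finset.sum_sub_distrib, Finset.sum_const, nsmul_eq_mul, mul_one, Finset.card_univ]
  linarith

end Pool.Agent.Helper291.Bent.J2
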