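import Mathlib
import Pool.Agent.Helper291.BentDefs
import Pool.Agent.Helper291.BentSub
import Pool.Agent.Helper291.BentBits
import Pool.Agent.Helper291.BentAtom

set_option autoImplicit false

namespace Pool.Agent.Helper291.Bent

open Finset

variable {Ω : Type*} [Fintype Ω]

theorem mem_cls {α : Type*} (X : Ω → α) (w w' : Ω) : w' ∈ cls X w ↔ X w' = X w := by
  classical
  unfold cls
  simp

theorem self_mem_cls {α : Type*} (X : Ω → α) (w : Ω) : w ∈ cls X w := by
  rw [mem_cls]

theorem cls_card_pos {α : Type*} (X : Ω → α) (w : Ω) : 0 < (cls X w).card :=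
  Finset.card_pos.mpr ⟨w, self_mem_cls X w⟩

theorem cls_congr {α β : Type*} (X : Ω → α) (Y : Ω → β)
    (h : ∀ w w', X w = X w' ↔ Y w = Y w') (w : Ω) : cls X w = cls Y w := by
  ext w'
  rw [mem_cls, mem_cls]
  exact h w' w

theorem LL_congr {α β : Type*} (X : Ω → α) (Y : Ω → β)
    (h : ∀ w w', X w = X w' ↔ Y w = Y w') : LL X = LL Y := by
  unfold LL
  refine Finset.sum_congr rfl ?_
  intro w _
  rw [cls_congr X Y h w]

theorem LL_mono {α β : Type*} (X : Ω → α) (Y : Ω → β)
    (h : ∀ w w', Y w = Y w' → X w = X w') : LL Y ≤ LL X := by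
  unfold LL
  refine Finset.sum_le_sum ?_
  intro w _
  have h1 : (cls Y w).card ≤ (cls X w).card := by
    refine Finset.card_le_card ?_
    intro w' hw'
    rw [mem_cls] at hw' ⊢
    exact h _ _ hw'
  have h2 : 0 < (cls Y w).card := cls_card_pos Y w
  have h3 : (0 : ℝ) < ((cls Y w).card : ℝ) := by exact_mod_cast h2
  exact Real.log_le_log h3 (by exact_mod_cast h1)

theorem LL_submod {α β γ : Type*} (A : Ω → α) (X : Ω → β) (Y : Ω → γ) :
    LL (fun w => (A w, X w)) + LL (fun w => (A w, Y w))
      ≤ LL A + LL (fun w => (A w, X w, Y w)) := J2.LL_submod A X Y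

/-- Mutual information of `X` and `Y` given `C` (times the size of the space). -/
noncomputable def MI {α β γ : Type*} (C : Ω → γ) (X : Ω → α) (Y : Ω → β) : ℝ :=
  LL C + LL (fun w => (C w, X w, Y w)) - LL (fun w => (C w, X w)) - LL (fun w => (C w, Y w))

theorem MI_bits {γ : Type*} (C : Ω → γ) (U V : Ω → Bool) :
    ∑ w, (cv (cls C w) U V) ^ 2 ≤ MI C U V := J3.MI_bits C U V

/-- data processing in the first variable -/
theorem MI_proc_left {α α' β γ : Type*} (C : Ω → γ) (X : Ω → α) (U : Ω → α') (Y : Ω → β)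
    (h : ∀ w w', C w = C w' → X w = X w' → U w = U w') : MI C U Y ≤ MI C X Y := by
  unfold MI
  -- submodularity given (C,U): X and Y
  have h1 := LL_submod (fun w => (C w, U w)) X Y
  have e1 : LL (fun w => ((C w, U w), X w)) = LL (fun w => (C w, X w)) := by
    apply LL_congr
    intro w w'
    simp only [Prod.mk.injEq]
    constructor
    · rintro ⟨⟨h1, h2⟩, h3⟩
      exact ⟨h1, h3⟩
    · rintro ⟨h1, h3⟩
      exact ⟨⟨h1, h _ _ h1 h3⟩, h3⟩
  have e2 : LL (fun w => ((C w, U w), Y w)) = LL (fun w => (C w, U w, Y w)) := by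
    apply LL_congr
    intro w w'
    simp only [Prod.mk.injEq]
    tauto
  have e3 : LL (fun w => ((C w, U w), X w, Y w)) = LL (fun w => (C w, X w, Y w)) := by
    apply LL_congr
    intro w w'
    simp only [Prod.mk.injEq]
    constructor
    · rintro ⟨⟨h1, h2⟩, h3, h4⟩
      exact ⟨h1, h3, h4⟩
    · rintro ⟨h1, h3, h4⟩
      exact ⟨⟨h1, h _ _ h1 h3⟩, h3, h4⟩
  rw [e1, e2, e3] at h1
  linarith

theorem MI_comm {α β γ : Type*} (C : Ω → γ) (X : Ω → α) (Y : Ω → β) : MI C X Y = MI C Y X := by
  unfold MI
  have e1 : LL (fun w => (C w, X w, Y w)) = LL (fun w => (C w, Y w, X w)) := by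
    apply LL_congr
    intro w w'
    simp only [Prod.mk.injEq]
    tauto
  rw [e1]
  ring

theorem MI_proc {α α' β β' γ : Type*} (C : Ω → γ) (X : Ω → α) (U : Ω → α') (Y : Ω → β)
    (V : Ω → β')
    (h : ∀ w w', C w = C w' → X w = X w' → U w = U w')
    (h' : ∀ w w', C w = C w' → Y w = Y w' → V w = V w') : MI C U V ≤ MI C X Y := by
  calc MI C U V ≤ MI C X V := MI_proc_left C X U V h
    _ = MI C V X := MI_comm _ _ _
    _ ≤ MI C Y X := MI_proc_left C Y V X h'
    _ = MI C X Y := MI_comm _ _ _

theorem MI_nonneg {α β γ : Type*} (C : Ω → γ) (X : Ω → α) (Y : Ω → β) : 0 ≤ MI C X Y := by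
  unfold MI
  have := LL_submod C X Y
  linarith

theorem cls_eq_of_mem {α : Type*} (C : Ω → α) (w w' : Ω) (h : w' ∈ cls C w) :
    cls C w' = cls C w := by
  rw [mem_cls] at h
  ext v
  rw [mem_cls, mem_cls, h]

/-- averaging over classes -/
theorem sum_cls {α : Type*} (C : Ω → α) (f : Ω → ℝ) :
    ∑ w, f w = ∑ w, (∑ w' ∈ cls C w, f w') / (cls C w).card := by
  classical
  have h1 : ∀ w, (∑ w' ∈ cls C w, f w') / ((cls C w).card : ℝ)
      = ∑ w', if C w' = C w then f w' / ((cls C w').card : ℝ) else 0 := by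
    intro w
    rw [Finset.sum_div]
    rw [← Finset.sum_filter]
    refine Finset.sum_congr ?_ ?_
    · ext v
      rw [mem_cls]
      simp
    · intro v hv
      rw [Finset.mem_filter] at hv
      have : v ∈ cls C w := by rw [mem_cls]; exact hv.2
      rw [cls_eq_of_mem C w v this]
  rw [Finset.sum_congr rfl (fun w _ => h1 w)]
  rw [Finset.sum_comm]
  refine Finset.sum_congr rfl ?_
  intro v _
  rw [← Finset.sum_filter]
  rw [Finset.sum_const]
  have h2 : (univ.filter (fun w => C v = C w)) = cls C v := by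
    ext u
    rw [mem_cls]
    simp [eq_comm]
  rw [h2]
  have h3 : (0 : ℝ) < ((cls C v).card : ℝ) := by exact_mod_cast cls_card_pos C v
  rw [nsmul_eq_mul]
  field_simp

theorem cv_congr (Q : Finset Ω) (U U' V V' : Ω → Bool) (hU : ∀ w ∈ Q, U w = U' w)
    (hV : ∀ w ∈ Q, V w = V' w) : cv Q U V = cv Q U' V' := by
  unfold cv
  have h1 : Q.filter (fun w => U w = true ∧ V w = true)
      = Q.filter (fun w => U' w = true ∧ V' w = true) := by
    apply Finset.filter_congr
    intro w hw
    rw [hU w hw, hV w hw]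
  have h2 : Q.filter (fun w => U w = true) = Q.filter (fun w => U' w = true) := by
    apply Finset.filter_congr
    intro w hw
    rw [hU w hw]
  have h3 : Q.filter (fun w => V w = true) = Q.filter (fun w => V' w = true) := by
    apply Finset.filter_congr
    intro w hw
    rw [hV w hw]
  rw [h1, h2, h3]

theorem local_step {γ : Type*} (C : Ω → γ) (X Y : Ω → ℤ) (ε : ℝ)
    (hε : 0 < ε) (hε2 : ε ≤ 1 / 2) :
    ∃ x0 y0 : Ω → ℤ, (∀ w w', C w = C w' → x0 w = x0 w' ∧ y0 w = y0 w') ∧
      ((univ.filter (fun w => X w ≠ x0 w ∨ Y w ≠ y0 w)).card : ℝ)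
        ≤ 2 * ε * Fintype.card Ω
          + (10000 / ε ^ 4) * (MI C X (fun w => X w + Y w) + MI C Y (fun w => X w + Y w)
              + MI C X Y) := by
  classical
  have key : ∀ Q : Finset Ω, ∃ t : (ℤ × ℤ) × (ℤ × ℤ), Q.Nonempty →
      ((((Q.filter (fun w => X w ≠ t.1.1)).card : ℝ) ≤ ε * Q.card ∧
        ((Q.filter (fun w => Y w ≠ t.1.2)).card : ℝ) ≤ ε * Q.card) ∨
      (ε ^ 4 / 10000 ≤
        cv Q (fun w => decide (t.2.1 < X w)) (fun w => decide (t.2.1 + t.2.2 < X w + Y w)) ^ 2
        + cv Q (fun w => decide (t.2.2 < Y w)) (fun w => decide (t.2.1 + t.2.2 < X w + Y w)) ^ 2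
        + cv Q (fun w => decide (t.2.1 < X w)) (fun w => decide (t.2.2 < Y w)) ^ 2)) := by
    intro Q
    by_cases hQ : Q.Nonempty
    · rcases J4.atoms_or_cov Q hQ X Y ε hε hε2 with ⟨x0, y0, h1, h2⟩ | ⟨n, m, h⟩
      · exact ⟨((x0, y0), (0, 0)), fun _ => Or.inl ⟨h1, h2⟩⟩
      · exact ⟨((0, 0), (n, m)), fun _ => Or.inr h⟩
    · exact ⟨((0, 0), (0, 0)), fun h => absurd h hQ⟩
  choose T hT using key
  set x0 : Ω → ℤ := fun w => (T (cls C w)).1.1 with hx0
  set y0 : Ω → ℤ := fun w => (T (cls C w)).1.2 with hy0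
  set n0 : Ω → ℤ := fun w => (T (cls C w)).2.1 with hn0
  set m0 : Ω → ℤ := fun w => (T (cls C w)).2.2 with hm0
  have hcls : ∀ w w', C w = C w' → cls C w = cls C w' := by
    intro w w' h
    ext v
    rw [mem_cls, mem_cls, h]
  refine ⟨x0, y0, ?_, ?_⟩
  · intro w w' h
    have := hcls w w' h
    simp only [hx0, hy0, this, and_self]
  · set U : Ω → Bool := fun w => decide (n0 w < X w) with hU
    set V : Ω → Bool := fun w => decide (m0 w < Y w) with hV
    set W : Ω → Bool := fun w => decide (n0 w + m0 w < X w + Y w) with hW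
    have hnc : ∀ w w', C w = C w' → n0 w = n0 w' ∧ m0 w = m0 w' := by
      intro w w' h
      have := hcls w w' h
      simp only [hn0, hm0, this, and_self]
    have p1 : MI C U W ≤ MI C X (fun w => X w + Y w) := by
      apply MI_proc
      · intro w w' h h'
        simp only [hU, (hnc w w' h).1, h']
      · intro w w' h h'
        simp only [hW, (hnc w w' h).1, (hnc w w' h).2]
        have h'' : X w + Y w = X w' + Y w' := h'
        rw [h'']
    have p2 : MI C V W ≤ MI C Y (fun w => X w + Y w) := by
      apply MI_proc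
      · intro w w' h h'
        simp only [hV, (hnc w w' h).2, h']
      · intro w w' h h'
        simp only [hW, (hnc w w' h).1, (hnc w w' h).2]
        have h'' : X w + Y w = X w' + Y w' := h'
        rw [h'']
    have p3 : MI C U V ≤ MI C X Y := by
      apply MI_proc
      · intro w w' h h'
        simp only [hU, (hnc w w' h).1, h']
      · intro w w' h h'
        simp only [hV, (hnc w w' h).2, h']
    have q1 := MI_bits C U W
    have q2 := MI_bits C V W
    have q3 := MI_bits C U V
    -- goodness of a class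
    set G : Ω → Prop := fun w =>
      (((cls C w).filter (fun v => X v ≠ x0 w)).card : ℝ) ≤ ε * (cls C w).card ∧
        (((cls C w).filter (fun v => Y v ≠ y0 w)).card : ℝ) ≤ ε * (cls C w).card with hG
    have hbad : ∀ w, ¬ G w → ε ^ 4 / 10000 ≤ cv (cls C w) U W ^ 2 + cv (cls C w) V W ^ 2
        + cv (cls C w) U V ^ 2 := by
      intro w hw
      have hne : (cls C w).Nonempty := ⟨w, self_mem_cls C w⟩
      rcases hT (cls C w) hne with h | h
      · exact absurd h hw
      · have e1 : ∀ v ∈ cls C w, n0 v = (T (cls C w)).2.1 := by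
          intro v hv
          simp only [hn0]
          rw [cls_eq_of_mem C w v hv]
        have e2 : ∀ v ∈ cls C w, m0 v = (T (cls C w)).2.2 := by
          intro v hv
          simp only [hm0]
          rw [cls_eq_of_mem C w v hv]
        have c1 : cv (cls C w) U W = cv (cls C w) (fun v => decide ((T (cls C w)).2.1 < X v))
            (fun v => decide ((T (cls C w)).2.1 + (T (cls C w)).2.2 < X v + Y v)) := by
          apply cv_congr
          · intro v hv
            simp only [hU, e1 v hv]
          · intro v hv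
            simp only [hW, e1 v hv, e2 v hv]
        have c2 : cv (cls C w) V W = cv (cls C w) (fun v => decide ((T (cls C w)).2.2 < Y v))
            (fun v => decide ((T (cls C w)).2.1 + (T (cls C w)).2.2 < X v + Y v)) := by
          apply cv_congr
          · intro v hv
            simp only [hV, e2 v hv]
          · intro v hv
            simp only [hW, e1 v hv, e2 v hv]
        have c3 : cv (cls C w) U V = cv (cls C w) (fun v => decide ((T (cls C w)).2.1 < X v))
            (fun v => decide ((T (cls C w)).2.2 < Y v)) := by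
          apply cv_congr
          · intro v hv
            simp only [hU, e1 v hv]
          · intro v hv
            simp only [hV, e2 v hv]
        rw [c1, c2, c3]
        exact h
    -- pointwise bound of the class average of the error indicator
    set f : Ω → ℝ := fun w => if X w ≠ x0 w ∨ Y w ≠ y0 w then 1 else 0 with hf
    have hfsum : ((univ.filter (fun w => X w ≠ x0 w ∨ Y w ≠ y0 w)).card : ℝ) = ∑ w, f w := by
      rw [Finset.card_filter]
      push_cast
      rfl
    have hε4 : 0 < ε ^ 4 := by positivity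
    have hpt : ∀ w, (∑ v ∈ cls C w, f v) / ((cls C w).card : ℝ)
        ≤ 2 * ε + (10000 / ε ^ 4) * (cv (cls C w) U W ^ 2 + cv (cls C w) V W ^ 2
        + cv (cls C w) U V ^ 2) := by
      intro w
      have hc : (0 : ℝ) < ((cls C w).card : ℝ) := by exact_mod_cast cls_card_pos C w
      have hsq : 0 ≤ cv (cls C w) U W ^ 2 + cv (cls C w) V W ^ 2 + cv (cls C w) U V ^ 2 := by
        positivity
      rw [div_le_iff₀ hc]
      by_cases hw : G w
      · obtain ⟨g1, g2⟩ := hw
        have h1 : ∑ v ∈ cls C w, f v ≤ (((cls C w).filter (fun v => X v ≠ x0 w)).card : ℝ)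
            + (((cls C w).filter (fun v => Y v ≠ y0 w)).card : ℝ) := by
          rw [Finset.card_filter, Finset.card_filter]
          push_cast
          rw [← Finset.sum_add_distrib]
          refine Finset.sum_le_sum ?_
          intro v hv
          have e1 : x0 v = x0 w := by simp only [hx0]; rw [cls_eq_of_mem C w v hv]
          have e2 : y0 v = y0 w := by simp only [hy0]; rw [cls_eq_of_mem C w v hv]
          simp only [hf, e1, e2]
          by_cases k1 : X v = x0 w <;> by_cases k2 : Y v = y0 w <;> simp [k1, k2]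
        have h2 : 0 ≤ (10000 / ε ^ 4) * (cv (cls C w) U W ^ 2 + cv (cls C w) V W ^ 2
            + cv (cls C w) U V ^ 2) := by positivity
        nlinarith
      · have h1 := hbad w hw
        have h2 : ∑ v ∈ cls C w, f v ≤ ((cls C w).card : ℝ) := by
          have : ∑ v ∈ cls C w, f v ≤ ∑ v ∈ cls C w, (1 : ℝ) := by
            refine Finset.sum_le_sum ?_
            intro v _
            simp only [hf]
            split_ifs <;> norm_num
          simpa using this
        have h3 : 1 ≤ (10000 / ε ^ 4) * (cv (cls C w) U W ^ 2 + cv (cls C w) V W ^ 2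
            + cv (cls C w) U V ^ 2) := by
          rw [div_mul_eq_mul_div, le_div_iff₀ hε4]
          linarith
        nlinarith
    rw [hfsum, sum_cls C f]
    have hB : 0 ≤ 10000 / ε ^ 4 := by positivity
    calc ∑ w, (∑ v ∈ cls C w, f v) / ((cls C w).card : ℝ)
        ≤ ∑ w, (2 * ε + (10000 / ε ^ 4) * (cv (cls C w) U W ^ 2 + cv (cls C w) V W ^ 2
        + cv (cls C w) U V ^ 2)) := Finset.sum_le_sum (fun w _ => hpt w)
      _ = 2 * ε * Fintype.card Ω + (10000 / ε ^ 4) * (∑ w, cv (cls C w) U W ^ 2
            + ∑ w, cv (cls C w) V W ^ 2 + ∑ w, cv (cls C w) U V ^ 2) := by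
          rw [Finset.sum_add_distrib, Finset.sum_const, ← Finset.mul_sum,
            Finset.sum_add_distrib, Finset.sum_add_distrib]
          simp only [Finset.card_univ, nsmul_eq_mul]
          ring
      _ ≤ _ := by
          have : (∑ w, cv (cls C w) U W ^ 2
            + ∑ w, cv (cls C w) V W ^ 2 + ∑ w, cv (cls C w) U V ^ 2)
            ≤ (MI C X (fun w => X w + Y w) + MI C Y (fun w => X w + Y w) + MI C X Y) := by
            linarith
          nlinarith

/-- The three informations in terms of the joint quantities. -/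
theorem MI_sum {γ : Type*} (C : Ω → γ) (X Y : Ω → ℤ) :
    MI C X (fun w => X w + Y w) + MI C Y (fun w => X w + Y w) + MI C X Y
      = 3 * LL C + 3 * LL (fun w => (C w, X w, Y w)) - 2 * LL (fun w => (C w, X w))
        - 2 * LL (fun w => (C w, Y w)) - 2 * LL (fun w => (C w, X w + Y w)) := by
  unfold MI
  have e1 : LL (fun w => (C w, X w, X w + Y w)) = LL (fun w => (C w, X w, Y w)) := by
    apply LL_congr
    intro w w'
    simp only [Prod.mk.injEq]
    constructor
    · rintro ⟨h1, h2, h3⟩
      exact ⟨h1, h2, by omega⟩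
    · rintro ⟨h1, h2, h3⟩
      exact ⟨h1, h2, by omega⟩
  have e2 : LL (fun w => (C w, Y w, X w + Y w)) = LL (fun w => (C w, X w, Y w)) := by
    apply LL_congr
    intro w w'
    simp only [Prod.mk.injEq]
    constructor
    · rintro ⟨h1, h2, h3⟩
      exact ⟨h1, by omega, h2⟩
    · rintro ⟨h1, h2, h3⟩
      exact ⟨h1, h3, by omega⟩
  rw [e1, e2]
  ring

/-- The local step in the form used in the level recursion. Here `A`, `B` are the two pasts. -/
theorem local_step' {α β : Type*} (A : Ω → α) (B : Ω → β) (X Y : Ω → ℤ) (ε : ℝ)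
    (hε : 0 < ε) (hε2 : ε ≤ 1 / 2) :
    ∃ x0 y0 : Ω → ℤ, (∀ w w', A w = A w' → B w = B w' → x0 w = x0 w' ∧ y0 w = y0 w') ∧
      ((univ.filter (fun w => X w ≠ x0 w ∨ Y w ≠ y0 w)).card : ℝ)
        ≤ 2 * ε * Fintype.card Ω
          + (10000 / ε ^ 4) *
            (2 * (LL A - LL (fun w => (A w, X w))) + 2 * (LL B - LL (fun w => (B w, Y w)))
              + 2 * (LL (fun w => (A w, B w)) - LL (fun w => ((A w, B w), X w + Y w)))
              - 3 * (LL (fun w => (A w, B w)) - LL (fun w => ((A w, B w), X w, Y w)))) := by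
  obtain ⟨x0, y0, h1, h2⟩ := local_step (fun w => (A w, B w)) X Y ε hε hε2
  refine ⟨x0, y0, ?_, ?_⟩
  · intro w w' hA hB
    exact h1 w w' (by rw [hA, hB])
  · refine le_trans h2 ?_
    rw [MI_sum]
    have s1 := LL_submod A B X
    have s2 := LL_submod B A Y
    have e1 : LL (fun w => (A w, B w, X w)) = LL (fun w => ((A w, B w), X w)) := by
      apply LL_congr
      intro w w'
      simp only [Prod.mk.injEq]
      tauto
    have e2 : LL (fun w => (B w, A w, Y w)) = LL (fun w => ((A w, B w), Y w)) := by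
      apply LL_congr
      intro w w'
      simp only [Prod.mk.injEq]
      tauto
    have e3 : LL (fun w => (B w, A w)) = LL (fun w => (A w, B w)) := by
      apply LL_congr
      intro w w'
      simp only [Prod.mk.injEq]
      tauto
    rw [e1] at s1
    rw [e2, e3] at s2
    have hε4 : 0 < ε ^ 4 := by positivity
    have hB : 0 ≤ 10000 / ε ^ 4 := by positivity
    have : 3 * LL (fun w => (A w, B w)) + 3 * LL (fun w => ((A w, B w), X w, Y w))
          - 2 * LL (fun w => ((A w, B w), X w))
        - 2 * LL (fun w => ((A w, B w), Y w)) - 2 * LL (fun w => ((A w, B w), X w + Y w))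
        ≤ (2 * (LL A - LL (fun w => (A w, X w))) + 2 * (LL B - LL (fun w => (B w, Y w)))
              + 2 * (LL (fun w => (A w, B w)) - LL (fun w => ((A w, B w), X w + Y w)))
              - 3 * (LL (fun w => (A w, B w)) - LL (fun w => ((A w, B w), X w, Y w)))) := by
      linarith
    nlinarith

/-- loss is nonnegative -/
theorem loss_nonneg {α β : Type*} (A : Ω → α) (B : Ω → β) (X Y : Ω → ℤ) :
    LL (fun w => (A w, B w)) - LL (fun w => ((A w, B w), X w, Y w))
      ≤ (LL A - LL (fun w => (A w, X w))) + (LL B - LL (fun w => (B w, Y w))) := by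
  have s1 := LL_submod A B X
  have s2 := LL_submod B A Y
  have s3 := LL_submod (fun w => (A w, B w)) X Y
  have e1 : LL (fun w => (A w, B w, X w)) = LL (fun w => ((A w, B w), X w)) := by
    apply LL_congr
    intro w w'
    simp only [Prod.mk.injEq]
    tauto
  have e2 : LL (fun w => (B w, A w, Y w)) = LL (fun w => ((A w, B w), Y w)) := by
    apply LL_congr
    intro w w'
    simp only [Prod.mk.injEq]
    tauto
  have e3 : LL (fun w => (B w, A w)) = LL (fun w => (A w, B w)) := by
    apply LL_congr
    intro w w'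
    simp only [Prod.mk.injEq]
    tauto
  rw [e1] at s1
  rw [e2, e3] at s2
  linarith

end Pool.Agent.Helper291.Bent
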