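import Mathlib

set_option autoImplicit false

namespace Pool.Agent.Helper291.Bent

open Finset

theorem sum_pairs (f : ℕ → ℝ) (N : ℕ) :
    ∑ i ∈ range (2 * N), f i = ∑ i ∈ range N, (f (2 * i) + f (2 * i + 1)) := by
  induction N with
  | zero => simp
  | succ N ih =>
    rw [show 2 * (N + 1) = (2 * N + 1) + 1 by ring, Finset.sum_range_succ, Finset.sum_range_succ,
      ih, Finset.sum_range_succ]
    ring

/-- the concave potential -/
noncomputable def ph (t : ℝ) : ℝ := t / (1 + t)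

theorem ph_le_one (t : ℝ) (ht : 0 ≤ t) : ph t ≤ 1 := by
  unfold ph
  rw [div_le_one (by linarith)]
  linarith

theorem ph_nonneg (t : ℝ) (ht : 0 ≤ t) : 0 ≤ ph t := by
  unfold ph
  positivity

/-- decrement of the potential -/
theorem ph_decr (t a b : ℝ) (ha : 0 ≤ a) (hb : 0 ≤ b) (hab : a + b ≤ 2 * t) :
    (t - (a + b) / 2) / (1 + t) ^ 2 + ((a - b) / 2) ^ 2 / (1 + t) ^ 3
      ≤ ph t - (ph a + ph b) / 2 := by
  set s : ℝ := (a + b) / 2 with hs
  set d : ℝ := (a - b) / 2 with hd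
  have ea : a = s + d := by rw [hs, hd]; ring
  have eb : b = s - d := by rw [hs, hd]; ring
  have hs0 : 0 ≤ s := by rw [hs]; linarith
  have hst : s ≤ t := by rw [hs]; linarith
  have ht : 0 ≤ t := le_trans hs0 hst
  have h1 : ph t - ph s = (t - s) / ((1 + t) * (1 + s)) := by
    unfold ph
    have : (1 + t) ≠ 0 := by positivity
    have : (1 + s) ≠ 0 := by positivity
    field_simp
    ring
  have hpa : 0 < 1 + a := by linarith
  have hpb : 0 < 1 + b := by linarith
  have h2 : ph s - (ph a + ph b) / 2 = d ^ 2 / ((1 + s) * ((1 + a) * (1 + b))) := by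
    unfold ph
    have h3 : (1 + s) ≠ 0 := by positivity
    have h4 : (1 + a) ≠ 0 := ne_of_gt hpa
    have h5 : (1 + b) ≠ 0 := ne_of_gt hpb
    rw [ea, eb] at *
    field_simp
    ring
  have h3 : (t - s) / (1 + t) ^ 2 ≤ (t - s) / ((1 + t) * (1 + s)) := by
    apply div_le_div_of_nonneg_left (by linarith) (by positivity)
    nlinarith
  have h4 : d ^ 2 / (1 + t) ^ 3 ≤ d ^ 2 / ((1 + s) * ((1 + a) * (1 + b))) := by
    apply div_le_div_of_nonneg_left (by positivity) (by positivity)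
    have h5 : (1 + a) * (1 + b) ≤ (1 + s) ^ 2 := by
      rw [ea, eb]
      nlinarith [sq_nonneg d]
    have h6 : (1 + s) ^ 2 ≤ (1 + t) ^ 2 := by
      apply pow_le_pow_left₀ (by linarith)
      linarith
    calc (1 + s) * ((1 + a) * (1 + b)) ≤ (1 + t) * (1 + t) ^ 2 := by
          apply mul_le_mul (by linarith) (le_trans h5 h6) (by positivity) (by linarith)
      _ = (1 + t) ^ 3 := by ring
  linarith

/-- pointwise estimate -/
theorem pt_est (t a b K M lam : ℝ) (ha : 0 ≤ a) (hb : 0 ≤ b) (hab : a + b ≤ 2 * t)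
    (hK : 0 < K) (hM : 0 < M) (hlam : 0 < lam) :
    min 1 (M * (4 * t - a - 3 * b))
      ≤ t / K + M * lam
        + M * (4 * (1 + K) ^ 2 + (1 + K) ^ 3 / lam) * (ph t - (ph a + ph b) / 2) := by
  have hd := ph_decr t a b ha hb hab
  have ht : 0 ≤ t := by linarith
  set r : ℝ := ph t - (ph a + ph b) / 2 with hr
  set d : ℝ := (a - b) / 2 with hdd
  have hr1 : (t - (a + b) / 2) / (1 + t) ^ 2 ≤ r := by
    have : 0 ≤ d ^ 2 / (1 + t) ^ 3 := by positivity
    linarith
  have hr2 : d ^ 2 / (1 + t) ^ 3 ≤ r := by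
    have : 0 ≤ (t - (a + b) / 2) / (1 + t) ^ 2 := by
      apply div_nonneg _ (by positivity)
      linarith
    linarith
  have hr0 : 0 ≤ r := le_trans (by positivity) hr2
  have hcoef : 0 ≤ M * (4 * (1 + K) ^ 2 + (1 + K) ^ 3 / lam) := by positivity
  by_cases hKt : K ≤ t
  · have h1 : 1 ≤ t / K := by
      rw [le_div_iff₀ hK]; linarith
    have h2 : 0 ≤ M * lam := by positivity
    have h3 : 0 ≤ M * (4 * (1 + K) ^ 2 + (1 + K) ^ 3 / lam) * r := mul_nonneg hcoef hr0
    exact le_trans (min_le_left _ _) (by linarith)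
  · push Not at hKt
    refine le_trans (min_le_right _ _) ?_
    have e1 : t - (a + b) / 2 ≤ (1 + K) ^ 2 * r := by
      have h1 : t - (a + b) / 2 ≤ r * (1 + t) ^ 2 := by
        rw [div_le_iff₀ (by positivity)] at hr1
        exact hr1
      have h2 : (1 + t) ^ 2 ≤ (1 + K) ^ 2 := by
        apply pow_le_pow_left₀ (by linarith)
        linarith
      nlinarith
    have e2 : d ^ 2 ≤ (1 + K) ^ 3 * r := by
      have h1 : d ^ 2 ≤ r * (1 + t) ^ 3 := by
        rw [div_le_iff₀ (by positivity)] at hr2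
        exact hr2
      have h2 : (1 + t) ^ 3 ≤ (1 + K) ^ 3 := by
        apply pow_le_pow_left₀ (by linarith)
        linarith
      nlinarith
    have e3 : 2 * d ≤ lam + d ^ 2 / lam := by
      have h1 : 2 * d * lam ≤ lam ^ 2 + d ^ 2 := by nlinarith [sq_nonneg (lam - d)]
      have h2 : lam + d ^ 2 / lam = (lam ^ 2 + d ^ 2) / lam := by
        field_simp
      rw [h2, le_div_iff₀ hlam]
      exact h1
    have e4 : d ^ 2 / lam ≤ (1 + K) ^ 3 / lam * r := by
      rw [div_mul_eq_mul_div]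
      exact div_le_div_of_nonneg_right e2 hlam.le
    have e5 : 4 * t - a - 3 * b = 4 * (t - (a + b) / 2) + 2 * d := by rw [hdd]; ring
    have e6 : 4 * t - a - 3 * b ≤ lam + (4 * (1 + K) ^ 2 + (1 + K) ^ 3 / lam) * r := by
      rw [e5]
      nlinarith
    have h0 : 0 ≤ t / K := by positivity
    nlinarith

theorem potential (M θ : ℝ) (hM : 0 < M) (hθ : 0 < θ) :
    ∃ C0 : ℕ, ∀ t : ℕ → ℕ → ℝ, t 0 0 ≤ 1 →
      (∀ c ≤ C0, ∀ i < 2 ^ c, 0 ≤ t c i) →
      (∀ c < C0, ∀ i < 2 ^ c, t (c + 1) (2 * i) + t (c + 1) (2 * i + 1) ≤ 2 * t c i) →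
      ∃ c < C0, ∑ i ∈ range (2 ^ c),
        min 1 (M * (4 * t c i - t (c + 1) (2 * i) - 3 * t (c + 1) (2 * i + 1)))
          ≤ θ * 2 ^ c := by
  set K : ℝ := 3 / θ with hK
  set lam : ℝ := θ / (3 * M) with hlam
  have hK0 : 0 < K := by positivity
  have hlam0 : 0 < lam := by positivity
  set C1 : ℝ := M * (4 * (1 + K) ^ 2 + (1 + K) ^ 3 / lam) with hC1
  have hC10 : 0 < C1 := by positivity
  obtain ⟨C0, hC0⟩ := exists_nat_gt (3 * C1 / θ)
  have hC0pos : 0 < (C0 : ℝ) := lt_trans (by positivity) hC0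
  have hC0pos' : 0 < C0 := by exact_mod_cast hC0pos
  refine ⟨C0, ?_⟩
  intro t h00 hnn hsub
  -- the potential
  set Ph : ℕ → ℝ := fun c => (∑ i ∈ range (2 ^ c), ph (t c i)) / 2 ^ c with hPh
  have hPh0 : Ph 0 ≤ 1 := by
    simp only [hPh]
    simp only [pow_zero, range_one, sum_singleton, div_one]
    exact ph_le_one _ (hnn 0 (Nat.zero_le _) 0 (by norm_num))
  have hPhn : 0 ≤ Ph C0 := by
    simp only [hPh]
    apply div_nonneg _ (by positivity)
    apply Finset.sum_nonneg
    intro i hi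
    exact ph_nonneg _ (hnn C0 le_rfl i (Finset.mem_range.mp hi))
  -- a level with a small decrement
  have hex : ∃ c < C0, Ph c - Ph (c + 1) ≤ 1 / C0 := by
    by_contra hcon
    push Not at hcon
    have h1 : ∑ c ∈ range C0, (Ph c - Ph (c + 1)) = Ph 0 - Ph C0 :=
      Finset.sum_range_sub' Ph C0
    have h2 : ∑ c ∈ range C0, (1 / (C0 : ℝ)) < ∑ c ∈ range C0, (Ph c - Ph (c + 1)) := by
      apply Finset.sum_lt_sum_of_nonempty
      · exact ⟨0, Finset.mem_range.mpr hC0pos'⟩
      · intro c hc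
        exact hcon c (Finset.mem_range.mp hc)
    rw [h1, Finset.sum_const, Finset.card_range, nsmul_eq_mul, mul_one_div_cancel hC0pos.ne'] at h2
    linarith
  obtain ⟨c, hc, hdec⟩ := hex
  refine ⟨c, hc, ?_⟩
  -- average of t is at most 1
  have hsum : ∀ c' ≤ C0, ∑ i ∈ range (2 ^ c'), t c' i ≤ 2 ^ c' := by
    intro c'
    induction c' with
    | zero =>
      intro _
      simpa using h00
    | succ c' ih =>
      intro hc'
      rw [pow_succ, mul_comm (2 ^ c') 2, sum_pairs]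
      calc ∑ i ∈ range (2 ^ c'), (t (c' + 1) (2 * i) + t (c' + 1) (2 * i + 1))
          ≤ ∑ i ∈ range (2 ^ c'), 2 * t c' i := by
            apply Finset.sum_le_sum
            intro i hi
            exact hsub c' (by omega) i (Finset.mem_range.mp hi)
        _ = 2 * ∑ i ∈ range (2 ^ c'), t c' i := by rw [← Finset.mul_sum]
        _ ≤ 2 * 2 ^ c' := by
            have := ih (by omega)
            linarith
        _ = 2 ^ (c' + 1) := by ring
  have hN : (0 : ℝ) < 2 ^ c := by positivity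
  have hPhc1 : Ph (c + 1) * 2 ^ c = ∑ i ∈ range (2 ^ c),
      (ph (t (c + 1) (2 * i)) + ph (t (c + 1) (2 * i + 1))) / 2 := by
    simp only [hPh]
    rw [show (2 : ℕ) ^ (c + 1) = 2 * 2 ^ c by ring, sum_pairs]
    rw [← Finset.sum_div]
    rw [pow_succ]
    field_simp
  have hPhc : Ph c * 2 ^ c = ∑ i ∈ range (2 ^ c), ph (t c i) := by
    simp only [hPh]
    field_simp
  have hr : ∑ i ∈ range (2 ^ c), (ph (t c i)
      - (ph (t (c + 1) (2 * i)) + ph (t (c + 1) (2 * i + 1))) / 2) ≤ 2 ^ c / C0 := by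
    rw [Finset.sum_sub_distrib, ← hPhc, ← hPhc1, ← sub_mul]
    calc (Ph c - Ph (c + 1)) * 2 ^ c ≤ (1 / C0) * 2 ^ c :=
          mul_le_mul_of_nonneg_right hdec hN.le
      _ = 2 ^ c / C0 := by ring
  calc ∑ i ∈ range (2 ^ c),
        min 1 (M * (4 * t c i - t (c + 1) (2 * i) - 3 * t (c + 1) (2 * i + 1)))
      ≤ ∑ i ∈ range (2 ^ c), (t c i / K + M * lam + C1 * (ph (t c i)
      - (ph (t (c + 1) (2 * i)) + ph (t (c + 1) (2 * i + 1))) / 2)) := by
        apply Finset.sum_le_sum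
        intro i hi
        have hi' := Finset.mem_range.mp hi
        have p2 : 2 * i < 2 ^ (c + 1) := by rw [pow_succ]; omega
        have p3 : 2 * i + 1 < 2 ^ (c + 1) := by rw [pow_succ]; omega
        exact pt_est (t c i) (t (c + 1) (2 * i)) (t (c + 1) (2 * i + 1)) K M lam
          (hnn (c + 1) (by omega) _ p2) (hnn (c + 1) (by omega) _ p3) (hsub c hc i hi')
          hK0 hM hlam0
    _ = (∑ i ∈ range (2 ^ c), t c i) / K + 2 ^ c * (M * lam) + C1 * ∑ i ∈ range (2 ^ c),
        (ph (t c i) - (ph (t (c + 1) (2 * i)) + ph (t (c + 1) (2 * i + 1))) / 2) := by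
        rw [Finset.sum_add_distrib, Finset.sum_add_distrib, Finset.sum_const, Finset.card_range,
          ← Finset.sum_div, ← Finset.mul_sum, nsmul_eq_mul]
        push_cast
        ring
    _ ≤ 2 ^ c / K + 2 ^ c * (M * lam) + C1 * (2 ^ c / C0) := by
        have h1 := hsum c hc.le
        have h2 : (∑ i ∈ range (2 ^ c), t c i) / K ≤ 2 ^ c / K :=
          div_le_div_of_nonneg_right h1 hK0.le
        have h3 := mul_le_mul_of_nonneg_left hr hC10.le
        linarith
    _ ≤ θ * 2 ^ c := by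
        have h1 : (2 : ℝ) ^ c / K = θ / 3 * 2 ^ c := by
          rw [hK]; field_simp
        have h2 : (2 : ℝ) ^ c * (M * lam) = θ / 3 * 2 ^ c := by
          rw [hlam]; field_simp
        have h3 : C1 * (2 ^ c / C0) ≤ θ / 3 * 2 ^ c := by
          have h4 : C1 / C0 ≤ θ / 3 := by
            rw [div_le_iff₀ hC0pos]
            rw [div_lt_iff₀ hθ] at hC0
            linarith
          calc C1 * (2 ^ c / C0) = (C1 / C0) * 2 ^ c := by ring
            _ ≤ θ / 3 * 2 ^ c := mul_le_mul_of_nonneg_right h4 hN.le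
        rw [h1, h2]
        linarith

end Pool.Agent.Helper291.Bent
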