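import Mathlib
import Pool.Agent.Helper291.BentEnt
import Pool.Agent.Helper291.BentPot

set_option autoImplicit false

namespace Pool.Agent.Helper291.Bent

open Finset

variable {Ω : Type*} [Fintype Ω]

/-- the coefficient variables at level `c`, block `u` -/
def Dv (Z : Ω → ℕ → ℤ) (c u : ℕ) : ℕ → Ω → ℤ := fun i w => bf (Z w) c u i

theorem bf_even (z : ℕ → ℤ) (c u i : ℕ) :
    bf z (c + 1) u (2 * i) = bf z c (2 * u) i + bf z c (2 * u + 1) i := by
  show (if (2 * i) % 2 = 0 then _ else _) = _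
  rw [if_pos (by omega)]
  rw [show 2 * i / 2 = i by omega]

theorem bf_odd (z : ℕ → ℤ) (c u i : ℕ) :
    bf z (c + 1) u (2 * i + 1) = bf z c (2 * u) i - bf z c (2 * u + 1) i := by
  show (if (2 * i + 1) % 2 = 0 then _ else _) = _
  rw [if_neg (by omega)]
  rw [show (2 * i + 1) / 2 = i by omega]

omit [Fintype Ω] in
theorem pst_eq_iff (v : ℕ → Ω → ℤ) (i : ℕ) (w w' : Ω) :
    pst v i w = pst v i w' ↔ ∀ j < i, v j w = v j w' := by
  unfold pst
  constructor
  · intro h j hj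
    exact congrFun h ⟨j, hj⟩
  · intro h
    funext j
    exact h j j.2

theorem LL_pst_succ (v : ℕ → Ω → ℤ) (i : ℕ) :
    LL (pst v (i + 1)) = LL (fun w => (pst v i w, v i w)) := by
  apply LL_congr
  intro w w'
  rw [Prod.mk.injEq, pst_eq_iff, pst_eq_iff]
  constructor
  · intro h
    exact ⟨fun j hj => h j (by omega), h i (by omega)⟩
  · rintro ⟨h1, h2⟩ j hj
    rcases Nat.lt_succ_iff_lt_or_eq.mp hj with h | h
    · exact h1 j h
    · rw [h]; exact h2

omit [Fintype Ω] in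
/-- kernel of the past at an even index of the next level -/
theorem pst_even_iff (Z : Ω → ℕ → ℤ) (c u i : ℕ) (w w' : Ω) :
    pst (Dv Z (c + 1) u) (2 * i) w = pst (Dv Z (c + 1) u) (2 * i) w' ↔
      (pst (Dv Z c (2 * u)) i w = pst (Dv Z c (2 * u)) i w' ∧
        pst (Dv Z c (2 * u + 1)) i w = pst (Dv Z c (2 * u + 1)) i w') := by
  rw [pst_eq_iff, pst_eq_iff, pst_eq_iff]
  unfold Dv
  constructor
  · intro h
    have h2 : ∀ j < i, bf (Z w) c (2 * u) j = bf (Z w') c (2 * u) j ∧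
        bf (Z w) c (2 * u + 1) j = bf (Z w') c (2 * u + 1) j := by
      intro j hj
      have a1 := h (2 * j) (by omega)
      have a2 := h (2 * j + 1) (by omega)
      rw [bf_even, bf_even] at a1
      rw [bf_odd, bf_odd] at a2
      omega
    exact ⟨fun j hj => (h2 j hj).1, fun j hj => (h2 j hj).2⟩
  · rintro ⟨h1, h2⟩ k hk
    rcases Nat.even_or_odd' k with ⟨j, hj | hj⟩
    · rw [hj, bf_even, bf_even, h1 j (by omega), h2 j (by omega)]
    · rw [hj, bf_odd, bf_odd, h1 j (by omega), h2 j (by omega)]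

theorem LL_even (Z : Ω → ℕ → ℤ) (c u i : ℕ) :
    LL (pst (Dv Z (c + 1) u) (2 * i)) =
      LL (fun w => (pst (Dv Z c (2 * u)) i w, pst (Dv Z c (2 * u + 1)) i w)) := by
  apply LL_congr
  intro w w'
  rw [pst_even_iff, Prod.mk.injEq]

theorem LL_odd (Z : Ω → ℕ → ℤ) (c u i : ℕ) :
    LL (pst (Dv Z (c + 1) u) (2 * i + 1)) =
      LL (fun w => ((pst (Dv Z c (2 * u)) i w, pst (Dv Z c (2 * u + 1)) i w),
        bf (Z w) c (2 * u) i + bf (Z w) c (2 * u + 1) i)) := by
  rw [LL_pst_succ]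
  apply LL_congr
  intro w w'
  rw [Prod.mk.injEq, Prod.mk.injEq, Prod.mk.injEq, pst_even_iff]
  unfold Dv
  rw [bf_even, bf_even]

theorem LL_even2 (Z : Ω → ℕ → ℤ) (c u i : ℕ) :
    LL (pst (Dv Z (c + 1) u) (2 * i + 2)) =
      LL (fun w => ((pst (Dv Z c (2 * u)) i w, pst (Dv Z c (2 * u + 1)) i w),
        bf (Z w) c (2 * u) i, bf (Z w) c (2 * u + 1) i)) := by
  apply LL_congr
  intro w w'
  rw [show 2 * i + 2 = 2 * (i + 1) by ring, pst_even_iff]
  rw [Prod.mk.injEq, Prod.mk.injEq, Prod.mk.injEq]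
  rw [pst_eq_iff, pst_eq_iff, pst_eq_iff, pst_eq_iff]
  unfold Dv
  constructor
  · rintro ⟨h1, h2⟩
    exact ⟨⟨fun j hj => h1 j (by omega), fun j hj => h2 j (by omega)⟩, h1 i (by omega),
      h2 i (by omega)⟩
  · rintro ⟨⟨h1, h2⟩, h3, h4⟩
    constructor
    · intro j hj
      rcases Nat.lt_succ_iff_lt_or_eq.mp hj with h | h
      · exact h1 j h
      · rw [h]; exact h3
    · intro j hj
      rcases Nat.lt_succ_iff_lt_or_eq.mp hj with h | h
      · exact h2 j h
      · rw [h]; exact h4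

/-- one increment of entropy -/
noncomputable def inc (Z : Ω → ℕ → ℤ) (c u i : ℕ) : ℝ :=
  LL (pst (Dv Z c u) i) - LL (pst (Dv Z c u) (i + 1))

theorem inc_nonneg (Z : Ω → ℕ → ℤ) (c u i : ℕ) : 0 ≤ inc Z c u i := by
  unfold inc
  have : LL (pst (Dv Z c u) (i + 1)) ≤ LL (pst (Dv Z c u) i) := by
    apply LL_mono
    intro w w' h
    rw [pst_eq_iff] at h ⊢
    intro j hj
    exact h j (by omega)
  linarith

theorem inc_sub (Z : Ω → ℕ → ℤ) (c u i : ℕ) :
    inc Z (c + 1) u (2 * i) + inc Z (c + 1) u (2 * i + 1)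
      ≤ inc Z c (2 * u) i + inc Z c (2 * u + 1) i := by
  unfold inc
  have h := loss_nonneg (pst (Dv Z c (2 * u)) i) (pst (Dv Z c (2 * u + 1)) i)
    (fun w => bf (Z w) c (2 * u) i) (fun w => bf (Z w) c (2 * u + 1) i)
  rw [LL_even, show 2 * i + 1 + 1 = 2 * i + 2 by ring, LL_even2, LL_pst_succ (Dv Z c (2 * u)),
    LL_pst_succ (Dv Z c (2 * u + 1))]
  unfold Dv at *
  linarith

theorem inc_local (Z : Ω → ℕ → ℤ) (c u i : ℕ) (ε : ℝ) (hε : 0 < ε) (hε2 : ε ≤ 1 / 2) :
    ∃ g0 g1 : Ω → ℤ,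
      (∀ w w', pst (Dv Z (c + 1) u) (2 * i) w = pst (Dv Z (c + 1) u) (2 * i) w' →
        g0 w = g0 w') ∧
      (∀ w w', pst (Dv Z (c + 1) u) (2 * i + 1) w = pst (Dv Z (c + 1) u) (2 * i + 1) w' →
        g1 w = g1 w') ∧
      ((univ.filter (fun w => bf (Z w) (c + 1) u (2 * i) ≠ g0 w)).card : ℝ)
        ≤ 2 * ε * Fintype.card Ω + (10000 / ε ^ 4) *
          (2 * inc Z c (2 * u) i + 2 * inc Z c (2 * u + 1) i - inc Z (c + 1) u (2 * i)
            - 3 * inc Z (c + 1) u (2 * i + 1)) ∧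
      ((univ.filter (fun w => bf (Z w) (c + 1) u (2 * i + 1) ≠ g1 w)).card : ℝ)
        ≤ 2 * ε * Fintype.card Ω + (10000 / ε ^ 4) *
          (2 * inc Z c (2 * u) i + 2 * inc Z c (2 * u + 1) i - inc Z (c + 1) u (2 * i)
            - 3 * inc Z (c + 1) u (2 * i + 1)) := by
  classical
  obtain ⟨x0, y0, h1, h2⟩ := local_step' (pst (Dv Z c (2 * u)) i) (pst (Dv Z c (2 * u + 1)) i)
    (fun w => bf (Z w) c (2 * u) i) (fun w => bf (Z w) c (2 * u + 1) i) ε hε hε2
  have hfac : ∀ w w', pst (Dv Z (c + 1) u) (2 * i) w = pst (Dv Z (c + 1) u) (2 * i) w' →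
      x0 w = x0 w' ∧ y0 w = y0 w' := by
    intro w w' h
    rw [pst_even_iff] at h
    exact h1 w w' h.1 h.2
  have hbound : ((univ.filter (fun w => bf (Z w) c (2 * u) i ≠ x0 w ∨
      bf (Z w) c (2 * u + 1) i ≠ y0 w)).card : ℝ)
        ≤ 2 * ε * Fintype.card Ω + (10000 / ε ^ 4) *
          (2 * inc Z c (2 * u) i + 2 * inc Z c (2 * u + 1) i - inc Z (c + 1) u (2 * i)
            - 3 * inc Z (c + 1) u (2 * i + 1)) := by
    refine le_trans h2 (le_of_eq ?_)
    congr 2
    unfold inc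
    rw [LL_even, show 2 * i + 1 + 1 = 2 * i + 2 by ring, LL_even2, LL_odd,
      LL_pst_succ (Dv Z c (2 * u)), LL_pst_succ (Dv Z c (2 * u + 1))]
    unfold Dv
    ring
  refine ⟨fun w => x0 w + y0 w, fun w => x0 w - y0 w, ?_, ?_, ?_, ?_⟩
  · intro w w' h
    have := hfac w w' h
    simp only [this.1, this.2]
  · intro w w' h
    have h' : pst (Dv Z (c + 1) u) (2 * i) w = pst (Dv Z (c + 1) u) (2 * i) w' := by
      rw [pst_eq_iff] at h ⊢
      intro j hj
      exact h j (by omega)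
    have := hfac w w' h'
    simp only [this.1, this.2]
  · refine le_trans ?_ hbound
    have : (univ.filter (fun w => bf (Z w) (c + 1) u (2 * i) ≠ x0 w + y0 w)).card
        ≤ (univ.filter (fun w => bf (Z w) c (2 * u) i ≠ x0 w ∨
      bf (Z w) c (2 * u + 1) i ≠ y0 w)).card := by
      apply Finset.card_le_card
      intro w
      simp only [Finset.mem_filter, Finset.mem_univ, true_and]
      intro h
      by_contra hcon
      push Not at hcon
      apply h
      rw [bf_even, hcon.1, hcon.2]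
    exact_mod_cast this
  · refine le_trans ?_ hbound
    have : (univ.filter (fun w => bf (Z w) (c + 1) u (2 * i + 1) ≠ x0 w - y0 w)).card
        ≤ (univ.filter (fun w => bf (Z w) c (2 * u) i ≠ x0 w ∨
      bf (Z w) c (2 * u + 1) i ≠ y0 w)).card := by
      apply Finset.card_le_card
      intro w
      simp only [Finset.mem_filter, Finset.mem_univ, true_and]
      intro h
      by_contra hcon
      push Not at hcon
      apply h
      rw [bf_odd, hcon.1, hcon.2]
    exact_mod_cast this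

end Pool.Agent.Helper291.Bent
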