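import Mathlib
import Pool.Agent.Helper291.BentLevel

set_option autoImplicit false

namespace Pool.Agent.Helper291.Bent

open Finset

variable {Ω : Type*} [Fintype Ω]

theorem two_valued (v : Ω → ℤ) (hv : ∀ w, v w = 1 ∨ v w = -1) :
    LL (fun _ : Ω => (0 : ℤ)) - LL v ≤ Fintype.card Ω := by
  classical
  unfold LL
  rw [← Finset.sum_sub_distrib]
  have hc0 : ∀ w : Ω, cls (fun _ : Ω => (0 : ℤ)) w = univ := by
    intro w
    ext w'
    rw [mem_cls]
    simp
  set A : Finset Ω := univ.filter (fun w => v w = 1) with hA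
  set B : Finset Ω := univ.filter (fun w => ¬ v w = 1) with hB
  have hcA : ∀ w ∈ A, cls v w = A := by
    intro w hw
    rw [hA, Finset.mem_filter] at hw
    ext w'
    rw [mem_cls, hA, Finset.mem_filter, hw.2]
    simp
  have hcB : ∀ w ∈ B, cls v w = B := by
    intro w hw
    rw [hB, Finset.mem_filter] at hw
    have h1 : v w = -1 := by
      rcases hv w with h | h
      · exact absurd h hw.2
      · exact h
    ext w'
    rw [mem_cls, hB, Finset.mem_filter, h1]
    constructor
    · intro h
      refine ⟨Finset.mem_univ _, ?_⟩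
      rw [h]
      norm_num
    · rintro ⟨_, h⟩
      rcases hv w' with h' | h'
      · exact absurd h' h
      · exact h'
  have hpt : ∀ w : Ω, Real.log ((cls (fun _ : Ω => (0 : ℤ)) w).card : ℝ)
      - Real.log ((cls v w).card : ℝ) ≤ (Fintype.card Ω : ℝ) * (1 / ((cls v w).card : ℝ)) - 1 := by
    intro w
    rw [hc0]
    have h1 : (0 : ℝ) < ((cls v w).card : ℝ) := by exact_mod_cast cls_card_pos v w
    have h2 : (0 : ℝ) < ((univ : Finset Ω).card : ℝ) := by
      have : 0 < (univ : Finset Ω).card := Finset.card_pos.mpr ⟨w, Finset.mem_univ _⟩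
      exact_mod_cast this
    rw [← Real.log_div h2.ne' h1.ne']
    have h3 := Real.log_le_sub_one_of_pos (div_pos h2 h1)
    rw [Finset.card_univ] at h3 ⊢
    calc _ ≤ _ := h3
      _ = _ := by ring
  calc ∑ w : Ω, (Real.log ((cls (fun _ : Ω => (0 : ℤ)) w).card : ℝ)
      - Real.log ((cls v w).card : ℝ))
      ≤ ∑ w : Ω, ((Fintype.card Ω : ℝ) * (1 / ((cls v w).card : ℝ)) - 1) :=
        Finset.sum_le_sum (fun w _ => hpt w)
    _ = (Fintype.card Ω : ℝ) * (∑ w : Ω, 1 / ((cls v w).card : ℝ)) - Fintype.card Ω := by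
        rw [Finset.sum_sub_distrib, ← Finset.mul_sum]
        simp
    _ ≤ (Fintype.card Ω : ℝ) * 2 - Fintype.card Ω := by
        have h1 : ∑ w : Ω, 1 / ((cls v w).card : ℝ) ≤ 2 := by
          rw [← Finset.sum_filter_add_sum_filter_not univ (fun w => v w = 1)]
          have a1 : ∑ w ∈ A, 1 / ((cls v w).card : ℝ) ≤ 1 := by
            rw [Finset.sum_congr rfl (fun w hw => by rw [hcA w hw]), Finset.sum_const,
              nsmul_eq_mul]
            by_cases h : A.card = 0
            · rw [h]; simp
            · have : (0 : ℝ) < (A.card : ℝ) := by exact_mod_cast Nat.pos_of_ne_zero h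
              rw [mul_one_div_cancel this.ne']
          have a2 : ∑ w ∈ B, 1 / ((cls v w).card : ℝ) ≤ 1 := by
            rw [Finset.sum_congr rfl (fun w hw => by rw [hcB w hw]), Finset.sum_const,
              nsmul_eq_mul]
            by_cases h : B.card = 0
            · rw [h]; simp
            · have : (0 : ℝ) < (B.card : ℝ) := by exact_mod_cast Nat.pos_of_ne_zero h
              rw [mul_one_div_cancel this.ne']
          rw [← hA, ← hB]
          linarith
        have h2 : (0 : ℝ) ≤ Fintype.card Ω := by positivity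
        nlinarith
    _ = Fintype.card Ω := by ring

theorem inc_zero (Z : Ω → ℕ → ℤ) (hZ : ∀ w u, Z w u = 1 ∨ Z w u = -1) (u : ℕ) :
    inc Z 0 u 0 ≤ Fintype.card Ω := by
  unfold inc
  have e1 : LL (pst (Dv Z 0 u) 0) = LL (fun _ : Ω => (0 : ℤ)) := by
    apply LL_congr
    intro w w'
    rw [pst_eq_iff]
    simp
  have e2 : LL (pst (Dv Z 0 u) (0 + 1)) = LL (fun w => Z w u) := by
    apply LL_congr
    intro w w'
    rw [pst_eq_iff]
    unfold Dv
    constructor
    · intro h
      exact h 0 (by norm_num)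
    · intro h j hj
      have : j = 0 := by omega
      subst this
      exact h
  rw [e1, e2]
  exact two_valued _ (fun w => hZ w u)

/-- The polarization theorem: at some bounded level, almost all coefficients are predictable. -/
theorem polar (θ : ℝ) (hθ : 0 < θ) (hθ1 : θ ≤ 1) :
    ∃ C0 : ℕ, ∀ (Ω : Type) [Fintype Ω] [Nonempty Ω] (Z : Ω → ℕ → ℤ) (n : ℕ), C0 ≤ n →
      (∀ w u, Z w u = 1 ∨ Z w u = -1) →
      ∃ l ≤ n, ∃ G : ℕ → ℕ → Ω → ℤ,
        (∀ u k w w', (∀ j < k, bf (Z w) l u j = bf (Z w') l u j) → G u k w = G u k w') ∧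
        ∑ u ∈ range (2 ^ (n - l)), ∑ k ∈ range (2 ^ l),
          ((univ.filter (fun w => bf (Z w) l u k ≠ G u k w)).card : ℝ)
            ≤ θ * 2 ^ n * Fintype.card Ω := by
  classical
  set ε : ℝ := θ / 4 with hε
  have hε0 : 0 < ε := by positivity
  have hε2 : ε ≤ 1 / 2 := by rw [hε]; linarith
  set B : ℝ := 10000 / ε ^ 4 with hB
  have hB0 : 0 < B := by positivity
  obtain ⟨C0, hC0⟩ := potential B (θ / 2) hB0 (by positivity)
  refine ⟨C0, ?_⟩
  intro Ω _ _ Z n hn hZ
  have hΩ : (0 : ℝ) < Fintype.card Ω := by exact_mod_cast Fintype.card_pos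
  -- normalised averages
  set t : ℕ → ℕ → ℝ := fun c i =>
    (∑ u ∈ range (2 ^ (n - c)), inc Z c u i) / (2 ^ (n - c) * Fintype.card Ω) with ht
  have htmul : ∀ c i, ∑ u ∈ range (2 ^ (n - c)), inc Z c u i
      = 2 ^ (n - c) * Fintype.card Ω * t c i := by
    intro c i
    simp only [ht]
    field_simp
  have hpairs : ∀ c < n, ∀ f : ℕ → ℝ, ∑ u ∈ range (2 ^ (n - c)), f u
      = ∑ u ∈ range (2 ^ (n - (c + 1))), (f (2 * u) + f (2 * u + 1)) := by
    intro c hc f
    rw [← sum_pairs]
    congr 2
    rw [← pow_succ']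
    congr 1
    omega
  have hpow : ∀ c < n, (2 : ℝ) ^ (n - c) = 2 * 2 ^ (n - (c + 1)) := by
    intro c hc
    rw [← pow_succ']
    congr 1
    omega
  have h00 : t 0 0 ≤ 1 := by
    simp only [ht]
    rw [div_le_one (by positivity)]
    calc ∑ u ∈ range (2 ^ (n - 0)), inc Z 0 u 0 ≤ ∑ u ∈ range (2 ^ (n - 0)), (Fintype.card Ω : ℝ) :=
          Finset.sum_le_sum (fun u _ => inc_zero Z hZ u)
      _ = 2 ^ (n - 0) * Fintype.card Ω := by
          rw [Finset.sum_const, Finset.card_range, nsmul_eq_mul]
          push_cast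
          ring
  have hnn : ∀ c ≤ C0, ∀ i < 2 ^ c, 0 ≤ t c i := by
    intro c _ i _
    simp only [ht]
    apply div_nonneg _ (by positivity)
    exact Finset.sum_nonneg (fun u _ => inc_nonneg Z c u i)
  have hsub : ∀ c < C0, ∀ i < 2 ^ c, t (c + 1) (2 * i) + t (c + 1) (2 * i + 1) ≤ 2 * t c i := by
    intro c hc i _
    have hcn : c < n := by omega
    have h1 := htmul c i
    have h2 := htmul (c + 1) (2 * i)
    have h3 := htmul (c + 1) (2 * i + 1)
    have h4 : ∑ u ∈ range (2 ^ (n - (c + 1))), inc Z (c + 1) u (2 * i)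
        + ∑ u ∈ range (2 ^ (n - (c + 1))), inc Z (c + 1) u (2 * i + 1)
        ≤ ∑ u ∈ range (2 ^ (n - c)), inc Z c u i := by
      rw [hpairs c hcn, ← Finset.sum_add_distrib]
      exact Finset.sum_le_sum (fun u _ => inc_sub Z c u i)
    rw [h1, h2, h3, hpow c hcn] at h4
    have h5 : (0 : ℝ) < 2 ^ (n - (c + 1)) * Fintype.card Ω := by positivity
    nlinarith
  obtain ⟨c, hc, hcsum⟩ := hC0 t h00 hnn hsub
  have hcn : c < n := by omega
  refine ⟨c + 1, by omega, ?_⟩
  -- choose the guesses
  choose g0 g1 f0 f1 e0 e1 using fun (u : ℕ) (i : ℕ) => inc_local Z c u i ε hε0 hε2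
  refine ⟨fun u k => if k % 2 = 0 then g0 u (k / 2) else g1 u (k / 2), ?_, ?_⟩
  · intro u k w w' h
    rcases Nat.even_or_odd' k with ⟨i, hi | hi⟩
    · have : k % 2 = 0 := by omega
      simp only [this, if_true]
      rw [show k / 2 = i by omega]
      apply f0 u i w w'
      rw [pst_eq_iff]
      intro j hj
      exact h j (by omega)
    · have : ¬ k % 2 = 0 := by omega
      simp only [this, if_false]
      rw [show k / 2 = i by omega]
      apply f1 u i w w'
      rw [pst_eq_iff]
      intro j hj
      exact h j (by omega)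
  · set R : ℕ := 2 ^ (n - (c + 1)) with hR
    have hRr : ((R : ℕ) : ℝ) = 2 ^ (n - (c + 1)) := by rw [hR]; push_cast; rfl
    set q : ℕ → ℕ → ℝ := fun u i => 2 * inc Z c (2 * u) i + 2 * inc Z c (2 * u + 1) i
      - inc Z (c + 1) u (2 * i) - 3 * inc Z (c + 1) u (2 * i + 1) with hq
    have hqsum : ∀ i, ∑ u ∈ range R, q u i = R * Fintype.card Ω *
        (4 * t c i - t (c + 1) (2 * i) - 3 * t (c + 1) (2 * i + 1)) := by
      intro i
      have h1 := htmul c i
      have h2 := htmul (c + 1) (2 * i)
      have h3 := htmul (c + 1) (2 * i + 1)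
      rw [hpairs c hcn, hpow c hcn] at h1
      rw [Finset.sum_add_distrib] at h1
      simp only [hq]
      rw [Finset.sum_sub_distrib, Finset.sum_sub_distrib, Finset.sum_add_distrib,
        ← Finset.mul_sum, ← Finset.mul_sum, ← Finset.mul_sum, h2, h3, hRr]
      linear_combination 2 * h1
    -- bound of the errors of a pair
    have herr : ∀ i, ∑ u ∈ range R,
        (((univ.filter (fun w => bf (Z w) (c + 1) u (2 * i) ≠ g0 u i w)).card : ℝ)
          + ((univ.filter (fun w => bf (Z w) (c + 1) u (2 * i + 1) ≠ g1 u i w)).card : ℝ))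
        ≤ 2 * (R * Fintype.card Ω) * (2 * ε + min 1 (B * (4 * t c i - t (c + 1) (2 * i)
          - 3 * t (c + 1) (2 * i + 1)))) := by
      intro i
      have hcard : ∀ s : Finset Ω, ((s.card : ℕ) : ℝ) ≤ Fintype.card Ω := by
        intro s
        exact_mod_cast Finset.card_le_univ s
      rcases le_total (B * (4 * t c i - t (c + 1) (2 * i) - 3 * t (c + 1) (2 * i + 1))) 1 with h | h
      · rw [min_eq_right h]
        calc ∑ u ∈ range R,
        (((univ.filter (fun w => bf (Z w) (c + 1) u (2 * i) ≠ g0 u i w)).card : ℝ)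
          + ((univ.filter (fun w => bf (Z w) (c + 1) u (2 * i + 1) ≠ g1 u i w)).card : ℝ))
            ≤ ∑ u ∈ range R, (2 * (2 * ε * Fintype.card Ω + B * q u i)) := by
              apply Finset.sum_le_sum
              intro u _
              have a0 := e0 u i
              have a1 := e1 u i
              simp only [hq]
              linarith
          _ = 2 * (R * (2 * ε * Fintype.card Ω) + B * ∑ u ∈ range R, q u i) := by
              rw [← Finset.mul_sum, Finset.sum_add_distrib, Finset.sum_const, Finset.card_range,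
                nsmul_eq_mul, ← Finset.mul_sum]
          _ ≤ _ := by
              rw [hqsum i]
              apply le_of_eq
              ring
      · rw [min_eq_left h]
        calc ∑ u ∈ range R,
        (((univ.filter (fun w => bf (Z w) (c + 1) u (2 * i) ≠ g0 u i w)).card : ℝ)
          + ((univ.filter (fun w => bf (Z w) (c + 1) u (2 * i + 1) ≠ g1 u i w)).card : ℝ))
            ≤ ∑ u ∈ range R, (2 * (Fintype.card Ω : ℝ)) := by
              apply Finset.sum_le_sum
              intro u _
              have a0 := hcard (univ.filter (fun w => bf (Z w) (c + 1) u (2 * i) ≠ g0 u i w))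
              have a1 := hcard (univ.filter (fun w => bf (Z w) (c + 1) u (2 * i + 1) ≠ g1 u i w))
              linarith
          _ = 2 * (R * Fintype.card Ω) := by
              rw [Finset.sum_const, Finset.card_range, nsmul_eq_mul]
              ring
          _ ≤ _ := by
              have : (0 : ℝ) ≤ 2 * (R * Fintype.card Ω) := by positivity
              nlinarith
    rw [Finset.sum_comm]
    rw [show (2 : ℕ) ^ (c + 1) = 2 * 2 ^ c by ring, sum_pairs]
    calc ∑ i ∈ range (2 ^ c), (∑ u ∈ range R, ((univ.filter (fun w =>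
          bf (Z w) (c + 1) u (2 * i) ≠ (if (2 * i) % 2 = 0 then g0 u ((2 * i) / 2)
            else g1 u ((2 * i) / 2)) w)).card : ℝ)
          + ∑ u ∈ range R, ((univ.filter (fun w =>
          bf (Z w) (c + 1) u (2 * i + 1) ≠ (if (2 * i + 1) % 2 = 0 then g0 u ((2 * i + 1) / 2)
            else g1 u ((2 * i + 1) / 2)) w)).card : ℝ))
        = ∑ i ∈ range (2 ^ c), ∑ u ∈ range R,
        (((univ.filter (fun w => bf (Z w) (c + 1) u (2 * i) ≠ g0 u i w)).card : ℝ)
          + ((univ.filter (fun w => bf (Z w) (c + 1) u (2 * i + 1) ≠ g1 u i w)).card : ℝ)) := by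
          apply Finset.sum_congr rfl
          intro i _
          rw [← Finset.sum_add_distrib]
          apply Finset.sum_congr rfl
          intro u _
          have b1 : (2 * i) % 2 = 0 := by omega
          have b2 : (2 * i) / 2 = i := by omega
          have b3 : ¬ (2 * i + 1) % 2 = 0 := by omega
          have b4 : (2 * i + 1) / 2 = i := by omega
          simp only [b1, b2, b3, b4, if_true, if_false]
      _ ≤ ∑ i ∈ range (2 ^ c), 2 * (R * Fintype.card Ω) * (2 * ε + min 1 (B * (4 * t c i
          - t (c + 1) (2 * i) - 3 * t (c + 1) (2 * i + 1)))) :=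
          Finset.sum_le_sum (fun i _ => herr i)
      _ = 2 * (R * Fintype.card Ω) * (2 ^ c * (2 * ε) + ∑ i ∈ range (2 ^ c),
          min 1 (B * (4 * t c i - t (c + 1) (2 * i) - 3 * t (c + 1) (2 * i + 1)))) := by
          rw [← Finset.mul_sum, Finset.sum_add_distrib, Finset.sum_const, Finset.card_range,
            nsmul_eq_mul]
          push_cast
          ring
      _ ≤ 2 * (R * Fintype.card Ω) * (2 ^ c * (2 * ε) + θ / 2 * 2 ^ c) := by
          apply mul_le_mul_of_nonneg_left _ (by positivity)
          linarith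
      _ = θ * 2 ^ n * Fintype.card Ω := by
          rw [hRr, hε]
          have h1 : (2 : ℝ) ^ n = 2 ^ (n - (c + 1)) * 2 ^ c * 2 := by
            rw [mul_assoc, ← pow_succ, ← pow_add]
            congr 1
            omega
          rw [h1]
          ring

end Pool.Agent.Helper291.Bent
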