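import Mathlib
import Pool.Agent.Helper291.BentDefs

set_option autoImplicit false

namespace Pool.Agent.Helper291.Bent.J6

open Finset

noncomputable def mkPoly {n m : ℕ} (a : {S : Finset (Fin n) // S.card ≤ m} → ZMod 2) :
    MvPolynomial (Fin n) (ZMod 2) :=
  ∑ S : {S : Finset (Fin n) // S.card ≤ m}, MvPolynomial.C (a S) * ∏ i ∈ S.1, MvPolynomial.X i

theorem mkPoly_totalDegree {n m : ℕ} (a : {S : Finset (Fin n) // S.card ≤ m} → ZMod 2) :
    (mkPoly a).totalDegree ≤ m := by
  unfold mkPoly
  refine MvPolynomial.totalDegree_finsetSum_le ?_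
  intro S _
  refine (MvPolynomial.totalDegree_mul _ _).trans ?_
  rw [MvPolynomial.totalDegree_C, zero_add]
  refine (MvPolynomial.totalDegree_finsetProd _ _).trans ?_
  calc ∑ i ∈ S.1, (MvPolynomial.X i : MvPolynomial (Fin n) (ZMod 2)).totalDegree
      = ∑ i ∈ S.1, 1 := Finset.sum_congr rfl (fun i _ => MvPolynomial.totalDegree_X i)
    _ = S.1.card := by simp
    _ ≤ m := S.2

theorem eval_mkPoly {n m : ℕ} (a : {S : Finset (Fin n) // S.card ≤ m} → ZMod 2)
    (T : Finset (Fin n)) :
    MvPolynomial.eval (fun i => if i ∈ T then (1 : ZMod 2) else 0) (mkPoly a)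
      = ∑ S : {S : Finset (Fin n) // S.card ≤ m}, if S.1 ⊆ T then a S else 0 := by
  unfold mkPoly
  rw [map_sum]
  refine Finset.sum_congr rfl fun S _ => ?_
  rw [map_mul, MvPolynomial.eval_C, map_prod]
  simp only [MvPolynomial.eval_X]
  rw [Finset.prod_boole]
  by_cases h : S.1 ⊆ T
  · rw [if_pos h, if_pos (fun i hi => h hi), mul_one]
  · rw [if_neg h, if_neg (fun h' => h (fun i hi => h' i hi)), mul_zero]

theorem inj_aux {n m : ℕ} (a b : {S : Finset (Fin n) // S.card ≤ m} → ZMod 2)
    (h : ∀ T : Finset (Fin n),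
      (∑ S : {S : Finset (Fin n) // S.card ≤ m}, if S.1 ⊆ T then a S else 0)
      = ∑ S : {S : Finset (Fin n) // S.card ≤ m}, if S.1 ⊆ T then b S else 0) : a = b := by
  have key : ∀ T : Finset (Fin n), ∀ hT : T.card ≤ m, a ⟨T, hT⟩ = b ⟨T, hT⟩ := by
    intro T
    induction T using Finset.strongInduction with
    | H T ih =>
    intro hT
    have h1 := h T
    rw [← Finset.add_sum_erase _ _ (Finset.mem_univ (⟨T, hT⟩ : {S : Finset (Fin n) // S.card ≤ m})),
      ← Finset.add_sum_erase _ _ (Finset.mem_univ (⟨T, hT⟩ : {S : Finset (Fin n) // S.card ≤ m}))]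
      at h1
    have h2 : (∑ S ∈ (Finset.univ : Finset {S : Finset (Fin n) // S.card ≤ m}).erase ⟨T, hT⟩,
        if S.1 ⊆ T then a S else 0)
        = ∑ S ∈ (Finset.univ : Finset {S : Finset (Fin n) // S.card ≤ m}).erase ⟨T, hT⟩,
        if S.1 ⊆ T then b S else 0 := by
      refine Finset.sum_congr rfl fun S hS => ?_
      by_cases hST : S.1 ⊆ T
      · rw [if_pos hST, if_pos hST]
        have hne : S.1 ≠ T := by
          intro heq
          exact (Finset.mem_erase.mp hS).1 (Subtype.ext heq)
        exact ih S.1 (Finset.ssubset_iff_subset_ne.mpr ⟨hST, hne⟩) S.2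
      · rw [if_neg hST, if_neg hST]
    rw [h2] at h1
    have h3 := add_right_cancel h1
    simpa using h3
  funext S
  exact key S.1 S.2

theorem card_small (m : ℕ) (hm : 1 ≤ m) :
    2 ^ (2 * m - 1) ≤ Fintype.card {S : Finset (Fin (2 * m)) // S.card ≤ m} := by
  rw [Fintype.card_subtype]
  set A : Finset (Finset (Fin (2 * m))) := Finset.univ.filter (fun S => S.card ≤ m) with hA
  set B : Finset (Finset (Fin (2 * m))) := Finset.univ.filter (fun S => ¬ S.card ≤ m) with hB
  have hsum : A.card + B.card = 2 ^ (2 * m) := by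
    rw [hA, hB, Finset.card_filter_add_card_filter_not]
    simp
  have hle : B.card ≤ A.card := by
    refine Finset.card_le_card_of_injOn (fun S => Sᶜ) ?_ ?_
    · intro S hS
      simp only [hB, Finset.coe_filter, Finset.mem_univ, true_and, Set.mem_ofPred_eq] at hS
      simp only [hA, Finset.coe_filter, Finset.mem_univ, true_and, Set.mem_ofPred_eq]
      rw [Finset.card_compl, Fintype.card_fin]
      omega
    · intro S _ T _ hST
      exact compl_injective hST
  have h2 : 2 ^ (2 * m) = 2 * 2 ^ (2 * m - 1) := by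
    rw [← pow_succ']
    congr 1
    omega
  omega

/-- There are at least `2^(2^(2m-1))` Boolean functions of degree at most `m` on `2m` bits. -/
theorem card_lowdeg (m : ℕ) (hm : 1 ≤ m) :
    2 ^ (2 ^ (2 * m - 1)) ≤
      Nat.card {f : (Fin (2 * m) → ZMod 2) → ZMod 2 //
        ∃ p : MvPolynomial (Fin (2 * m)) (ZMod 2),
            p.totalDegree ≤ m ∧ ∀ x, MvPolynomial.eval x p = f x} := by
  let Φ : ({S : Finset (Fin (2 * m)) // S.card ≤ m} → ZMod 2) →
      {f : (Fin (2 * m) → ZMod 2) → ZMod 2 //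
        ∃ p : MvPolynomial (Fin (2 * m)) (ZMod 2),
            p.totalDegree ≤ m ∧ ∀ x, MvPolynomial.eval x p = f x} :=
    fun a => ⟨fun x => MvPolynomial.eval x (mkPoly a), mkPoly a, mkPoly_totalDegree a,
      fun _ => rfl⟩
  have hinj : Function.Injective Φ := by
    intro a b hab
    have h1 : (fun x => MvPolynomial.eval x (mkPoly a)) = fun x => MvPolynomial.eval x (mkPoly b) :=
      congrArg Subtype.val hab
    apply inj_aux
    intro T
    rw [← eval_mkPoly, ← eval_mkPoly]
    exact congrFun h1 _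
  have hcard := Nat.card_le_card_of_injective Φ hinj
  refine le_trans ?_ hcard
  rw [Nat.card_eq_fintype_card, Fintype.card_fun, ZMod.card]
  exact Nat.pow_le_pow_right (by norm_num) (card_small m hm)

end Pool.Agent.Helper291.Bent.J6
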