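import Mathlib
import Pool.Agent.Helper291.BentDefs

set_option autoImplicit false

namespace Pool.Agent.Helper291.Bent.J7

open Finset

theorem bits_inj (n : ℕ) {w w' : ℕ} (hw : w < 2 ^ n) (hw' : w' < 2 ^ n)
    (h : bits n w = bits n w') : w = w' := by
  apply Nat.eq_of_testBit_eq
  intro i
  by_cases hi : i < n
  · have h1 := congrFun h ⟨i, hi⟩
    simp only [bits] at h1
    have h2 : w / 2 ^ i % 2 = w' / 2 ^ i % 2 := (ZMod.natCast_eq_natCast_iff' _ _ 2).1 h1
    rw [Nat.testBit_eq_decide_div_mod_eq, Nat.testBit_eq_decide_div_mod_eq, h2]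
  · have h3 : 2 ^ n ≤ 2 ^ i := Nat.pow_le_pow_right (by norm_num) (by omega)
    rw [Nat.testBit_eq_false_of_lt (by omega), Nat.testBit_eq_false_of_lt (by omega)]

theorem bits_bij (n : ℕ) : Function.Bijective (fun w : Fin (2 ^ n) => bits n w) := by
  rw [Fintype.bijective_iff_injective_and_card]
  refine ⟨fun w w' h => Fin.ext (bits_inj n w.2 w'.2 h), by simp [ZMod.card]⟩

/-- The sign sequence determines the function. -/
theorem sgn_inj (n : ℕ) (g g' : (Fin n → ZMod 2) → ZMod 2)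
    (h : ∀ w < 2 ^ n, sgn n g w = sgn n g' w) : g = g' := by
  funext x
  obtain ⟨w, rfl⟩ := (bits_bij n).2 x
  have h1 := h w w.2
  simp only [sgn] at h1
  have key : ∀ a b : ZMod 2, (-1 : ℤ) ^ a.val = (-1 : ℤ) ^ b.val → a = b := by decide
  exact key _ _ h1

theorem neg_one_pow_add : ∀ s t : ZMod 2, (-1 : ℤ) ^ (s + t).val = (-1) ^ s.val * (-1) ^ t.val := by
  decide

theorem digit_lt {b c j : ℕ} (hj : j < c) :
    (((2 ^ c + b) / 2 ^ j : ℕ) : ZMod 2) = ((b / 2 ^ j : ℕ) : ZMod 2) := by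
  have h1 : 2 ^ c + b = b + 2 ^ j * 2 ^ (c - j) := by
    rw [← pow_add, Nat.add_sub_cancel' hj.le, add_comm]
  rw [h1, Nat.add_mul_div_left _ _ (by positivity), Nat.cast_add]
  have h2 : ((2 ^ (c - j) : ℕ) : ZMod 2) = 0 := by
    rw [ZMod.natCast_eq_zero_iff]
    exact dvd_pow_self 2 (by omega)
  rw [h2, add_zero]

theorem bf_aux (c k : ℕ) : ∃ a : ℕ → ZMod 2, ∀ (z : ℕ → ℤ) (u : ℕ), bf z c u k =
    ∑ b ∈ range (2 ^ c), (-1 : ℤ) ^ (∑ j ∈ range c, a j * ((b / 2 ^ j : ℕ) : ZMod 2)).val *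
      z (2 ^ c * u + b) := by
  induction c generalizing k with
  | zero => exact ⟨0, fun z u => by simp [bf]⟩
  | succ c ih =>
    obtain ⟨a, ha⟩ := ih (k / 2)
    refine ⟨fun j => if j = c then (k : ZMod 2) else a j, fun z u => ?_⟩
    have hd : ∀ d : ℕ → ZMod 2, ∑ j ∈ range (c + 1), (if j = c then (k : ZMod 2) else a j) * d j =
        ∑ j ∈ range c, a j * d j + k * d c := by
      intro d
      rw [Finset.sum_range_succ]
      simp only [if_true]
      congr 1
      refine Finset.sum_congr rfl fun j hj => ?_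
      rw [Finset.mem_range] at hj
      rw [if_neg (by omega)]
    have h2 : 2 ^ (c + 1) = 2 ^ c + 2 ^ c := by rw [pow_succ]; ring
    rw [h2, Finset.sum_range_add]
    have e1 : ∀ b ∈ range (2 ^ c), (-1 : ℤ) ^ (∑ j ∈ range (c + 1),
        (if j = c then (k : ZMod 2) else a j) * ((b / 2 ^ j : ℕ) : ZMod 2)).val *
        z ((2 ^ c + 2 ^ c) * u + b) =
        (-1 : ℤ) ^ (∑ j ∈ range c, a j * ((b / 2 ^ j : ℕ) : ZMod 2)).val * z (2 ^ c * (2 * u) + b) := by
      intro b hb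
      rw [Finset.mem_range] at hb
      rw [hd, Nat.div_eq_of_lt hb]
      have e3 : (2 ^ c + 2 ^ c) * u + b = 2 ^ c * (2 * u) + b := by ring
      rw [e3]
      simp
    have e2 : ∀ b ∈ range (2 ^ c), (-1 : ℤ) ^ (∑ j ∈ range (c + 1),
        (if j = c then (k : ZMod 2) else a j) * (((2 ^ c + b) / 2 ^ j : ℕ) : ZMod 2)).val *
        z ((2 ^ c + 2 ^ c) * u + (2 ^ c + b)) =
        (-1 : ℤ) ^ (k : ZMod 2).val * ((-1 : ℤ) ^ (∑ j ∈ range c, a j * ((b / 2 ^ j : ℕ) : ZMod 2)).val *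
          z (2 ^ c * (2 * u + 1) + b)) := by
      intro b hb
      rw [Finset.mem_range] at hb
      have h3 : (2 ^ c + b) / 2 ^ c = 1 := by
        rw [Nat.add_div_left _ (by positivity), Nat.div_eq_of_lt hb]
      rw [hd, h3, Nat.cast_one, mul_one]
      have h4 : ∑ j ∈ range c, a j * (((2 ^ c + b) / 2 ^ j : ℕ) : ZMod 2) =
          ∑ j ∈ range c, a j * ((b / 2 ^ j : ℕ) : ZMod 2) := by
        refine Finset.sum_congr rfl fun j hj => ?_
        rw [Finset.mem_range] at hj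
        rw [digit_lt hj]
      have e3 : (2 ^ c + 2 ^ c) * u + (2 ^ c + b) = 2 ^ c * (2 * u + 1) + b := by ring
      rw [h4, neg_one_pow_add, e3]
      ring
    rw [Finset.sum_congr rfl e1, Finset.sum_congr rfl e2, ← Finset.mul_sum, ← ha, ← ha]
    simp only [bf]
    by_cases hk : k % 2 = 0
    · rw [if_pos hk]
      have : (k : ZMod 2) = 0 := by
        rw [ZMod.natCast_eq_zero_iff]; omega
      rw [this]
      simp
    · rw [if_neg hk]
      have : (k : ZMod 2) = 1 := by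
        have h5 : ((k : ℕ) : ZMod 2) = ((1 : ℕ) : ZMod 2) :=
          (ZMod.natCast_eq_natCast_iff' _ _ 2).2 (by omega)
        simpa using h5
      rw [this]
      have h6 : (-1 : ℤ) ^ (1 : ZMod 2).val = -1 := by decide
      rw [h6]
      ring

/-- The full transform of the sign sequence consists of Walsh coefficients. -/
theorem bf_walsh (n : ℕ) (g : (Fin n → ZMod 2) → ZMod 2) (k : ℕ) :
    ∃ a : Fin n → ZMod 2, bf (sgn n g) n 0 k
      = ∑ x : Fin n → ZMod 2, (-1 : ℤ) ^ ((g x + ∑ i, a i * x i).val) := by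
  obtain ⟨a, ha⟩ := bf_aux n k
  refine ⟨fun i => a i, ?_⟩
  rw [ha, Finset.sum_range]
  refine Fintype.sum_bijective (fun w : Fin (2 ^ n) => bits n w) (bits_bij n) _ _ fun w => ?_
  rw [mul_zero, zero_add, neg_one_pow_add, mul_comm]
  congr 1
  rw [Finset.sum_range]
  rfl

end Pool.Agent.Helper291.Bent.J7
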