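import Mathlib
import Pool.Agent.Helper291.BentPolar
import Pool.Agent.Helper291.BentCount
import Pool.Agent.Helper291.BentPoly
import Pool.Agent.Helper291.BentWalsh

set_option autoImplicit false

namespace Pool.Agent.Helper291.Bent

open Finset

/-- The counting bound: a family with two-valued sequences whose transforms are two-valued is
small. -/
theorem family_small : ∃ C0 : ℕ, ∀ (Ω : Type) [Fintype Ω] [Nonempty Ω] (Z : Ω → ℕ → ℤ)
    (n k0 : ℕ) (q : ℤ), C0 ≤ n → 2 ^ n = 64 * k0 → q ≠ 0 →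
    (∀ w u, Z w u = 1 ∨ Z w u = -1) →
    (∀ w, ∀ k < 2 ^ n, bf (Z w) n 0 k = q ∨ bf (Z w) n 0 k = -q) →
    (∀ w w', (∀ v < 2 ^ n, Z w v = Z w' v) → w = w') →
    Fintype.card Ω ≤ 2 * 2 ^ (13 * k0) := by
  classical
  obtain ⟨C0, hC0⟩ := polar (1 / 128) (by norm_num) (by norm_num)
  refine ⟨C0, ?_⟩
  intro Ω _ _ Z n k0 q hn hk0 hq hZ hZq hinj
  obtain ⟨l, hl, G, hG, herr⟩ := hC0 Ω Z n hn hZ
  set R : ℕ := 2 ^ (n - l) with hR
  set U : Finset (ℕ × ℕ) := (range R) ×ˢ (range (2 ^ l)) with hU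
  have hUcard : U.card = 2 ^ n := by
    rw [hU, Finset.card_product, Finset.card_range, Finset.card_range, hR, ← pow_add]
    congr 1
    omega
  set e : Ω → ℕ := fun w => (pat Z l R G w).card with he
  have hk0pos : 0 < k0 := by
    rcases Nat.eq_zero_or_pos k0 with h | h
    · rw [h] at hk0
      have : 0 < 2 ^ n := by positivity
      omega
    · exact h
  have hk0r : (0 : ℝ) < (k0 : ℝ) := by exact_mod_cast hk0pos
  have hnr : (2 : ℝ) ^ n = 64 * k0 := by exact_mod_cast hk0
  have hesum : ∑ w, (e w : ℝ) ≤ (k0 : ℝ) / 2 * Fintype.card Ω := by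
    have h1 : ∑ w, (e w : ℝ) = ∑ u ∈ range R, ∑ k ∈ range (2 ^ l),
          ((univ.filter (fun w => bf (Z w) l u k ≠ G u k w)).card : ℝ) := by
      simp only [he, pat]
      have h2 : ∀ w : Ω, ((((range R) ×ˢ (range (2 ^ l))).filter
          (fun p => bf (Z w) l p.1 p.2 ≠ G p.1 p.2 w)).card : ℝ)
          = ∑ u ∈ range R, ∑ k ∈ range (2 ^ l), (if bf (Z w) l u k ≠ G u k w then (1 : ℝ) else 0) := by
        intro w
        rw [Finset.card_filter]
        push_cast
        rw [Finset.sum_product]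
      rw [Finset.sum_congr rfl (fun w _ => h2 w)]
      rw [Finset.sum_comm]
      apply Finset.sum_congr rfl
      intro u _
      rw [Finset.sum_comm]
      apply Finset.sum_congr rfl
      intro k _
      rw [Finset.card_filter]
      push_cast
      rfl
    rw [h1]
    refine le_trans herr (le_of_eq ?_)
    rw [hnr]
    ring
  -- Markov
  set bad : Finset Ω := univ.filter (fun w => k0 < e w) with hbad
  set good : Finset Ω := univ.filter (fun w => ¬ k0 < e w) with hgood
  have hsplit : (bad.card : ℝ) + good.card = Fintype.card Ω := by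
    have := Finset.card_filter_add_card_filter_not (s := (univ : Finset Ω)) (fun w => k0 < e w)
    rw [← hbad, ← hgood, Finset.card_univ] at this
    exact_mod_cast this
  have hmarkov : (bad.card : ℝ) ≤ Fintype.card Ω / 2 := by
    have h1 : (k0 : ℝ) * bad.card ≤ ∑ w, (e w : ℝ) := by
      calc (k0 : ℝ) * bad.card = ∑ w ∈ bad, (k0 : ℝ) := by
            rw [Finset.sum_const, nsmul_eq_mul]; ring
        _ ≤ ∑ w ∈ bad, (e w : ℝ) := by
            apply Finset.sum_le_sum
            intro w hw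
            rw [hbad, Finset.mem_filter] at hw
            exact_mod_cast hw.2.le
        _ ≤ ∑ w, (e w : ℝ) := by
            apply Finset.sum_le_sum_of_subset_of_nonneg (Finset.subset_univ _)
            intro w _ _
            positivity
    have h2 : (k0 : ℝ) * bad.card ≤ k0 * (Fintype.card Ω / 2) := by
      calc (k0 : ℝ) * bad.card ≤ _ := h1
        _ ≤ _ := hesum
        _ = _ := by ring
    exact le_of_mul_le_mul_left h2 hk0r
  have hgoodge : (Fintype.card Ω : ℝ) / 2 ≤ good.card := by linarith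
  -- weighted count
  have hweight : ∑ w : Ω, ((1 : ℝ) / 32) ^ (e w) ≤ (17 / 16) ^ (2 ^ n) := by
    have h1 : ∑ w : Ω, ((1 : ℝ) / 32) ^ (e w)
        = ∑ P ∈ U.powerset, ∑ w ∈ univ.filter (fun w => pat Z l R G w = P),
            ((1 : ℝ) / 32) ^ (e w) := by
      rw [Finset.sum_fiberwise_of_maps_to]
      intro w _
      rw [Finset.mem_powerset]
      exact Finset.filter_subset _ _
    rw [h1]
    calc ∑ P ∈ U.powerset, ∑ w ∈ univ.filter (fun w => pat Z l R G w = P),
            ((1 : ℝ) / 32) ^ (e w)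
        ≤ ∑ P ∈ U.powerset, ((1 : ℝ) / 16) ^ P.card * 1 ^ (U.card - P.card) := by
          apply Finset.sum_le_sum
          intro P hP
          rw [Finset.mem_powerset] at hP
          have h2 := pat_count Z n l hl q hq hZq hinj G hG P hP
          have h3 : ∑ w ∈ univ.filter (fun w => pat Z l R G w = P), ((1 : ℝ) / 32) ^ (e w)
              = ((univ.filter (fun w => pat Z l R G w = P)).card : ℝ) * (1 / 32) ^ P.card := by
            rw [← nsmul_eq_mul, ← Finset.sum_const]
            apply Finset.sum_congr rfl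
            intro w hw
            rw [Finset.mem_filter] at hw
            simp only [he]
            rw [hw.2]
          rw [h3, one_pow, mul_one]
          have h4 : ((univ.filter (fun w => pat Z l R G w = P)).card : ℝ) ≤ 2 ^ P.card := by
            exact_mod_cast h2
          calc ((univ.filter (fun w => pat Z l R G w = P)).card : ℝ) * (1 / 32) ^ P.card
              ≤ 2 ^ P.card * (1 / 32) ^ P.card :=
                mul_le_mul_of_nonneg_right h4 (by positivity)
            _ = (1 / 16) ^ P.card := by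
                rw [← mul_pow]
                norm_num
      _ = (1 / 16 + 1) ^ U.card := Finset.sum_pow_mul_eq_add_pow _ _ _
      _ = (17 / 16) ^ (2 ^ n) := by
          rw [hUcard]
          norm_num
  have hlow : (good.card : ℝ) * (1 / 32) ^ k0 ≤ ∑ w : Ω, ((1 : ℝ) / 32) ^ (e w) := by
    calc (good.card : ℝ) * (1 / 32) ^ k0 = ∑ w ∈ good, ((1 : ℝ) / 32) ^ k0 := by
          rw [Finset.sum_const, nsmul_eq_mul]
      _ ≤ ∑ w ∈ good, ((1 : ℝ) / 32) ^ (e w) := by
          apply Finset.sum_le_sum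
          intro w hw
          rw [hgood, Finset.mem_filter] at hw
          apply pow_le_pow_of_le_one (by norm_num) (by norm_num)
          omega
      _ ≤ ∑ w : Ω, ((1 : ℝ) / 32) ^ (e w) := by
          apply Finset.sum_le_sum_of_subset_of_nonneg (Finset.subset_univ _)
          intro w _ _
          positivity
  have h17 : ((17 : ℝ) / 16) ^ (2 ^ n) ≤ 2 ^ (8 * k0) := by
    rw [hk0, show 64 * k0 = 8 * (8 * k0) by ring, pow_mul]
    apply pow_le_pow_left₀ (by positivity)
    norm_num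
  have hfinal : (Fintype.card Ω : ℝ) ≤ 2 * 2 ^ (13 * k0) := by
    have h1 : (good.card : ℝ) * (1 / 32) ^ k0 ≤ 2 ^ (8 * k0) := by linarith
    have h2 : (good.card : ℝ) ≤ 2 ^ (13 * k0) := by
      have h3 : ((1 : ℝ) / 32) ^ k0 * 2 ^ (5 * k0) = 1 := by
        rw [pow_mul, ← mul_pow]
        norm_num
      calc (good.card : ℝ) = (good.card : ℝ) * ((1 / 32) ^ k0 * 2 ^ (5 * k0)) := by rw [h3, mul_one]
        _ = (good.card : ℝ) * (1 / 32) ^ k0 * 2 ^ (5 * k0) := by ring
        _ ≤ 2 ^ (8 * k0) * 2 ^ (5 * k0) := mul_le_mul_of_nonneg_right h1 (by positivity)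
        _ = 2 ^ (13 * k0) := by
            rw [← pow_add]
            congr 1
            ring
    linarith
  exact_mod_cast hfinal

/-- A bent function, in the form of the frozen statement. -/
def IsBent (m : ℕ) (g : (Fin (2 * m) → ZMod 2) → ZMod 2) : Prop :=
  ∀ a : Fin (2 * m) → ZMod 2,
    (∑ x : Fin (2 * m) → ZMod 2, (-1 : ℤ) ^ ((g x + ∑ i, a i * x i).val)) ^ 2 = 2 ^ (2 * m)

/-- For large `m` the number of bent functions is small. -/
theorem bent_small : ∃ C0 : ℕ, ∀ m : ℕ, C0 ≤ 2 * m → 3 ≤ m →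
    Nat.card {g : (Fin (2 * m) → ZMod 2) → ZMod 2 // IsBent m g}
      ≤ 2 * 2 ^ (13 * 2 ^ (2 * m - 6)) := by
  classical
  obtain ⟨C0, hC0⟩ := family_small
  refine ⟨C0, ?_⟩
  intro m hm hm3
  set Ω := {g : (Fin (2 * m) → ZMod 2) → ZMod 2 // IsBent m g} with hΩ
  have : Fintype Ω := Fintype.ofFinite Ω
  rw [Nat.card_eq_fintype_card]
  by_cases hne : Nonempty Ω
  · apply hC0 Ω (fun g => sgn (2 * m) g.1) (2 * m) (2 ^ (2 * m - 6)) (2 ^ m) hm
    · rw [show (64 : ℕ) = 2 ^ 6 by norm_num, ← pow_add]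
      congr 1
      omega
    · positivity
    · intro w u
      unfold sgn
      exact neg_one_pow_eq_or ℤ _
    · intro w k _
      obtain ⟨a, ha⟩ := J7.bf_walsh (2 * m) w.1 k
      have h1 := w.2 a
      rw [← ha] at h1
      have h2 : (bf (sgn (2 * m) w.1) (2 * m) 0 k) ^ 2 = ((2 : ℤ) ^ m) ^ 2 := by
        rw [h1, ← pow_mul, mul_comm m 2]
      exact sq_eq_sq_iff_eq_or_eq_neg.mp h2
    · intro w w' h
      exact Subtype.ext (J7.sgn_inj (2 * m) w.1 w'.1 h)
  · rw [not_nonempty_iff] at hne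
    rw [Fintype.card_eq_zero]
    positivity

theorem not_all_sum : ¬ (∀ m : ℕ, 1 ≤ m →
      ∀ f : (Fin (2 * m) → ZMod 2) → ZMod 2,
        (∃ p : MvPolynomial (Fin (2 * m)) (ZMod 2),
            p.totalDegree ≤ m ∧ ∀ x, MvPolynomial.eval x p = f x) →
        ∃ g h : (Fin (2 * m) → ZMod 2) → ZMod 2,
          IsBent m g ∧ IsBent m h ∧ ∀ x, f x = g x + h x) := by
  classical
  intro hall
  obtain ⟨C0, hC0⟩ := bent_small
  set m : ℕ := C0 + 3 with hm
  have h1 := hC0 m (by omega) (by omega)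
  have h2 := J6.card_lowdeg m (by omega)
  have h3 := hall m (by omega)
  set A := {f : (Fin (2 * m) → ZMod 2) → ZMod 2 //
        ∃ p : MvPolynomial (Fin (2 * m)) (ZMod 2),
            p.totalDegree ≤ m ∧ ∀ x, MvPolynomial.eval x p = f x} with hA
  set B := {g : (Fin (2 * m) → ZMod 2) → ZMod 2 // IsBent m g} with hB
  -- surjection from pairs
  have h4 : Nat.card A ≤ Nat.card B * Nat.card B := by
    rw [← Nat.card_prod]
    have h5 : ∀ f : A, ∃ p : B × B, ∀ x, f.1 x = p.1.1 x + p.2.1 x := by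
      intro f
      obtain ⟨g, h, hg, hh, hs⟩ := h3 f.1 f.2
      exact ⟨(⟨g, hg⟩, ⟨h, hh⟩), hs⟩
    choose F hF using h5
    apply Nat.card_le_card_of_injective F
    intro f f' hff
    apply Subtype.ext
    funext x
    rw [hF f x, hF f' x, hff]
  have h5 : 2 ^ (2 ^ (2 * m - 1)) ≤ (2 * 2 ^ (13 * 2 ^ (2 * m - 6))) * (2 * 2 ^ (13 * 2 ^ (2 * m - 6))) :=
    le_trans h2 (le_trans h4 (Nat.mul_le_mul h1 h1))
  set k0 : ℕ := 2 ^ (2 * m - 6) with hk0
  have h6 : 2 ^ (2 * m - 1) = 32 * k0 := by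
    rw [hk0, show (32 : ℕ) = 2 ^ 5 by norm_num, ← pow_add]
    congr 1
    omega
  have hk0pos : 0 < k0 := by positivity
  rw [h6] at h5
  have h7 : (2 * 2 ^ (13 * k0)) * (2 * 2 ^ (13 * k0)) = 2 ^ (26 * k0 + 2) := by
    ring
  rw [h7] at h5
  have h8 := (Nat.pow_le_pow_iff_right (by norm_num : 1 < 2)).mp h5
  omega

end Pool.Agent.Helper291.Bent
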