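import Mathlib

set_option autoImplicit false

namespace Pool.Agent.Helper291.IPRCore

/-- p-adic valuation of an integer (0 at 0) -/
def val (p : ℕ) (z : ℤ) : ℕ := padicValInt p z

theorem le_val_iff {p : ℕ} (hp : p.Prime) {z : ℤ} (hz : z ≠ 0) (n : ℕ) :
    n ≤ val p z ↔ (p : ℤ) ^ n ∣ z := by
  have : Fact p.Prime := ⟨hp⟩
  unfold val
  rw [padicValInt_dvd_iff]
  simp [hz]

theorem pow_val_dvd {p : ℕ} (hp : p.Prime) {z : ℤ} : (p : ℤ) ^ (val p z) ∣ z := by
  have : Fact p.Prime := ⟨hp⟩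
  exact padicValInt_dvd z

theorem val_mul {p : ℕ} (hp : p.Prime) {a b : ℤ} (ha : a ≠ 0) (hb : b ≠ 0) :
    val p (a * b) = val p a + val p b := by
  have : Fact p.Prime := ⟨hp⟩
  exact padicValInt.mul ha hb

theorem pow_val_le {p : ℕ} (hp : p.Prime) {z : ℤ} (hz : z ≠ 0) : p ^ (val p z) ≤ z.natAbs := by
  have h := pow_val_dvd hp (z := z)
  have h2 : ((p ^ (val p z) : ℕ) : ℤ) ∣ z := by push_cast; exact h
  exact Nat.le_of_dvd (Int.natAbs_pos.2 hz) (Int.natCast_dvd.1 h2)

theorem val_lt_natAbs {p : ℕ} (hp : p.Prime) {z : ℤ} (hz : z ≠ 0) : val p z < z.natAbs :=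
  lt_of_lt_of_le (Nat.lt_pow_self hp.one_lt) (pow_val_le hp hz)

theorem val_add {p : ℕ} (hp : p.Prime) {a b : ℤ} (ha : a ≠ 0) (hb : b ≠ 0)
    (h : val p a < val p b) : a + b ≠ 0 ∧ val p (a + b) = val p a := by
  have h1 : a + b ≠ 0 := by
    intro h0
    have h2 : (p : ℤ) ^ (val p b) ∣ a := by
      have : a = - b := by linarith
      rw [this]
      exact (dvd_neg).2 (pow_val_dvd hp)
    have := (le_val_iff hp ha _).2 h2
    omega
  refine ⟨h1, le_antisymm ?_ ?_⟩
  · by_contra hcon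
    push Not at hcon
    have h2 : (p : ℤ) ^ (val p a + 1) ∣ a + b := (le_val_iff hp h1 _).1 hcon
    have h3 : (p : ℤ) ^ (val p a + 1) ∣ b := (le_val_iff hp hb _).1 h
    have h4 : (p : ℤ) ^ (val p a + 1) ∣ a := by
      have := dvd_sub h2 h3
      simpa using this
    have := (le_val_iff hp ha _).2 h4
    omega
  · rw [le_val_iff hp h1]
    exact dvd_add (pow_val_dvd hp) ((le_val_iff hp hb _).1 h.le)

theorem val_neg (p : ℕ) (z : ℤ) : val p (-z) = val p z := by
  unfold val padicValInt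
  rw [Int.natAbs_neg]

theorem prod_pow_dvd (P : Finset ℕ) (hP : ∀ p ∈ P, p.Prime) (e : ℕ → ℕ) (w : ℤ)
    (h : ∀ p ∈ P, (p : ℤ) ^ (e p) ∣ w) : ((∏ p ∈ P, p ^ (e p) : ℕ) : ℤ) ∣ w := by
  push_cast
  apply Finset.prod_dvd_of_coprime
  · intro p hp q hq hpq
    have h1 : IsCoprime (p : ℤ) (q : ℤ) :=
      Nat.isCoprime_iff_coprime.2 ((Nat.coprime_primes (hP p hp) (hP q hq)).2 hpq)
    exact h1.pow
  · intro p hp
    exact h p hp

/-- The P-part of an integer. -/
def NP (P : Finset ℕ) (z : ℤ) : ℕ := ∏ p ∈ P, p ^ (val p z)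

theorem NP_pos (P : Finset ℕ) (hP : ∀ p ∈ P, p.Prime) (z : ℤ) : 0 < NP P z := by
  unfold NP
  exact Finset.prod_pos (fun p hp => pow_pos (hP p hp).pos _)

theorem NP_dvd (P : Finset ℕ) (hP : ∀ p ∈ P, p.Prime) (z : ℤ) : ((NP P z : ℕ) : ℤ) ∣ z :=
  prod_pow_dvd P hP _ z (fun p hp => pow_val_dvd (hP p hp))

theorem NP_le (P : Finset ℕ) (hP : ∀ p ∈ P, p.Prime) {z : ℤ} (hz : z ≠ 0) : NP P z ≤ z.natAbs :=
  Nat.le_of_dvd (Int.natAbs_pos.2 hz) (Int.natCast_dvd.1 (NP_dvd P hP z))

/-- the bound attached to a prime `p`. -/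
def bd (P : Finset ℕ) (x r s : ℤ) (p : ℕ) : ℕ :=
  p ^ (val p (x - s)) * ∏ q ∈ P.erase p, q ^ (val q (x - r))

/-- `s` is a successor of `r` relative to `x`. -/
def Succ (P : Finset ℕ) (K : ℕ) (x r s : ℤ) : Prop :=
  s ≠ x ∧ (∀ p ∈ P, val p (x - r) < val p (x - s)) ∧ ∀ p ∈ P, K * s.natAbs ≤ bd P x r s p

/-- minimal successor. -/
def Step (P : Finset ℕ) (K : ℕ) (x r s : ℤ) : Prop :=
  Succ P K x r s ∧ ∀ s', Succ P K x r s' → s' ≠ s → ∀ p ∈ P, val p (x - s) < val p (x - s')

/-- reachable from zero. -/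
def Reach (P : Finset ℕ) (K : ℕ) (x r : ℤ) : Prop := Relation.ReflTransGen (Step P K x) 0 r

structure Ctx (P : Finset ℕ) (K : ℕ) : Prop where
  prime : ∀ p ∈ P, p.Prime
  ne : P.Nonempty
  kprime : K.Prime
  knot : K ∉ P
  k3 : 3 ≤ K

variable {P : Finset ℕ} {K : ℕ}

theorem bd_le_NP (hc : Ctx P K) {x r s : ℤ} (h : Succ P K x r s) {p : ℕ} (hp : p ∈ P) :
    bd P x r s p ≤ NP P (x - s) := by
  unfold bd NP
  rw [← Finset.mul_prod_erase P _ hp]
  apply Nat.mul_le_mul_left
  apply Finset.prod_le_prod'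
  intro q hq
  exact Nat.pow_le_pow_right (hc.prime q (Finset.mem_of_mem_erase hq)).pos
    (h.2.1 q (Finset.mem_of_mem_erase hq)).le

theorem succ_bound (hc : Ctx P K) {x r s : ℤ} (h : Succ P K x r s) :
    K * s.natAbs ≤ NP P (x - s) := by
  obtain ⟨p, hp⟩ := hc.ne
  exact (h.2.2 p hp).trans (bd_le_NP hc h hp)

theorem succ_natAbs (hc : Ctx P K) {x r s : ℤ} (h : Succ P K x r s) :
    (K - 1) * s.natAbs ≤ x.natAbs := by
  have h1 := succ_bound hc h
  have h2 : NP P (x - s) ≤ (x - s).natAbs := NP_le P hc.prime (sub_ne_zero.2 h.1.symm)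
  have h3 : (x - s).natAbs ≤ x.natAbs + s.natAbs := Int.natAbs_sub_le x s
  have h4 := hc.k3
  obtain ⟨k, rfl⟩ : ∃ k, K = k + 1 := ⟨K - 1, by omega⟩
  have : (k + 1) * s.natAbs = k * s.natAbs + s.natAbs := by ring
  simp only [Nat.add_sub_cancel]
  omega

/-- comparability lemma -/
theorem succ_comp (hc : Ctx P K) {x r s1 s2 : ℤ} (h1 : Succ P K x r s1) (h2 : Succ P K x r s2)
    (hne : s1 ≠ s2) (hle : s1.natAbs ≤ s2.natAbs) :
    ∀ p ∈ P, val p (x - s1) < val p (x - s2) := by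
  intro p hp
  by_contra hcon
  push Not at hcon
  have hx1 : x - s1 ≠ 0 := sub_ne_zero.2 h1.1.symm
  have hx2 : x - s2 ≠ 0 := sub_ne_zero.2 h2.1.symm
  set e : ℕ → ℕ := fun q => if q = p then val p (x - s2) else val q (x - r) with he
  have hprod : ∏ q ∈ P, q ^ (e q) = bd P x r s2 p := by
    unfold bd
    rw [← Finset.mul_prod_erase P _ hp]
    congr 1
    · simp [he]
    · apply Finset.prod_congr rfl
      intro q hq
      have : q ≠ p := Finset.ne_of_mem_erase hq
      simp [he, this]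
  have hdvd : ((∏ q ∈ P, q ^ (e q) : ℕ) : ℤ) ∣ (s1 - s2) := by
    apply prod_pow_dvd P hc.prime
    intro q hq
    have hq' := hc.prime q hq
    have e1 : (q : ℤ) ^ (e q) ∣ x - s1 := by
      rw [← le_val_iff hq' hx1]
      by_cases hqp : q = p
      · subst hqp; simp [he]; exact hcon
      · simp [he, hqp]; exact (h1.2.1 q hq).le
    have e2 : (q : ℤ) ^ (e q) ∣ x - s2 := by
      rw [← le_val_iff hq' hx2]
      by_cases hqp : q = p
      · subst hqp; simp [he]
      · simp [he, hqp]; exact (h2.2.1 q hq).le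
    have := dvd_sub e2 e1
    have e3 : x - s2 - (x - s1) = s1 - s2 := by ring
    rwa [e3] at this
  rw [hprod] at hdvd
  have h5 : bd P x r s2 p ≤ (s1 - s2).natAbs :=
    Nat.le_of_dvd (Int.natAbs_pos.2 (sub_ne_zero.2 hne)) (Int.natCast_dvd.1 hdvd)
  have h6 : (s1 - s2).natAbs ≤ s1.natAbs + s2.natAbs := Int.natAbs_sub_le s1 s2
  have h7 := h2.2.2 p hp
  have h8 : 3 * s2.natAbs ≤ K * s2.natAbs := Nat.mul_le_mul_right _ hc.k3
  have h9 : s2.natAbs = 0 := by omega
  have h10 : s1.natAbs = 0 := by omega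
  apply hne
  rw [Int.natAbs_eq_zero.1 h9, Int.natAbs_eq_zero.1 h10]

theorem step_exists (hc : Ctx P K) {x r : ℤ} (h : ∃ s, Succ P K x r s) : ∃ s, Step P K x r s := by
  classical
  have h' : ∃ n : ℕ, ∃ s, Succ P K x r s ∧ s.natAbs = n := by
    obtain ⟨s, hs⟩ := h
    exact ⟨_, s, hs, rfl⟩
  obtain ⟨s, hs, hsn⟩ := Nat.find_spec h'
  refine ⟨s, hs, ?_⟩
  intro s' hs' hne
  apply succ_comp hc hs hs' hne.symm
  rw [hsn]
  exact Nat.find_min' h' ⟨s', hs', rfl⟩

theorem step_unique (hc : Ctx P K) {x r s s' : ℤ} (h : Step P K x r s) (h' : Step P K x r s') :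
    s = s' := by
  by_contra hne
  obtain ⟨p, hp⟩ := hc.ne
  have h1 := h.2 s' h'.1 (Ne.symm hne) p hp
  have h2 := h'.2 s h.1 hne p hp
  omega

theorem reach_props (hc : Ctx P K) {x r : ℤ} (hx : x ≠ 0) (h : Reach P K x r) :
    r ≠ x ∧ (∀ p ∈ P, val p x ≤ val p (x - r)) ∧ (K - 1) * r.natAbs ≤ x.natAbs := by
  induction h with
  | refl => exact ⟨hx.symm, fun p _ => by simp, by simp⟩
  | tail _ hstep ih =>
    refine ⟨hstep.1.1, fun p hp => (ih.2.1 p hp).trans (hstep.1.2.1 p hp).le, succ_natAbs hc hstep.1⟩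

theorem reach_natAbs_le (hc : Ctx P K) {x r : ℤ} (hx : x ≠ 0) (h : Reach P K x r) :
    2 * r.natAbs ≤ x.natAbs := by
  have h1 := (reach_props hc hx h).2.2
  have h2 : 2 * r.natAbs ≤ (K - 1) * r.natAbs := Nat.mul_le_mul_right _ (by have := hc.k3; omega)
  omega

/-- last element of the chain -/
def IsLast (P : Finset ℕ) (K : ℕ) (x r : ℤ) : Prop := Reach P K x r ∧ ∀ s, ¬ Succ P K x r s

theorem exists_last (hc : Ctx P K) {x : ℤ} (hx : x ≠ 0) : ∃ r, IsLast P K x r := by
  classical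
  obtain ⟨p, hp⟩ := hc.ne
  have hbdd : ∀ n : ℕ, (∃ r, Reach P K x r ∧ val p (x - r) = n) → n ≤ 2 * x.natAbs := by
    rintro n ⟨r, hr, rfl⟩
    have h1 := reach_natAbs_le hc hx hr
    have h2 := val_lt_natAbs (hc.prime p hp) (sub_ne_zero.2 (reach_props hc hx hr).1.symm)
    have h3 : (x - r).natAbs ≤ x.natAbs + r.natAbs := Int.natAbs_sub_le x r
    omega
  have hex : ∃ n : ℕ, ∃ r, Reach P K x r ∧ val p (x - r) = n := ⟨_, 0, Relation.ReflTransGen.refl, rfl⟩
  set m := Nat.findGreatest (fun n => ∃ r, Reach P K x r ∧ val p (x - r) = n) (2 * x.natAbs) with hm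
  obtain ⟨n0, hn0⟩ := hex
  obtain ⟨r, hr, hrm⟩ : ∃ r, Reach P K x r ∧ val p (x - r) = m :=
    Nat.findGreatest_spec (P := fun n => ∃ r, Reach P K x r ∧ val p (x - r) = n) (hbdd n0 hn0) hn0
  refine ⟨r, hr, ?_⟩
  intro s hs
  obtain ⟨s', hs'⟩ := step_exists hc ⟨s, hs⟩
  have h1 : Reach P K x s' := Relation.ReflTransGen.tail hr hs'
  have h2 := hs'.1.2.1 p hp
  have h3 : val p (x - s') ≤ m :=
    Nat.le_findGreatest (hbdd _ ⟨s', h1, rfl⟩) ⟨s', h1, rfl⟩
  omega

/-- the chain is linear: two reachable elements are comparable under reachability -/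
theorem reach_total (hc : Ctx P K) {x r r' : ℤ} (h : Reach P K x r) (h' : Reach P K x r') :
    Relation.ReflTransGen (Step P K x) r r' ∨ Relation.ReflTransGen (Step P K x) r' r :=
  Relation.ReflTransGen.total_of_right_unique (fun _ _ _ h1 h2 => step_unique hc h1 h2) h h'

theorem last_unique (hc : Ctx P K) {x r r' : ℤ} (h : IsLast P K x r) (h' : IsLast P K x r') :
    r = r' := by
  rcases reach_total hc h.1 h'.1 with h1 | h1
  · rcases Relation.ReflTransGen.cases_head h1 with h2 | ⟨s, hs, _⟩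
    · exact h2
    · exact absurd hs.1 (h.2 s)
  · rcases Relation.ReflTransGen.cases_head h1 with h2 | ⟨s, hs, _⟩
    · exact h2.symm
    · exact absurd hs.1 (h'.2 s)


/-- `t` is far beyond `u`. -/
structure Far (P : Finset ℕ) (K : ℕ) (u t : ℤ) : Prop where
  hu : u ≠ 0
  ht : t ≠ 0
  big : ∀ p ∈ P, K * u.natAbs < p ^ (val p t)

theorem low_val (hc : Ctx P K) {u t s : ℤ} (ht : t ≠ 0) (hs : s ≠ u) {p : ℕ} (hp : p ∈ P)
    (h : val p (u - s) < val p t) :
    u + t - s ≠ 0 ∧ val p (u + t - s) = val p (u - s) := by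
  have h1 := val_add (hc.prime p hp) (sub_ne_zero.2 hs.symm) ht h
  have e : u + t - s = (u - s) + t := by ring
  rw [e]; exact h1

theorem low_small (hc : Ctx P K) {u t s : ℤ} (hf : Far P K u t) (hs : s ≠ u)
    (hle : s.natAbs ≤ u.natAbs) {p : ℕ} (hp : p ∈ P) : val p (u - s) < val p t := by
  have h1 := pow_val_le (hc.prime p hp) (sub_ne_zero.2 hs.symm)
  have h2 : (u - s).natAbs ≤ u.natAbs + s.natAbs := Int.natAbs_sub_le u s
  have h3 := hf.big p hp
  have h4 : 3 * u.natAbs ≤ K * u.natAbs := Nat.mul_le_mul_right _ hc.k3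
  have h5 : p ^ val p (u - s) < p ^ val p t := by omega
  exact (Nat.pow_lt_pow_iff_right (hc.prime p hp).one_lt).1 h5

theorem far_ne (hc : Ctx P K) {u t : ℤ} (hf : Far P K u t) : u + t ≠ 0 := by
  obtain ⟨p, hp⟩ := hc.ne
  have h := low_small hc hf (s := 0) hf.hu.symm (by simp) hp
  have := (low_val hc hf.ht hf.hu.symm hp h).1
  simpa using this

theorem bd_eq {x x' r r' s s' : ℤ} (p : ℕ) (hp : p ∈ P)
    (h1 : ∀ q ∈ P, val q (x - r) = val q (x' - r'))
    (h2 : ∀ q ∈ P, val q (x - s) = val q (x' - s')) : bd P x r s p = bd P x' r' s' p := by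
  unfold bd
  rw [h2 p hp]
  congr 1
  apply Finset.prod_congr rfl
  intro q hq
  rw [h1 q (Finset.mem_of_mem_erase hq)]

theorem succ_small (hc : Ctx P K) {x r s : ℤ} (h : Succ P K x r s) : 2 * s.natAbs ≤ x.natAbs := by
  have h1 := succ_natAbs hc h
  have h2 : 2 * s.natAbs ≤ (K - 1) * s.natAbs := Nat.mul_le_mul_right _ (by have := hc.k3; omega)
  omega

theorem succ_low (hc : Ctx P K) {u t r s : ℤ} (hf : Far P K u t) (hr : r ≠ u)
    (hrle : r.natAbs ≤ u.natAbs) (h : Succ P K u r s) : Succ P K (u + t) r s := by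
  have hsle : s.natAbs ≤ u.natAbs := by have := succ_small hc h; omega
  have hvr : ∀ q ∈ P, val q (u + t - r) = val q (u - r) := fun q hq =>
    (low_val hc hf.ht hr hq (low_small hc hf hr hrle hq)).2
  have hvs : ∀ q ∈ P, val q (u + t - s) = val q (u - s) := fun q hq =>
    (low_val hc hf.ht h.1 hq (low_small hc hf h.1 hsle hq)).2
  refine ⟨?_, ?_, ?_⟩
  · obtain ⟨p, hp⟩ := hc.ne
    have := (low_val hc hf.ht h.1 hp (low_small hc hf h.1 hsle hp)).1
    intro h'; apply this; rw [h']; ring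
  · intro p hp
    rw [hvr p hp, hvs p hp]; exact h.2.1 p hp
  · intro p hp
    rw [bd_eq p hp hvr hvs]; exact h.2.2 p hp

theorem succ_mid (hc : Ctx P K) {u t r : ℤ} (hf : Far P K u t) (hr : r ≠ u)
    (hrle : r.natAbs ≤ u.natAbs) : Succ P K (u + t) r u := by
  have hvr : ∀ q ∈ P, val q (u + t - r) = val q (u - r) := fun q hq =>
    (low_val hc hf.ht hr hq (low_small hc hf hr hrle hq)).2
  have e : u + t - u = t := by ring
  refine ⟨?_, ?_, ?_⟩
  · intro h; apply hf.ht; linarith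
  · intro p hp
    rw [hvr p hp, e]
    exact low_small hc hf hr hrle hp
  · intro p hp
    unfold bd
    rw [e]
    have h1 := hf.big p hp
    have h2 : 0 < ∏ q ∈ P.erase p, q ^ (val q (u + t - r)) :=
      Finset.prod_pos (fun q hq => pow_pos (hc.prime q (Finset.mem_of_mem_erase hq)).pos _)
    calc K * u.natAbs ≤ p ^ (val p t) * 1 := by rw [mul_one]; exact h1.le
      _ ≤ _ := Nat.mul_le_mul_left _ h2

theorem succ_cases (hc : Ctx P K) {u t r s : ℤ} (hf : Far P K u t) (hr : r ≠ u)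
    (hrle : r.natAbs ≤ u.natAbs) (h : Succ P K (u + t) r s) :
    Succ P K u r s ∨ s = u ∨ u.natAbs < s.natAbs := by
  by_cases hsu : s = u
  · exact Or.inr (Or.inl hsu)
  by_cases hlow : ∀ p ∈ P, val p (u - s) < val p t
  · left
    have hvr : ∀ q ∈ P, val q (u + t - r) = val q (u - r) := fun q hq =>
      (low_val hc hf.ht hr hq (low_small hc hf hr hrle hq)).2
    have hvs : ∀ q ∈ P, val q (u + t - s) = val q (u - s) := fun q hq =>
      (low_val hc hf.ht hsu hq (hlow q hq)).2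
    refine ⟨hsu, ?_, ?_⟩
    · intro p hp
      rw [← hvr p hp, ← hvs p hp]; exact h.2.1 p hp
    · intro p hp
      rw [← bd_eq p hp hvr hvs]; exact h.2.2 p hp
  · right; right
    push Not at hlow
    obtain ⟨p, hp, hpv⟩ := hlow
    have h1 := pow_val_le (hc.prime p hp) (sub_ne_zero.2 (Ne.symm hsu))
    have h2 : p ^ (val p t) ≤ p ^ (val p (u - s)) :=
      Nat.pow_le_pow_right (hc.prime p hp).pos hpv
    have h3 := hf.big p hp
    have h4 : 3 * u.natAbs ≤ K * u.natAbs := Nat.mul_le_mul_right _ hc.k3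
    have h5 : (u - s).natAbs ≤ u.natAbs + s.natAbs := Int.natAbs_sub_le u s
    have h6 := Int.natAbs_pos.2 hf.hu
    omega

theorem step_low (hc : Ctx P K) {u t r s : ℤ} (hf : Far P K u t) (hr : r ≠ u)
    (hrle : r.natAbs ≤ u.natAbs) (h : Step P K u r s) : Step P K (u + t) r s := by
  have hS := succ_low hc hf hr hrle h.1
  have hsle : s.natAbs ≤ u.natAbs := by have := succ_small hc h.1; omega
  have hvs : ∀ q ∈ P, val q (u + t - s) = val q (u - s) := fun q hq =>
    (low_val hc hf.ht h.1.1 hq (low_small hc hf h.1.1 hsle hq)).2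
  refine ⟨hS, ?_⟩
  intro s' hs' hne p hp
  rcases succ_cases hc hf hr hrle hs' with h1 | h1 | h1
  · have hsle' : s'.natAbs ≤ u.natAbs := by have := succ_small hc h1; omega
    rw [hvs p hp, (low_val hc hf.ht h1.1 hp (low_small hc hf h1.1 hsle' hp)).2]
    exact h.2 s' h1 hne p hp
  · rw [h1, hvs p hp]
    have e : u + t - u = t := by ring
    rw [e]
    exact low_small hc hf h.1.1 hsle hp
  · exact succ_comp hc hS hs' hne.symm (by omega) p hp

theorem step_mid (hc : Ctx P K) {u t r : ℤ} (hf : Far P K u t) (hr : r ≠ u)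
    (hrle : r.natAbs ≤ u.natAbs) (h : ∀ s, ¬ Succ P K u r s) : Step P K (u + t) r u := by
  refine ⟨succ_mid hc hf hr hrle, ?_⟩
  intro s' hs' hne p hp
  rcases succ_cases hc hf hr hrle hs' with h1 | h1 | h1
  · exact absurd h1 (h s')
  · exact absurd h1 hne
  · exact succ_comp hc (succ_mid hc hf hr hrle) hs' hne.symm h1.le p hp

theorem step_cases (hc : Ctx P K) {u t r s : ℤ} (hf : Far P K u t) (hr : r ≠ u)
    (hrle : r.natAbs ≤ u.natAbs) (h : Step P K (u + t) r s) :
    Step P K u r s ∨ (s = u ∧ ∀ s', ¬ Succ P K u r s') := by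
  by_cases hex : ∃ s', Succ P K u r s'
  · left
    obtain ⟨s', hs'⟩ := step_exists hc hex
    have := step_low hc hf hr hrle hs'
    rw [step_unique hc h this]
    exact hs'
  · right
    push Not at hex
    exact ⟨step_unique hc h (step_mid hc hf hr hrle hex), hex⟩

/-- successors in the high part -/
theorem succ_high (hc : Ctx P K) {u t r s : ℤ} (hf : Far P K u t)
    (hr : ∀ p ∈ P, val p t ≤ val p (t - r)) :
    Succ P K (u + t) (u + r) (u + s) ↔ Succ P K t r s := by
  have er : u + t - (u + r) = t - r := by ring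
  have es : u + t - (u + s) = t - s := by ring
  -- facts valid under the valuation condition
  have key : s ≠ t → (∀ p ∈ P, val p (t - r) < val p (t - s)) → ∀ p ∈ P,
      (K * (u + s).natAbs ≤ bd P t r s p ↔ K * s.natAbs ≤ bd P t r s p) := by
    intro hst hv p hp
    have hts : t - s ≠ 0 := sub_ne_zero.2 hst.symm
    have hs0 : s ≠ 0 := by
      rintro rfl
      have h1 := hv p hp
      have h2 := hr p hp
      rw [sub_zero] at h1
      omega
    set N := NP P t with hN
    have hNs : (N : ℤ) ∣ s := by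
      apply prod_pow_dvd P hc.prime
      intro q hq
      have h1 : (q : ℤ) ^ (val q t) ∣ t := pow_val_dvd (hc.prime q hq)
      have h2 : (q : ℤ) ^ (val q t) ∣ t - s :=
        (le_val_iff (hc.prime q hq) hts _).1 ((hr q hq).trans (hv q hq).le)
      have := dvd_sub h1 h2
      simpa using this
    have hNQ : N ∣ bd P t r s p := by
      rw [hN]
      unfold bd NP
      rw [← Finset.mul_prod_erase P _ hp]
      apply Nat.mul_dvd_mul
      · exact pow_dvd_pow _ ((hr p hp).trans (hv p hp).le)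
      · apply Finset.prod_dvd_prod_of_dvd
        intro q hq
        exact pow_dvd_pow _ (hr q (Finset.mem_of_mem_erase hq))
    have hNpos : 0 < N := NP_pos P hc.prime t
    have hKu : K * u.natAbs < N := by
      have h1 := hf.big p hp
      have h2 : p ^ (val p t) ≤ N := by
        rw [hN]
        apply Nat.le_of_dvd hNpos
        exact Finset.dvd_prod_of_mem (fun p => p ^ (val p t)) hp
      omega
    have hKQ : ¬ K ∣ bd P t r s p := by
      intro hdvd
      unfold bd at hdvd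
      have hkp := hc.kprime
      rcases (Nat.Prime.dvd_mul hkp).1 hdvd with h1 | h1
      · have := hkp.dvd_of_dvd_pow h1
        rw [Nat.prime_dvd_prime_iff_eq hkp (hc.prime p hp)] at this
        exact hc.knot (this ▸ hp)
      · rw [Prime.dvd_finsetProd_iff hkp.prime] at h1
        obtain ⟨q, hq, h1⟩ := h1
        have hq' := Finset.mem_of_mem_erase hq
        have := hkp.dvd_of_dvd_pow h1
        rw [Nat.prime_dvd_prime_iff_eq hkp (hc.prime q hq')] at this
        exact hc.knot (this ▸ hq')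
    obtain ⟨Q, hQ⟩ := hNQ
    obtain ⟨m, hm⟩ := Int.natCast_dvd.1 hNs
    have hneq : K * s.natAbs ≠ bd P t r s p := by
      intro h
      exact hKQ (h ▸ Dvd.intro _ rfl)
    rw [hQ, hm] at hneq
    rw [hQ, hm]
    have h1 : (u + s).natAbs ≤ u.natAbs + s.natAbs := Int.natAbs_add_le u s
    have h2 : s.natAbs ≤ (u + s).natAbs + u.natAbs := by
      have := Int.natAbs_sub_le (u + s) u
      have e : u + s - u = s := by ring
      rwa [e] at this
    rw [hm] at h1 h2
    constructor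
    · intro h
      by_contra hcon
      push Not at hcon
      have h3 : Q < K * m := by
        have : N * Q < N * (K * m) := by
          calc N * Q < K * (N * m) := hcon
            _ = N * (K * m) := by ring
        exact Nat.lt_of_mul_lt_mul_left this
      have h4 : N * (Q + 1) ≤ N * (K * m) := Nat.mul_le_mul_left _ h3
      have h5 : K * (N * m) ≤ K * ((u + s).natAbs + u.natAbs) := Nat.mul_le_mul_left _ h2
      have h6 : K * ((u + s).natAbs + u.natAbs) = K * (u + s).natAbs + K * u.natAbs := by ring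
      have h7 : N * (K * m) = K * (N * m) := by ring
      have h8 : N * (Q + 1) = N * Q + N := by ring
      omega
    · intro h
      have h3 : K * (N * m) < N * Q := lt_of_le_of_ne h hneq
      have h3' : K * m < Q := by
        have : N * (K * m) < N * Q := by
          calc N * (K * m) = K * (N * m) := by ring
            _ < N * Q := h3
        exact Nat.lt_of_mul_lt_mul_left this
      have h4 : N * (K * m + 1) ≤ N * Q := Nat.mul_le_mul_left _ h3'
      have h5 : K * (u + s).natAbs ≤ K * (u.natAbs + N * m) := Nat.mul_le_mul_left _ h1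
      have h6 : K * (u.natAbs + N * m) = K * u.natAbs + K * (N * m) := by ring
      have h7 : N * (K * m + 1) = K * (N * m) + N := by ring
      omega
  unfold Succ
  rw [er, es]
  have hbd : ∀ p, bd P (u + t) (u + r) (u + s) p = bd P t r s p := by
    intro p; unfold bd; rw [er, es]
  simp only [hbd]
  constructor
  · rintro ⟨h1, h2, h3⟩
    have hst : s ≠ t := fun h => h1 (by rw [h])
    exact ⟨hst, h2, fun p hp => (key hst h2 p hp).1 (h3 p hp)⟩
  · rintro ⟨h1, h2, h3⟩
    exact ⟨fun h => h1 (by linarith), h2, fun p hp => (key h1 h2 p hp).2 (h3 p hp)⟩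

theorem step_high (hc : Ctx P K) {u t r s : ℤ} (hf : Far P K u t)
    (hr : ∀ p ∈ P, val p t ≤ val p (t - r)) :
    Step P K (u + t) (u + r) (u + s) ↔ Step P K t r s := by
  unfold Step
  rw [succ_high hc hf hr]
  have es : ∀ s, u + t - (u + s) = t - s := by intro s; ring
  constructor
  · rintro ⟨h1, h2⟩
    refine ⟨h1, ?_⟩
    intro s' hs' hne p hp
    have := h2 (u + s') ((succ_high hc hf hr).2 hs') (by intro h; apply hne; linarith) p hp
    rwa [es, es] at this
  · rintro ⟨h1, h2⟩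
    refine ⟨h1, ?_⟩
    intro s' hs' hne p hp
    have e' : s' = u + (s' - u) := by ring
    rw [e'] at hs'
    have := h2 (s' - u) ((succ_high hc hf hr).1 hs') (by intro h; apply hne; linarith) p hp
    rw [es, e', es]
    exact this

theorem reach_add (hc : Ctx P K) {u t s : ℤ} (hf : Far P K u t) :
    Reach P K (u + t) s ↔ Reach P K u s ∨ ∃ s', Reach P K t s' ∧ s = u + s' := by
  constructor
  · intro h
    induction h with
    | refl => exact Or.inl Relation.ReflTransGen.refl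
    | tail _ hstep ih =>
      rcases ih with ih | ⟨r', hr', rfl⟩
      · have h1 := reach_props hc hf.hu ih
        have h2 := reach_natAbs_le hc hf.hu ih
        rcases step_cases hc hf h1.1 (by omega) hstep with h3 | h3
        · exact Or.inl (Relation.ReflTransGen.tail ih h3)
        · exact Or.inr ⟨0, Relation.ReflTransGen.refl, by rw [h3.1]; ring⟩
      · right
        rename_i c _
        have h1 := reach_props hc hf.ht hr'
        have e : c = u + (c - u) := by ring
        rw [e] at hstep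
        refine ⟨c - u, Relation.ReflTransGen.tail hr' ((step_high hc hf h1.2.1).1 hstep), e⟩
  · have low : ∀ s, Reach P K u s → Reach P K (u + t) s := by
      intro s h
      induction h with
      | refl => exact Relation.ReflTransGen.refl
      | tail hreach hstep ih =>
        have h1 := reach_props hc hf.hu hreach
        have h2 := reach_natAbs_le hc hf.hu hreach
        exact Relation.ReflTransGen.tail ih (step_low hc hf h1.1 (by omega) hstep)
    rintro (h | ⟨s', hs', rfl⟩)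
    · exact low s h
    · obtain ⟨l, hl⟩ := exists_last hc hf.hu
      have h1 := reach_props hc hf.hu hl.1
      have h2 := reach_natAbs_le hc hf.hu hl.1
      have hu : Reach P K (u + t) u :=
        Relation.ReflTransGen.tail (low l hl.1) (step_mid hc hf h1.1 (by omega) hl.2)
      induction hs' with
      | refl => simpa using hu
      | tail hreach hstep ih =>
        have h3 := reach_props hc hf.ht hreach
        exact Relation.ReflTransGen.tail ih ((step_high hc hf h3.2.1).2 hstep)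


/-- edges of the chain of `x` -/
def Edge (P : Finset ℕ) (K : ℕ) (x : ℤ) : Set (ℤ × ℤ) :=
  {e | Reach P K x e.1 ∧ Step P K x e.1 e.2}

/-- number of edges of type `τ` -/
noncomputable def cnt {κ : Type} (P : Finset ℕ) (K : ℕ) (T : ℤ → ℤ → κ) (τ : κ) (x : ℤ) : ℕ :=
  Set.ncard {e | e ∈ Edge P K x ∧ T (e.2 - e.1) (x - e.2) = τ}

theorem edge_finite (hc : Ctx P K) {x : ℤ} (hx : x ≠ 0) : (Edge P K x).Finite := by
  have h : Edge P K x ⊆ (Set.Icc (-(x.natAbs : ℤ)) x.natAbs) ×ˢ (Set.Icc (-(x.natAbs : ℤ)) x.natAbs) := by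
    rintro ⟨r, s⟩ ⟨h1, h2⟩
    have h3 := reach_natAbs_le hc hx h1
    have h4 := succ_small hc h2.1
    simp only at h3 h4
    simp only [Set.mem_prod, Set.mem_Icc]
    omega
  exact Set.Finite.subset ((Set.finite_Icc _ _).prod (Set.finite_Icc _ _)) h

theorem high_big (hc : Ctx P K) {u t r s : ℤ} (hf : Far P K u t) (hr : Reach P K t r)
    (h : Succ P K t r s) : u.natAbs < (u + s).natAbs := by
  obtain ⟨p, hp⟩ := hc.ne
  have h1 := (reach_props hc hf.ht hr).2.1 p hp
  have h2 := h.2.1 p hp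
  have hts : t - s ≠ 0 := sub_ne_zero.2 h.1.symm
  have hs0 : s ≠ 0 := by
    rintro rfl
    rw [sub_zero] at h2
    omega
  have h3 : (p : ℤ) ^ (val p t) ∣ s := by
    have e1 : (p : ℤ) ^ (val p t) ∣ t := pow_val_dvd (hc.prime p hp)
    have e2 : (p : ℤ) ^ (val p t) ∣ t - s := (le_val_iff (hc.prime p hp) hts _).1 (by omega)
    have := dvd_sub e1 e2
    simpa using this
  have h4 : p ^ (val p t) ≤ s.natAbs := by
    have e : ((p ^ (val p t) : ℕ) : ℤ) ∣ s := by push_cast; exact h3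
    exact Nat.le_of_dvd (Int.natAbs_pos.2 hs0) (Int.natCast_dvd.1 e)
  have h5 := hf.big p hp
  have h6 : 3 * u.natAbs ≤ K * u.natAbs := Nat.mul_le_mul_right _ hc.k3
  have h7 : s.natAbs ≤ (u + s).natAbs + u.natAbs := by
    have := Int.natAbs_sub_le (u + s) u
    have e : u + s - u = s := by ring
    rwa [e] at this
  omega

/-- local type functions -/
def Local {κ : Type} (P : Finset ℕ) (T : ℤ → ℤ → κ) : Prop :=
  ∀ b z w : ℤ, z ≠ 0 → w ≠ 0 → (∀ p ∈ P, val p z < val p w) → T b (z + w) = T b z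

open Classical in
theorem cnt_add {κ : Type} (hc : Ctx P K) {u t l : ℤ} (hf : Far P K u t) (T : ℤ → ℤ → κ)
    (hT : Local P T) (τ : κ) (hl : IsLast P K u l) :
    cnt P K T τ (u + t) = cnt P K T τ u + (if T (u - l) t = τ then 1 else 0) + cnt P K T τ t := by
  have hX := far_ne hc hf
  have hlp := reach_props hc hf.hu hl.1
  have hls := reach_natAbs_le hc hf.hu hl.1
  set A : Set (ℤ × ℤ) := {e | e ∈ Edge P K u ∧ T (e.2 - e.1) (u - e.2) = τ} with hA
  set B : Set (ℤ × ℤ) := {e | e = (l, u) ∧ T (u - l) t = τ} with hB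
  set C0 : Set (ℤ × ℤ) := {e | e ∈ Edge P K t ∧ T (e.2 - e.1) (t - e.2) = τ} with hC0
  set sh : ℤ × ℤ → ℤ × ℤ := fun e => (u + e.1, u + e.2) with hsh
  have hshinj : Function.Injective sh := by
    rintro ⟨a, b⟩ ⟨c, d⟩ h
    simp only [hsh, Prod.mk.injEq] at h
    ext
    · simpa using h.1
    · simpa using h.2
  have hunion : {e | e ∈ Edge P K (u + t) ∧ T (e.2 - e.1) (u + t - e.2) = τ} = A ∪ B ∪ sh '' C0 := by
    ext ⟨r, s⟩
    simp only [Set.mem_ofPred_eq, Set.mem_union, Set.mem_image, hA, hB, hC0, Edge]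
    constructor
    · rintro ⟨⟨hr, hst⟩, hTs⟩
      rcases (reach_add hc hf).1 hr with h1 | ⟨r', hr', rfl⟩
      · have h2 := reach_props hc hf.hu h1
        have h3 := reach_natAbs_le hc hf.hu h1
        rcases step_cases hc hf h2.1 (by omega) hst with h4 | ⟨h4, h5⟩
        · left; left
          refine ⟨⟨h1, h4⟩, ?_⟩
          rw [← hTs]
          have e : u + t - s = (u - s) + t := by ring
          rw [e]
          have h6 := succ_small hc h4.1
          exact (hT _ _ _ (sub_ne_zero.2 h4.1.1.symm) hf.ht (fun p hp =>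
            low_small hc hf h4.1.1 (by omega) hp)).symm
        · left; right
          subst h4
          have : r = l := last_unique hc ⟨h1, h5⟩ hl
          subst this
          refine ⟨rfl, ?_⟩
          rw [← hTs]
          congr 1
          ring
      · right
        have e : s = u + (s - u) := by ring
        rw [e] at hst
        have h1 := reach_props hc hf.ht hr'
        have h2 := (step_high hc hf h1.2.1).1 hst
        refine ⟨(r', s - u), ⟨⟨hr', h2⟩, ?_⟩, ?_⟩
        · rw [← hTs]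
          simp only
          congr 1 <;> ring
        · simp [hsh]
    · rintro ((⟨⟨h1, h2⟩, h3⟩ | ⟨h1, h2⟩) | ⟨⟨r', s'⟩, ⟨⟨h1, h2⟩, h3⟩, h4⟩)
      · have h4 := reach_props hc hf.hu h1
        have h5 := reach_natAbs_le hc hf.hu h1
        refine ⟨⟨(reach_add hc hf).2 (Or.inl h1), step_low hc hf h4.1 (by omega) h2⟩, ?_⟩
        rw [← h3]
        have e : u + t - s = (u - s) + t := by ring
        rw [e]
        have h6 := succ_small hc h2.1
        exact hT _ _ _ (sub_ne_zero.2 h2.1.1.symm) hf.ht (fun p hp =>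
            low_small hc hf h2.1.1 (by omega) hp)
      · simp only [Prod.mk.injEq] at h1
        obtain ⟨rfl, rfl⟩ := h1
        refine ⟨⟨(reach_add hc hf).2 (Or.inl hl.1), step_mid hc hf hlp.1 (by omega) hl.2⟩, ?_⟩
        rw [← h2]
        congr 1
        ring
      · simp only [hsh, Prod.mk.injEq] at h4
        obtain ⟨rfl, rfl⟩ := h4
        have h5 := reach_props hc hf.ht h1
        refine ⟨⟨(reach_add hc hf).2 (Or.inr ⟨r', h1, rfl⟩), (step_high hc hf h5.2.1).2 h2⟩, ?_⟩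
        rw [← h3]
        simp only
        congr 1 <;> ring
  have hAfin : A.Finite := (edge_finite hc hf.hu).subset (fun e he => he.1)
  have hCfin : C0.Finite := (edge_finite hc hf.ht).subset (fun e he => he.1)
  have hBfin : B.Finite := (Set.finite_singleton (l, u)).subset (fun e he => he.1)
  have hd1 : Disjoint (A ∪ B) (sh '' C0) := by
    rw [Set.disjoint_left]
    rintro e he ⟨⟨r', s'⟩, ⟨⟨h1, h2⟩, _⟩, rfl⟩
    have h3 := high_big hc hf h1 h2.1
    rcases he with ⟨⟨_, h4⟩, _⟩ | ⟨h4, _⟩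
    · have h5 := succ_small hc h4.1
      simp only [hsh] at h5
      simp only at h3
      omega
    · simp only [hsh, Prod.mk.injEq] at h4
      simp only at h3
      rw [h4.2] at h3
      omega
  have hd2 : Disjoint A B := by
    rw [Set.disjoint_left]
    rintro e ⟨⟨_, h1⟩, _⟩ ⟨h2, _⟩
    subst h2
    exact h1.1.1 rfl
  have hBcard : B.ncard = if T (u - l) t = τ then 1 else 0 := by
    by_cases h : T (u - l) t = τ
    · rw [if_pos h]
      have : B = {(l, u)} := by
        ext e; simp [hB, h]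
      rw [this, Set.ncard_singleton]
    · rw [if_neg h]
      have : B = ∅ := by
        ext e; simp [hB, h]
      rw [this, Set.ncard_empty]
  unfold cnt
  rw [hunion, Set.ncard_union_eq hd1 (hAfin.union hBfin) (hCfin.image _),
    Set.ncard_union_eq hd2 hAfin hBfin, hBcard, Set.ncard_image_of_injective _ hshinj]

/-- scaling of successors -/
theorem succ_scale (hc : Ctx P K) {a x r s : ℤ} (ha : a ≠ 0) (haP : NP P a = a.natAbs)
    (hrx : r ≠ x) :
    Succ P K (a * x) (a * r) (a * s) ↔ Succ P K x r s := by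
  have er : a * x - a * r = a * (x - r) := by ring
  have es : a * x - a * s = a * (x - s) := by ring
  have key : s ≠ x → ∀ p ∈ P, bd P (a * x) (a * r) (a * s) p = a.natAbs * bd P x r s p := by
    intro hsx p hp
    unfold bd
    rw [er, es, ← haP]
    unfold NP
    rw [← Finset.mul_prod_erase P _ hp, val_mul (hc.prime p hp) ha (sub_ne_zero.2 hsx.symm)]
    have : ∏ q ∈ P.erase p, q ^ (val q (a * (x - r)))
        = (∏ q ∈ P.erase p, q ^ (val q a)) * ∏ q ∈ P.erase p, q ^ (val q (x - r)) := by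
      rw [← Finset.prod_mul_distrib]
      apply Finset.prod_congr rfl
      intro q hq
      rw [val_mul (hc.prime q (Finset.mem_of_mem_erase hq)) ha (sub_ne_zero.2 hrx.symm), pow_add]
    rw [this, pow_add]
    ring
  unfold Succ
  constructor
  · rintro ⟨h1, h2, h3⟩
    have hsx : s ≠ x := fun h => h1 (by rw [h])
    refine ⟨hsx, ?_, ?_⟩
    · intro p hp
      have := h2 p hp
      rw [er, es, val_mul (hc.prime p hp) ha (sub_ne_zero.2 hrx.symm),
        val_mul (hc.prime p hp) ha (sub_ne_zero.2 hsx.symm)] at this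
      omega
    · intro p hp
      have := h3 p hp
      rw [key hsx p hp, Int.natAbs_mul] at this
      have h4 : a.natAbs * (K * s.natAbs) ≤ a.natAbs * bd P x r s p := by
        calc a.natAbs * (K * s.natAbs) = K * (a.natAbs * s.natAbs) := by ring
          _ ≤ _ := this
      exact Nat.le_of_mul_le_mul_left h4 (Int.natAbs_pos.2 ha)
  · rintro ⟨h1, h2, h3⟩
    refine ⟨fun h => h1 (mul_left_cancel₀ ha h), ?_, ?_⟩
    · intro p hp
      rw [er, es, val_mul (hc.prime p hp) ha (sub_ne_zero.2 hrx.symm),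
        val_mul (hc.prime p hp) ha (sub_ne_zero.2 h1.symm)]
      have := h2 p hp
      omega
    · intro p hp
      rw [key h1 p hp, Int.natAbs_mul]
      calc K * (a.natAbs * s.natAbs) = a.natAbs * (K * s.natAbs) := by ring
        _ ≤ _ := Nat.mul_le_mul_left _ (h3 p hp)

/-- successors of a multiple are multiples -/
theorem succ_scale_dvd (hc : Ctx P K) {a x r s : ℤ} (ha : a ≠ 0) (haP : NP P a = a.natAbs)
    (hx : x ≠ 0) (hr : ∀ p ∈ P, val p (a * x) ≤ val p (a * x - r))
    (h : Succ P K (a * x) r s) : a ∣ s := by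
  have h1 : ((NP P (a * x) : ℕ) : ℤ) ∣ s := by
    apply prod_pow_dvd P hc.prime
    intro q hq
    have e1 : (q : ℤ) ^ (val q (a * x)) ∣ a * x := pow_val_dvd (hc.prime q hq)
    have e2 : (q : ℤ) ^ (val q (a * x)) ∣ a * x - s :=
      (le_val_iff (hc.prime q hq) (sub_ne_zero.2 h.1.symm) _).1
        ((hr q hq).trans (h.2.1 q hq).le)
    have := dvd_sub e1 e2
    simpa using this
  have h2 : a.natAbs ∣ NP P (a * x) := by
    rw [← haP]
    unfold NP
    apply Finset.prod_dvd_prod_of_dvd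
    intro q hq
    apply pow_dvd_pow
    rw [val_mul (hc.prime q hq) ha hx]
    omega
  have h3 : (a.natAbs : ℤ) ∣ s := (Int.natCast_dvd_natCast.2 h2).trans h1
  exact (Int.natAbs_dvd).1 h3

theorem step_scale (hc : Ctx P K) {a x r s : ℤ} (ha : a ≠ 0) (haP : NP P a = a.natAbs)
    (hx : x ≠ 0) (hr : Reach P K x r) :
    Step P K (a * x) (a * r) s ↔ ∃ s', s = a * s' ∧ Step P K x r s' := by
  have hp := reach_props hc hx hr
  have er : a * x - a * r = a * (x - r) := by ring
  have hv : ∀ p ∈ P, val p (a * x) ≤ val p (a * x - a * r) := by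
    intro p hpP
    rw [er, val_mul (hc.prime p hpP) ha hx,
      val_mul (hc.prime p hpP) ha (sub_ne_zero.2 hp.1.symm)]
    have := hp.2.1 p hpP
    omega
  have hvs : ∀ s', s' ≠ x → ∀ p ∈ P, val p (a * x - a * s') = val p a + val p (x - s') := by
    intro s' hs' p hpP
    have e : a * x - a * s' = a * (x - s') := by ring
    rw [e, val_mul (hc.prime p hpP) ha (sub_ne_zero.2 hs'.symm)]
  constructor
  · rintro ⟨h1, h2⟩
    obtain ⟨s', rfl⟩ := succ_scale_dvd hc ha haP hx hv h1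
    have h3 := (succ_scale hc ha haP hp.1).1 h1
    refine ⟨s', rfl, h3, ?_⟩
    intro s'' hs'' hne p hpP
    have h4 := h2 (a * s'') ((succ_scale hc ha haP hp.1).2 hs'')
      (fun h => hne (mul_left_cancel₀ ha h)) p hpP
    rw [hvs s' h3.1 p hpP, hvs s'' hs''.1 p hpP] at h4
    omega
  · rintro ⟨s', rfl, h1, h2⟩
    refine ⟨(succ_scale hc ha haP hp.1).2 h1, ?_⟩
    intro s'' hs'' hne p hpP
    obtain ⟨s3, rfl⟩ := succ_scale_dvd hc ha haP hx hv hs''
    have h3 := (succ_scale hc ha haP hp.1).1 hs''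
    rw [hvs s' h1.1 p hpP, hvs s3 h3.1 p hpP]
    have := h2 s3 h3 (fun h => hne (by rw [h])) p hpP
    omega

theorem reach_scale (hc : Ctx P K) {a x r : ℤ} (ha : a ≠ 0) (haP : NP P a = a.natAbs)
    (hx : x ≠ 0) : Reach P K (a * x) r ↔ ∃ r', r = a * r' ∧ Reach P K x r' := by
  constructor
  · intro h
    induction h with
    | refl => exact ⟨0, by ring, Relation.ReflTransGen.refl⟩
    | tail _ hstep ih =>
      obtain ⟨r', rfl, hr'⟩ := ih
      obtain ⟨s', rfl, hs'⟩ := (step_scale hc ha haP hx hr').1 hstep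
      exact ⟨s', rfl, Relation.ReflTransGen.tail hr' hs'⟩
  · rintro ⟨r', rfl, hr'⟩
    induction hr' with
    | refl => rw [mul_zero]; exact Relation.ReflTransGen.refl
    | tail hreach hstep ih =>
      exact Relation.ReflTransGen.tail ih ((step_scale hc ha haP hx hreach).2 ⟨_, rfl, hstep⟩)

theorem last_scale (hc : Ctx P K) {a x l : ℤ} (ha : a ≠ 0) (haP : NP P a = a.natAbs)
    (hx : x ≠ 0) (hl : IsLast P K x l) : IsLast P K (a * x) (a * l) := by
  refine ⟨(reach_scale hc ha haP hx).2 ⟨l, rfl, hl.1⟩, ?_⟩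
  intro s hs
  obtain ⟨s', hs'⟩ := step_exists hc ⟨s, hs⟩
  obtain ⟨s'', _, hs''⟩ := (step_scale hc ha haP hx hl.1).1 hs'
  exact hl.2 s'' hs''.1

theorem cnt_scale {κ : Type} (hc : Ctx P K) {a x : ℤ} (ha : a ≠ 0) (haP : NP P a = a.natAbs)
    (hx : x ≠ 0) (T : ℤ → ℤ → κ) (hTa : ∀ b z, b ≠ 0 → z ≠ 0 → T (a * b) (a * z) = T b z) (τ : κ) :
    cnt P K T τ (a * x) = cnt P K T τ x := by
  unfold cnt
  set sc : ℤ × ℤ → ℤ × ℤ := fun e => (a * e.1, a * e.2) with hsc
  have hinj : Function.Injective sc := by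
    rintro ⟨b, c⟩ ⟨d, e⟩ h
    simp only [hsc, Prod.mk.injEq] at h
    ext
    · exact mul_left_cancel₀ ha h.1
    · exact mul_left_cancel₀ ha h.2
  symm
  rw [← Set.ncard_image_of_injective _ hinj]
  congr 1
  symm
  have hne : ∀ r s, Step P K x r s → s - r ≠ 0 := by
    intro r s h h0
    obtain ⟨p, hp⟩ := hc.ne
    have h1 := h.1.2.1 p hp
    have : s = r := by linarith
    rw [this] at h1
    exact lt_irrefl _ h1
  ext ⟨r, s⟩
  simp only [Set.mem_ofPred_eq, Set.mem_image, Edge, hsc, Prod.mk.injEq, Prod.exists]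
  constructor
  · rintro ⟨⟨h1, h2⟩, h3⟩
    obtain ⟨r', rfl, hr'⟩ := (reach_scale hc ha haP hx).1 h1
    obtain ⟨s', rfl, hs'⟩ := (step_scale hc ha haP hx hr').1 h2
    refine ⟨r', s', ⟨⟨hr', hs'⟩, ?_⟩, rfl, rfl⟩
    rw [← h3, ← hTa _ _ (hne _ _ hs') (sub_ne_zero.2 hs'.1.1.symm)]
    congr 1 <;> ring
  · rintro ⟨r', s', ⟨⟨hr', hs'⟩, h3⟩, rfl, rfl⟩
    refine ⟨⟨(reach_scale hc ha haP hx).2 ⟨r', rfl, hr'⟩,
      (step_scale hc ha haP hx hr').2 ⟨s', rfl, hs'⟩⟩, ?_⟩
    rw [← h3, ← hTa _ _ (hne _ _ hs') (sub_ne_zero.2 hs'.1.1.symm)]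
    congr 1 <;> ring


open Classical in
theorem cnt_sum {κ : Type} (hc : Ctx P K) (T : ℤ → ℤ → κ) (hT : Local P T) (y l : ℕ → ℤ)
    (hy : ∀ i, y i ≠ 0) (hfar : ∀ i, ∀ p ∈ P, K * (y i).natAbs < p ^ (val p (y (i + 1))))
    (hl : ∀ i, IsLast P K (y i) (l i)) (τ : κ) :
    ∀ m i : ℕ, (∑ j ∈ Finset.range (m + 1), y (i + j)) ≠ 0 ∧
      (∀ p ∈ P, val p (∑ j ∈ Finset.range (m + 1), y (i + j)) = val p (y i)) ∧
      (∀ b, T b (∑ j ∈ Finset.range (m + 1), y (i + j)) = T b (y i)) ∧
      cnt P K T τ (∑ j ∈ Finset.range (m + 1), y (i + j)) =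
        (∑ j ∈ Finset.range (m + 1), cnt P K T τ (y (i + j))) +
        ∑ j ∈ Finset.range m, (if T (y (i + j) - l (i + j)) (y (i + j + 1)) = τ then 1 else 0) := by
  intro m
  induction m with
  | zero => intro i; simp [hy i]
  | succ m ih =>
    intro i
    obtain ⟨h1, h2, h3, h4⟩ := ih (i + 1)
    have hshift : ∀ j, i + 1 + j = i + (j + 1) := fun j => by ring
    set t := ∑ j ∈ Finset.range (m + 1), y (i + 1 + j) with ht
    have hsum : ∑ j ∈ Finset.range (m + 1 + 1), y (i + j) = y i + t := by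
      rw [Finset.sum_range_succ', ht, add_comm]
      simp only [add_zero]
      congr 1
      apply Finset.sum_congr rfl
      intro j _
      rw [hshift]
    have hF : Far P K (y i) t := by
      refine ⟨hy i, h1, ?_⟩
      intro p hp
      rw [h2 p hp]
      exact hfar i p hp
    have hlt : ∀ p ∈ P, val p (y i) < val p t := by
      intro p hp
      have := low_small hc hF (s := 0) (hy i).symm (by simp) hp
      simpa using this
    rw [hsum]
    refine ⟨far_ne hc hF, ?_, ?_, ?_⟩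
    · intro p hp
      exact (val_add (hc.prime p hp) (hy i) h1 (hlt p hp)).2
    · intro b
      exact hT b (y i) t (hy i) h1 hlt
    · rw [cnt_add hc hF T hT τ (hl i), h4, h3]
      rw [Finset.sum_range_succ' (fun j => cnt P K T τ (y (i + j))),
        Finset.sum_range_succ' (fun j => if T (y (i + j) - l (i + j)) (y (i + j + 1)) = τ then 1 else 0)]
      simp only [add_zero, hshift]
      have hshift2 : ∀ j, i + (j + 1) + 1 = i + (j + 1 + 1) := fun j => by ring
      simp only [hshift2]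
      ring

/-- The sum form of image partition regularity for `M(a)`. -/
def SumIPR {k : ℕ} (a : Fin k → ℤ) : Prop :=
  ∀ (κ : Type) [Finite κ] (c : ℕ → κ), ∃ x : ℕ → ℕ, (∀ n, 0 < x n) ∧ ∃ j : κ, (∀ n, c (x n) = j) ∧
    ∀ ν : Fin k → ℕ, StrictMono ν → ∃ y : ℕ, 0 < y ∧ (∑ i, a i * (x (ν i) : ℤ)) = (y : ℤ) ∧ c y = j

/-- unit part of an integer at p -/
def unt (p : ℕ) (z : ℤ) : ℤ := z / (p : ℤ) ^ (val p z)

theorem unt_mul {p : ℕ} (hp : p.Prime) (z : ℤ) : (p : ℤ) ^ (val p z) * unt p z = z := by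
  unfold unt
  exact Int.mul_ediv_cancel' (pow_val_dvd hp)

theorem unt_not_dvd {p : ℕ} (hp : p.Prime) {z : ℤ} (hz : z ≠ 0) : ¬ (p : ℤ) ∣ unt p z := by
  intro h
  obtain ⟨c, hc⟩ := h
  have h1 := unt_mul hp z
  rw [hc] at h1
  have h2 : (p : ℤ) ^ (val p z + 1) ∣ z := by
    refine ⟨c, ?_⟩
    rw [← h1]
    rw [pow_succ]
    have : val p ((p:ℤ) ^ val p z * (↑p * c)) = val p z := by rw [h1]
    rw [this]
    ring
  have := (le_val_iff hp hz _).2 h2
  omega

theorem unt_eq_of {p : ℕ} (hp : p.Prime) {z w : ℤ} (n : ℕ) (hw : ¬ (p : ℤ) ∣ w)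
    (h : z = (p : ℤ) ^ n * w) : val p z = n ∧ unt p z = w := by
  have hp0 : (p : ℤ) ≠ 0 := by exact_mod_cast hp.ne_zero
  have hw0 : w ≠ 0 := by rintro rfl; exact hw (dvd_zero _)
  have hz : z ≠ 0 := by rw [h]; exact mul_ne_zero (pow_ne_zero _ hp0) hw0
  have h1 : val p z = n := by
    apply le_antisymm
    · by_contra hcon
      push Not at hcon
      have h2 := (le_val_iff hp hz _).1 (show n + 1 ≤ val p z from hcon)
      rw [h, pow_succ] at h2
      exact hw ((mul_dvd_mul_iff_left (pow_ne_zero _ hp0)).1 h2)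
    · rw [le_val_iff hp hz, h]
      exact dvd_mul_right _ _
  refine ⟨h1, ?_⟩
  unfold unt
  rw [h1, h]
  exact Int.mul_ediv_cancel_left _ (pow_ne_zero _ hp0)

/-- the arithmetic core of the residue colouring -/
theorem unit_lemma {p : ℕ} (hp : p.Prime) {A x y W : ℤ} {B : ℕ} (hA : A ≠ 0) (hB1 : A.natAbs < B)
    (hB2 : (A - 1).natAbs < B) (hx : x ≠ 0) (_hy : y ≠ 0)
    (h1 : ((val p y : ℕ) : ZMod B) = ((val p x : ℕ) : ZMod B))
    (h2 : ((unt p y : ℤ) : ZMod (p ^ B)) = ((unt p x : ℤ) : ZMod (p ^ B)))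
    (h3 : y = (p : ℤ) ^ (val p x) * W) (h4 : (p : ℤ) ^ B ∣ W - A * unt p x) : A = 1 := by
  have hp0 : (p : ℤ) ≠ 0 := by exact_mod_cast hp.ne_zero
  have hux := unt_not_dvd hp hx
  have hpP : Prime (p : ℤ) := Nat.prime_iff_prime_int.1 hp
  set w := val p A with hw
  have hwB : w < B := lt_trans (val_lt_natAbs hp hA) hB1
  obtain ⟨c, hc⟩ := h4
  have hAeq : (p : ℤ) ^ w * unt p A = A := unt_mul hp A
  have huA := unt_not_dvd hp hA
  -- W = p^w * W'
  obtain ⟨W', hW', hW'p⟩ : ∃ W', W = (p : ℤ) ^ w * W' ∧ ¬ (p : ℤ) ∣ W' := by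
    refine ⟨unt p A * unt p x + (p : ℤ) ^ (B - w) * c, ?_, ?_⟩
    · have e : (p : ℤ) ^ B = (p : ℤ) ^ w * (p : ℤ) ^ (B - w) := by
        rw [← pow_add]; congr 1; omega
      have : W = A * unt p x + (p : ℤ) ^ B * c := by linarith
      rw [this, e]
      nth_rewrite 1 [← hAeq]
      ring
    · intro hd
      have e : (p : ℤ) ∣ (p : ℤ) ^ (B - w) * c :=
        Dvd.dvd.mul_right (dvd_pow_self _ (by omega)) _
      have := (Int.dvd_add_left e).1 hd
      rcases hpP.dvd_or_dvd this with h | h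
      · exact huA h
      · exact hux h
  have hyv := unt_eq_of hp (z := y) (w := W') (val p x + w) hW'p (by
    rw [h3, hW', pow_add]; ring)
  rw [hyv.1] at h1
  have hw0 : w = 0 := by
    have h5 : ((w : ℕ) : ZMod B) = 0 := by
      push_cast at h1
      have : ((val p x : ℕ) : ZMod B) + (w : ZMod B) = ((val p x : ℕ) : ZMod B) + 0 := by
        rw [add_zero]; exact h1
      exact add_left_cancel this
    rw [ZMod.natCast_eq_zero_iff] at h5
    exact Nat.eq_zero_of_dvd_of_lt h5 hwB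
  rw [hyv.2] at h2
  have h6 : (p : ℤ) ^ B ∣ W - unt p x := by
    have h7 : ((W' - unt p x : ℤ) : ZMod (p ^ B)) = 0 := by
      push_cast; rw [h2]; ring
    rw [ZMod.intCast_zmod_eq_zero_iff_dvd] at h7
    rw [hW', hw0, pow_zero, one_mul]
    exact_mod_cast h7
  have h8 : (p : ℤ) ^ B ∣ (A - 1) * unt p x := by
    have h9 : (p : ℤ) ^ B ∣ (W - unt p x) - (W - A * unt p x) := dvd_sub h6 ⟨c, hc⟩
    have e : (W - unt p x) - (W - A * unt p x) = (A - 1) * unt p x := by ring
    rwa [e] at h9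
  have hcop : IsCoprime ((p : ℤ) ^ B) (unt p x) := by
    apply IsCoprime.pow_left
    exact (hpP.coprime_iff_not_dvd).2 hux
  have h10 := hcop.dvd_of_dvd_mul_right h8
  by_contra hA1
  have h11 : A - 1 ≠ 0 := sub_ne_zero.2 hA1
  have h12 : p ^ B ≤ (A - 1).natAbs := by
    have e : ((p ^ B : ℕ) : ℤ) ∣ A - 1 := by push_cast; exact h10
    exact Nat.le_of_dvd (Int.natAbs_pos.2 h11) (Int.natCast_dvd.1 e)
  have h13 : B < p ^ B := Nat.lt_pow_self hp.one_lt
  omega


/-- The residue colouring at a prime. -/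
def rcol (p B : ℕ) (y : ℕ) : ZMod B × ZMod (p ^ B) :=
  (((val p (y : ℤ) : ℕ) : ZMod B), ((unt p (y : ℤ) : ℤ) : ZMod (p ^ B)))

theorem rcol_unbounded {k : ℕ} (a : Fin k → ℤ) {p : ℕ} (hp : p.Prime) {B : ℕ}
    (hS0 : ∑ i, a i ≠ 0) (hS1 : ∑ i, a i ≠ 1) (hB1 : (∑ i, a i).natAbs < B)
    (hB2 : (∑ i, a i - 1).natAbs < B) (x : ℕ → ℕ) (hx : ∀ n, 0 < x n)
    (hcol : ∀ n, rcol p B (x n) = rcol p B (x 0))
    (hsum : ∀ ν : Fin k → ℕ, StrictMono ν → ∃ y : ℕ, 0 < y ∧
      (∑ i, a i * (x (ν i) : ℤ)) = (y : ℤ) ∧ rcol p B y = rcol p B (x 0)) :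
    Filter.Tendsto (fun n => val p (x n : ℤ)) Filter.atTop Filter.atTop := by
  rw [Filter.tendsto_atTop]
  intro b
  induction b with
  | zero => simp
  | succ b ih =>
    by_contra hcon
    have hfreq : ∃ᶠ n in Filter.atTop, val p (x n : ℤ) = b := by
      rw [Filter.not_eventually] at hcon
      apply (hcon.and_eventually ih).mono
      rintro n ⟨h1, h2⟩
      omega
    obtain ⟨φ, hφ, hφb⟩ := Filter.extraction_of_frequently_atTop hfreq
    obtain ⟨y, hy, hys, hyc⟩ := hsum (fun i => φ i) (fun i j hij => hφ hij)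
    have hxz : ∀ n, (x n : ℤ) ≠ 0 := fun n => by exact_mod_cast (hx n).ne'
    have hx0 : ∀ n, rcol p B (x (φ n)) = rcol p B (x (φ 0)) := fun n => by rw [hcol, hcol (φ 0)]
    have hdec : ∀ n, (x (φ n) : ℤ) = (p : ℤ) ^ b * unt p (x (φ n)) := by
      intro n
      have := unt_mul hp (x (φ n) : ℤ)
      rw [hφb] at this
      exact this.symm
    apply hS1
    apply unit_lemma hp (x := (x (φ 0) : ℤ)) (y := (y : ℤ)) (W := ∑ i : Fin k, a i * unt p (x (φ i)))
      hS0 hB1 hB2 (hxz _) (by exact_mod_cast hy.ne')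
    · have := congrArg Prod.fst (hyc.trans (hcol (φ 0)).symm)
      exact this
    · have := congrArg Prod.snd (hyc.trans (hcol (φ 0)).symm)
      exact this
    · rw [← hys, hφb, Finset.mul_sum]
      apply Finset.sum_congr rfl
      intro i _
      nth_rewrite 1 [hdec]
      ring
    · rw [Finset.sum_mul, ← Finset.sum_sub_distrib]
      apply Finset.dvd_sum
      intro i _
      rw [← mul_sub]
      apply Dvd.dvd.mul_left
      have h1 := congrArg Prod.snd (hx0 i)
      unfold rcol at h1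
      simp only at h1
      have h2 : ((unt p (x (φ i)) - unt p (x (φ 0)) : ℤ) : ZMod (p ^ B)) = 0 := by
        push_cast; rw [h1]; ring
      rw [ZMod.intCast_zmod_eq_zero_iff_dvd] at h2
      exact_mod_cast h2

/-- first coefficient is one -/
theorem first_coeff {k : ℕ} (hk : 0 < k) (a : Fin k → ℤ) (ha : ∀ i, a i ≠ 0) {p : ℕ}
    (hp : p.Prime) {B : ℕ} (hB1 : (a ⟨0, hk⟩).natAbs < B)
    (hB2 : (a ⟨0, hk⟩ - 1).natAbs < B) (x : ℕ → ℕ) (hx : ∀ n, 0 < x n)
    (hsum : ∀ ν : Fin k → ℕ, StrictMono ν → ∃ y : ℕ, 0 < y ∧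
      (∑ i, a i * (x (ν i) : ℤ)) = (y : ℤ) ∧ rcol p B y = rcol p B (x 0))
    (htend : Filter.Tendsto (fun n => val p (x n : ℤ)) Filter.atTop Filter.atTop) :
    a ⟨0, hk⟩ = 1 := by
  obtain ⟨k, rfl⟩ : ∃ k', k = k' + 1 := ⟨k - 1, by omega⟩
  have hxz : ∀ n, (x n : ℤ) ≠ 0 := fun n => by exact_mod_cast (hx n).ne'
  obtain ⟨N, hN⟩ := Filter.eventually_atTop.1
    (Filter.tendsto_atTop.1 htend (val p (x 0 : ℤ) + B))
  obtain ⟨y, hy, hys, hyc⟩ := hsum (Fin.cons 0 (fun i : Fin k => N + 1 + (i : ℕ))) (by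
    intro i j hij
    rcases Fin.eq_zero_or_eq_succ i with rfl | ⟨i, rfl⟩
    · rcases Fin.eq_zero_or_eq_succ j with rfl | ⟨j, rfl⟩
      · exact absurd hij (lt_irrefl _)
      · change 0 < N + 1 + (j : ℕ)
        omega
    · rcases Fin.eq_zero_or_eq_succ j with rfl | ⟨j, rfl⟩
      · exact absurd hij (by simp)
      · change N + 1 + (i : ℕ) < N + 1 + (j : ℕ)
        have : (i : ℕ) < (j : ℕ) := by simpa using hij
        omega)
  rw [Fin.sum_univ_succ] at hys
  simp only [Fin.cons_zero, Fin.cons_succ] at hys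
  set v := val p (x 0 : ℤ) with hv
  have hR : (p : ℤ) ^ (v + B) ∣ ∑ i : Fin k, a i.succ * (x (N + 1 + (i : ℕ)) : ℤ) := by
    apply Finset.dvd_sum
    intro i _
    apply Dvd.dvd.mul_left
    rw [← le_val_iff hp (hxz _)]
    exact hN _ (by omega)
  obtain ⟨c, hc⟩ := hR
  have h0 : (⟨0, hk⟩ : Fin (k + 1)) = 0 := rfl
  rw [h0] at *
  apply unit_lemma hp (x := (x 0 : ℤ)) (y := (y : ℤ))
    (W := a 0 * unt p (x 0) + (p : ℤ) ^ B * c) (ha 0) hB1 hB2 (hxz _) (by exact_mod_cast hy.ne')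
  · exact congrArg Prod.fst hyc
  · exact congrArg Prod.snd hyc
  · rw [← hys, hc, ← hv]
    have := unt_mul hp (x 0 : ℤ)
    rw [← hv] at this
    nth_rewrite 1 [← this]
    rw [pow_add]
    ring
  · refine ⟨c, ?_⟩
    ring

/-- values tend to infinity when the sum of coefficients is not one -/
theorem values_unbounded {k : ℕ} (a : Fin k → ℤ)
    (hS1 : ∑ i, a i ≠ 1) (x : ℕ → ℕ)
    (hx : ∀ n, 0 < x n)
    (hcol : ∀ n, ((Nat.log (∑ i, a i).natAbs (x n) : ℕ) : ZMod 2)
      = ((Nat.log (∑ i, a i).natAbs (x 0) : ℕ) : ZMod 2))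
    (hsum : ∀ ν : Fin k → ℕ, StrictMono ν → ∃ y : ℕ, 0 < y ∧
      (∑ i, a i * (x (ν i) : ℤ)) = (y : ℤ) ∧
      ((Nat.log (∑ i, a i).natAbs y : ℕ) : ZMod 2)
        = ((Nat.log (∑ i, a i).natAbs (x 0) : ℕ) : ZMod 2)) :
    Filter.Tendsto x Filter.atTop Filter.atTop := by
  rw [Filter.tendsto_atTop]
  intro b
  induction b with
  | zero => simp
  | succ b ih =>
    by_contra hcon
    have hfreq : ∃ᶠ n in Filter.atTop, x n = b := by
      rw [Filter.not_eventually] at hcon
      apply (hcon.and_eventually ih).mono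
      rintro n ⟨h1, h2⟩
      omega
    obtain ⟨φ, hφ, hφb⟩ := Filter.extraction_of_frequently_atTop hfreq
    obtain ⟨y, hy, hys, hyc⟩ := hsum (fun i => φ i) (fun i j hij => hφ hij)
    simp only [hφb] at hys
    rw [← Finset.sum_mul] at hys
    have hb : 0 < b := by rw [← hφb 0]; exact hx _
    have hSpos : 0 < ∑ i, a i := by
      by_contra h
      push Not at h
      have h1 : (0 : ℤ) < y := by exact_mod_cast hy
      have h2 : (0 : ℤ) < b := by exact_mod_cast hb
      nlinarith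
    have hS2 : 2 ≤ (∑ i, a i).natAbs := by omega
    have hyS : y = b * (∑ i, a i).natAbs := by
      have h1 : ((∑ i, a i).natAbs : ℤ) = ∑ i, a i := Int.natAbs_of_nonneg hSpos.le
      have h2 : (y : ℤ) = (b * (∑ i, a i).natAbs : ℕ) := by
        push_cast
        rw [← hys]
        have h3 : |∑ i, a i| = ∑ i, a i := abs_of_pos hSpos
        rw [h3]
        ring
      exact_mod_cast h2
    rw [hyS, Nat.log_mul_base (by omega) hb.ne'] at hyc
    rw [← hcol (φ 0), hφb] at hyc
    push_cast at hyc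
    have h1 : (1 : ZMod 2) = 0 := by
      have h2 : ((Nat.log (∑ i, a i).natAbs b : ℕ) : ZMod 2) + 1
        = ((Nat.log (∑ i, a i).natAbs b : ℕ) : ZMod 2) + 0 := by rw [add_zero]; exact hyc
      exact add_left_cancel h2
    exact absurd h1 (by decide)


/-- last coefficient is one -/
theorem last_coeff {k : ℕ} (hk : 0 < k) (a : Fin k → ℤ) (ha : ∀ i, a i ≠ 0) (x : ℕ → ℕ)
    (hx : ∀ n, 0 < x n) (htend : Filter.Tendsto x Filter.atTop Filter.atTop)
    (hcol : ∀ n, ((Nat.log (a ⟨k - 1, Nat.sub_lt hk one_pos⟩).natAbs (x n ^ 2) : ℕ) : ZMod 4)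
      = ((Nat.log (a ⟨k - 1, Nat.sub_lt hk one_pos⟩).natAbs (x 0 ^ 2) : ℕ) : ZMod 4))
    (hsum : ∀ ν : Fin k → ℕ, StrictMono ν → ∃ y : ℕ, 0 < y ∧
      (∑ i, a i * (x (ν i) : ℤ)) = (y : ℤ) ∧
      ((Nat.log (a ⟨k - 1, Nat.sub_lt hk one_pos⟩).natAbs (y ^ 2) : ℕ) : ZMod 4)
        = ((Nat.log (a ⟨k - 1, Nat.sub_lt hk one_pos⟩).natAbs (x 0 ^ 2) : ℕ) : ZMod 4)) :
    a ⟨k - 1, Nat.sub_lt hk one_pos⟩ = 1 := by
  obtain ⟨k, rfl⟩ : ∃ k', k = k' + 1 := ⟨k - 1, by omega⟩
  have hlast : (⟨k + 1 - 1, Nat.sub_lt hk one_pos⟩ : Fin (k + 1)) = Fin.last k := rfl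
  rw [hlast] at *
  set C : ℕ := ∑ i : Fin k, (a i.castSucc).natAbs * x (i : ℕ) with hC
  obtain ⟨N, hN⟩ := Filter.eventually_atTop.1 (Filter.tendsto_atTop.1 htend (2 * C + 1))
  set M := max N k with hM
  have hMN : 2 * C + 1 ≤ x M := hN M (le_max_left _ _)
  have hMk : k ≤ M := le_max_right _ _
  obtain ⟨y, hy, hys, hyc⟩ := hsum (Fin.snoc (fun i : Fin k => (i : ℕ)) M) (by
    intro i j hij
    rcases Fin.eq_castSucc_or_eq_last i with ⟨i, rfl⟩ | rfl
    · rcases Fin.eq_castSucc_or_eq_last j with ⟨j, rfl⟩ | rfl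
      · rw [Fin.snoc_castSucc, Fin.snoc_castSucc]
        simpa using hij
      · rw [Fin.snoc_castSucc, Fin.snoc_last]
        have := i.2
        omega
    · exact absurd hij (not_lt.2 (Fin.le_last _)))
  rw [Fin.sum_univ_castSucc] at hys
  simp only [Fin.snoc_castSucc, Fin.snoc_last] at hys
  set A := a (Fin.last k) with hA
  set R : ℤ := ∑ i : Fin k, a i.castSucc * (x (i : ℕ) : ℤ) with hR
  have hRC : |R| ≤ C := by
    rw [hR, hC]
    push_cast
    refine (Finset.abs_sum_le_sum_abs _ _).trans ?_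
    apply Finset.sum_le_sum
    intro i _
    rw [abs_mul]
    simp
  have hX : (2 * C + 1 : ℤ) ≤ (x M : ℤ) := by exact_mod_cast hMN
  have hR1 := (abs_le.1 hRC).1
  have hR2 := (abs_le.1 hRC).2
  have hA0 : A ≠ 0 := ha _
  have hypos : (0 : ℤ) < y := by exact_mod_cast hy
  have hXpos : (0 : ℤ) < x M := by exact_mod_cast hx M
  have hApos : 0 < A := by
    by_contra h
    have h1 : A ≤ -1 := by omega
    have h2 : A * (x M : ℤ) ≤ -1 * (x M : ℤ) := mul_le_mul_of_nonneg_right h1 hXpos.le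
    omega
  by_contra hA1
  have hA2 : 2 ≤ A := by omega
  have hAn : (A.natAbs : ℤ) = A := Int.natAbs_of_nonneg hApos.le
  have hlow : A * (x M : ℤ) ^ 2 ≤ (y : ℤ) ^ 2 := by
    have h1 : (2 * A - 1) * (x M : ℤ) ≤ 2 * y := by rw [← hys]; nlinarith
    have h0 : 0 ≤ (2 * A - 1) * (x M : ℤ) := by
      apply mul_nonneg _ hXpos.le
      omega
    have h2 : ((2 * A - 1) * (x M : ℤ)) ^ 2 ≤ (2 * y) ^ 2 := pow_le_pow_left₀ h0 h1 2
    have h3 : 4 * A ≤ (2 * A - 1) ^ 2 := by nlinarith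
    have h4 : 4 * A * (x M : ℤ) ^ 2 ≤ (2 * A - 1) ^ 2 * (x M : ℤ) ^ 2 :=
      mul_le_mul_of_nonneg_right h3 (sq_nonneg _)
    nlinarith
  have hhigh : (y : ℤ) ^ 2 < A ^ 3 * (x M : ℤ) ^ 2 := by
    have h1 : 2 * (y : ℤ) < (2 * A + 1) * (x M : ℤ) := by rw [← hys]; nlinarith
    have h2 : (2 * (y : ℤ)) ^ 2 < ((2 * A + 1) * (x M : ℤ)) ^ 2 :=
      pow_lt_pow_left₀ h1 (by omega) (by norm_num)
    have h3 : (2 * A + 1) ^ 2 ≤ 4 * A ^ 3 := by nlinarith [mul_pos hApos hApos]
    have h4 : (2 * A + 1) ^ 2 * (x M : ℤ) ^ 2 ≤ 4 * A ^ 3 * (x M : ℤ) ^ 2 :=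
      mul_le_mul_of_nonneg_right h3 (sq_nonneg _)
    nlinarith
  have hAn2 : 1 < A.natAbs := by omega
  have hlow' : A.natAbs * (x M) ^ 2 ≤ y ^ 2 := by
    have : ((A.natAbs * (x M) ^ 2 : ℕ) : ℤ) ≤ ((y ^ 2 : ℕ) : ℤ) := by
      push_cast
      rw [abs_of_pos hApos]
      exact hlow
    exact_mod_cast this
  have hhigh' : y ^ 2 < A.natAbs ^ 3 * (x M) ^ 2 := by
    have : ((y ^ 2 : ℕ) : ℤ) < ((A.natAbs ^ 3 * (x M) ^ 2 : ℕ) : ℤ) := by
      push_cast
      rw [abs_of_pos hApos]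
      exact hhigh
    exact_mod_cast this
  set L := Nat.log A.natAbs ((x M) ^ 2) with hL
  have hXsq : (x M) ^ 2 ≠ 0 := pow_ne_zero _ (hx M).ne'
  have h1 : L + 1 ≤ Nat.log A.natAbs (y ^ 2) := by
    have := Nat.log_mono_right (b := A.natAbs) hlow'
    rw [mul_comm, Nat.log_mul_base hAn2 hXsq] at this
    exact this
  have h2 : Nat.log A.natAbs (y ^ 2) < L + 4 := by
    apply Nat.log_lt_of_lt_pow (pow_ne_zero _ hy.ne')
    have h3 : (x M) ^ 2 < A.natAbs ^ (L + 1) := Nat.lt_pow_succ_log_self hAn2 _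
    calc y ^ 2 < A.natAbs ^ 3 * (x M) ^ 2 := hhigh'
      _ ≤ A.natAbs ^ 3 * A.natAbs ^ (L + 1) := Nat.mul_le_mul_left _ h3.le
      _ = A.natAbs ^ (L + 4) := by rw [← pow_add]; congr 1; ring
  have h3 : ((Nat.log A.natAbs (y ^ 2) : ℕ) : ZMod 4) = (L : ZMod 4) :=
    hyc.trans (hcol M).symm
  rw [ZMod.natCast_eq_natCast_iff'] at h3
  omega

theorem NP_eq {P : Finset ℕ} (hP : ∀ p ∈ P, p.Prime) {z : ℤ} (hz : z ≠ 0)
    (h : ∀ p, p.Prime → p ∣ z.natAbs → p ∈ P) : NP P z = z.natAbs := by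
  have hz' : z.natAbs ≠ 0 := Int.natAbs_ne_zero.2 hz
  have h1 := Nat.prod_factorization_pow_eq_self hz'
  unfold NP
  conv_rhs => rw [← h1]
  rw [Finsupp.prod]
  symm
  have hsub : z.natAbs.factorization.support ⊆ P := by
    intro p hp
    rw [Nat.support_factorization, Nat.mem_primeFactors] at hp
    exact h p hp.1 hp.2.1
  rw [← Finset.prod_subset hsub]
  · apply Finset.prod_congr rfl
    intro p hp
    rw [Nat.support_factorization, Nat.mem_primeFactors] at hp
    congr 1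
    unfold val padicValInt
    rw [Nat.factorization_def _ hp.1]
  · intro p hpP hp
    rw [Nat.support_factorization] at hp
    have : val p z = 0 := by
      unfold val padicValInt
      rw [← Nat.factorization_def _ (hP p hpP)]
      by_contra hne
      apply hp
      rw [← Nat.support_factorization, Finsupp.mem_support_iff]
      exact hne
    rw [this, pow_zero]


open Classical in
/-- the last block of an integer -/
noncomputable def lastb (P : Finset ℕ) (K : ℕ) (x : ℤ) : ℤ :=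
  if h : ∃ r, IsLast P K x r then x - h.choose else 1

theorem lastb_spec (hc : Ctx P K) {x : ℤ} (hx : x ≠ 0) :
    ∃ r, IsLast P K x r ∧ lastb P K x = x - r := by
  have h := exists_last hc hx
  refine ⟨h.choose, h.choose_spec, ?_⟩
  unfold lastb
  rw [dif_pos h]

theorem lastb_ne (hc : Ctx P K) {x : ℤ} (hx : x ≠ 0) : lastb P K x ≠ 0 := by
  obtain ⟨r, hr, he⟩ := lastb_spec hc hx
  rw [he]
  exact sub_ne_zero.2 (reach_props hc hx hr.1).1.symm

theorem thinning (hc : Ctx P K) (A : ℕ) (x : ℕ → ℕ)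
    (ht : ∀ p ∈ P, Filter.Tendsto (fun n => val p (x n : ℤ)) Filter.atTop Filter.atTop) :
    ∃ ν : ℕ → ℕ, StrictMono ν ∧ ∀ i, ∀ p ∈ P, K * (A * x (ν i)) < p ^ (val p (x (ν (i + 1)) : ℤ)) := by
  have h : ∀ m, ∃ n, m < n ∧ ∀ p ∈ P, K * (A * x m) < p ^ (val p (x n : ℤ)) := by
    intro m
    have h1 : ∀ᶠ n in Filter.atTop, ∀ p ∈ P, K * (A * x m) ≤ val p (x n : ℤ) := by
      rw [Filter.eventually_all_finset]
      intro p hp
      exact Filter.tendsto_atTop.1 (ht p hp) _
    obtain ⟨n, hn1, hn2⟩ := (h1.and (Filter.eventually_gt_atTop m)).exists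
    refine ⟨n, hn2, ?_⟩
    intro p hp
    exact lt_of_le_of_lt (hn1 p hp) (Nat.lt_pow_self (hc.prime p hp).one_lt)
  choose f hf1 hf2 using h
  refine ⟨fun n => Nat.rec 0 (fun _ m => f m) n, ?_, ?_⟩
  · apply strictMono_nat_of_lt_succ
    intro n
    exact hf1 _
  · intro i p hp
    exact hf2 _ p hp

theorem types_eq {κ ι₁ ι₂ : Type} [Finite κ] [Finite ι₁] [Finite ι₂] (hc : Ctx P K) {k : ℕ}
    (a : Fin k → ℤ) (hk : 2 ≤ k) (ha0 : ∀ i, a i ≠ 0) (haP : ∀ i, NP P (a i) = (a i).natAbs)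
    (hS0 : ∑ i, a i ≠ 0) (hS1 : ∑ i, a i ≠ 1) (T : ℤ → ℤ → κ) (hT : Local P T)
    (hTa : ∀ i, ∀ b z : ℤ, b ≠ 0 → z ≠ 0 → T (a i * b) (a i * z) = T b z)
    (I1 : ℤ → ι₁) (I2 : ℤ → ι₂)
    (hI : ∀ i j : Fin k, ∀ b b' z z' : ℤ, b ≠ 0 → b' ≠ 0 → z ≠ 0 → z' ≠ 0 → I2 b = I2 b' →
      I1 z = I1 z' → T (a i * b) (a j * z) = T (a i * b') (a j * z'))
    (hipr : SumIPR a) :
    ∃ b z : ℤ, b ≠ 0 ∧ z ≠ 0 ∧ ∀ i j : ℕ, ∀ (hi : i + 1 < k) (hj : j + 1 < k),
      T (a ⟨i, by omega⟩ * b) (a ⟨i + 1, hi⟩ * z) = T (a ⟨j, by omega⟩ * b) (a ⟨j + 1, hj⟩ * z) := by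
  classical
  set B := (∑ i, a i).natAbs + (∑ i, a i - 1).natAbs + 1 with hB
  have : NeZero B := ⟨by omega⟩
  have : NeZero (k - 1) := ⟨by omega⟩
  have hNZ : ∀ p : P, NeZero ((p : ℕ) ^ B) := fun p =>
    ⟨pow_ne_zero _ (hc.prime p.1 p.2).ne_zero⟩
  obtain ⟨x, hx, col, hcol, hsum⟩ := hipr
    ((κ → ZMod (k - 1)) × ι₁ × ι₂ × ((p : P) → ZMod B × ZMod ((p : ℕ) ^ B)))
    (fun y => (fun τ => ((cnt P K T τ (y : ℤ) : ℕ) : ZMod (k - 1)), I1 y, I2 (lastb P K y),
      fun p => rcol p B y))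
  have hxz : ∀ n, (x n : ℤ) ≠ 0 := fun n => by exact_mod_cast (hx n).ne'
  have hcnt : ∀ n τ, ((cnt P K T τ (x n : ℤ) : ℕ) : ZMod (k - 1)) = col.1 τ := fun n τ =>
    congrFun (congrArg Prod.fst (hcol n)) τ
  have hI1 : ∀ n, I1 (x n) = col.2.1 := fun n => congrArg (fun c => c.2.1) (hcol n)
  have hI2 : ∀ n, I2 (lastb P K (x n)) = col.2.2.1 := fun n => congrArg (fun c => c.2.2.1) (hcol n)
  have hrc : ∀ n (p : P), rcol p B (x n) = col.2.2.2 p := fun n p =>
    congrFun (congrArg (fun c => c.2.2.2) (hcol n)) p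
  have htend : ∀ p ∈ P, Filter.Tendsto (fun n => val p (x n : ℤ)) Filter.atTop Filter.atTop := by
    intro p hp
    apply rcol_unbounded a (hc.prime p hp) hS0 hS1 (B := B) (by omega) (by omega) x hx
    · intro n
      rw [hrc n ⟨p, hp⟩, hrc 0 ⟨p, hp⟩]
    · intro ν hν
      obtain ⟨y, hy, hys, hyc⟩ := hsum ν hν
      refine ⟨y, hy, hys, ?_⟩
      rw [hrc 0 ⟨p, hp⟩, ← hyc]
  set A : ℕ := 1 + ∑ i, (a i).natAbs with hA
  obtain ⟨ν, hν, hfar⟩ := thinning hc A x htend
  obtain ⟨X, hX, hXs, hXc⟩ := hsum (fun i => ν i) (fun i j hij => hν hij)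
  set a' : ℕ → ℤ := fun i => if h : i < k then a ⟨i, h⟩ else 1 with ha'
  have ha'k : ∀ i (h : i < k), a' i = a ⟨i, h⟩ := fun i h => by simp [ha', h]
  have ha'0 : ∀ i, a' i ≠ 0 := by
    intro i
    by_cases h : i < k
    · rw [ha'k i h]; exact ha0 _
    · simp [ha', h]
  have ha'P : ∀ i, NP P (a' i) = (a' i).natAbs := by
    intro i
    by_cases h : i < k
    · rw [ha'k i h]; exact haP _
    · have : a' i = 1 := by simp [ha', h]
      rw [this]
      apply NP_eq hc.prime one_ne_zero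
      intro p hp hd
      simp at hd
      exact absurd hd hp.one_lt.ne'
  have ha'A : ∀ i, (a' i).natAbs ≤ A := by
    intro i
    by_cases h : i < k
    · rw [ha'k i h]
      have := Finset.single_le_sum (f := fun i => (a i).natAbs) (fun i _ => Nat.zero_le _)
        (Finset.mem_univ (⟨i, h⟩ : Fin k))
      omega
    · have : a' i = 1 := by simp [ha', h]
      rw [this]
      simp only [Int.natAbs_one]
      omega
  have ha'T : ∀ i b z, b ≠ 0 → z ≠ 0 → T (a' i * b) (a' i * z) = T b z := by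
    intro i b z hb hz
    by_cases h : i < k
    · rw [ha'k i h]; exact hTa _ b z hb hz
    · have : a' i = 1 := by simp [ha', h]
      rw [this, one_mul, one_mul]
  set y : ℕ → ℤ := fun i => a' i * x (ν i) with hy
  have hy0 : ∀ i, y i ≠ 0 := fun i => mul_ne_zero (ha'0 i) (hxz _)
  have hyfar : ∀ i, ∀ p ∈ P, K * (y i).natAbs < p ^ (val p (y (i + 1))) := by
    intro i p hp
    have h1 := hfar i p hp
    have h2 : (y i).natAbs ≤ A * x (ν i) := by
      simp only [hy, Int.natAbs_mul, Int.natAbs_natCast]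
      exact Nat.mul_le_mul_right _ (ha'A i)
    have h3 : val p (x (ν (i + 1)) : ℤ) ≤ val p (y (i + 1)) := by
      simp only [hy]
      rw [val_mul (hc.prime p hp) (ha'0 _) (hxz _)]
      omega
    calc K * (y i).natAbs ≤ K * (A * x (ν i)) := Nat.mul_le_mul_left _ h2
      _ < p ^ (val p (x (ν (i + 1)) : ℤ)) := h1
      _ ≤ _ := Nat.pow_le_pow_right (hc.prime p hp).pos h3
  have hlx : ∀ i, ∃ r, IsLast P K (x (ν i) : ℤ) r ∧ lastb P K (x (ν i)) = x (ν i) - r :=
    fun i => lastb_spec hc (hxz _)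
  choose lx hlx1 hlx2 using hlx
  have hyl : ∀ i, IsLast P K (y i) (a' i * lx i) := fun i =>
    last_scale hc (ha'0 i) (ha'P i) (hxz _) (hlx1 i)
  have hylb : ∀ i, y i - a' i * lx i = a' i * lastb P K (x (ν i)) := by
    intro i
    rw [hlx2 i]
    simp only [hy]
    ring
  have hXy : (X : ℤ) = ∑ j ∈ Finset.range (k - 1 + 1), y (0 + j) := by
    rw [← hXs, show k - 1 + 1 = k by omega, Finset.sum_range]
    apply Finset.sum_congr rfl
    intro i _
    simp only [hy, zero_add, ha'k i i.2]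
  -- type of the j-th junction
  have hjun : ∀ j (hj : j + 1 < k), T (y j - a' j * lx j) (y (j + 1)) =
      T (a ⟨j, by omega⟩ * lastb P K (x (ν 0))) (a ⟨j + 1, hj⟩ * (x (ν 0) : ℤ)) := by
    intro j hj
    rw [hylb j]
    simp only [hy]
    rw [ha'k j (by omega), ha'k (j + 1) hj]
    apply hI _ _ _ _ _ _ (lastb_ne hc (hxz _)) (lastb_ne hc (hxz _)) (hxz _) (hxz _)
    · rw [hI2, hI2]
    · rw [hI1, hI1]
  set τ := T (y 0 - a' 0 * lx 0) (y (0 + 1)) with hτ
  have hmain := (cnt_sum hc T hT y (fun i => a' i * lx i) hy0 hyfar hyl τ (k - 1) 0).2.2.2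
  rw [← hXy] at hmain
  set n := ∑ j ∈ Finset.range (k - 1),
    (if T (y (0 + j) - a' (0 + j) * lx (0 + j)) (y (0 + j + 1)) = τ then 1 else 0) with hn
  have hscale : ∀ j, cnt P K T τ (y (0 + j)) = cnt P K T τ (x (ν (0 + j)) : ℤ) := fun j =>
    cnt_scale hc (ha'0 _) (ha'P _) (hxz _) T (ha'T _) τ
  have hmod : ((n : ℕ) : ZMod (k - 1)) = 0 := by
    have h1 := congrArg (fun m : ℕ => (m : ZMod (k - 1))) hmain
    simp only [Nat.cast_add, Nat.cast_sum, hscale] at h1
    have h2 : ((cnt P K T τ (X : ℤ) : ℕ) : ZMod (k - 1)) = col.1 τ :=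
      congrFun (congrArg Prod.fst hXc) τ
    rw [h2] at h1
    simp only [hcnt] at h1
    rw [Finset.sum_const, Finset.card_range, nsmul_eq_mul] at h1
    push_cast at h1
    have h3 : (((k - 1 : ℕ) : ZMod (k - 1))) = 0 := ZMod.natCast_self _
    rw [h3, zero_add, one_mul] at h1
    have h4 : col.1 τ + 0 = col.1 τ + ((n : ℕ) : ZMod (k - 1)) := by
      rw [add_zero]; exact h1
    exact (add_left_cancel h4).symm
  rw [ZMod.natCast_eq_zero_iff] at hmod
  have hn1 : 1 ≤ n := by
    have h0 : 0 ∈ Finset.range (k - 1) := by simp; omega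
    have := Finset.single_le_sum (f := fun j =>
      (if T (y (0 + j) - a' (0 + j) * lx (0 + j)) (y (0 + j + 1)) = τ then 1 else 0))
      (fun j _ => Nat.zero_le _) h0
    simp only [add_zero] at this
    rw [← hτ, if_pos rfl] at this
    exact this
  have hn2 : k - 1 ≤ n := Nat.le_of_dvd hn1 hmod
  have hall : ∀ j ∈ Finset.range (k - 1), T (y (0 + j) - a' (0 + j) * lx (0 + j)) (y (0 + j + 1)) = τ := by
    by_contra hcon
    push Not at hcon
    obtain ⟨j, hj, hne⟩ := hcon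
    have : n < k - 1 := by
      calc n < ∑ _j ∈ Finset.range (k - 1), 1 := by
            rw [hn]
            apply Finset.sum_lt_sum
            · intro i _
              split_ifs <;> simp
            · exact ⟨j, hj, by rw [if_neg hne]; exact one_pos⟩
        _ = k - 1 := by simp
    omega
  refine ⟨lastb P K (x (ν 0)), x (ν 0), lastb_ne hc (hxz _), hxz _, ?_⟩
  intro i j hi hj
  rw [← hjun i hi, ← hjun j hj]
  have h1 := hall i (by simp; omega)
  have h2 := hall j (by simp; omega)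
  simp only [zero_add] at h1 h2
  rw [h1, h2]


theorem eq_of_modEq_small {M : ℕ} {x y : ℤ} (h : (x : ZMod M) = (y : ZMod M))
    (hlt : (x - y).natAbs < M) : x = y := by
  have h1 : ((x - y : ℤ) : ZMod M) = 0 := by push_cast; rw [h]; ring
  rw [ZMod.intCast_zmod_eq_zero_iff_dvd] at h1
  have h2 : x - y = 0 := by
    by_contra hne
    have h3 : M ∣ (x - y).natAbs := Int.natCast_dvd.1 h1
    have := Nat.le_of_dvd (Int.natAbs_pos.2 hne) h3
    omega
  linarith

theorem all_units (hc : Ctx P K) {k : ℕ}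
    (a : Fin k → ℤ) (hk : 2 ≤ k) (ha0 : ∀ i, a i ≠ 0) (haP : ∀ i, NP P (a i) = (a i).natAbs)
    (hS0 : ∑ i, a i ≠ 0) (hS1 : ∑ i, a i ≠ 1) (hipr : SumIPR a)
    (hfirst : a ⟨0, by omega⟩ = 1) (hlast : a ⟨k - 1, by omega⟩ = 1) :
    ∀ i, (a i).natAbs = 1 := by
  set A := ∑ i, (a i).natAbs with hA
  set M := 2 * A + 1 with hM
  have : NeZero M := ⟨by omega⟩
  obtain ⟨b, z, hb, hz, h⟩ := types_eq hc a hk ha0 haP hS0 hS1
    (T := fun b z => fun p : P => (((val p z : ℕ) : ZMod M) - ((val p b : ℕ) : ZMod M)))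
    (by
      intro b z w hz hw hlt
      funext p
      beta_reduce
      rw [(val_add (hc.prime p.1 p.2) hz hw (hlt p.1 p.2)).2])
    (by
      intro i b z hb hz
      funext p
      rw [val_mul (hc.prime p.1 p.2) (ha0 i) hz, val_mul (hc.prime p.1 p.2) (ha0 i) hb]
      push_cast
      ring)
    (fun z => fun p : P => ((val p z : ℕ) : ZMod M)) (fun b => fun p : P => ((val p b : ℕ) : ZMod M))
    (by
      intro i j b b' z z' hb hb' hz hz' h1 h2
      funext p
      have h1' := congrFun h1 p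
      have h2' := congrFun h2 p
      beta_reduce at h1' h2' ⊢
      rw [val_mul (hc.prime p.1 p.2) (ha0 i) hb, val_mul (hc.prime p.1 p.2) (ha0 j) hz,
        val_mul (hc.prime p.1 p.2) (ha0 i) hb', val_mul (hc.prime p.1 p.2) (ha0 j) hz']
      push_cast
      rw [h1', h2'])
    hipr
  have hzero : ∀ p ∈ P, ∀ j (hj : j < k), val p (a ⟨j, hj⟩) = 0 := by
    intro p hp
    have hbound : ∀ i, val p (a i) ≤ A := by
      intro i
      have h1 := val_lt_natAbs (hc.prime p hp) (ha0 i)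
      have h2 := Finset.single_le_sum (f := fun i => (a i).natAbs) (fun i _ => Nat.zero_le _)
        (Finset.mem_univ i)
      omega
    have hD : ∀ i j, ∀ (hi : i + 1 < k) (hj : j + 1 < k),
        ((val p (a ⟨i + 1, hi⟩) : ℤ) - val p (a ⟨i, by omega⟩)) =
        ((val p (a ⟨j + 1, hj⟩) : ℤ) - val p (a ⟨j, by omega⟩)) := by
      intro i j hi hj
      have h1 := congrFun (h i j hi hj) ⟨p, hp⟩
      simp only at h1
      rw [val_mul (hc.prime p hp) (ha0 _) hz, val_mul (hc.prime p hp) (ha0 _) hb,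
        val_mul (hc.prime p hp) (ha0 _) hz, val_mul (hc.prime p hp) (ha0 _) hb] at h1
      push_cast at h1
      apply eq_of_modEq_small (M := M)
      · push_cast
        linear_combination h1
      · have b1 := hbound ⟨i + 1, hi⟩
        have b2 := hbound ⟨i, by omega⟩
        have b3 := hbound ⟨j + 1, hj⟩
        have b4 := hbound ⟨j, by omega⟩
        omega
    have hv1 : val p (1 : ℤ) = 0 := by
      have := val_lt_natAbs (hc.prime p hp) (one_ne_zero : (1 : ℤ) ≠ 0)
      simpa using this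
    have h0 : val p (a ⟨0, by omega⟩) = 0 := by rw [hfirst, hv1]
    have hl : val p (a ⟨k - 1, by omega⟩) = 0 := by rw [hlast, hv1]
    have hD0 : val p (a ⟨0 + 1, by omega⟩) = 0 := by
      have h1 := hD 0 (k - 2) (by omega) (by omega)
      have h2 : (⟨k - 2 + 1, by omega⟩ : Fin k) = ⟨k - 1, by omega⟩ := by
        apply Fin.ext
        change k - 2 + 1 = k - 1
        omega
      rw [h2, hl, h0] at h1
      simp only [Nat.cast_zero, sub_zero, zero_sub] at h1
      omega
    intro j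
    induction j with
    | zero => intro _; exact h0
    | succ j ih =>
      intro hj
      have h1 := hD 0 j (by omega) hj
      rw [hD0, h0, ih (by omega)] at h1
      push_cast at h1
      omega
  intro i
  rw [← haP i]
  unfold NP
  apply Finset.prod_eq_one
  intro p hp
  rw [hzero p hp i.1 i.2, pow_zero]

theorem unt_neg {p : ℕ} (hp : p.Prime) {z : ℤ} (hz : z ≠ 0) : unt p (-z) = - unt p z := by
  refine (unt_eq_of hp (val p z) (w := - unt p z) ?_ ?_).2
  · rw [dvd_neg]; exact unt_not_dvd hp hz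
  · have := unt_mul hp z
    rw [mul_neg, this]

theorem all_ones (hc : Ctx P K) (h3 : 3 ∈ P) {k : ℕ}
    (a : Fin k → ℤ) (hk : 2 ≤ k) (hunit : ∀ i, (a i).natAbs = 1)
    (hS0 : ∑ i, a i ≠ 0) (hS1 : ∑ i, a i ≠ 1) (hipr : SumIPR a)
    (hfirst : a ⟨0, by omega⟩ = 1) (hlast : a ⟨k - 1, by omega⟩ = 1) :
    ∀ i, a i = 1 := by
  have hpm : ∀ i, a i = 1 ∨ a i = -1 := fun i => Int.natAbs_eq_iff.1 (hunit i)
  have ha0 : ∀ i, a i ≠ 0 := fun i h => by
    have := hunit i; rw [h] at this; simp at this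
  have haP : ∀ i, NP P (a i) = (a i).natAbs := by
    intro i
    apply NP_eq hc.prime (ha0 i)
    intro p hp hd
    rw [hunit i] at hd
    simp at hd
    exact absurd hd hp.one_lt.ne'
  have hp3 : Nat.Prime 3 := Nat.prime_three
  have hun : ∀ i, ∀ z : ℤ, z ≠ 0 → unt 3 (a i * z) = a i * unt 3 z := by
    intro i z hz
    rcases hpm i with h | h
    · rw [h, one_mul, one_mul]
    · rw [h, neg_one_mul, neg_one_mul, unt_neg hp3 hz]
  have hsg : ∀ i, ∀ b : ℤ, (a i * b).sign = a i * b.sign := by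
    intro i b
    rcases hpm i with h | h
    · rw [h, one_mul, one_mul]
    · rw [h, neg_one_mul, neg_one_mul, Int.sign_neg]
  have hsq : ∀ i, (a i : ZMod 3) * (a i : ZMod 3) = 1 := by
    intro i
    rcases hpm i with h | h <;> rw [h] <;> push_cast <;> ring
  obtain ⟨b, z, hb, hz, h⟩ := types_eq hc a hk ha0 haP hS0 hS1
    (T := fun b z => ((b.sign : ℤ) : ZMod 3) * ((unt 3 z : ℤ) : ZMod 3))
    (by
      intro b z w hz hw hlt
      have h1 := hlt 3 h3
      have h2 : unt 3 (z + w) = unt 3 z + 3 * (3 ^ (val 3 w - val 3 z - 1) * unt 3 w) := by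
        refine (unt_eq_of hp3 (val 3 z) ?_ ?_).2
        · intro hd
          have e : ((3 : ℕ) : ℤ) ∣ 3 * (3 ^ (val 3 w - val 3 z - 1) * unt 3 w) :=
            Dvd.intro _ rfl
          exact unt_not_dvd hp3 hz ((Int.dvd_add_left e).1 hd)
        · have e1 := unt_mul hp3 z
          have e2 := unt_mul hp3 w
          have e3 : ((3 : ℕ) : ℤ) ^ (val 3 w) = ((3 : ℕ) : ℤ) ^ (val 3 z) * (3 * 3 ^ (val 3 w - val 3 z - 1)) := by
            push_cast
            rw [← pow_succ', ← pow_add]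
            congr 1
            omega
          rw [e3] at e2
          nth_rewrite 1 [← e1, ← e2]
          ring
      beta_reduce
      rw [h2]
      push_cast
      have : (3 : ZMod 3) = 0 := by decide
      rw [this]
      ring)
    (by
      intro i b z hb hz
      rw [hun i z hz, hsg i b]
      push_cast
      linear_combination ((b.sign : ℤ) : ZMod 3) * ((unt 3 z : ℤ) : ZMod 3) * hsq i)
    (fun z => ((unt 3 z : ℤ) : ZMod 3)) (fun b => ((b.sign : ℤ) : ZMod 3))
    (by
      intro i j b b' z z' hb hb' hz hz' h1 h2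
      rw [hun j z hz, hun j z' hz', hsg i b, hsg i b']
      push_cast
      rw [h1, h2])
    hipr
  have hsign : IsUnit (((b.sign : ℤ) : ZMod 3)) := by
    rcases lt_or_gt_of_ne hb with h1 | h1
    · rw [Int.sign_eq_neg_one_of_neg h1]
      push_cast
      exact isUnit_one.neg
    · rw [Int.sign_eq_one_of_pos h1]
      push_cast
      exact isUnit_one
  have hunz : IsUnit (((unt 3 z : ℤ) : ZMod 3)) := by
    have : Fact (Nat.Prime 3) := ⟨hp3⟩
    rw [isUnit_iff_ne_zero]
    intro h0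
    rw [ZMod.intCast_zmod_eq_zero_iff_dvd] at h0
    exact unt_not_dvd hp3 hz h0
  have hprod : ∀ i j, ∀ (hi : i + 1 < k) (hj : j + 1 < k),
      a ⟨i, by omega⟩ * a ⟨i + 1, hi⟩ = a ⟨j, by omega⟩ * a ⟨j + 1, hj⟩ := by
    intro i j hi hj
    have h1 := h i j hi hj
    beta_reduce at h1
    rw [hun _ z hz, hun _ z hz, hsg _ b, hsg _ b] at h1
    push_cast at h1
    have h2 : ((b.sign : ℤ) : ZMod 3) * (((unt 3 z : ℤ) : ZMod 3) *
        ((a ⟨i, by omega⟩ : ZMod 3) * (a ⟨i + 1, hi⟩ : ZMod 3))) =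
        ((b.sign : ℤ) : ZMod 3) * (((unt 3 z : ℤ) : ZMod 3) *
        ((a ⟨j, by omega⟩ : ZMod 3) * (a ⟨j + 1, hj⟩ : ZMod 3))) := by
      linear_combination h1
    have h3 := hunz.mul_left_cancel (hsign.mul_left_cancel h2)
    apply eq_of_modEq_small (M := 3)
    · push_cast; exact h3
    · rcases hpm ⟨i, by omega⟩ with e1 | e1 <;> rcases hpm ⟨i + 1, hi⟩ with e2 | e2 <;>
        rcases hpm ⟨j, by omega⟩ with e3 | e3 <;> rcases hpm ⟨j + 1, hj⟩ with e4 | e4 <;>
        rw [e1, e2, e3, e4] <;> simp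
  rcases hpm ⟨0 + 1, by omega⟩ with h1 | h1
  · -- all ones
    have : ∀ j (hj : j < k), a ⟨j, hj⟩ = 1 := by
      intro j
      induction j with
      | zero => intro _; exact hfirst
      | succ j ih =>
        intro hj
        have h2 := hprod 0 j (by omega) hj
        rw [h1, hfirst, ih (by omega)] at h2
        simpa using h2.symm
    intro i
    exact this i.1 i.2
  · exfalso
    have halt : ∀ j (hj : j < k), a ⟨j, hj⟩ = (-1) ^ j := by
      intro j
      induction j with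
      | zero => intro _; simpa using hfirst
      | succ j ih =>
        intro hj
        have h2 := hprod 0 j (by omega) hj
        rw [h1, hfirst, ih (by omega)] at h2
        have h3 : ((-1 : ℤ) ^ j) * ((-1 : ℤ) ^ j) = 1 := by
          rw [← mul_pow]; simp
        rw [pow_succ]
        calc a ⟨j + 1, hj⟩ = ((-1 : ℤ) ^ j) * ((-1 : ℤ) ^ j) * a ⟨j + 1, hj⟩ := by rw [h3, one_mul]
          _ = (-1 : ℤ) ^ j * ((-1 : ℤ) ^ j * a ⟨j + 1, hj⟩) := by ring
          _ = _ := by rw [← h2]; ring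
    have hl := halt (k - 1) (by omega)
    rw [hlast] at hl
    apply hS1
    have hsum : ∑ i, a i = ∑ j ∈ Finset.range k, (-1 : ℤ) ^ j := by
      rw [Finset.sum_range]
      apply Finset.sum_congr rfl
      intro i _
      exact halt i.1 i.2
    rw [hsum, neg_one_geom_sum]
    have hodd : ¬ Even k := by
      intro he
      have : Odd (k - 1) := by
        obtain ⟨m, hm⟩ := he
        exact ⟨m - 1, by omega⟩
      rw [this.neg_one_pow] at hl
      norm_num at hl
    rw [if_neg hodd]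

theorem necessity {k : ℕ} (a : Fin k → ℤ) (ha : ∀ i, a i ≠ 0) (hipr : SumIPR a) :
    ∑ i, a i = 1 ∨ ∃ h : 0 < k, a ⟨k - 1, Nat.sub_lt h one_pos⟩ = 1 ∧
      (∑ i, a i = 0 ∨ ∀ i, a i = 1) := by
  by_cases hS1 : ∑ i, a i = 1
  · exact Or.inl hS1
  right
  have hk : 0 < k := by
    rcases Nat.eq_zero_or_pos k with rfl | h
    · exfalso
      obtain ⟨x, hx, j, hj, hs⟩ := hipr Unit (fun _ => ())
      obtain ⟨y, hy, hys, _⟩ := hs (fun i => i.elim0) (fun i => i.elim0)
      simp at hys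
      omega
    · exact h
  refine ⟨hk, ?_⟩
  have hlast : a ⟨k - 1, Nat.sub_lt hk one_pos⟩ = 1 := by
    obtain ⟨x, hx, col, hcol, hsum⟩ := hipr (ZMod 2 × ZMod 4) (fun y =>
      (((Nat.log (∑ i, a i).natAbs y : ℕ) : ZMod 2),
       ((Nat.log (a ⟨k - 1, Nat.sub_lt hk one_pos⟩).natAbs (y ^ 2) : ℕ) : ZMod 4)))
    have ht := values_unbounded a hS1 x hx
      (fun n => (congrArg Prod.fst (hcol n)).trans (congrArg Prod.fst (hcol 0)).symm)
      (by
        intro ν hν
        obtain ⟨y, hy, hys, hyc⟩ := hsum ν hν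
        exact ⟨y, hy, hys, (congrArg Prod.fst hyc).trans (congrArg Prod.fst (hcol 0)).symm⟩)
    exact last_coeff hk a ha x hx ht
      (fun n => (congrArg Prod.snd (hcol n)).trans (congrArg Prod.snd (hcol 0)).symm)
      (by
        intro ν hν
        obtain ⟨y, hy, hys, hyc⟩ := hsum ν hν
        exact ⟨y, hy, hys, (congrArg Prod.snd hyc).trans (congrArg Prod.snd (hcol 0)).symm⟩)
  refine ⟨hlast, ?_⟩
  by_cases hS0 : ∑ i, a i = 0
  · exact Or.inl hS0
  right
  have hk2 : 2 ≤ k := by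
    by_contra hcon
    have hk1 : k = 1 := by omega
    subst hk1
    apply hS1
    simpa using hlast
  have hfirst : a ⟨0, hk⟩ = 1 := by
    set B := (∑ i, a i).natAbs + (∑ i, a i - 1).natAbs + (a ⟨0, hk⟩).natAbs
      + (a ⟨0, hk⟩ - 1).natAbs + 1 with hB
    have : NeZero B := ⟨by omega⟩
    have : NeZero (3 ^ B) := ⟨pow_ne_zero _ (by norm_num)⟩
    obtain ⟨x, hx, col, hcol, hsum⟩ := hipr (ZMod B × ZMod (3 ^ B)) (rcol 3 B)
    have hcol' : ∀ n, rcol 3 B (x n) = rcol 3 B (x 0) := fun n => (hcol n).trans (hcol 0).symm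
    have hsum' : ∀ ν : Fin k → ℕ, StrictMono ν → ∃ y : ℕ, 0 < y ∧
      (∑ i, a i * (x (ν i) : ℤ)) = (y : ℤ) ∧ rcol 3 B y = rcol 3 B (x 0) := by
      intro ν hν
      obtain ⟨y, hy, hys, hyc⟩ := hsum ν hν
      exact ⟨y, hy, hys, hyc.trans (hcol 0).symm⟩
    have ht := rcol_unbounded a Nat.prime_three hS0 hS1 (B := B) (by omega) (by omega) x hx hcol' hsum'
    exact first_coeff hk a ha Nat.prime_three (B := B) (by omega) (by omega) x hx hsum' ht
  -- the set of primes
  set P : Finset ℕ := insert 3 ((∏ i, (a i).natAbs).primeFactors) with hP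
  obtain ⟨K, hK1, hK2⟩ := Nat.exists_infinite_primes (P.sup id + 3)
  have hc : Ctx P K := by
    refine ⟨?_, ⟨3, by simp [hP]⟩, hK2, ?_, by omega⟩
    · intro p hp
      rw [hP, Finset.mem_insert] at hp
      rcases hp with rfl | hp
      · exact Nat.prime_three
      · exact Nat.prime_of_mem_primeFactors hp
    · intro hKP
      have : K ≤ P.sup id := Finset.le_sup (f := id) hKP
      omega
  have haP : ∀ i, NP P (a i) = (a i).natAbs := by
    intro i
    apply NP_eq hc.prime (ha i)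
    intro p hp hd
    rw [hP, Finset.mem_insert]
    right
    rw [Nat.mem_primeFactors]
    refine ⟨hp, hd.trans (Finset.dvd_prod_of_mem _ (Finset.mem_univ i)), ?_⟩
    rw [Finset.prod_ne_zero_iff]
    intro j _
    exact Int.natAbs_ne_zero.2 (ha j)
  have hunits := all_units hc a hk2 ha haP hS0 hS1 hipr hfirst hlast
  exact all_ones hc (by simp [hP]) a hk2 hunits hS0 hS1 hipr hfirst hlast


theorem lim_exists {κ : Type} [Finite κ] (U : Ultrafilter ℕ) (h : ℕ → κ) :
    ∃ c, ∀ᶠ n in (U : Filter ℕ), h n = c := by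
  obtain ⟨c, hc⟩ := Ultrafilter.eq_pure_of_finite (U.map h)
  refine ⟨c, ?_⟩
  have h1 : {c} ∈ U.map h := by rw [hc]; exact Filter.mem_pure.2 rfl
  rw [Ultrafilter.mem_map] at h1
  exact h1

open Classical in
/-- iterated limit colourings -/
noncomputable def iter {κ : Type} [Finite κ] (U : Ultrafilter ℕ) (f : Finset ℕ → κ) :
    ℕ → Finset ℕ → κ
  | 0 => f
  | (i + 1) => fun s => (lim_exists U (fun n => iter U f i (insert n s))).choose

theorem iter_spec {κ : Type} [Finite κ] (U : Ultrafilter ℕ) (f : Finset ℕ → κ) (i : ℕ)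
    (s : Finset ℕ) : ∀ᶠ n in (U : Filter ℕ), iter U f i (insert n s) = iter U f (i + 1) s :=
  (lim_exists U (fun n => iter U f i (insert n s))).choose_spec

/-- The infinite Ramsey theorem for `k`-subsets of the natural numbers. -/
theorem inf_ramsey {κ : Type} [Finite κ] (k : ℕ) (f : Finset ℕ → κ) :
    ∃ φ : ℕ → ℕ, StrictMono φ ∧ ∃ c, ∀ J : Finset ℕ, J.card = k → f (J.image φ) = c := by
  classical
  set U : Ultrafilter ℕ := Filter.hyperfilter ℕ with hU
  have hstep : ∀ A : Finset ℕ, ∃ n : ℕ, (∀ a ∈ A, a < n) ∧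
      ∀ s ∈ A.powerset, ∀ i ∈ Finset.range k, iter U f i (insert n s) = iter U f (i + 1) s := by
    intro A
    have h1 : ∀ᶠ n in (U : Filter ℕ), ∀ a ∈ A, a < n := by
      rw [Filter.eventually_all_finset]
      intro a _
      have h2 : ∀ᶠ n in Filter.atTop, a < n := Filter.eventually_gt_atTop a
      rw [← Nat.cofinite_eq_atTop] at h2
      exact Filter.hyperfilter_le_cofinite h2
    have h2 : ∀ᶠ n in (U : Filter ℕ), ∀ s ∈ A.powerset, ∀ i ∈ Finset.range k,
        iter U f i (insert n s) = iter U f (i + 1) s := by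
      rw [Filter.eventually_all_finset]
      intro s _
      rw [Filter.eventually_all_finset]
      intro i _
      exact iter_spec U f i s
    exact (h1.and h2).exists
  choose g hg1 hg2 using hstep
  set A : ℕ → Finset ℕ := fun m => Nat.rec ∅ (fun _ B => insert (g B) B) m with hA
  have hA0 : A 0 = ∅ := rfl
  have hAs : ∀ m, A (m + 1) = insert (g (A m)) (A m) := fun m => rfl
  have hAmono : ∀ m n, m ≤ n → A m ⊆ A n := by
    intro m n h
    induction n, h using Nat.le_induction with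
    | base => exact Finset.Subset.refl _
    | succ n _ ih => rw [hAs]; exact ih.trans (Finset.subset_insert _ _)
  set φ : ℕ → ℕ := fun m => g (A m) with hφ
  have hφmem : ∀ m n, m < n → φ m ∈ A n := by
    intro m n h
    apply hAmono (m + 1) n h
    rw [hAs]
    exact Finset.mem_insert_self _ _
  refine ⟨φ, ?_, iter U f k ∅, ?_⟩
  · intro m n h
    exact hg1 _ _ (hφmem m n h)
  · have key : ∀ J : Finset ℕ, J.card ≤ k → iter U f (k - J.card) (J.image φ) = iter U f k ∅ := by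
      intro J
      induction J using Finset.induction_on_max with
      | empty => intro _; simp
      | insert m J hm ih =>
        intro hc
        have hmJ : m ∉ J := fun h => lt_irrefl _ (hm m h)
        rw [Finset.card_insert_of_notMem hmJ] at hc ⊢
        rw [Finset.image_insert]
        have hsub : J.image φ ∈ (A m).powerset := by
          rw [Finset.mem_powerset]
          intro x hx
          rw [Finset.mem_image] at hx
          obtain ⟨j, hj, rfl⟩ := hx
          exact hφmem j m (hm j hj)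
        have := hg2 (A m) _ hsub (k - (J.card + 1)) (by rw [Finset.mem_range]; omega)
        rw [show φ m = g (A m) from rfl, this, show k - (J.card + 1) + 1 = k - J.card by omega]
        exact ih (by omega)
    intro J hJ
    have := key J hJ.le
    rw [hJ, Nat.sub_self] at this
    exact this

theorem fs_map (a' : Stream' ℕ) (m : ℕ) (h : m ∈ Hindman.FS a') :
    ∀ b : Stream' ℕ+, a' = b.map (fun x : ℕ+ => (x : ℕ)) → ∃ p ∈ Hindman.FS b, (p : ℕ) = m := by
  induction h with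
  | head' a =>
    intro b hb
    refine ⟨b.head, Hindman.FS.head' b, ?_⟩
    rw [hb]; rfl
  | tail' a m _ ih =>
    intro b hb
    obtain ⟨p, hp, hpm⟩ := ih b.tail (by rw [hb]; rfl)
    exact ⟨p, Hindman.FS.tail' b p hp, hpm⟩
  | cons' a m _ ih =>
    intro b hb
    obtain ⟨p, hp, hpm⟩ := ih b.tail (by rw [hb]; rfl)
    refine ⟨b.head + p, Hindman.FS.cons' b p hp, ?_⟩
    rw [hb, PNat.add_coe, hpm]
    rfl

theorem hindman_seq {κ : Type} [Finite κ] (c : ℕ → κ) :
    ∃ x : ℕ → ℕ, (∀ n, 0 < x n) ∧ ∃ j : κ, ∀ J : Finset ℕ, J.Nonempty → c (∑ i ∈ J, x i) = j := by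
  obtain ⟨S, hS, b, hb⟩ := Hindman.exists_FS_of_finite_cover (M := ℕ+)
    (Set.range (fun j : κ => {m : ℕ+ | c (m : ℕ) = j})) (Set.finite_range _)
    (by
      intro m _
      exact ⟨{m' : ℕ+ | c (m' : ℕ) = c (m : ℕ)}, ⟨c m, rfl⟩, rfl⟩)
  obtain ⟨j, rfl⟩ := hS
  refine ⟨fun n => ((b.get n : ℕ+) : ℕ), fun n => (b.get n).pos, j, ?_⟩
  intro J hJ
  have h1 := Hindman.FS.finsetSum (b.map (fun x : ℕ+ => (x : ℕ))) J hJ
  obtain ⟨p, hp, hpm⟩ := fs_map _ _ h1 b rfl
  have h2 := hb hp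
  have h3 : c (p : ℕ) = j := h2
  rw [hpm] at h3
  exact h3


/-- sufficiency, zero sum case -/
theorem suff_zero {k : ℕ} (a : Fin k → ℤ) (hk : 0 < k) (hS : ∑ i, a i = 0)
    (hlast : a ⟨k - 1, Nat.sub_lt hk one_pos⟩ = 1) : SumIPR a := by
  classical
  intro κ _ c
  obtain ⟨k, rfl⟩ : ∃ k', k = k' + 1 := ⟨k - 1, by omega⟩
  have hlast' : a (Fin.last k) = 1 := hlast
  set D : ℕ := ∑ i, (a i).natAbs with hD
  set B : ℕ := D + 1 with hB
  set V : (Fin (k + 1) → ℕ) → ℤ := fun ν => ∑ i, a i * (B : ℤ) ^ (ν i) with hV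
  have hVsplit : ∀ ν, V ν = (∑ i : Fin k, a i.castSucc * (B : ℤ) ^ (ν i.castSucc))
      + (B : ℤ) ^ (ν (Fin.last k)) := by
    intro ν
    simp only [hV]
    rw [Fin.sum_univ_castSucc, hlast', one_mul]
  have hVpos : ∀ ν : Fin (k + 1) → ℕ, StrictMono ν → 0 < V ν := by
    intro ν hν
    rw [hVsplit]
    set N := ν (Fin.last k) with hN
    set R := ∑ i : Fin k, a i.castSucc * (B : ℤ) ^ (ν i.castSucc) with hR
    have hBpos : (0 : ℤ) < B := by rw [hB]; positivity
    have h1 : (B : ℤ) * |R| ≤ D * (B : ℤ) ^ N := by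
      have h2 : |R| ≤ ∑ i : Fin k, |a i.castSucc| * (B : ℤ) ^ (ν i.castSucc) := by
        rw [hR]
        refine (Finset.abs_sum_le_sum_abs _ _).trans ?_
        apply Finset.sum_le_sum
        intro i _
        rw [abs_mul, abs_of_pos (pow_pos hBpos _)]
      have h3 : (B : ℤ) * (∑ i : Fin k, |a i.castSucc| * (B : ℤ) ^ (ν i.castSucc)) ≤
          (∑ i : Fin k, |a i.castSucc|) * (B : ℤ) ^ N := by
        rw [Finset.mul_sum, Finset.sum_mul]
        apply Finset.sum_le_sum
        intro i _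
        have h4 : ν i.castSucc + 1 ≤ N := hν (Fin.castSucc_lt_last i)
        calc (B : ℤ) * (|a i.castSucc| * (B : ℤ) ^ (ν i.castSucc))
            = |a i.castSucc| * (B : ℤ) ^ (ν i.castSucc + 1) := by rw [pow_succ]; ring
          _ ≤ |a i.castSucc| * (B : ℤ) ^ N := by
              apply mul_le_mul_of_nonneg_left _ (abs_nonneg _)
              exact pow_le_pow_right₀ (by rw [hB]; push_cast; omega) h4
      have h5 : (∑ i : Fin k, |a i.castSucc|) ≤ (D : ℤ) := by
        rw [hD, Fin.sum_univ_castSucc]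
        push_cast
        have := abs_nonneg (a (Fin.last k))
        linarith
      calc (B : ℤ) * |R| ≤ (B : ℤ) * (∑ i : Fin k, |a i.castSucc| * (B : ℤ) ^ (ν i.castSucc)) :=
            mul_le_mul_of_nonneg_left h2 hBpos.le
        _ ≤ (∑ i : Fin k, |a i.castSucc|) * (B : ℤ) ^ N := h3
        _ ≤ D * (B : ℤ) ^ N := mul_le_mul_of_nonneg_right h5 (pow_pos hBpos _).le
    have h6 : |R| < (B : ℤ) ^ N := by
      have h7 : (B : ℤ) * |R| < (B : ℤ) * (B : ℤ) ^ N := by
        have h8 : (D : ℤ) * (B : ℤ) ^ N < (B : ℤ) * (B : ℤ) ^ N := by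
          apply mul_lt_mul_of_pos_right _ (pow_pos hBpos _)
          rw [hB]; push_cast; omega
        linarith
      exact lt_of_mul_lt_mul_left h7 hBpos.le
    have := (abs_lt.1 h6).1
    linarith
  set f : Finset ℕ → κ := fun s =>
    if h : s.card = k + 1 then c (V (s.orderEmbOfFin h)).toNat else c 0 with hf
  obtain ⟨φ, hφ, col, hcol⟩ := inf_ramsey (k + 1) f
  have hcolV : ∀ ν : Fin (k + 1) → ℕ, StrictMono ν → c (V (fun i => φ (ν i))).toNat = col := by
    intro ν hν
    set J : Finset ℕ := Finset.univ.image ν with hJ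
    have hJc : J.card = k + 1 := by
      rw [hJ, Finset.card_image_of_injective _ hν.injective]; simp
    have h1 := hcol J hJc
    have hcard : (J.image φ).card = k + 1 := by
      rw [Finset.card_image_of_injective _ hφ.injective, hJc]
    simp only [hf] at h1
    rw [dif_pos hcard] at h1
    have h2 : (fun i => φ (ν i)) = (J.image φ).orderEmbOfFin hcard := by
      apply Finset.orderEmbOfFin_unique hcard
      · intro i
        rw [Finset.mem_image]
        exact ⟨ν i, by rw [hJ, Finset.mem_image]; exact ⟨i, Finset.mem_univ _, rfl⟩, rfl⟩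
      · intro i j hij
        exact hφ (hν hij)
    rw [h2]
    exact h1
  set μ : ℕ → Fin (k + 1) → ℕ := fun n => Fin.snoc (fun i : Fin k => (i : ℕ)) (k + n) with hμ
  have hμmono : ∀ n, StrictMono (μ n) := by
    intro n i j hij
    rcases Fin.eq_castSucc_or_eq_last i with ⟨i, rfl⟩ | rfl
    · rcases Fin.eq_castSucc_or_eq_last j with ⟨j, rfl⟩ | rfl
      · simp only [hμ]
        rw [Fin.snoc_castSucc, Fin.snoc_castSucc]
        simpa using hij
      · simp only [hμ]
        rw [Fin.snoc_castSucc, Fin.snoc_last]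
        have := i.2
        omega
    · exact absurd hij (not_lt.2 (Fin.le_last _))
  have hφμmono : ∀ n, StrictMono (fun i => φ (μ n i)) := fun n i j hij => hφ (hμmono n hij)
  set C : ℤ := ∑ i : Fin k, a i.castSucc * (B : ℤ) ^ (φ (i : ℕ)) with hC
  have hVμ : ∀ n, V (fun i => φ (μ n i)) = C + (B : ℤ) ^ (φ (k + n)) := by
    intro n
    rw [hVsplit]
    simp only [hμ, Fin.snoc_castSucc, Fin.snoc_last]
    rfl
  refine ⟨fun n => (V (fun i => φ (μ n i))).toNat, ?_, col, ?_, ?_⟩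
  · intro n
    have := hVpos _ (hφμmono n)
    simp only
    omega
  · intro n
    exact hcolV _ (hμmono n)
  · intro ν hν
    have hν' : StrictMono (fun i => k + ν i) := fun i j hij => by
      have := hν hij
      simp only
      omega
    have hpos := hVpos (fun i => φ (k + ν i)) (fun i j hij => hφ (hν' hij))
    refine ⟨(V (fun i => φ (k + ν i))).toNat, by omega, ?_, hcolV _ hν'⟩
    have h1 : ∀ n, (((V (fun i => φ (μ n i))).toNat : ℕ) : ℤ) = C + (B : ℤ) ^ (φ (k + n)) := by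
      intro n
      rw [Int.toNat_of_nonneg (hVpos _ (hφμmono n)).le, hVμ]
    rw [Int.toNat_of_nonneg hpos.le]
    simp only [h1]
    calc ∑ i, a i * (C + (B : ℤ) ^ (φ (k + ν i)))
        = (∑ i, a i) * C + ∑ i, a i * (B : ℤ) ^ (φ (k + ν i)) := by
          rw [Finset.sum_mul, ← Finset.sum_add_distrib]
          apply Finset.sum_congr rfl
          intro i _
          ring
      _ = V (fun i => φ (k + ν i)) := by rw [hS, zero_mul, zero_add]

theorem suff_ones {k : ℕ} (a : Fin k → ℤ) (hk : 0 < k) (h1 : ∀ i, a i = 1) : SumIPR a := by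
  classical
  intro κ _ c
  obtain ⟨x, hx, j, hj⟩ := hindman_seq c
  refine ⟨x, hx, j, ?_, ?_⟩
  · intro n
    simpa using hj {n} (Finset.singleton_nonempty n)
  · intro ν hν
    have hne : (Finset.univ.image ν).Nonempty := ⟨ν ⟨0, hk⟩, Finset.mem_image_of_mem _ (Finset.mem_univ _)⟩
    have h2 := hj (Finset.univ.image ν) hne
    rw [Finset.sum_image (fun i _ j _ h => hν.injective h)] at h2
    refine ⟨∑ i, x (ν i), ?_, ?_, h2⟩
    · apply Finset.sum_pos (fun i _ => hx _)
      exact ⟨⟨0, hk⟩, Finset.mem_univ _⟩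
    · push_cast
      apply Finset.sum_congr rfl
      intro i _
      rw [h1 i, one_mul]

theorem suff_one {k : ℕ} (a : Fin k → ℤ) (h1 : ∑ i, a i = 1) : SumIPR a := by
  intro κ _ c
  refine ⟨fun _ => 1, fun _ => one_pos, c 1, fun _ => rfl, ?_⟩
  intro ν _
  exact ⟨1, one_pos, by simpa using h1, rfl⟩

end Pool.Agent.Helper291.IPRCore
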