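import Mathlib

set_option autoImplicit false

namespace Pool.Agent.Helper291.RelConn

theorem closed_reach {V : Type*} (T : SimpleGraph V) (A : V → Prop) (hA : ∀ a b, A a → T.Adj a b → A b)
    (x y : V) (h : T.Reachable x y) (hx : A x) : A y := by
  obtain ⟨p⟩ := h
  induction p with
  | nil => exact hx
  | cons hadj _ ih => exact ih (hA _ _ hx hadj)

/-- target: `T` a graph with two special vertices `h ≠ z`, `Γ` is `T` with all edges at `h` or `z`
deleted.  Connectivity of `T` in terms of the components of `Γ`. -/
theorem conn_iff {V : Type*} [Fintype V] [DecidableEq V] (T Γ : SimpleGraph V) (h z : V)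
    (hz : h ≠ z)
    (hΓ : ∀ a b, Γ.Adj a b ↔ T.Adj a b ∧ a ≠ h ∧ a ≠ z ∧ b ≠ h ∧ b ≠ z) :
    T.Connected ↔
      (∀ c : Γ.ConnectedComponent, c ≠ Γ.connectedComponentMk h → c ≠ Γ.connectedComponentMk z →
        ∃ w, Γ.connectedComponentMk w = c ∧ (T.Adj h w ∨ T.Adj z w)) ∧
      (T.Adj h z ∨ ∃ c : Γ.ConnectedComponent, c ≠ Γ.connectedComponentMk h ∧
        c ≠ Γ.connectedComponentMk z ∧ (∃ w, Γ.connectedComponentMk w = c ∧ T.Adj h w) ∧
        (∃ w, Γ.connectedComponentMk w = c ∧ T.Adj z w)) := by
  have isoh : ∀ b, Γ.connectedComponentMk b = Γ.connectedComponentMk h → b = h := by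
    intro b hb
    have hr : Γ.Reachable h b := (SimpleGraph.ConnectedComponent.exact hb).symm
    exact closed_reach Γ (fun w => w = h) (by
      intro a b ha hab
      exact absurd ha ((hΓ a b).mp hab).2.1) h b hr rfl
  have isoz : ∀ b, Γ.connectedComponentMk b = Γ.connectedComponentMk z → b = z := by
    intro b hb
    have hr : Γ.Reachable z b := (SimpleGraph.ConnectedComponent.exact hb).symm
    exact closed_reach Γ (fun w => w = z) (by
      intro a b ha hab
      exact absurd ha ((hΓ a b).mp hab).2.2.1) z b hr rfl
  have hmk : ∀ a b, Γ.Adj a b → Γ.connectedComponentMk b = Γ.connectedComponentMk a := fun a b hab =>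
    SimpleGraph.ConnectedComponent.sound hab.symm.reachable
  have hle : Γ ≤ T := fun a b hab => ((hΓ a b).mp hab).1
  constructor
  · intro hT
    refine ⟨?_, ?_⟩
    · intro c hch hcz
      by_contra hcon
      push Not at hcon
      obtain ⟨v, rfl⟩ := c.exists_rep
      have h1 := closed_reach T (fun w => Γ.connectedComponentMk w = Γ.connectedComponentMk v) (by
        intro a b ha hab
        have hah : a ≠ h := fun e => hch (by rw [← e]; exact ha.symm)
        have haz : a ≠ z := fun e => hcz (by rw [← e]; exact ha.symm)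
        have hbh : b ≠ h := fun e => (hcon a ha).1 (by rw [← e]; exact hab.symm)
        have hbz : b ≠ z := fun e => (hcon a ha).2 (by rw [← e]; exact hab.symm)
        exact (hmk a b ((hΓ a b).mpr ⟨hab, hah, haz, hbh, hbz⟩)).trans ha) v h (hT.preconnected v h) rfl
      exact hch h1.symm
    · by_contra hcon
      push Not at hcon
      obtain ⟨hnadj, hcon⟩ := hcon
      have h1 := closed_reach T (fun w => w = h ∨ (Γ.connectedComponentMk w ≠ Γ.connectedComponentMk h ∧
          Γ.connectedComponentMk w ≠ Γ.connectedComponentMk z ∧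
          ∃ u, Γ.connectedComponentMk u = Γ.connectedComponentMk w ∧ T.Adj h u)) (by
        rintro a b (ha | ⟨ha1, ha2, u, hu1, hu2⟩) hab
        · subst ha
          right
          have hbh : b ≠ a := hab.ne'
          have hbz : b ≠ z := fun e => hnadj (by rw [← e]; exact hab)
          exact ⟨fun e => hbh (isoh b e), fun e => hbz (isoz b e), b, rfl, hab⟩
        · by_cases hbh : b = h
          · exact Or.inl hbh
          right
          have hbz : b ≠ z := by
            intro e
            subst e
            exact hcon (Γ.connectedComponentMk a) ha1 ha2 ⟨u, hu1, hu2⟩ a rfl hab.symm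
          have hah : a ≠ h := fun e => ha1 (by rw [e])
          have haz : a ≠ z := fun e => ha2 (by rw [e])
          have h3 := hmk a b ((hΓ a b).mpr ⟨hab, hah, haz, hbh, hbz⟩)
          rw [h3]
          exact ⟨ha1, ha2, u, hu1, hu2⟩) h z (hT.preconnected h z) (Or.inl rfl)
      rcases h1 with h1 | h1
      · exact hz h1.symm
      · exact h1.2.1 rfl
  · rintro ⟨h1, h2⟩
    have hhz : T.Reachable h z := by
      rcases h2 with h2 | ⟨c, _, _, ⟨w1, hw1, hw1'⟩, ⟨w2, hw2, hw2'⟩⟩
      · exact h2.reachable
      · have h3 : Γ.Reachable w1 w2 := SimpleGraph.ConnectedComponent.exact (hw1.trans hw2.symm)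
        exact hw1'.reachable.trans ((h3.mono hle).trans hw2'.symm.reachable)
    have hall : ∀ w, T.Reachable h w := by
      intro w
      by_cases e1 : Γ.connectedComponentMk w = Γ.connectedComponentMk h
      · rw [isoh w e1]
      by_cases e2 : Γ.connectedComponentMk w = Γ.connectedComponentMk z
      · rw [isoz w e2]
        exact hhz
      obtain ⟨w0, hw0, hw0'⟩ := h1 _ e1 e2
      have h3 : Γ.Reachable w0 w := SimpleGraph.ConnectedComponent.exact hw0
      rcases hw0' with h4 | h4
      · exact h4.reachable.trans (h3.mono hle)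
      · exact hhz.trans (h4.reachable.trans (h3.mono hle))
    haveI : Nonempty V := ⟨h⟩
    exact ⟨fun a b => (hall a).symm.trans (hall b)⟩

end Pool.Agent.Helper291.RelConn
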