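import Mathlib

set_option autoImplicit false

namespace Pool.Agent.Helper291.RelCore

open Finset

section MA

variable {E : Type*} [DecidableEq E]

/-- `f` is affine in the coordinate `e`. -/
def MAat (f : (E → ℝ) → ℝ) (e : E) : Prop :=
  ∀ x : E → ℝ, f x = x e * f (Function.update x e 1) + (1 - x e) * f (Function.update x e 0)

/-- `f` does not depend on the coordinate `e`. -/
def Ind (f : (E → ℝ) → ℝ) (e : E) : Prop :=
  ∀ (x : E → ℝ) (t : ℝ), f (Function.update x e t) = f x

theorem Ind.ma {f : (E → ℝ) → ℝ} {e : E} (h : Ind f e) : MAat f e := by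
  intro x; rw [h, h]; ring

theorem ind_const (c : ℝ) (e : E) : Ind (fun _ => c) e := fun _ _ => rfl

theorem Ind.mul {f g : (E → ℝ) → ℝ} {e : E} (hf : Ind f e) (hg : Ind g e) :
    Ind (fun x => f x * g x) e := by
  intro x t; simp only [hf x t, hg x t]

theorem Ind.add {f g : (E → ℝ) → ℝ} {e : E} (hf : Ind f e) (hg : Ind g e) :
    Ind (fun x => f x + g x) e := by
  intro x t; simp only [hf x t, hg x t]

theorem Ind.sub {f g : (E → ℝ) → ℝ} {e : E} (hf : Ind f e) (hg : Ind g e) :
    Ind (fun x => f x - g x) e := by
  intro x t; simp only [hf x t, hg x t]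

theorem MAat.add {f g : (E → ℝ) → ℝ} {e : E} (hf : MAat f e) (hg : MAat g e) :
    MAat (fun x => f x + g x) e := by
  intro x; simp only []; rw [hf x, hg x]; ring

theorem MAat.sub {f g : (E → ℝ) → ℝ} {e : E} (hf : MAat f e) (hg : MAat g e) :
    MAat (fun x => f x - g x) e := by
  intro x; simp only []; rw [hf x, hg x]; ring

theorem MAat.mul_ind {f g : (E → ℝ) → ℝ} {e : E} (hf : MAat f e) (hg : Ind g e) :
    MAat (fun x => f x * g x) e := by
  intro x; simp only [hg x]; rw [hf x]; ring

theorem Ind.mul_ma {f g : (E → ℝ) → ℝ} {e : E} (hf : Ind f e) (hg : MAat g e) :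
    MAat (fun x => f x * g x) e := by
  intro x; simp only [hf x]; rw [hg x]; ring

theorem MAat.const_mul {f : (E → ℝ) → ℝ} {e : E} (c : ℝ) (hf : MAat f e) :
    MAat (fun x => c * f x) e := (ind_const c e).mul_ma hf

theorem ma_coord (e' e : E) : MAat (fun x => x e') e := by
  intro x
  by_cases h : e' = e
  · subst h; simp
  · simp only [Function.update_of_ne h]; ring

theorem ind_coord {e' e : E} (h : e' ≠ e) : Ind (fun x => x e') e := by
  intro x t; simp [Function.update_of_ne h]

theorem ind_prod {ι : Type*} (s : Finset ι) (F : ι → (E → ℝ) → ℝ) (e : E)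
    (h : ∀ i ∈ s, Ind (F i) e) : Ind (fun x => ∏ i ∈ s, F i x) e := by
  intro x t
  exact Finset.prod_congr rfl (fun i hi => h i hi x t)

theorem ma_prod {ι : Type*} [DecidableEq ι] (s : Finset ι) (F : ι → (E → ℝ) → ℝ) (e : E) (i0 : ι)
    (h : ∀ i ∈ s, i ≠ i0 → Ind (F i) e) (h0 : i0 ∈ s → MAat (F i0) e) :
    MAat (fun x => ∏ i ∈ s, F i x) e := by
  by_cases hi : i0 ∈ s
  · have : (fun x => ∏ i ∈ s, F i x) = fun x => F i0 x * ∏ i ∈ s.erase i0, F i x := by
      funext x
      rw [Finset.mul_prod_erase s (fun i => F i x) hi]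
    rw [this]
    exact (h0 hi).mul_ind (ind_prod _ _ _ (fun i hi' =>
      h i (Finset.mem_of_mem_erase hi') (Finset.ne_of_mem_erase hi')))
  · exact (ind_prod _ _ _ (fun i hi' => h i hi' (fun hh => hi (hh ▸ hi')))).ma

theorem vertex_nonneg (f : (E → ℝ) → ℝ) (A : Finset E) (hf : ∀ e ∈ A, MAat f e) :
    ∀ x : E → ℝ, (∀ e ∈ A, 0 ≤ x e ∧ x e ≤ 1) →
      (∀ y : E → ℝ, (∀ e ∉ A, y e = x e) → (∀ e ∈ A, y e = 0 ∨ y e = 1) → 0 ≤ f y) →
      0 ≤ f x := by
  classical
  induction A using Finset.induction_on with
  | empty =>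
    intro x _ h
    exact h x (fun _ _ => rfl) (fun e he => absurd he (Finset.notMem_empty e))
  | insert e A he ih =>
    intro x hx h
    have hx' : ∀ t : ℝ, ∀ e' ∈ A, 0 ≤ Function.update x e t e' ∧ Function.update x e t e' ≤ 1 := by
      intro t e' he'
      have : e' ≠ e := fun hh => he (hh ▸ he')
      rw [Function.update_of_ne this]
      exact hx e' (Finset.mem_insert_of_mem he')
    have key : ∀ t : ℝ, (t = 0 ∨ t = 1) → 0 ≤ f (Function.update x e t) := by
      intro t ht
      apply ih (fun e' he' => hf e' (Finset.mem_insert_of_mem he')) _ (hx' t)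
      intro y hy1 hy2
      apply h y
      · intro e' he'
        rw [Finset.mem_insert, not_or] at he'
        rw [hy1 e' he'.2, Function.update_of_ne he'.1]
      · intro e' he'
        rcases Finset.mem_insert.1 he' with rfl | h'
        · rw [hy1 e' he, Function.update_self]; exact ht
        · exact hy2 e' h'
    rw [hf e (Finset.mem_insert_self e A) x]
    have h1 := key 1 (Or.inr rfl)
    have h0 := key 0 (Or.inl rfl)
    have hxe := hx e (Finset.mem_insert_self e A)
    have := mul_nonneg hxe.1 h1
    have := mul_nonneg (sub_nonneg.2 hxe.2) h0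
    linarith

theorem vertex_eq (f : (E → ℝ) → ℝ) (A : Finset E) (hf : ∀ e ∈ A, MAat f e) :
    ∀ x : E → ℝ,
      (∀ y : E → ℝ, (∀ e ∉ A, y e = x e) → (∀ e ∈ A, y e = 0 ∨ y e = 1) → f y = 0) →
      f x = 0 := by
  classical
  induction A using Finset.induction_on with
  | empty =>
    intro x h
    exact h x (fun _ _ => rfl) (fun e he => absurd he (Finset.notMem_empty e))
  | insert e A he ih =>
    intro x h
    have key : ∀ t : ℝ, (t = 0 ∨ t = 1) → f (Function.update x e t) = 0 := by
      intro t ht
      apply ih (fun e' he' => hf e' (Finset.mem_insert_of_mem he')) _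
      intro y hy1 hy2
      apply h y
      · intro e' he'
        rw [Finset.mem_insert, not_or] at he'
        rw [hy1 e' he'.2, Function.update_of_ne he'.1]
      · intro e' he'
        rcases Finset.mem_insert.1 he' with rfl | h'
        · rw [hy1 e' he, Function.update_self]; exact ht
        · exact hy2 e' h'
    rw [hf e (Finset.mem_insert_self e A) x, key 1 (Or.inr rfl), key 0 (Or.inl rfl)]
    ring

end MA

section R

variable {V : Type*} [Fintype V] [DecidableEq V]

open Classical in
/-- Indicator of connectivity of the graph with edge set `S` (loops ignored). -/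
noncomputable def cn (S : Finset (Sym2 V)) : ℝ :=
  if (SimpleGraph.fromEdgeSet (S : Set (Sym2 V))).Connected then 1 else 0

/-- Probability that the random graph, in which every pair `e` is present independently with
probability `x e`, is connected. -/
noncomputable def R (x : Sym2 V → ℝ) : ℝ :=
  ∑ S : Finset (Sym2 V), (∏ e, if e ∈ S then x e else 1 - x e) * cn S

theorem cn_nonneg (S : Finset (Sym2 V)) : 0 ≤ cn S := by
  unfold cn; split_ifs <;> norm_num

theorem cn_le_one (S : Finset (Sym2 V)) : cn S ≤ 1 := by
  unfold cn; split_ifs <;> norm_num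

theorem R_ma (e : Sym2 V) : MAat (R (V := V)) e := by
  intro x
  unfold R
  rw [Finset.mul_sum, Finset.mul_sum, ← Finset.sum_add_distrib]
  apply Finset.sum_congr rfl
  intro S _
  have key : ∀ y : Sym2 V → ℝ, (∏ e', if e' ∈ S then y e' else 1 - y e') =
      (if e ∈ S then y e else 1 - y e) *
        ∏ e' ∈ univ.erase e, if e' ∈ S then y e' else 1 - y e' := by
    intro y
    rw [Finset.mul_prod_erase univ (fun e' => if e' ∈ S then y e' else 1 - y e') (mem_univ e)]
  rw [key x, key (Function.update x e 1), key (Function.update x e 0)]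
  have same : ∀ t : ℝ, (∏ e' ∈ univ.erase e, if e' ∈ S then Function.update x e t e'
      else 1 - Function.update x e t e') = ∏ e' ∈ univ.erase e, if e' ∈ S then x e' else 1 - x e' := by
    intro t
    apply Finset.prod_congr rfl
    intro e' he'
    rw [Function.update_of_ne (Finset.ne_of_mem_erase he')]
  rw [same, same, Function.update_self, Function.update_self]
  by_cases he : e ∈ S <;> simp [he] <;> ring

theorem R_nonneg (x : Sym2 V → ℝ) (hx : ∀ e, 0 ≤ x e ∧ x e ≤ 1) : 0 ≤ R x := by
  unfold R
  apply Finset.sum_nonneg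
  intro S _
  apply mul_nonneg _ (cn_nonneg S)
  apply Finset.prod_nonneg
  intro e _
  split_ifs
  · exact (hx e).1
  · linarith [(hx e).2]

open Classical in
theorem R_vertex (y : Sym2 V → ℝ) (hy : ∀ e, y e = 0 ∨ y e = 1) :
    R y = cn (univ.filter (fun e => y e = 1)) := by
  unfold R
  rw [Finset.sum_eq_single (univ.filter (fun e => y e = 1))]
  · have : (∏ e, if e ∈ univ.filter (fun e => y e = 1) then y e else 1 - y e) = 1 := by
      apply Finset.prod_eq_one
      intro e _
      rcases hy e with h | h <;> simp [h]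
    rw [this, one_mul]
  · intro S _ hS
    have : ∃ e, (if e ∈ S then y e else 1 - y e) = 0 := by
      by_contra hcon
      push Not at hcon
      apply hS
      ext e
      have := hcon e
      rcases hy e with h | h
      · by_cases he : e ∈ S
        · simp [he, h] at this
        · simp [he, h]
      · by_cases he : e ∈ S
        · simp [he, h]
        · simp [he, h] at this
    obtain ⟨e, he⟩ := this
    rw [Finset.prod_eq_zero (mem_univ e) he, zero_mul]
  · intro h; exact absurd (mem_univ _) h

end R

end Pool.Agent.Helper291.RelCore
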