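import Mathlib

set_option autoImplicit false

namespace Pool.Agent.Helper291.RelC

/-- Kelmans compression from `u` to `v`: the neighbours of `u` that are not neighbours of `v`
(and different from `v`) are moved to `v`. -/
def compress {V : Type*} (G : SimpleGraph V) (u v : V) : SimpleGraph V where
  Adj x y := x ≠ y ∧
    ((x ≠ u ∧ x ≠ v ∧ y ≠ u ∧ y ≠ v ∧ G.Adj x y) ∨
     (x = u ∧ y = v ∧ G.Adj u v) ∨ (x = v ∧ y = u ∧ G.Adj u v) ∨
     (x = v ∧ y ≠ u ∧ y ≠ v ∧ (G.Adj u y ∨ G.Adj v y)) ∨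
     (y = v ∧ x ≠ u ∧ x ≠ v ∧ (G.Adj u x ∨ G.Adj v x)) ∨
     (x = u ∧ y ≠ u ∧ y ≠ v ∧ (G.Adj u y ∧ G.Adj v y)) ∨
     (y = u ∧ x ≠ u ∧ x ≠ v ∧ (G.Adj u x ∧ G.Adj v x)))
  symm := ⟨by
    rintro x y h
    obtain ⟨h1, h2⟩ := h
    refine ⟨h1.symm, ?_⟩
    rcases h2 with ⟨a, b, c, d, e⟩ | ⟨a, b, c⟩ | ⟨a, b, c⟩ | h | h | h | h
    · exact Or.inl ⟨c, d, a, b, e.symm⟩
    · exact Or.inr (Or.inr (Or.inl ⟨b, a, c⟩))
    · exact Or.inr (Or.inl ⟨b, a, c⟩)
    · exact Or.inr (Or.inr (Or.inr (Or.inr (Or.inl h))))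
    · exact Or.inr (Or.inr (Or.inr (Or.inl h)))
    · exact Or.inr (Or.inr (Or.inr (Or.inr (Or.inr (Or.inr h)))))
    · exact Or.inr (Or.inr (Or.inr (Or.inr (Or.inr (Or.inl h)))))⟩
  loopless := ⟨fun x h => h.1 rfl⟩

/-- `G` has nested neighbourhoods. -/
def Nested {V : Type*} (G : SimpleGraph V) : Prop :=
  ∀ u v : V, u ≠ v → (∀ w, w ≠ v → G.Adj u w → G.Adj v w) ∨ (∀ w, w ≠ u → G.Adj v w → G.Adj u w)

section aux
variable {V : Type*}

/-- basic adjacency facts for the compression -/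
theorem comp_off (G : SimpleGraph V) {u v x y : V} (hxu : x ≠ u) (hxv : x ≠ v) (hyu : y ≠ u)
    (hyv : y ≠ v) : (compress G u v).Adj x y ↔ G.Adj x y := by
  simp only [compress]
  constructor
  · rintro ⟨_, h⟩
    rcases h with ⟨_, _, _, _, h⟩ | ⟨h, _⟩ | ⟨h, _⟩ | ⟨h, _⟩ | ⟨h, _⟩ | ⟨h, _⟩ | ⟨h, _⟩
    · exact h
    all_goals first | exact absurd h hxu | exact absurd h hxv | exact absurd h hyu | exact absurd h hyv
  · intro h
    exact ⟨h.ne, Or.inl ⟨hxu, hxv, hyu, hyv, h⟩⟩

theorem comp_uv (G : SimpleGraph V) {u v : V} (huv : u ≠ v) :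
    (compress G u v).Adj u v ↔ G.Adj u v := by
  simp only [compress]
  constructor
  · rintro ⟨_, h⟩
    rcases h with ⟨h, _⟩ | ⟨_, _, h⟩ | ⟨h, _⟩ | ⟨h, _⟩ | ⟨_, h, _⟩ | ⟨_, _, h, _⟩ | ⟨h, _⟩
    · exact absurd rfl h
    · exact h
    · exact absurd h huv
    · exact absurd h huv
    · exact absurd rfl h
    · exact absurd rfl h
    · exact absurd h huv.symm
  · intro h
    exact ⟨huv, Or.inr (Or.inl ⟨trivial, trivial, h⟩)⟩

theorem comp_v (G : SimpleGraph V) {u v y : V} (huv : u ≠ v) (hyu : y ≠ u) (hyv : y ≠ v) :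
    (compress G u v).Adj v y ↔ (G.Adj u y ∨ G.Adj v y) := by
  simp only [compress]
  constructor
  · rintro ⟨_, h⟩
    rcases h with ⟨_, h, _⟩ | ⟨h, _⟩ | ⟨_, h, _⟩ | ⟨_, _, _, h⟩ | ⟨h, _⟩ | ⟨h, _⟩ | ⟨h, _⟩
    · exact absurd rfl h
    · exact absurd h huv.symm
    · exact absurd h hyu
    · exact h
    · exact absurd h hyv
    · exact absurd h huv.symm
    · exact absurd h hyu
  · intro h
    exact ⟨hyv.symm, Or.inr (Or.inr (Or.inr (Or.inl ⟨trivial, hyu, hyv, h⟩)))⟩

theorem comp_u (G : SimpleGraph V) {u v y : V} (huv : u ≠ v) (hyu : y ≠ u) (hyv : y ≠ v) :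
    (compress G u v).Adj u y ↔ (G.Adj u y ∧ G.Adj v y) := by
  simp only [compress]
  constructor
  · rintro ⟨_, h⟩
    rcases h with ⟨h, _⟩ | ⟨_, h, _⟩ | ⟨h, _⟩ | ⟨h, _⟩ | ⟨h, _⟩ | ⟨_, _, _, h⟩ | ⟨h, _⟩
    · exact absurd rfl h
    · exact absurd h hyv
    · exact absurd h huv
    · exact absurd h huv
    · exact absurd h hyv
    · exact h
    · exact absurd h hyu
  · intro h
    exact ⟨hyu.symm, Or.inr (Or.inr (Or.inr (Or.inr (Or.inr (Or.inl ⟨trivial, hyu, hyv, h⟩)))))⟩

theorem comp_connected {G : SimpleGraph V} (hG : G.Connected) {u v : V} (huv : u ≠ v)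
    (hD : G.Adj u v ∨ ∃ c, G.Adj u c ∧ G.Adj v c) : (compress G u v).Connected := by
  have key : (compress G u v).Reachable u v := by
    rcases hD with h | ⟨c, h1, h2⟩
    · exact ((comp_uv G huv).2 h).reachable
    · have hcu : c ≠ u := h1.ne'
      have hcv : c ≠ v := h2.ne'
      exact ((comp_u G huv hcu hcv).2 ⟨h1, h2⟩).reachable.trans
        ((comp_v G huv hcu hcv).2 (Or.inr h2)).reachable.symm
  have hu : ∀ y, G.Adj u y → (compress G u v).Reachable u y := by
    intro y hy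
    by_cases hyv : y = v
    · subst hyv; exact key
    · exact key.trans ((comp_v G huv hy.ne' hyv).2 (Or.inl hy)).reachable
  have hv : ∀ y, G.Adj v y → (compress G u v).Reachable v y := by
    intro y hy
    by_cases hyu : y = u
    · subst hyu; exact key.symm
    · exact ((comp_v G huv hyu hy.ne').2 (Or.inr hy)).reachable
  have step : ∀ x y, G.Adj x y → (compress G u v).Reachable x y := by
    intro x y h
    by_cases hxu : x = u
    · subst hxu; exact hu y h
    by_cases hxv : x = v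
    · subst hxv; exact hv y h
    by_cases hyu : y = u
    · subst hyu; exact (hu x h.symm).symm
    by_cases hyv : y = v
    · subst hyv; exact (hv x h.symm).symm
    exact ((comp_off G hxu hxv hyu hyv).2 h).reachable
  have walk : ∀ x y, G.Reachable x y → (compress G u v).Reachable x y := by
    rintro x y ⟨p⟩
    induction p with
    | nil => exact SimpleGraph.Reachable.refl _
    | cons h p ih => exact (step _ _ h).trans ih
  have := hG.nonempty
  exact ⟨fun x y => walk x y (hG.preconnected x y)⟩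

open Classical in
/-- adjacency indicator -/
noncomputable def ai (G : SimpleGraph V) (x y : V) : ℕ := if G.Adj x y then 1 else 0

open Classical in
theorem edge_count [Fintype V] (G : SimpleGraph V) :
    ∑ x, ∑ y, ai G x y = 2 * G.edgeSet.ncard := by
  have h := G.sum_degrees_eq_twice_card_edges
  rw [Set.ncard_eq_toFinset_card']
  have h2 : G.edgeSet.toFinset = G.edgeFinset := by
    ext e; simp
  rw [h2, ← h]
  refine Finset.sum_congr rfl fun x _ => ?_
  rw [← SimpleGraph.card_neighborFinset_eq_degree, Finset.card_eq_sum_ones,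
    SimpleGraph.neighborFinset_eq_filter, Finset.sum_filter]
  rfl

/-- quantities of the compression -/
theorem sum_split [Fintype V] [DecidableEq V] {u v : V} (huv : u ≠ v) (f : V → ℕ) :
    ∑ x, f x = f u + f v + ∑ x ∈ (Finset.univ.erase u).erase v, f x := by
  rw [← Finset.add_sum_erase Finset.univ f (Finset.mem_univ u),
    ← Finset.add_sum_erase (Finset.univ.erase u) f
      (Finset.mem_erase.2 ⟨huv.symm, Finset.mem_univ v⟩)]
  ring

open Classical in
theorem deg_off [Fintype V] (G : SimpleGraph V) {u v w : V} (huv : u ≠ v) (hwu : w ≠ u)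
    (hwv : w ≠ v) : ∑ x, ai (compress G u v) w x = ∑ x, ai G w x := by
  rw [sum_split huv, sum_split huv]
  have h1 : ∑ x ∈ (Finset.univ.erase u).erase v, ai (compress G u v) w x
      = ∑ x ∈ (Finset.univ.erase u).erase v, ai G w x := by
    refine Finset.sum_congr rfl fun x hx => ?_
    simp only [Finset.mem_erase, Finset.mem_univ, and_true] at hx
    unfold ai
    rw [if_congr (comp_off G hwu hwv hx.2 hx.1) rfl rfl]
  rw [h1]
  congr 1
  have e1 : (compress G u v).Adj w u ↔ (G.Adj u w ∧ G.Adj v w) := by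
    rw [SimpleGraph.adj_comm]; exact comp_u G huv hwu hwv
  have e2 : (compress G u v).Adj w v ↔ (G.Adj u w ∨ G.Adj v w) := by
    rw [SimpleGraph.adj_comm]; exact comp_v G huv hwu hwv
  unfold ai
  rw [if_congr e1 rfl rfl, if_congr e2 rfl rfl, G.adj_comm w u, G.adj_comm w v]
  by_cases a : G.Adj u w <;> by_cases b : G.Adj v w <;> simp [a, b]

open Classical in
/-- the four numbers -/
theorem deg_uv [Fintype V] (G : SimpleGraph V) {u v : V} (huv : u ≠ v) :
    ∃ e c a b : ℕ, ∑ x, ai G u x = e + c + a ∧ ∑ x, ai G v x = e + c + b ∧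
      ∑ x, ai (compress G u v) u x = e + c ∧ ∑ x, ai (compress G u v) v x = e + c + a + b ∧
      ((∃ x, x ≠ v ∧ G.Adj u x ∧ ¬ G.Adj v x) → 0 < a) ∧
      ((∃ x, x ≠ u ∧ G.Adj v x ∧ ¬ G.Adj u x) → 0 < b) := by
  set S := (Finset.univ.erase u).erase v with hS
  have memS : ∀ x, x ∈ S ↔ x ≠ v ∧ x ≠ u := by
    intro x; simp [hS]
  refine ⟨ai G u v, ∑ x ∈ S, (if G.Adj u x ∧ G.Adj v x then 1 else 0),
    ∑ x ∈ S, (if G.Adj u x ∧ ¬ G.Adj v x then 1 else 0),
    ∑ x ∈ S, (if G.Adj v x ∧ ¬ G.Adj u x then 1 else 0), ?_, ?_, ?_, ?_, ?_, ?_⟩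
  · rw [sum_split huv, add_assoc (ai G u v), ← Finset.sum_add_distrib]
    have : ai G u u = 0 := by simp [ai]
    rw [this, zero_add]
    congr 1
    refine Finset.sum_congr rfl fun x hx => ?_
    unfold ai
    by_cases a : G.Adj u x <;> by_cases b : G.Adj v x <;> simp [a, b]
  · rw [sum_split huv, add_assoc (ai G u v), ← Finset.sum_add_distrib]
    have : ai G v v = 0 := by simp [ai]
    rw [this, add_zero]
    have : ai G v u = ai G u v := by unfold ai; rw [G.adj_comm]
    rw [this]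
    congr 1
    refine Finset.sum_congr rfl fun x hx => ?_
    unfold ai
    by_cases a : G.Adj u x <;> by_cases b : G.Adj v x <;> simp [a, b]
  · rw [sum_split huv]
    have : ai (compress G u v) u u = 0 := by simp [ai]
    rw [this, zero_add]
    have : ai (compress G u v) u v = ai G u v := by
      unfold ai; rw [if_congr (comp_uv G huv) rfl rfl]
    rw [this]
    congr 1
    refine Finset.sum_congr rfl fun x hx => ?_
    have hx' := (memS x).1 hx
    unfold ai
    rw [if_congr (comp_u G huv hx'.2 hx'.1) rfl rfl]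
  · rw [sum_split huv, add_assoc (_ + _), add_assoc (ai G u v), ← Finset.sum_add_distrib,
      ← Finset.sum_add_distrib]
    have : ai (compress G u v) v v = 0 := by simp [ai]
    rw [this, add_zero]
    have : ai (compress G u v) v u = ai G u v := by
      unfold ai; rw [if_congr (((compress G u v).adj_comm v u).trans (comp_uv G huv)) rfl rfl]
    rw [this]
    congr 1
    refine Finset.sum_congr rfl fun x hx => ?_
    have hx' := (memS x).1 hx
    unfold ai
    rw [if_congr (comp_v G huv hx'.2 hx'.1) rfl rfl]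
    by_cases a : G.Adj u x <;> by_cases b : G.Adj v x <;> simp [a, b]
  · rintro ⟨x, hxv, h1, h2⟩
    refine Finset.sum_pos' (fun _ _ => Nat.zero_le _) ⟨x, (memS x).2 ⟨hxv, h1.ne'⟩, ?_⟩
    simp [h1, h2]
  · rintro ⟨x, hxu, h1, h2⟩
    refine Finset.sum_pos' (fun _ _ => Nat.zero_le _) ⟨x, (memS x).2 ⟨h1.ne', hxu⟩, ?_⟩
    simp [h1, h2]

/-- sum of squared degrees -/
noncomputable def sq [Fintype V] (G : SimpleGraph V) : ℕ := ∑ x, (∑ y, ai G x y) ^ 2

open Classical in
theorem comp_edges [Fintype V] (G : SimpleGraph V) {u v : V} (huv : u ≠ v) :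
    (compress G u v).edgeSet.ncard = G.edgeSet.ncard := by
  have h1 := edge_count (compress G u v)
  have h2 := edge_count G
  obtain ⟨e, c, a, b, e1, e2, e3, e4, -, -⟩ := deg_uv G huv
  rw [sum_split huv, e3, e4] at h1
  rw [sum_split huv, e1, e2] at h2
  have : ∑ x ∈ (Finset.univ.erase u).erase v, ∑ y, ai (compress G u v) x y
      = ∑ x ∈ (Finset.univ.erase u).erase v, ∑ y, ai G x y := by
    refine Finset.sum_congr rfl fun x hx => ?_
    simp only [Finset.mem_erase, Finset.mem_univ, and_true] at hx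
    exact deg_off G huv hx.2 hx.1
  rw [this] at h1
  omega

open Classical in
theorem comp_sq [Fintype V] (G : SimpleGraph V) {u v : V} (huv : u ≠ v)
    (h1 : ∃ x, x ≠ v ∧ G.Adj u x ∧ ¬ G.Adj v x) (h2 : ∃ x, x ≠ u ∧ G.Adj v x ∧ ¬ G.Adj u x) :
    sq G < sq (compress G u v) := by
  obtain ⟨e, c, a, b, e1, e2, e3, e4, e5, e6⟩ := deg_uv G huv
  have ha := e5 h1
  have hb := e6 h2
  unfold sq
  rw [sum_split huv, sum_split huv (fun x => (∑ y, ai (compress G u v) x y) ^ 2), e1, e2, e3, e4]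
  have : ∑ x ∈ (Finset.univ.erase u).erase v, (∑ y, ai (compress G u v) x y) ^ 2
      = ∑ x ∈ (Finset.univ.erase u).erase v, (∑ y, ai G x y) ^ 2 := by
    refine Finset.sum_congr rfl fun x hx => ?_
    simp only [Finset.mem_erase, Finset.mem_univ, and_true] at hx
    rw [deg_off G huv hx.2 hx.1]
  rw [this]
  have : (e + c) ^ 2 + (e + c + a + b) ^ 2 = (e + c + a) ^ 2 + (e + c + b) ^ 2 + 2 * (a * b) := by
    ring
  have : 0 < a * b := Nat.mul_pos ha hb
  omega

end aux

/-- target -/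
theorem exists_nested {V : Type*} [Fintype V] (P : SimpleGraph V → ℝ)
    (hP : ∀ (G : SimpleGraph V) (u v : V), u ≠ v → P (compress G u v) ≤ P G)
    (G : SimpleGraph V) (hG : G.Connected) :
    ∃ H : SimpleGraph V, H.Connected ∧ H.edgeSet.ncard = G.edgeSet.ncard ∧ Nested H ∧
      P H ≤ P G := by
  classical
  let S : Set (SimpleGraph V) := {H | H.Connected ∧ H.edgeSet.ncard = G.edgeSet.ncard ∧ P H ≤ P G}
  have hSne : S.Nonempty := ⟨G, hG, rfl, le_rfl⟩
  obtain ⟨H, hHS, hmax⟩ := Set.exists_max_image S sq (Set.toFinite S) hSne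
  obtain ⟨hc, he, hPH⟩ := hHS
  have claim1 : ∀ u v, u ≠ v → (H.Adj u v ∨ ∃ c, H.Adj u c ∧ H.Adj v c) →
      (∀ w, w ≠ v → H.Adj u w → H.Adj v w) ∨ (∀ w, w ≠ u → H.Adj v w → H.Adj u w) := by
    intro u v huv hD
    by_contra hcon
    push Not at hcon
    obtain ⟨h1, h2⟩ := hcon
    have hlt := comp_sq H huv h1 h2
    have hmem : compress H u v ∈ S :=
      ⟨comp_connected hc huv hD, (comp_edges H huv).trans he, (hP H u v huv).trans hPH⟩
    exact absurd (hmax _ hmem) (not_le.2 hlt)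
  have claim2 : ∀ u w, H.Reachable u w → (u = w ∨ H.Adj u w ∨ ∃ c, H.Adj u c ∧ H.Adj w c) := by
    rintro u w ⟨p⟩
    induction p with
    | nil => exact Or.inl rfl
    | @cons u v w h p ih =>
      -- `u ~ v`, and `v` related to `w`
      rcases ih with rfl | ih | ⟨c, h1, h2⟩
      · exact Or.inr (Or.inl h)
      · exact Or.inr (Or.inr ⟨v, h, ih.symm⟩)
      · -- u ~ v ~ c ~ w
        by_cases huc : u = c
        · subst huc; exact Or.inr (Or.inl h2.symm)
        by_cases hvw : v = w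
        · subst hvw; exact Or.inr (Or.inl h)
        rcases claim1 v c h1.ne (Or.inl h1) with h3 | h3
        · -- N(v) \ {c} ⊆ N(c): u ~ c
          have : H.Adj c u := h3 u huc h.symm
          exact Or.inr (Or.inr ⟨c, this.symm, h2⟩)
        · have : H.Adj v w := h3 w (Ne.symm hvw) h2.symm
          exact Or.inr (Or.inr ⟨v, h, this.symm⟩)
  refine ⟨H, hc, he, ?_, hPH⟩
  intro u v huv
  refine claim1 u v huv ?_
  rcases claim2 u v (hc.preconnected u v) with h | h
  · exact absurd h huv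
  · exact h

end Pool.Agent.Helper291.RelC

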