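import Mathlib
import Pool.Agent.Helper291.RelCore
import Pool.Agent.Helper291.RelConn

set_option autoImplicit false

namespace Pool.Agent.Helper291.RelTwo

open Finset Pool.Agent.Helper291.RelCore

set_option linter.unusedSectionVars false

variable {V : Type*} [Fintype V] [DecidableEq V]

open Classical in
/-- product of `1 - x {h,w}` over the component `c` -/
noncomputable def bl (Γ : SimpleGraph V) (h : V) (c : Γ.ConnectedComponent) (x : Sym2 V → ℝ) : ℝ :=
  ∏ w ∈ univ.filter (fun w => Γ.connectedComponentMk w = c), (1 - x s(h, w))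

open Classical in
/-- components other than those of `h` and `z` -/
noncomputable def CC (Γ : SimpleGraph V) (h z : V) : Finset Γ.ConnectedComponent :=
  univ.filter (fun c => c ≠ Γ.connectedComponentMk h ∧ c ≠ Γ.connectedComponentMk z)

noncomputable def P1 (Γ : SimpleGraph V) (h z : V) (x : Sym2 V → ℝ) : ℝ :=
  ∏ c ∈ CC Γ h z, (1 - bl Γ h c x * bl Γ z c x)

noncomputable def P2 (Γ : SimpleGraph V) (h z : V) (x : Sym2 V → ℝ) : ℝ :=
  ∏ c ∈ CC Γ h z, (bl Γ h c x + bl Γ z c x - 2 * (bl Γ h c x * bl Γ z c x))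

noncomputable def Psi (Γ : SimpleGraph V) (h z : V) (x : Sym2 V → ℝ) : ℝ :=
  P1 Γ h z x - (1 - x s(h, z)) * P2 Γ h z x

theorem CC_comm (Γ : SimpleGraph V) (h z : V) : CC Γ h z = CC Γ z h := by
  classical
  unfold CC; ext c; simp only [mem_filter, mem_univ, true_and]; tauto

theorem mem_CC {Γ : SimpleGraph V} {h z : V} {c : Γ.ConnectedComponent} :
    c ∈ CC Γ h z ↔ c ≠ Γ.connectedComponentMk h ∧ c ≠ Γ.connectedComponentMk z := by
  classical
  unfold CC; simp

theorem Psi_comm (Γ : SimpleGraph V) (h z : V) : Psi Γ h z = Psi Γ z h := by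
  funext x
  unfold Psi P1 P2
  rw [CC_comm Γ h z, Sym2.eq_swap (a := h) (b := z)]
  congr 1
  · apply Finset.prod_congr rfl; intro c _; ring
  · congr 1; apply Finset.prod_congr rfl; intro c _; ring

theorem bl_ind (Γ : SimpleGraph V) (h : V) (c : Γ.ConnectedComponent) (e : Sym2 V)
    (H : ∀ w, Γ.connectedComponentMk w = c → s(h, w) ≠ e) : Ind (bl Γ h c) e := by
  classical
  unfold bl
  apply ind_prod
  intro w hw
  exact (ind_const 1 e).sub (ind_coord (H w (mem_filter.1 hw).2))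

theorem bl_ma (Γ : SimpleGraph V) (h : V) (c : Γ.ConnectedComponent) (w0 : V) :
    MAat (bl Γ h c) s(h, w0) := by
  classical
  unfold bl
  apply ma_prod _ _ _ w0
  · intro w _ hne
    apply (ind_const 1 _).sub (ind_coord _)
    intro heq
    rcases Sym2.eq_iff.1 heq with ⟨_, h2⟩ | ⟨h1, h2⟩
    · exact hne h2
    · exact hne (h2.trans h1)
  · intro _
    exact (ind_const 1 _).ma.sub (ma_coord _ _)

theorem Psi_ma1 (Γ : SimpleGraph V) (h z : V) (hz : h ≠ z) (w0 : V) (h0 : w0 ≠ z) :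
    MAat (Psi Γ h z) s(h, w0) := by
  classical
  have hbz : ∀ c ∈ CC Γ h z, Ind (bl Γ z c) s(h, w0) := by
    intro c hc
    apply bl_ind
    intro w hw heq
    rcases Sym2.eq_iff.1 heq with ⟨h1, _⟩ | ⟨h1, _⟩
    · exact hz h1.symm
    · exact h0 h1.symm
  have hbh : ∀ c ∈ CC Γ h z, c ≠ Γ.connectedComponentMk w0 → Ind (bl Γ h c) s(h, w0) := by
    intro c hc hne
    apply bl_ind
    intro w hw heq
    rcases Sym2.eq_iff.1 heq with ⟨_, h2⟩ | ⟨h1, h2⟩
    · exact hne (by rw [← hw, h2])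
    · have : w = h := h2
      rw [this] at hw
      exact (mem_CC.1 hc).1 hw.symm
  unfold Psi
  apply MAat.sub
  · unfold P1
    apply ma_prod _ _ _ (Γ.connectedComponentMk w0)
    · intro c hc hne
      exact (ind_const 1 _).sub ((hbh c hc hne).mul (hbz c hc))
    · intro hc
      exact (ind_const 1 _).ma.sub ((bl_ma Γ h _ w0).mul_ind (hbz _ hc))
  · apply Ind.mul_ma
    · apply (ind_const 1 _).sub (ind_coord _)
      intro heq
      rcases Sym2.eq_iff.1 heq with ⟨_, h2⟩ | ⟨h1, h2⟩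
      · exact h0 h2.symm
      · exact hz h2.symm
    · unfold P2
      apply ma_prod _ _ _ (Γ.connectedComponentMk w0)
      · intro c hc hne
        exact ((hbh c hc hne).add (hbz c hc)).sub
          ((ind_const 2 _).mul ((hbh c hc hne).mul (hbz c hc)))
      · intro hc
        exact ((bl_ma Γ h _ w0).add (hbz _ hc).ma).sub
          (MAat.const_mul 2 ((bl_ma Γ h _ w0).mul_ind (hbz _ hc)))

theorem Psi_ma (Γ : SimpleGraph V) (h z : V) (hz : h ≠ z) (e : Sym2 V) :
    MAat (Psi Γ h z) e := by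
  classical
  by_cases h1 : ∃ w0, w0 ≠ z ∧ e = s(h, w0)
  · obtain ⟨w0, hw, rfl⟩ := h1
    exact Psi_ma1 Γ h z hz w0 hw
  by_cases h2 : ∃ w0, w0 ≠ h ∧ e = s(z, w0)
  · obtain ⟨w0, hw, rfl⟩ := h2
    rw [Psi_comm]
    exact Psi_ma1 Γ z h hz.symm w0 hw
  push Not at h1 h2
  have hbh : ∀ c ∈ CC Γ h z, Ind (bl Γ h c) e := by
    intro c hc
    apply bl_ind
    intro w hw heq
    by_cases hwz : w = z
    · rw [hwz] at hw; exact (mem_CC.1 hc).2 hw.symm
    · exact h1 w hwz heq.symm
  have hbz : ∀ c ∈ CC Γ h z, Ind (bl Γ z c) e := by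
    intro c hc
    apply bl_ind
    intro w hw heq
    by_cases hwz : w = h
    · rw [hwz] at hw; exact (mem_CC.1 hc).1 hw.symm
    · exact h2 w hwz heq.symm
  unfold Psi
  apply MAat.sub
  · unfold P1
    apply Ind.ma
    apply ind_prod
    intro c hc
    exact (ind_const 1 _).sub ((hbh c hc).mul (hbz c hc))
  · apply MAat.mul_ind
    · exact (ind_const 1 _).ma.sub (ma_coord _ _)
    · unfold P2
      apply ind_prod
      intro c hc
      exact ((hbh c hc).add (hbz c hc)).sub ((ind_const 2 _).mul ((hbh c hc).mul (hbz c hc)))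

/-- the product of `1 - y {h,w}` at a 0/1 point -/
theorem bl_vertex (Γ : SimpleGraph V) (h : V) (c : Γ.ConnectedComponent) (y : Sym2 V → ℝ)
    (hy : ∀ e, y e = 0 ∨ y e = 1) :
    ((∃ w, Γ.connectedComponentMk w = c ∧ y s(h, w) = 1) ∧ bl Γ h c y = 0) ∨
    ((¬ ∃ w, Γ.connectedComponentMk w = c ∧ y s(h, w) = 1) ∧ bl Γ h c y = 1) := by
  classical
  by_cases H : ∃ w, Γ.connectedComponentMk w = c ∧ y s(h, w) = 1
  · left
    refine ⟨H, ?_⟩
    obtain ⟨w, hw, hw1⟩ := H
    unfold bl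
    apply Finset.prod_eq_zero (i := w)
    · simp [hw]
    · rw [hw1]; ring
  · right
    refine ⟨H, ?_⟩
    unfold bl
    apply Finset.prod_eq_one
    intro w hw
    rcases hy s(h, w) with h0 | h1
    · rw [h0]; ring
    · exact absurd ⟨w, (mem_filter.1 hw).2, h1⟩ H

theorem two_vertex_at (Γ : SimpleGraph V) (h z : V) (hz : h ≠ z) (y : Sym2 V → ℝ)
    (hy : ∀ e, y e = 0 ∨ y e = 1)
    (hΓ : ∀ a b, Γ.Adj a b ↔ a ≠ b ∧ y s(a, b) = 1 ∧ a ≠ h ∧ a ≠ z ∧ b ≠ h ∧ b ≠ z) :
    R y = Psi Γ h z y := by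
  classical
  rw [R_vertex y hy]
  set T : SimpleGraph V := SimpleGraph.fromEdgeSet
    ((univ.filter (fun e => y e = 1) : Finset (Sym2 V)) : Set (Sym2 V)) with hT
  have hTadj : ∀ a b, T.Adj a b ↔ a ≠ b ∧ y s(a, b) = 1 := by
    intro a b
    rw [hT, SimpleGraph.fromEdgeSet_adj]
    simp only [coe_filter, mem_univ, true_and, Set.mem_ofPred_eq]
    tauto
  have hconn := Pool.Agent.Helper291.RelConn.conn_iff T Γ h z hz (by
    intro a b; rw [hΓ, hTadj]; tauto)
  have hcn : cn (univ.filter (fun e => y e = 1)) = if T.Connected then 1 else 0 := rfl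
  rw [hcn]
  -- relation between adjacency in T and y on relevant components
  have hA : ∀ c ∈ CC Γ h z, (∃ w, Γ.connectedComponentMk w = c ∧ T.Adj h w) ↔
      (∃ w, Γ.connectedComponentMk w = c ∧ y s(h, w) = 1) := by
    intro c hc
    constructor
    · rintro ⟨w, hw, ha⟩; exact ⟨w, hw, ((hTadj _ _).1 ha).2⟩
    · rintro ⟨w, hw, ha⟩
      refine ⟨w, hw, (hTadj _ _).2 ⟨?_, ha⟩⟩
      rintro rfl
      exact (mem_CC.1 hc).1 hw.symm
  have hB : ∀ c ∈ CC Γ h z, (∃ w, Γ.connectedComponentMk w = c ∧ T.Adj z w) ↔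
      (∃ w, Γ.connectedComponentMk w = c ∧ y s(z, w) = 1) := by
    intro c hc
    constructor
    · rintro ⟨w, hw, ha⟩; exact ⟨w, hw, ((hTadj _ _).1 ha).2⟩
    · rintro ⟨w, hw, ha⟩
      refine ⟨w, hw, (hTadj _ _).2 ⟨?_, ha⟩⟩
      rintro rfl
      exact (mem_CC.1 hc).2 hw.symm
  by_cases hall : ∀ c ∈ CC Γ h z, (∃ w, Γ.connectedComponentMk w = c ∧ y s(h, w) = 1) ∨
      (∃ w, Γ.connectedComponentMk w = c ∧ y s(z, w) = 1)
  · have hP1 : P1 Γ h z y = 1 := by
      unfold P1
      apply Finset.prod_eq_one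
      intro c hc
      rcases hall c hc with H | H
      · rcases bl_vertex Γ h c y hy with ⟨_, h2⟩ | ⟨h1, _⟩
        · rw [h2]; ring
        · exact absurd H h1
      · rcases bl_vertex Γ z c y hy with ⟨_, h2⟩ | ⟨h1, _⟩
        · rw [h2]; ring
        · exact absurd H h1
    have hcond1 : ∀ c : Γ.ConnectedComponent, c ≠ Γ.connectedComponentMk h →
        c ≠ Γ.connectedComponentMk z →
        ∃ w, Γ.connectedComponentMk w = c ∧ (T.Adj h w ∨ T.Adj z w) := by
      intro c h1 h2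
      have hc : c ∈ CC Γ h z := mem_CC.2 ⟨h1, h2⟩
      rcases hall c hc with H | H
      · obtain ⟨w, hw, ha⟩ := (hA c hc).2 H; exact ⟨w, hw, Or.inl ha⟩
      · obtain ⟨w, hw, ha⟩ := (hB c hc).2 H; exact ⟨w, hw, Or.inr ha⟩
    by_cases hboth : ∃ c ∈ CC Γ h z, (∃ w, Γ.connectedComponentMk w = c ∧ y s(h, w) = 1) ∧
        (∃ w, Γ.connectedComponentMk w = c ∧ y s(z, w) = 1)
    · have hP2 : P2 Γ h z y = 0 := by
        obtain ⟨c, hc, H1, H2⟩ := hboth
        unfold P2
        apply Finset.prod_eq_zero hc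
        rcases bl_vertex Γ h c y hy with ⟨_, h2⟩ | ⟨h1, _⟩
        · rcases bl_vertex Γ z c y hy with ⟨_, h2'⟩ | ⟨h1', _⟩
          · rw [h2, h2']; ring
          · exact absurd H2 h1'
        · exact absurd H1 h1
      have hTc : T.Connected := by
        rw [hconn]
        refine ⟨hcond1, Or.inr ?_⟩
        obtain ⟨c, hc, H1, H2⟩ := hboth
        exact ⟨c, (mem_CC.1 hc).1, (mem_CC.1 hc).2, (hA c hc).2 H1, (hB c hc).2 H2⟩
      rw [if_pos hTc]
      unfold Psi
      rw [hP1, hP2]; ring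
    · have hP2 : P2 Γ h z y = 1 := by
        unfold P2
        apply Finset.prod_eq_one
        intro c hc
        rcases bl_vertex Γ h c y hy with ⟨h1, h2⟩ | ⟨h1, h2⟩
        · rcases bl_vertex Γ z c y hy with ⟨h1', h2'⟩ | ⟨h1', h2'⟩
          · exact absurd ⟨c, hc, h1, h1'⟩ hboth
          · rw [h2, h2']; ring
        · rcases bl_vertex Γ z c y hy with ⟨h1', h2'⟩ | ⟨h1', h2'⟩
          · rw [h2, h2']; ring
          · rcases hall c hc with H | H
            · exact absurd H h1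
            · exact absurd H h1'
      unfold Psi
      rw [hP1, hP2]
      rcases hy s(h, z) with h0 | h1
      · have hTc : ¬ T.Connected := by
          rw [hconn]
          rintro ⟨_, H⟩
          rcases H with H | ⟨c, hc1, hc2, H1, H2⟩
          · have := ((hTadj _ _).1 H).2
            rw [h0] at this; norm_num at this
          · have hc : c ∈ CC Γ h z := mem_CC.2 ⟨hc1, hc2⟩
            exact hboth ⟨c, hc, (hA c hc).1 H1, (hB c hc).1 H2⟩
        rw [if_neg hTc, h0]; ring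
      · have hTc : T.Connected := by
          rw [hconn]
          exact ⟨hcond1, Or.inl ((hTadj _ _).2 ⟨hz, h1⟩)⟩
        rw [if_pos hTc, h1]; ring
  · push Not at hall
    obtain ⟨c, hc, H1, H2⟩ := hall
    have hnh : ¬ ∃ w, Γ.connectedComponentMk w = c ∧ y s(h, w) = 1 := by
      rintro ⟨w, hw, h1⟩; exact H1 w hw h1
    have hnz : ¬ ∃ w, Γ.connectedComponentMk w = c ∧ y s(z, w) = 1 := by
      rintro ⟨w, hw, h1⟩; exact H2 w hw h1
    have e1 : bl Γ h c y = 1 := by
      rcases bl_vertex Γ h c y hy with ⟨h1, _⟩ | ⟨_, h2⟩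
      · exact absurd h1 hnh
      · exact h2
    have e2 : bl Γ z c y = 1 := by
      rcases bl_vertex Γ z c y hy with ⟨h1, _⟩ | ⟨_, h2⟩
      · exact absurd h1 hnz
      · exact h2
    have hP1 : P1 Γ h z y = 0 := by
      unfold P1
      apply Finset.prod_eq_zero hc
      rw [e1, e2]; ring
    have hP2 : P2 Γ h z y = 0 := by
      unfold P2
      apply Finset.prod_eq_zero hc
      rw [e1, e2]; ring
    have hTc : ¬ T.Connected := by
      rw [hconn]
      rintro ⟨H, _⟩
      obtain ⟨w, hw, ha⟩ := H c (mem_CC.1 hc).1 (mem_CC.1 hc).2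
      rcases ha with ha | ha
      · exact H1 w hw ((hTadj _ _).1 ha).2
      · exact H2 w hw ((hTadj _ _).1 ha).2
    rw [if_neg hTc]
    unfold Psi
    rw [hP1, hP2]; ring

/-- Two-vertex formula: the context (pairs avoiding `h`, `z`) is deterministic. -/
theorem two_vertex (h z : V) (hz : h ≠ z) (x : Sym2 V → ℝ)
    (hx : ∀ e : Sym2 V, h ∉ e → z ∉ e → x e = 0 ∨ x e = 1) :
    ∃ Γ : SimpleGraph V, (∀ a b, Γ.Adj a b → a ≠ h ∧ a ≠ z ∧ b ≠ h ∧ b ≠ z) ∧
      ∀ x' : Sym2 V → ℝ, (∀ e : Sym2 V, h ∉ e → z ∉ e → x' e = x e) →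
        R x' = Psi Γ h z x' := by
  classical
  refine ⟨SimpleGraph.fromEdgeSet {e | h ∉ e ∧ z ∉ e ∧ x e = 1}, ?_, ?_⟩
  · intro a b hab
    rw [SimpleGraph.fromEdgeSet_adj] at hab
    obtain ⟨⟨h1, h2, _⟩, _⟩ := hab
    simp only [Sym2.mem_iff, not_or] at h1 h2
    exact ⟨h1.1 ∘ Eq.symm, h2.1 ∘ Eq.symm, h1.2 ∘ Eq.symm, h2.2 ∘ Eq.symm⟩
  · intro x' hx'
    set Γ : SimpleGraph V := SimpleGraph.fromEdgeSet {e | h ∉ e ∧ z ∉ e ∧ x e = 1} with hΓdef
    have hma : ∀ e ∈ (univ.filter (fun e : Sym2 V => h ∈ e ∨ z ∈ e)),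
        MAat (fun x => R x - Psi Γ h z x) e := fun e _ => (R_ma e).sub (Psi_ma Γ h z hz e)
    have := vertex_eq (fun x => R x - Psi Γ h z x) _ hma x' (by
      intro y hy1 hy2
      have hy : ∀ e, y e = 0 ∨ y e = 1 := by
        intro e
        by_cases he : h ∈ e ∨ z ∈ e
        · exact hy2 e (by simp [he])
        · rw [hy1 e (by simp [he])]
          push Not at he
          rw [hx' e he.1 he.2]
          exact hx e he.1 he.2
      have := two_vertex_at Γ h z hz y hy (by
        intro a b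
        rw [hΓdef, SimpleGraph.fromEdgeSet_adj]
        simp only [Set.mem_ofPred_eq, Sym2.mem_iff, not_or]
        constructor
        · rintro ⟨⟨h1, h2, h3⟩, h4⟩
          refine ⟨h4, ?_, Ne.symm h1.1, Ne.symm h2.1, Ne.symm h1.2, Ne.symm h2.2⟩
          rw [hy1 s(a, b) (by simp [Sym2.mem_iff]; tauto), hx' _ (by simp [Sym2.mem_iff]; tauto) (by simp [Sym2.mem_iff]; tauto)]
          exact h3
        · rintro ⟨h1, h2, h3, h4, h5, h6⟩
          refine ⟨⟨⟨Ne.symm h3, Ne.symm h5⟩, ⟨Ne.symm h4, Ne.symm h6⟩, ?_⟩, h1⟩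
          have e1 : h ∉ s(a, b) := by simp [Sym2.mem_iff]; exact ⟨Ne.symm h3, Ne.symm h5⟩
          have e2 : z ∉ s(a, b) := by simp [Sym2.mem_iff]; exact ⟨Ne.symm h4, Ne.symm h6⟩
          rw [← hx' _ e1 e2, ← hy1 s(a, b) (by simp [e1, e2])]
          exact h2)
      rw [this]; ring)
    linarith

/-- replace the context of `x` by `y` -/
noncomputable def ctx (h z : V) (x y : Sym2 V → ℝ) : Sym2 V → ℝ := by
  classical exact fun e => if h ∈ e ∨ z ∈ e then x e else y e

theorem ctx_in (h z : V) (x y : Sym2 V → ℝ) (e : Sym2 V) (he : h ∈ e ∨ z ∈ e) :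
    ctx h z x y e = x e := by unfold ctx; simp [he]

theorem ctx_out (h z : V) (x y : Sym2 V → ℝ) (e : Sym2 V) (h1 : h ∉ e) (h2 : z ∉ e) :
    ctx h z x y e = y e := by unfold ctx; simp [h1, h2]

theorem ctx_ma (f : (Sym2 V → ℝ) → ℝ) (hf : ∀ e, MAat f e) (h z : V) (x : Sym2 V → ℝ)
    (e : Sym2 V) (h1 : h ∉ e) (h2 : z ∉ e) : MAat (fun y => f (ctx h z x y)) e := by
  intro y
  have key : ∀ t : ℝ, ctx h z x (Function.update y e t) = Function.update (ctx h z x y) e t := by
    intro t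
    funext e'
    by_cases he : e' = e
    · subst he
      rw [ctx_out _ _ _ _ _ h1 h2, Function.update_self, Function.update_self]
    · rw [Function.update_of_ne he]
      by_cases hh : h ∈ e' ∨ z ∈ e'
      · rw [ctx_in _ _ _ _ _ hh, ctx_in _ _ _ _ _ hh]
      · push Not at hh
        rw [ctx_out _ _ _ _ _ hh.1 hh.2, ctx_out _ _ _ _ _ hh.1 hh.2, Function.update_of_ne he]
  simp only [key]
  have := hf e (ctx h z x y)
  rw [ctx_out _ _ _ _ _ h1 h2] at this
  exact this

/-- Comparison principle: to prove a linear inequality between reliabilities of networks with the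
same context it is enough to do so for deterministic contexts. -/
theorem compare {ι : Type*} (s : Finset ι) (a : ι → ℝ) (X : ι → Sym2 V → ℝ) (h z : V)
    (hz : h ≠ z) (x : Sym2 V → ℝ) (hx : ∀ e, 0 ≤ x e ∧ x e ≤ 1)
    (hX : ∀ i ∈ s, ∀ e : Sym2 V, h ∉ e → z ∉ e → X i e = x e)
    (H : ∀ Γ : SimpleGraph V, (∀ a b, Γ.Adj a b → a ≠ h ∧ a ≠ z ∧ b ≠ h ∧ b ≠ z) →
      0 ≤ ∑ i ∈ s, a i * Psi Γ h z (X i)) :
    0 ≤ ∑ i ∈ s, a i * R (X i) := by
  classical
  have hma : ∀ e ∈ (univ.filter (fun e : Sym2 V => h ∉ e ∧ z ∉ e)),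
      MAat (fun y => ∑ i ∈ s, a i * R (ctx h z (X i) y)) e := by
    intro e he
    simp only [mem_filter, mem_univ, true_and] at he
    intro y
    simp only [Finset.mul_sum]
    rw [← Finset.sum_add_distrib]
    apply Finset.sum_congr rfl
    intro i _
    have := ctx_ma R R_ma h z (X i) e he.1 he.2 y
    simp only [] at this
    rw [this]; ring
  have := vertex_nonneg (fun y => ∑ i ∈ s, a i * R (ctx h z (X i) y)) _ hma x
    (fun e _ => hx e) (by
      intro y hy1 hy2
      obtain ⟨Γ, hΓ1, hΓ2⟩ := two_vertex h z hz y (by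
        intro e h1 h2
        exact hy2 e (by simp [h1, h2]))
      have hPsi : ∀ i ∈ s, R (ctx h z (X i) y) = Psi Γ h z (X i) := by
        intro i _
        rw [hΓ2 (ctx h z (X i) y) (fun e h1 h2 => ctx_out _ _ _ _ _ h1 h2)]
        have hbl : ∀ v, (v = h ∨ v = z) → ∀ c, bl Γ v c (ctx h z (X i) y) = bl Γ v c (X i) := by
          intro v hv c
          unfold bl
          apply Finset.prod_congr rfl
          intro w _
          rw [ctx_in]
          rcases hv with rfl | rfl
          · left; simp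
          · right; simp
        unfold Psi P1 P2
        simp only [hbl h (Or.inl rfl), hbl z (Or.inr rfl)]
        rw [ctx_in _ _ _ _ s(h, z) (by simp)]
      rw [Finset.sum_congr rfl (fun i hi => by rw [hPsi i hi])]
      exact H Γ hΓ1)
  refine le_of_le_of_eq this ?_
  apply Finset.sum_congr rfl
  intro i hi
  have : ctx h z (X i) x = X i := by
    funext e
    by_cases hh : h ∈ e ∨ z ∈ e
    · rw [ctx_in _ _ _ _ _ hh]
    · push Not at hh
      rw [ctx_out _ _ _ _ _ hh.1 hh.2, hX i hi e hh.1 hh.2]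
  rw [this]

theorem bl_nonneg (Γ : SimpleGraph V) (h : V) (c : Γ.ConnectedComponent) (x : Sym2 V → ℝ)
    (hx : ∀ e, 0 ≤ x e ∧ x e ≤ 1) : 0 ≤ bl Γ h c x := by
  unfold bl
  exact Finset.prod_nonneg (fun w _ => sub_nonneg.2 (hx _).2)

theorem bl_le_one (Γ : SimpleGraph V) (h : V) (c : Γ.ConnectedComponent) (x : Sym2 V → ℝ)
    (hx : ∀ e, 0 ≤ x e ∧ x e ≤ 1) : bl Γ h c x ≤ 1 := by
  unfold bl
  exact Finset.prod_le_one (fun w _ => sub_nonneg.2 (hx _).2) (fun w _ => by linarith [(hx s(h, w)).1])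

/-- Main exchange lemma. -/
theorem exchange (h z : V) (hz : h ≠ z) (x x' : Sym2 V → ℝ)
    (hx : ∀ e, 0 ≤ x e ∧ x e ≤ 1) (hx' : ∀ e, 0 ≤ x' e ∧ x' e ≤ 1)
    (hout : ∀ e : Sym2 V, h ∉ e → z ∉ e → x' e = x e)
    (hhz : x' s(h, z) = x s(h, z))
    (hw : ∀ w, w ≠ h → w ≠ z → ∃ t : ℝ, 0 ≤ t ∧ t ≤ 1 ∧
      1 - x' s(h, w) = (1 - x s(h, w)) * t ∧ 1 - x s(z, w) = (1 - x' s(z, w)) * t ∧
      1 - x s(h, w) ≤ 1 - x' s(z, w)) :
    R x' ≤ R x := by
  classical
  have := compare (univ : Finset Bool) (fun b => if b then 1 else -1)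
    (fun b => if b then x else x') h z hz x hx (by
      intro b _ e h1 h2
      cases b
      · simpa using hout e h1 h2
      · simp) (by
      intro Γ hΓ
      simp only [Fintype.univ_bool, mem_singleton, Bool.true_eq_false, not_false_eq_true,
        sum_insert, ↓reduceIte, sum_singleton, Bool.false_eq_true, one_mul, neg_mul]
      have hc : ∀ c ∈ CC Γ h z, ∃ t : ℝ, 0 ≤ t ∧ t ≤ 1 ∧
          bl Γ h c x' = bl Γ h c x * t ∧ bl Γ z c x = bl Γ z c x' * t ∧
          bl Γ h c x ≤ bl Γ z c x' := by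
        intro c hc
        have hmem : ∀ w ∈ univ.filter (fun w => Γ.connectedComponentMk w = c), w ≠ h ∧ w ≠ z := by
          intro w hw
          have hw' := (mem_filter.1 hw).2
          constructor
          · rintro rfl; exact (mem_CC.1 hc).1 hw'.symm
          · rintro rfl; exact (mem_CC.1 hc).2 hw'.symm
        choose! t ht using hw
        refine ⟨∏ w ∈ univ.filter (fun w => Γ.connectedComponentMk w = c), t w, ?_, ?_, ?_, ?_, ?_⟩
        · exact Finset.prod_nonneg (fun w hw' => (ht w (hmem w hw').1 (hmem w hw').2).1)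
        · exact Finset.prod_le_one (fun w hw' => (ht w (hmem w hw').1 (hmem w hw').2).1)
            (fun w hw' => (ht w (hmem w hw').1 (hmem w hw').2).2.1)
        · unfold bl
          rw [← Finset.prod_mul_distrib]
          exact Finset.prod_congr rfl (fun w hw' => (ht w (hmem w hw').1 (hmem w hw').2).2.2.1)
        · unfold bl
          rw [← Finset.prod_mul_distrib]
          exact Finset.prod_congr rfl (fun w hw' => (ht w (hmem w hw').1 (hmem w hw').2).2.2.2.1)
        · unfold bl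
          exact Finset.prod_le_prod (fun w hw' => sub_nonneg.2 (hx _).2)
            (fun w hw' => (ht w (hmem w hw').1 (hmem w hw').2).2.2.2.2)
      have hP1 : P1 Γ h z x' = P1 Γ h z x := by
        unfold P1
        apply Finset.prod_congr rfl
        intro c hcc
        obtain ⟨t, _, _, e1, e2, _⟩ := hc c hcc
        rw [e1, e2]; ring
      have hP2 : P2 Γ h z x ≤ P2 Γ h z x' := by
        unfold P2
        apply Finset.prod_le_prod
        · intro c _
          have a0 := bl_nonneg Γ h c x hx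
          have a1 := bl_le_one Γ h c x hx
          have b0 := bl_nonneg Γ z c x hx
          have b1 := bl_le_one Γ z c x hx
          nlinarith [mul_nonneg a0 (sub_nonneg.2 b1), mul_nonneg b0 (sub_nonneg.2 a1)]
        · intro c hcc
          obtain ⟨t, t0, t1, e1, e2, e3⟩ := hc c hcc
          rw [e1, e2]
          nlinarith [mul_nonneg (sub_nonneg.2 t1) (sub_nonneg.2 e3)]
      unfold Psi
      rw [hP1, hhz]
      have : 0 ≤ 1 - x s(h, z) := sub_nonneg.2 (hx _).2
      nlinarith [mul_le_mul_of_nonneg_left hP2 this])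
  simp only [Fintype.univ_bool, mem_singleton, Bool.true_eq_false, not_false_eq_true,
        sum_insert, ↓reduceIte, sum_singleton, Bool.false_eq_true, one_mul, neg_mul] at this
  linarith

end Pool.Agent.Helper291.RelTwo
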