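import Mathlib
import Pool.Agent.Helper291.RelCore

set_option autoImplicit false

namespace Pool.Agent.Helper291.RelVert

open Finset Pool.Agent.Helper291.RelCore

set_option linter.unusedSectionVars false

variable {V : Type*} [Fintype V] [DecidableEq V] {W : Type*} [Fintype W] [DecidableEq W]

open Classical in
/-- the graph of a 0/1 point -/
noncomputable def Tg (y : Sym2 V → ℝ) : SimpleGraph V :=
  SimpleGraph.fromEdgeSet ((univ.filter (fun e => y e = 1) : Finset (Sym2 V)) : Set (Sym2 V))

theorem Tg_adj (y : Sym2 V → ℝ) (a b : V) : (Tg y).Adj a b ↔ a ≠ b ∧ y s(a, b) = 1 := by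
  classical
  unfold Tg
  rw [SimpleGraph.fromEdgeSet_adj]
  simp only [coe_filter, mem_univ, true_and, Set.mem_ofPred_eq]
  tauto

open Classical in
theorem R_Tg (y : Sym2 V → ℝ) (hy : ∀ e, y e = 0 ∨ y e = 1) :
    R y = if (Tg y).Connected then 1 else 0 := by
  rw [R_vertex y hy]
  unfold cn Tg
  congr

/-- pulling back along an injective map: update -/
theorem comp_update_self (f : W → V) (hf : Function.Injective f) (x : Sym2 V → ℝ) (e' : Sym2 W)
    (t : ℝ) : (Function.update x (Sym2.map f e') t) ∘ Sym2.map f =
      Function.update (x ∘ Sym2.map f) e' t := by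
  funext e
  by_cases h : e = e'
  · subst h; simp
  · rw [Function.comp_apply, Function.update_of_ne (fun hh => h (Sym2.map.injective hf hh)),
      Function.update_of_ne h]; rfl

theorem comp_update_of_notMem (f : W → V) (x : Sym2 V → ℝ) (e : Sym2 V)
    (he : ∀ e', Sym2.map f e' ≠ e)
    (t : ℝ) : (Function.update x e t) ∘ Sym2.map f = x ∘ Sym2.map f := by
  funext e'
  rw [Function.comp_apply, Function.update_of_ne (he e')]; rfl

theorem ma_comp (g : (Sym2 W → ℝ) → ℝ) (hg : ∀ e, MAat g e) (f : W → V)
    (hf : Function.Injective f) (e : Sym2 V) : MAat (fun x => g (x ∘ Sym2.map f)) e := by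
  by_cases h : ∃ e', Sym2.map f e' = e
  · obtain ⟨e', rfl⟩ := h
    intro x
    simp only [comp_update_self f hf]
    exact hg e' (x ∘ Sym2.map f)
  · push Not at h
    apply Ind.ma
    intro x t
    simp only [comp_update_of_notMem f x e h]

theorem ind_comp (g : (Sym2 W → ℝ) → ℝ) (f : W → V) (e : Sym2 V)
    (h : ∀ e', Sym2.map f e' ≠ e) : Ind (fun x => g (x ∘ Sym2.map f)) e := by
  intro x t
  simp only [comp_update_of_notMem f x e h]

theorem R_equiv (f : W ≃ V) (x : Sym2 V → ℝ) : R (x ∘ Sym2.map f) = R x := by
  classical
  have := vertex_eq (fun x : Sym2 V → ℝ => R (x ∘ Sym2.map f) - R x) univ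
    (fun e _ => (ma_comp R R_ma f f.injective e).sub (R_ma e)) x (by
      intro y _ hy
      have hy' : ∀ e, y e = 0 ∨ y e = 1 := fun e => hy e (mem_univ e)
      have hy'' : ∀ e, (y ∘ Sym2.map f) e = 0 ∨ (y ∘ Sym2.map f) e = 1 := fun e => hy' _
      rw [R_Tg y hy', R_Tg _ hy'']
      have iso : Tg (y ∘ Sym2.map f) ≃g Tg y :=
        { toEquiv := f
          map_rel_iff' := by
            intro a b
            rw [Tg_adj, Tg_adj]
            simp [Sym2.map_mk] }
      have : (Tg (y ∘ Sym2.map f)).Connected ↔ (Tg y).Connected := iso.connected_iff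
      by_cases hc : (Tg y).Connected
      · rw [if_pos (this.2 hc), if_pos hc]; ring
      · rw [if_neg (fun h => hc (this.1 h)), if_neg hc]; ring)
  linarith

/-- restriction of the weights to the complement of `v` -/
noncomputable def rs (v : V) (x : Sym2 V → ℝ) : Sym2 {w : V // w ≠ v} → ℝ :=
  x ∘ Sym2.map Subtype.val

theorem notMem_map (v : V) (e' : Sym2 {w : V // w ≠ v}) : v ∉ Sym2.map Subtype.val e' := by
  rw [Sym2.mem_map]
  rintro ⟨a, _, ha⟩
  exact a.2 ha

theorem R_rs_ind (v : V) (e : Sym2 V) (he : v ∈ e) : Ind (fun x => R (rs v x)) e := by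
  apply ind_comp R
  intro e' h
  exact notMem_map v e' (h ▸ he)

theorem R_rs_ma (v : V) (e : Sym2 V) : MAat (fun x => R (rs v x)) e :=
  ma_comp R R_ma _ Subtype.val_injective e

/-- probability that `v` has an edge -/
noncomputable def nb (v : V) (x : Sym2 V → ℝ) : ℝ := 1 - ∏ w ∈ univ.erase v, (1 - x s(v, w))

theorem nb_ma (v : V) (e : Sym2 V) : MAat (nb v) e := by
  classical
  unfold nb
  by_cases h : ∃ w0, e = s(v, w0)
  · obtain ⟨w0, rfl⟩ := h
    refine (ind_const 1 _).ma.sub (ma_prod _ _ _ w0 ?_ ?_)
    · intro w hw hne
      refine (ind_const 1 _).sub (ind_coord ?_)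
      intro heq
      rcases Sym2.eq_iff.1 heq with ⟨_, h2⟩ | ⟨h1, h2⟩
      · exact hne h2
      · exact (Finset.ne_of_mem_erase hw) h2
    · intro _
      exact (ind_const 1 _).ma.sub (ma_coord _ _)
  · push Not at h
    apply Ind.ma
    refine (ind_const 1 _).sub (ind_prod _ _ _ ?_)
    intro w _
    exact (ind_const 1 _).sub (ind_coord (fun hh => h w hh.symm))

theorem nb_ind (v : V) (e : Sym2 V) (he : v ∉ e) : Ind (nb v) e := by
  classical
  unfold nb
  refine (ind_const 1 _).sub (ind_prod _ _ _ ?_)
  intro w _
  refine (ind_const 1 _).sub (ind_coord ?_)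
  rintro rfl
  simp at he

theorem Tg_rs_adj (v : V) (y : Sym2 V → ℝ) (a b : {w : V // w ≠ v}) :
    (Tg (rs v y)).Adj a b ↔ (Tg y).Adj a.1 b.1 := by
  rw [Tg_adj, Tg_adj]
  unfold rs
  rw [Function.comp_apply, Sym2.map_mk]
  simp [Subtype.ext_iff]

theorem rs_reach (v : V) (y : Sym2 V → ℝ) (a b : {w : V // w ≠ v})
    (h : (Tg (rs v y)).Reachable a b) : (Tg y).Reachable a.1 b.1 := by
  let f : Tg (rs v y) →g Tg y := ⟨Subtype.val, fun {a b} hab => (Tg_rs_adj v y a b).1 hab⟩
  exact h.map f

theorem del_vertex (v : V) (x : Sym2 V → ℝ) (hx : ∀ e, 0 ≤ x e ∧ x e ≤ 1) :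
    nb v x * R (rs v x) ≤ R x := by
  classical
  have := vertex_nonneg (fun x : Sym2 V → ℝ => R x - nb v x * R (rs v x)) univ (by
      intro e _
      refine (R_ma e).sub ?_
      by_cases he : v ∈ e
      · exact (nb_ma v e).mul_ind (R_rs_ind v e he)
      · exact (nb_ind v e he).mul_ma (R_rs_ma v e)) x (fun e _ => hx e) (by
      intro y _ hy
      have hy' : ∀ e, y e = 0 ∨ y e = 1 := fun e => hy e (mem_univ e)
      have hy'' : ∀ e, (rs v y) e = 0 ∨ (rs v y) e = 1 := fun e => hy' _
      rw [R_Tg y hy', R_Tg _ hy'']
      by_cases hc' : (Tg (rs v y)).Connected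
      · rw [if_pos hc']
        by_cases hn : ∃ w, w ≠ v ∧ y s(v, w) = 1
        · have hnb : nb v y = 1 := by
            obtain ⟨w, hw, h1⟩ := hn
            unfold nb
            rw [Finset.prod_eq_zero (i := w) (by simp [hw]) (by rw [h1]; ring)]
            ring
          obtain ⟨w, hw, h1⟩ := hn
          have hcon : (Tg y).Connected := by
            have hadj : (Tg y).Adj v w := (Tg_adj _ _ _).2 ⟨hw.symm, h1⟩
            have hr : ∀ a, (Tg y).Reachable v a := by
              intro a
              by_cases ha : a = v
              · subst ha; exact SimpleGraph.Reachable.refl _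
              · exact hadj.reachable.trans (rs_reach v y ⟨w, hw⟩ ⟨a, ha⟩ (hc'.preconnected _ _))
            have : Nonempty V := ⟨v⟩
            exact SimpleGraph.Connected.mk (fun a b => (hr a).symm.trans (hr b))
          rw [if_pos hcon, hnb]; norm_num
        · have hnb : nb v y = 0 := by
            unfold nb
            rw [Finset.prod_eq_one]
            · ring
            · intro w hw
              rcases hy' s(v, w) with h0 | h1
              · rw [h0]; ring
              · exact absurd ⟨w, Finset.ne_of_mem_erase hw, h1⟩ hn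
          rw [hnb]
          split_ifs <;> norm_num
      · rw [if_neg hc', mul_zero, sub_zero]
        split_ifs <;> norm_num)
  linarith

/-- pendant vertex -/
theorem pendant (v u : V) (huv : u ≠ v) (x : Sym2 V → ℝ)
    (hx0 : ∀ w, w ≠ u → w ≠ v → x s(v, w) = 0) :
    R x = x s(v, u) * R (rs v x) := by
  classical
  have := vertex_eq (fun x : Sym2 V → ℝ => R x - x s(v, u) * R (rs v x))
    (univ.filter (fun e => ¬ ∃ w, w ≠ u ∧ w ≠ v ∧ e = s(v, w))) (by
      intro e _
      refine (R_ma e).sub ?_
      by_cases he : v ∈ e
      · exact (ma_coord _ _).mul_ind (R_rs_ind v e he)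
      · refine Ind.mul_ma (ind_coord ?_) (R_rs_ma v e)
        rintro rfl
        simp at he) x (by
      intro y hy1 hy2
      have hy0 : ∀ w, w ≠ u → w ≠ v → y s(v, w) = 0 := by
        intro w h1 h2
        rw [hy1 _ (by
          simp only [mem_filter, mem_univ, true_and, not_not]
          exact ⟨w, h1, h2, rfl⟩)]
        exact hx0 w h1 h2
      have hy' : ∀ e, y e = 0 ∨ y e = 1 := by
        intro e
        by_cases he : ∃ w, w ≠ u ∧ w ≠ v ∧ e = s(v, w)
        · obtain ⟨w, h1, h2, rfl⟩ := he
          exact Or.inl (hy0 w h1 h2)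
        · exact hy2 e (by simp only [mem_filter, mem_univ, true_and]; exact he)
      have hy'' : ∀ e, (rs v y) e = 0 ∨ (rs v y) e = 1 := fun e => hy' _
      rw [R_Tg y hy', R_Tg _ hy'']
      have hvadj : ∀ w, (Tg y).Adj v w → w = u := by
        intro w hw
        by_contra hne
        rw [Tg_adj] at hw
        rw [hy0 w hne hw.1.symm] at hw
        exact zero_ne_one hw.2
      rcases hy' s(v, u) with h0 | h1
      · have : ¬ (Tg y).Connected := by
          intro hc
          have hr : (Tg y).Reachable v u := hc.preconnected v u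
          obtain ⟨p⟩ := hr
          cases p with
          | nil => exact huv rfl
          | cons hadj _ =>
            have h3 := hvadj _ hadj
            subst h3
            rw [Tg_adj, h0] at hadj
            exact zero_ne_one hadj.2
        rw [if_neg this, h0]; ring
      · have hadj : (Tg y).Adj v u := (Tg_adj _ _ _).2 ⟨huv.symm, h1⟩
        have : (Tg y).Connected ↔ (Tg (rs v y)).Connected := by
          constructor
          · intro hc
            have : Nonempty {w : V // w ≠ v} := ⟨⟨u, huv⟩⟩
            refine SimpleGraph.Connected.mk ?_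
            let r : V → {w : V // w ≠ v} := fun a => if ha : a = v then ⟨u, huv⟩ else ⟨a, ha⟩
            have hstep : ∀ a b, (Tg y).Adj a b → (Tg (rs v y)).Reachable (r a) (r b) := by
              intro a b hab
              by_cases ha : a = v
              · subst ha
                have hb := hvadj b hab
                subst hb
                have e1 : r a = ⟨b, huv⟩ := by simp [r]
                have e2 : r b = ⟨b, huv⟩ := by simp [r, huv]
                rw [e1, e2]
              · by_cases hb : b = v
                · subst hb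
                  have ha' := hvadj a hab.symm
                  subst ha'
                  have e1 : r a = ⟨a, huv⟩ := by simp [r, huv]
                  have e2 : r b = ⟨a, huv⟩ := by simp [r]
                  rw [e1, e2]
                · have e1 : r a = ⟨a, ha⟩ := by simp [r, ha]
                  have e2 : r b = ⟨b, hb⟩ := by simp [r, hb]
                  rw [e1, e2]
                  exact ((Tg_rs_adj v y ⟨a, ha⟩ ⟨b, hb⟩).2 hab).reachable
            have hreach : ∀ a b, (Tg y).Reachable a b → (Tg (rs v y)).Reachable (r a) (r b) := by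
              intro a b hab
              obtain ⟨p⟩ := hab
              induction p with
              | nil => exact SimpleGraph.Reachable.refl _
              | cons h _ ih => exact (hstep _ _ h).trans ih
            intro a b
            have := hreach a.1 b.1 (hc.preconnected _ _)
            have ea : r a.1 = a := by simp [r, a.2]
            have eb : r b.1 = b := by simp [r, b.2]
            rwa [ea, eb] at this
          · intro hc'
            have hr : ∀ a, (Tg y).Reachable v a := by
              intro a
              by_cases ha : a = v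
              · subst ha; exact SimpleGraph.Reachable.refl _
              · exact hadj.reachable.trans (rs_reach v y ⟨u, huv⟩ ⟨a, ha⟩ (hc'.preconnected _ _))
            have : Nonempty V := ⟨v⟩
            exact SimpleGraph.Connected.mk (fun a b => (hr a).symm.trans (hr b))
        rw [h1]
        by_cases hc : (Tg y).Connected
        · rw [if_pos hc, if_pos (this.1 hc)]; ring
        · rw [if_neg hc, if_neg (fun h => hc (this.2 h))]; ring)
  linarith

end Pool.Agent.Helper291.RelVert
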