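import Mathlib
import Pool.Agent.Helper291.RelCore
import Pool.Agent.Helper291.RelTwo
import Pool.Agent.Helper291.RelVert

set_option autoImplicit false

namespace Pool.Agent.Helper291.RelTrans

open Finset Pool.Agent.Helper291.RelCore Pool.Agent.Helper291.RelTwo Pool.Agent.Helper291.RelVert

set_option linter.unusedSectionVars false

variable {V : Type*} [Fintype V] [DecidableEq V]

theorem conn_of_edges (T1 T2 : SimpleGraph V) (h : ∀ a b, T1.Adj a b → T2.Reachable a b)
    (hc : T1.Connected) : T2.Connected := by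
  have hr : ∀ a b, T1.Reachable a b → T2.Reachable a b := by
    intro a b hab
    obtain ⟨p⟩ := hab
    induction p with
    | nil => exact SimpleGraph.Reachable.refl _
    | cons h' _ ih => exact (h _ _ h').trans ih
  have : Nonempty V := hc.nonempty
  exact SimpleGraph.Connected.mk (fun a b => hr a b (hc.preconnected a b))

theorem upd2_ma (f : (Sym2 V → ℝ) → ℝ) (hf : ∀ e, MAat f e) (e1 e2 : Sym2 V) (i j : ℝ)
    (e : Sym2 V) : MAat (fun x => f (Function.update (Function.update x e1 i) e2 j)) e := by
  by_cases h2 : e = e2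
  · subst h2
    apply Ind.ma
    intro x t
    by_cases h1 : e = e1
    · subst h1; simp
    · simp only []
      rw [Function.update_comm h1, Function.update_idem]
  · by_cases h1 : e = e1
    · subst h1
      apply Ind.ma
      intro x t
      simp
    · intro x
      have := hf e (Function.update (Function.update x e1 i) e2 j)
      rw [Function.update_of_ne h2, Function.update_of_ne h1] at this
      simp only []
      rw [this]
      have key : ∀ t : ℝ, Function.update (Function.update (Function.update x e t) e1 i) e2 j =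
          Function.update (Function.update (Function.update x e1 i) e2 j) e t := by
        intro t
        rw [Function.update_comm h1, Function.update_comm h2]
      rw [key, key]

/-- `(i,j)` is one of `(1,0), (0,1), (1,1)` -/
def NZ (i j : ℝ) : Prop := (i = 1 ∧ j = 0) ∨ (i = 0 ∧ j = 1) ∨ (i = 1 ∧ j = 1)

theorem reach_step (v a w : V) (hva : v ≠ a) (hvw : v ≠ w) (haw : a ≠ w) (y : Sym2 V → ℝ)
    (h1 : y s(v, a) = 1) (i j i' j' : ℝ) (h' : NZ i' j') (c d : V)
    (hcd : (Tg (Function.update (Function.update y s(v, w) i) s(a, w) j)).Adj c d) :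
    (Tg (Function.update (Function.update y s(v, w) i') s(a, w) j')).Reachable c d := by
  set T2 := Tg (Function.update (Function.update y s(v, w) i') s(a, w) j') with hT2
  have e12 : s(v, w) ≠ s(a, w) := by
    intro h; rcases Sym2.eq_iff.1 h with ⟨h1, _⟩ | ⟨h1, _⟩
    · exact hva h1
    · exact hvw h1
  have eva1 : s(v, a) ≠ s(v, w) := by
    intro h; rcases Sym2.eq_iff.1 h with ⟨_, h1⟩ | ⟨h1, _⟩
    · exact haw h1
    · exact hvw h1
  have eva2 : s(v, a) ≠ s(a, w) := by
    intro h; rcases Sym2.eq_iff.1 h with ⟨h1, _⟩ | ⟨h1, _⟩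
    · exact hva h1
    · exact hvw h1
  have hva2 : T2.Adj v a := by
    rw [hT2, Tg_adj, Function.update_of_ne eva2, Function.update_of_ne eva1]
    exact ⟨hva, h1⟩
  have hvw2 : T2.Reachable v w := by
    rcases h' with ⟨h, _⟩ | ⟨_, h⟩ | ⟨h, _⟩
    · apply SimpleGraph.Adj.reachable
      rw [hT2, Tg_adj, Function.update_of_ne e12, Function.update_self]
      exact ⟨hvw, h⟩
    · refine hva2.reachable.trans (SimpleGraph.Adj.reachable ?_)
      rw [hT2, Tg_adj, Function.update_self]
      exact ⟨haw, h⟩
    · apply SimpleGraph.Adj.reachable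
      rw [hT2, Tg_adj, Function.update_of_ne e12, Function.update_self]
      exact ⟨hvw, h⟩
  have haw2 : T2.Reachable a w := hva2.symm.reachable.trans hvw2
  by_cases hc2 : s(c, d) = s(a, w)
  · rcases Sym2.eq_iff.1 hc2 with ⟨rfl, rfl⟩ | ⟨rfl, rfl⟩
    · exact haw2
    · exact haw2.symm
  · by_cases hc1 : s(c, d) = s(v, w)
    · rcases Sym2.eq_iff.1 hc1 with ⟨rfl, rfl⟩ | ⟨rfl, rfl⟩
      · exact hvw2
      · exact hvw2.symm
    · apply SimpleGraph.Adj.reachable
      rw [Tg_adj, Function.update_of_ne hc2, Function.update_of_ne hc1] at hcd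
      rw [hT2, Tg_adj, Function.update_of_ne hc2, Function.update_of_ne hc1]
      exact hcd

theorem F_eq (v a w : V) (hva : v ≠ a) (hvw : v ≠ w) (haw : a ≠ w) (x : Sym2 V → ℝ)
    (h1 : x s(v, a) = 1) (i j i' j' : ℝ) (h : NZ i j) (h' : NZ i' j') :
    R (Function.update (Function.update x s(v, w) i) s(a, w) j) =
      R (Function.update (Function.update x s(v, w) i') s(a, w) j') := by
  classical
  have := vertex_eq (fun x : Sym2 V → ℝ =>
    R (Function.update (Function.update x s(v, w) i) s(a, w) j) -
      R (Function.update (Function.update x s(v, w) i') s(a, w) j')) (univ.erase s(v, a))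
    (fun e _ => (upd2_ma R R_ma _ _ i j e).sub (upd2_ma R R_ma _ _ i' j' e)) x (by
      intro y hy1 hy2
      have hy : ∀ e, y e = 0 ∨ y e = 1 := by
        intro e
        by_cases he : e = s(v, a)
        · right; rw [he, hy1 _ (by simp), h1]
        · exact hy2 e (by simp [he])
      have hya : y s(v, a) = 1 := by rw [hy1 _ (by simp), h1]
      have h01 : ∀ i j : ℝ, NZ i j → ∀ e,
          Function.update (Function.update y s(v, w) i) s(a, w) j e = 0 ∨
          Function.update (Function.update y s(v, w) i) s(a, w) j e = 1 := by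
        intro i j hij e
        by_cases he2 : e = s(a, w)
        · rw [he2, Function.update_self]
          rcases hij with ⟨_, h⟩ | ⟨_, h⟩ | ⟨_, h⟩ <;> simp [h]
        · rw [Function.update_of_ne he2]
          by_cases he1 : e = s(v, w)
          · rw [he1, Function.update_self]
            rcases hij with ⟨h, _⟩ | ⟨h, _⟩ | ⟨h, _⟩ <;> simp [h]
          · rw [Function.update_of_ne he1]; exact hy e
      rw [R_Tg _ (h01 i j h), R_Tg _ (h01 i' j' h')]
      have hiff : (Tg (Function.update (Function.update y s(v, w) i) s(a, w) j)).Connected ↔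
          (Tg (Function.update (Function.update y s(v, w) i') s(a, w) j')).Connected :=
        ⟨conn_of_edges _ _ (fun c d hcd => reach_step v a w hva hvw haw y hya i j i' j' h' c d hcd),
         conn_of_edges _ _ (fun c d hcd => reach_step v a w hva hvw haw y hya i' j' i j h c d hcd)⟩
      by_cases hc : (Tg (Function.update (Function.update y s(v, w) i) s(a, w) j)).Connected
      · rw [if_pos hc, if_pos (hiff.1 hc)]; ring
      · rw [if_neg hc, if_neg (fun hh => hc (hiff.2 hh))]; ring)
  linarith

theorem transfer1 (v a w : V) (hva : v ≠ a) (hvw : v ≠ w) (haw : a ≠ w) (x : Sym2 V → ℝ)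
    (h1 : x s(v, a) = 1) (s' t' : ℝ)
    (hst : (1 - s') * (1 - t') = (1 - x s(v, w)) * (1 - x s(a, w))) :
    R (Function.update (Function.update x s(v, w) s') s(a, w) t') = R x := by
  have e12 : s(v, w) ≠ s(a, w) := by
    intro h; rcases Sym2.eq_iff.1 h with ⟨h1, _⟩ | ⟨h1, _⟩
    · exact hva h1
    · exact hvw h1
  have expand : ∀ s t : ℝ, R (Function.update (Function.update x s(v, w) s) s(a, w) t) =
      (1 - (1 - s) * (1 - t)) * R (Function.update (Function.update x s(v, w) 1) s(a, w) 1) +
      (1 - s) * (1 - t) * R (Function.update (Function.update x s(v, w) 0) s(a, w) 0) := by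
    intro s t
    have hA := R_ma s(a, w) (Function.update (Function.update x s(v, w) s) s(a, w) t)
    rw [Function.update_self, Function.update_idem, Function.update_idem] at hA
    have hB : ∀ j : ℝ, R (Function.update (Function.update x s(v, w) s) s(a, w) j) =
        s * R (Function.update (Function.update x s(v, w) 1) s(a, w) j) +
        (1 - s) * R (Function.update (Function.update x s(v, w) 0) s(a, w) j) := by
      intro j
      have := R_ma s(v, w) (Function.update (Function.update x s(v, w) s) s(a, w) j)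
      rw [Function.update_of_ne e12, Function.update_self,
        Function.update_comm e12.symm, Function.update_idem,
        Function.update_comm e12.symm, Function.update_idem] at this
      exact this
    rw [hA, hB 1, hB 0]
    have g1 := F_eq v a w hva hvw haw x h1 1 0 1 1 (Or.inl ⟨rfl, rfl⟩) (Or.inr (Or.inr ⟨rfl, rfl⟩))
    have g2 := F_eq v a w hva hvw haw x h1 0 1 1 1 (Or.inr (Or.inl ⟨rfl, rfl⟩))
      (Or.inr (Or.inr ⟨rfl, rfl⟩))
    rw [g1, g2]
    ring
  rw [expand s' t', hst]
  have := expand (x s(v, w)) (x s(a, w))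
  rw [Function.update_eq_self, Function.update_eq_self] at this
  rw [this]

theorem transferB (v a : V) (hva : v ≠ a) (x : Sym2 V → ℝ) (h1 : x s(v, a) = 1) (B : Finset V) :
    v ∉ B → a ∉ B → ∃ x' : Sym2 V → ℝ, R x' = R x ∧
      (∀ w ∈ B, x' s(v, w) = 0 ∧ 1 - x' s(a, w) = (1 - x s(v, w)) * (1 - x s(a, w))) ∧
      (∀ e : Sym2 V, (∀ w ∈ B, e ≠ s(v, w) ∧ e ≠ s(a, w)) → x' e = x e) := by
  classical
  induction B using Finset.induction_on with
  | empty =>
    intro _ _
    exact ⟨x, rfl, fun w hw => absurd hw (Finset.notMem_empty w), fun _ _ => rfl⟩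
  | insert w B hw ih =>
    intro hv ha
    rw [Finset.mem_insert, not_or] at hv ha
    obtain ⟨x', e1, e2, e3⟩ := ih hv.2 ha.2
    have hvw : v ≠ w := hv.1
    have haw : a ≠ w := ha.1
    have nva : ∀ w' ∈ B, s(v, a) ≠ s(v, w') ∧ s(v, a) ≠ s(a, w') := by
      intro w' hw'
      have h1 : v ≠ w' := fun h => hv.2 (h ▸ hw')
      have h2 : a ≠ w' := fun h => ha.2 (h ▸ hw')
      constructor
      · intro h; rcases Sym2.eq_iff.1 h with ⟨_, h3⟩ | ⟨h3, _⟩
        · exact h2 h3
        · exact h1 h3
      · intro h; rcases Sym2.eq_iff.1 h with ⟨h3, _⟩ | ⟨h3, _⟩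
        · exact hva h3
        · exact h1 h3
    have nvw : ∀ w' ∈ B, s(v, w) ≠ s(v, w') ∧ s(v, w) ≠ s(a, w') := by
      intro w' hw'
      have h1 : v ≠ w' := fun h => hv.2 (h ▸ hw')
      have h2 : w ≠ w' := fun h => hw (h ▸ hw')
      constructor
      · intro h; rcases Sym2.eq_iff.1 h with ⟨_, h3⟩ | ⟨h3, _⟩
        · exact h2 h3
        · exact h1 h3
      · intro h; rcases Sym2.eq_iff.1 h with ⟨h3, _⟩ | ⟨h3, _⟩
        · exact hva h3
        · exact h1 h3
    have naw : ∀ w' ∈ B, s(a, w) ≠ s(v, w') ∧ s(a, w) ≠ s(a, w') := by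
      intro w' hw'
      have h1 : a ≠ w' := fun h => ha.2 (h ▸ hw')
      have h2 : w ≠ w' := fun h => hw (h ▸ hw')
      constructor
      · intro h; rcases Sym2.eq_iff.1 h with ⟨h3, _⟩ | ⟨h3, _⟩
        · exact hva h3.symm
        · exact h1 h3
      · intro h; rcases Sym2.eq_iff.1 h with ⟨_, h3⟩ | ⟨h3, _⟩
        · exact h2 h3
        · exact h1 h3
    have x'va : x' s(v, a) = 1 := by rw [e3 _ nva, h1]
    have x'vw : x' s(v, w) = x s(v, w) := e3 _ nvw
    have x'aw : x' s(a, w) = x s(a, w) := e3 _ naw
    have e12 : s(v, w) ≠ s(a, w) := by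
      intro h; rcases Sym2.eq_iff.1 h with ⟨h1, _⟩ | ⟨h1, _⟩
      · exact hva h1
      · exact hvw h1
    refine ⟨Function.update (Function.update x' s(v, w) 0) s(a, w)
      (1 - (1 - x' s(v, w)) * (1 - x' s(a, w))), ?_, ?_, ?_⟩
    · rw [transfer1 v a w hva hvw haw x' x'va _ _ (by ring), e1]
    · intro w' hw'
      rcases Finset.mem_insert.1 hw' with rfl | hw'
      · constructor
        · rw [Function.update_of_ne e12, Function.update_self]
        · rw [Function.update_self, x'vw, x'aw]; ring
      · obtain ⟨f1, f2⟩ := e2 w' hw'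
        obtain ⟨g1, g2⟩ := nvw w' hw'
        obtain ⟨g3, g4⟩ := naw w' hw'
        constructor
        · rw [Function.update_of_ne g3.symm, Function.update_of_ne g1.symm, f1]
        · rw [Function.update_of_ne g4.symm, Function.update_of_ne g2.symm, f2]
    · intro e he
      obtain ⟨g1, g2⟩ := he w (Finset.mem_insert_self w B)
      rw [Function.update_of_ne g2, Function.update_of_ne g1]
      exact e3 e (fun w' hw' => he w' (Finset.mem_insert_of_mem hw'))

end Pool.Agent.Helper291.RelTrans
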