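import Mathlib
import Pool.Agent.Helper291.RelCore
import Pool.Agent.Helper291.RelTwo
import Pool.Agent.Helper291.RelTrans

set_option autoImplicit false

namespace Pool.Agent.Helper291.RelStep

open Finset Pool.Agent.Helper291.RelCore Pool.Agent.Helper291.RelTwo
  Pool.Agent.Helper291.RelTrans

set_option linter.unusedSectionVars false

variable {V : Type*} [Fintype V] [DecidableEq V]

theorem s_ne {a b c d : V} (h1 : a ≠ c ∨ b ≠ d) (h2 : a ≠ d ∨ b ≠ c) : s(a, b) ≠ s(c, d) := by
  intro h
  rcases Sym2.eq_iff.1 h with ⟨e1, e2⟩ | ⟨e1, e2⟩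
  · rcases h1 with h1 | h1
    · exact h1 e1
    · exact h1 e2
  · rcases h2 with h2 | h2
    · exact h2 e1
    · exact h2 e2

theorem upd_mem (x : Sym2 V → ℝ) (hx : ∀ e, 0 ≤ x e ∧ x e ≤ 1) (e : Sym2 V) (t : ℝ)
    (h0 : 0 ≤ t) (h1 : t ≤ 1) : ∀ e', 0 ≤ Function.update x e t e' ∧
      Function.update x e t e' ≤ 1 := by
  intro e'
  by_cases h : e' = e
  · subst h; rw [Function.update_self]; exact ⟨h0, h1⟩
  · rw [Function.update_of_ne h]; exact hx e'

/-- Step: hub `{v,a}` glued; move the edge `v u'` to the missing edge `a w`. -/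
theorem step_sp (v a w u : V) (p : ℝ) (hp0 : 0 ≤ p) (hp1 : p ≤ 1)
    (hva : v ≠ a) (hvw : v ≠ w) (haw : a ≠ w) (hvu : v ≠ u) (hau : a ≠ u) (hwu : w ≠ u)
    (x : Sym2 V → ℝ) (hx : ∀ e, 0 ≤ x e ∧ x e ≤ 1)
    (x1 : x s(v, a) = 1) (x2 : x s(v, w) = 0) (x3 : x s(a, w) = 0)
    (x4 : x s(v, u) = p) (x5 : x s(a, u) = p)
    (hdom : ∀ t, t ≠ u → t ≠ w → t ≠ v → t ≠ a → x s(w, t) ≤ x s(u, t)) :
    R x ≤ R (Function.update (Function.update x s(a, w) p) s(v, u) 0) := by
  set xt := Function.update (Function.update x s(v, u) 0) s(a, u) (1 - (1 - p) * (1 - p)) with hxt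
  have hq : 0 ≤ 1 - p := by linarith
  have hq1 : 1 - p ≤ 1 := by linarith
  have hqq : (1 - p) * (1 - p) ≤ 1 := by nlinarith
  have hR : R xt = R x := by
    apply transfer1 v a u hva hvu hau x x1
    rw [x4, x5]; ring
  rw [← hR]
  have hxt01 : ∀ e, 0 ≤ xt e ∧ xt e ≤ 1 :=
    upd_mem _ (upd_mem x hx _ _ le_rfl zero_le_one) _ _ (by linarith)
      (by nlinarith [mul_nonneg hq hq])
  have hx101 : ∀ e, 0 ≤ (Function.update (Function.update x s(a, w) p) s(v, u) 0) e ∧
      (Function.update (Function.update x s(a, w) p) s(v, u) 0) e ≤ 1 :=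
    upd_mem _ (upd_mem x hx _ _ hp0 hp1) _ _ le_rfl zero_le_one
  apply exchange u w hwu.symm _ _ hx101 hxt01
  · intro e h1 h2
    have n1 : e ≠ s(v, u) := by rintro rfl; simp at h1
    have n2 : e ≠ s(a, u) := by rintro rfl; simp at h1
    have n3 : e ≠ s(a, w) := by rintro rfl; simp at h2
    rw [hxt, Function.update_of_ne n2, Function.update_of_ne n1, Function.update_of_ne n1,
      Function.update_of_ne n3]
  · have n1 : s(u, w) ≠ s(v, u) := s_ne (Or.inl hvu.symm) (Or.inr hvw.symm)
    have n2 : s(u, w) ≠ s(a, u) := s_ne (Or.inl hau.symm) (Or.inr haw.symm)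
    have n3 : s(u, w) ≠ s(a, w) := s_ne (Or.inl hau.symm) (Or.inl hwu.symm)
    rw [hxt, Function.update_of_ne n2, Function.update_of_ne n1, Function.update_of_ne n1,
      Function.update_of_ne n3]
  · intro t htu htw
    by_cases hta : t = a
    · subst hta
      refine ⟨1 - p, hq, hq1, ?_, ?_, ?_⟩
      · rw [hxt, Sym2.eq_swap (a := u) (b := t), Function.update_self,
          Function.update_of_ne (s_ne (Or.inl hva.symm) (Or.inl hau)),
          Function.update_of_ne (s_ne (Or.inr hwu.symm) (Or.inl haw)), x5]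
        ring
      · rw [hxt, Sym2.eq_swap (a := w) (b := t),
          Function.update_of_ne (s_ne (Or.inl hva.symm) (Or.inl hau)),
          Function.update_self,
          Function.update_of_ne (s_ne (Or.inr hwu) (Or.inl hau)),
          Function.update_of_ne (s_ne (Or.inl hva.symm) (Or.inl hau)), x3]
        ring
      · rw [hxt, Sym2.eq_swap (a := u) (b := t), Sym2.eq_swap (a := w) (b := t),
          Function.update_of_ne (s_ne (Or.inl hva.symm) (Or.inl hau)),
          Function.update_of_ne (s_ne (Or.inr hwu.symm) (Or.inl haw)), x5,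
          Function.update_of_ne (s_ne (Or.inr hwu) (Or.inl hau)),
          Function.update_of_ne (s_ne (Or.inl hva.symm) (Or.inl hau)), x3]
        linarith
    · by_cases htv : t = v
      · subst htv
        refine ⟨1, zero_le_one, le_rfl, ?_, ?_, ?_⟩
        · rw [hxt, Sym2.eq_swap (a := u) (b := t),
            Function.update_of_ne (s_ne (Or.inl hva) (Or.inl hvu)), Function.update_self,
            Function.update_self]
          ring
        · rw [hxt, Sym2.eq_swap (a := w) (b := t),
            Function.update_of_ne (s_ne (Or.inr hwu) (Or.inl hvu)),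
            Function.update_of_ne (s_ne (Or.inl hva) (Or.inl hvw)),
            Function.update_of_ne (s_ne (Or.inl hva) (Or.inl hvu)),
            Function.update_of_ne (s_ne (Or.inr hwu) (Or.inl hvu))]
          ring
        · rw [hxt, Sym2.eq_swap (a := u) (b := t), Sym2.eq_swap (a := w) (b := t),
            Function.update_self,
            Function.update_of_ne (s_ne (Or.inl hva) (Or.inl hvu)),
            Function.update_of_ne (s_ne (Or.inr hwu) (Or.inl hvu)), x2]
      · refine ⟨1, zero_le_one, le_rfl, ?_, ?_, ?_⟩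
        · rw [hxt,
            Function.update_of_ne (s_ne (Or.inl hau.symm) (Or.inr hta)),
            Function.update_of_ne (s_ne (Or.inl hvu.symm) (Or.inr htv)),
            Function.update_of_ne (s_ne (Or.inl hvu.symm) (Or.inr htv)),
            Function.update_of_ne (s_ne (Or.inl hau.symm) (Or.inr hta))]
          ring
        · rw [hxt,
            Function.update_of_ne (s_ne (Or.inl hvw.symm) (Or.inr htv)),
            Function.update_of_ne (s_ne (Or.inl haw.symm) (Or.inr hta)),
            Function.update_of_ne (s_ne (Or.inl haw.symm) (Or.inr hta)),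
            Function.update_of_ne (s_ne (Or.inl hvw.symm) (Or.inr htv))]
          ring
        · rw [hxt,
            Function.update_of_ne (s_ne (Or.inl hvu.symm) (Or.inr htv)),
            Function.update_of_ne (s_ne (Or.inl hau.symm) (Or.inr hta)),
            Function.update_of_ne (s_ne (Or.inl haw.symm) (Or.inr hta)),
            Function.update_of_ne (s_ne (Or.inl hvw.symm) (Or.inr htv))]
          have := hdom t htu htw htv hta
          linarith

/-- Step: hub `{v,a}` glued; move the edge `a y` to the missing edge `y z`. -/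
theorem step_ctx (v a y z : V) (p : ℝ) (hp0 : 0 ≤ p) (hp1 : p ≤ 1)
    (hva : v ≠ a) (hvy : v ≠ y) (hay : a ≠ y) (hvz : v ≠ z) (haz : a ≠ z) (hyz : y ≠ z)
    (x : Sym2 V → ℝ) (hx : ∀ e, 0 ≤ x e ∧ x e ≤ 1)
    (x1 : x s(v, a) = 1) (x2 : x s(v, y) = 0) (x3 : x s(y, z) = 0) (x4 : x s(a, y) = p)
    (hdom : ∀ t, t ≠ a → t ≠ z → t ≠ v → t ≠ y → x s(z, t) ≤ x s(a, t)) :
    R x ≤ R (Function.update (Function.update x s(a, y) 0) s(y, z) p) := by
  classical
  set X := Function.update (Function.update x s(a, y) 0) s(y, z) p with hX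
  have hX01 : ∀ e, 0 ≤ X e ∧ X e ≤ 1 :=
    upd_mem _ (upd_mem x hx _ _ le_rfl zero_le_one) _ _ hp0 hp1
  have X1 : X s(v, a) = 1 := by
    rw [hX, Function.update_of_ne (s_ne (Or.inl hvy) (Or.inl hvz)),
      Function.update_of_ne (s_ne (Or.inl hva) (Or.inl hvy)), x1]
  set B : Finset V := (univ.erase v).erase a with hB
  have hvB : v ∉ B := by simp [hB]
  have haB : a ∉ B := by simp [hB]
  have memB : ∀ w, w ≠ v → w ≠ a → w ∈ B := by
    intro w h1 h2; simp [hB, h1, h2]
  obtain ⟨xt, e1, e2, e3⟩ := transferB v a hva x x1 B hvB haB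
  obtain ⟨Xt, E1, E2, E3⟩ := transferB v a hva X X1 B hvB haB
  rw [← e1, ← E1]
  have gen01 : ∀ (x xt : Sym2 V → ℝ), (∀ e, 0 ≤ x e ∧ x e ≤ 1) →
      (∀ w ∈ B, xt s(v, w) = 0 ∧ 1 - xt s(a, w) = (1 - x s(v, w)) * (1 - x s(a, w))) →
      (∀ e : Sym2 V, (∀ w ∈ B, e ≠ s(v, w) ∧ e ≠ s(a, w)) → xt e = x e) →
      ∀ e, 0 ≤ xt e ∧ xt e ≤ 1 := by
    intro x xt hx f1 f2 e
    by_cases h1 : ∃ w ∈ B, e = s(v, w)
    · obtain ⟨w, hw, rfl⟩ := h1
      rw [(f1 w hw).1]; norm_num
    · by_cases h2 : ∃ w ∈ B, e = s(a, w)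
      · obtain ⟨w, hw, rfl⟩ := h2
        have g := (f1 w hw).2
        have a1 := hx s(v, w)
        have a2 := hx s(a, w)
        have b1 : 0 ≤ (1 - x s(v, w)) * (1 - x s(a, w)) :=
          mul_nonneg (by linarith) (by linarith)
        have b2 : (1 - x s(v, w)) * (1 - x s(a, w)) ≤ 1 := by nlinarith
        constructor <;> linarith
      · push Not at h1 h2
        rw [f2 e (fun w hw => ⟨h1 w hw, h2 w hw⟩)]
        exact hx e
  have ht01 := gen01 x xt hx e2 e3
  have hT01 := gen01 X Xt hX01 E2 E3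
  apply exchange a z haz _ _ hT01 ht01
  · intro e h1 h2
    by_cases h3 : ∃ w ∈ B, e = s(v, w)
    · obtain ⟨w, hw, rfl⟩ := h3
      rw [(e2 w hw).1, (E2 w hw).1]
    · push Not at h3
      have h4 : ∀ w ∈ B, e ≠ s(v, w) ∧ e ≠ s(a, w) := by
        intro w hw
        refine ⟨h3 w hw, ?_⟩
        rintro rfl
        simp at h1
      rw [e3 e h4, E3 e h4, hX]
      have n1 : e ≠ s(a, y) := by rintro rfl; simp at h1
      have n2 : e ≠ s(y, z) := by rintro rfl; simp at h2
      rw [Function.update_of_ne n2, Function.update_of_ne n1]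
  · have hz := memB z hvz.symm haz.symm
    have g1 := (e2 z hz).2
    have g2 := (E2 z hz).2
    have k1 : X s(v, z) = x s(v, z) := by
      rw [hX, Function.update_of_ne (s_ne (Or.inl hvy) (Or.inl hvz)),
        Function.update_of_ne (s_ne (Or.inl hva) (Or.inl hvy))]
    have k2 : X s(a, z) = x s(a, z) := by
      rw [hX, Function.update_of_ne (s_ne (Or.inl hay) (Or.inl haz)),
        Function.update_of_ne (s_ne (Or.inr hyz.symm) (Or.inl hay))]
    rw [k1, k2] at g2
    linarith
  · intro t hta htz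
    by_cases htv : t = v
    · subst htv
      have nB : ∀ w ∈ B, s(t, a) ≠ s(t, w) ∧ s(t, a) ≠ s(a, w) := by
        intro w hw
        have h1 : t ≠ w := fun h => hvB (h ▸ hw)
        have h2 : a ≠ w := fun h => haB (h ▸ hw)
        exact ⟨s_ne (Or.inr h2) (Or.inl h1), s_ne (Or.inl hva) (Or.inl h1)⟩
      refine ⟨1, zero_le_one, le_rfl, ?_, ?_, ?_⟩
      · rw [Sym2.eq_swap (a := a) (b := t), e3 _ nB, E3 _ nB, x1, X1]; ring
      · rw [Sym2.eq_swap (a := z) (b := t), (e2 z (memB z htz.symm haz.symm)).1,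
          (E2 z (memB z htz.symm haz.symm)).1]; ring
      · rw [Sym2.eq_swap (a := a) (b := t), E3 _ nB, X1,
          Sym2.eq_swap (a := z) (b := t), (e2 z (memB z htz.symm haz.symm)).1]; norm_num
    · have htB := memB t htv hta
      have g1 := (e2 t htB).2
      have g2 := (E2 t htB).2
      have nB : ∀ w ∈ B, s(z, t) ≠ s(v, w) ∧ s(z, t) ≠ s(a, w) := by
        intro w hw
        exact ⟨s_ne (Or.inl hvz.symm) (Or.inr htv), s_ne (Or.inl haz.symm) (Or.inr hta)⟩
      have f1 := e3 _ nB
      have f2 := E3 _ nB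
      by_cases hty : t = y
      · subst hty
        have k1 : X s(v, t) = 0 := by
          rw [hX, Function.update_of_ne (s_ne (Or.inl hvy) (Or.inl hvz)),
            Function.update_of_ne (s_ne (Or.inl hva) (Or.inl hvy)), x2]
        have k2 : X s(a, t) = 0 := by
          rw [hX, Function.update_of_ne (s_ne (Or.inl hay) (Or.inl haz)), Function.update_self]
        have k3 : X s(z, t) = p := by
          rw [hX, Sym2.eq_swap (a := z) (b := t), Function.update_self]
        have k4 : x s(z, t) = 0 := by rw [Sym2.eq_swap, x3]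
        rw [k1, k2] at g2
        rw [x2, x4] at g1
        refine ⟨1 - p, by linarith, by linarith, ?_, ?_, ?_⟩
        · rw [g1, g2]; ring
        · rw [f1, f2, k3, k4]; ring
        · rw [g2, f1, k4]; ring_nf; norm_num
      · have k1 : X s(v, t) = x s(v, t) := by
          rw [hX, Function.update_of_ne (s_ne (Or.inl hvy) (Or.inl hvz)),
            Function.update_of_ne (s_ne (Or.inl hva) (Or.inl hvy))]
        have k2 : X s(a, t) = x s(a, t) := by
          rw [hX, Function.update_of_ne (s_ne (Or.inl hay) (Or.inl haz)),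
            Function.update_of_ne (s_ne (Or.inr hty) (Or.inl hay))]
        have k3 : X s(z, t) = x s(z, t) := by
          rw [hX, Function.update_of_ne (s_ne (Or.inl hyz.symm) (Or.inr hty)),
            Function.update_of_ne (s_ne (Or.inl haz.symm) (Or.inr hta))]
        rw [k1, k2] at g2
        refine ⟨1, zero_le_one, le_rfl, ?_, ?_, ?_⟩
        · rw [g1, g2]; ring
        · rw [f1, f2, k3]; ring
        · rw [g2, f1]
          have hd := hdom t hta htz htv hty
          have a1 := hx s(v, t)
          have a2 := hx s(a, t)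
          have b1 : (1 - x s(v, t)) * (1 - x s(a, t)) ≤ 1 * (1 - x s(a, t)) :=
            mul_le_mul_of_nonneg_right (by linarith) (by linarith)
          linarith

end Pool.Agent.Helper291.RelStep
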