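import Mathlib
import Pool.Agent.Helper291.RelCore
import Pool.Agent.Helper291.RelTwo
import Pool.Agent.Helper291.RelVert
import Pool.Agent.Helper291.RelTrans
import Pool.Agent.Helper291.RelStep
import Pool.Agent.Helper291.RelNest

set_option autoImplicit false

namespace Pool.Agent.Helper291.RelDense

open Finset Pool.Agent.Helper291.RelCore Pool.Agent.Helper291.RelTwo
  Pool.Agent.Helper291.RelVert Pool.Agent.Helper291.RelTrans Pool.Agent.Helper291.RelStep

set_option linter.unusedSectionVars false

variable {V : Type*} [Fintype V] [DecidableEq V]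

open Classical in
/-- weights of a graph -/
noncomputable def gw (G : SimpleGraph V) (p : ℝ) : Sym2 V → ℝ :=
  fun e => if e ∈ G.edgeSet then p else 0

theorem gw_mk (G : SimpleGraph V) (p : ℝ) (a b : V) (h : G.Adj a b) : gw G p s(a, b) = p := by
  unfold gw; rw [if_pos (G.mem_edgeSet.2 h)]

theorem gw_mk' (G : SimpleGraph V) (p : ℝ) (a b : V) (h : ¬ G.Adj a b) : gw G p s(a, b) = 0 := by
  unfold gw; rw [if_neg (fun hh => h (G.mem_edgeSet.1 hh))]

theorem gw_01 (G : SimpleGraph V) (p : ℝ) (hp0 : 0 ≤ p) (hp1 : p ≤ 1) :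
    ∀ e, 0 ≤ gw G p e ∧ gw G p e ≤ 1 := by
  intro e; unfold gw; split_ifs
  · exact ⟨hp0, hp1⟩
  · exact ⟨le_rfl, zero_le_one⟩

theorem gw_le (G : SimpleGraph V) (p : ℝ) (hp0 : 0 ≤ p) (e : Sym2 V) : gw G p e ≤ p := by
  unfold gw; split_ifs
  · exact le_rfl
  · exact hp0

/-- complete graph minus a star centred at `v` with leaf set `T` -/
def starC (v : V) (T : Finset V) : SimpleGraph V where
  Adj x y := x ≠ y ∧ ¬ (x = v ∧ y ∈ T) ∧ ¬ (y = v ∧ x ∈ T)
  symm := ⟨fun _ _ h => ⟨h.1.symm, h.2.2, h.2.1⟩⟩
  loopless := ⟨fun _ h => h.1 rfl⟩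

theorem starC_adj (v : V) (T : Finset V) (x y : V) :
    (starC v T).Adj x y ↔ x ≠ y ∧ ¬ (x = v ∧ y ∈ T) ∧ ¬ (y = v ∧ x ∈ T) := Iff.rfl

/-- `G` with the pair `e` added and the pair `f` removed -/
def exch (G : SimpleGraph V) (e f : Sym2 V) : SimpleGraph V where
  Adj x y := x ≠ y ∧ (G.Adj x y ∨ s(x, y) = e) ∧ s(x, y) ≠ f
  symm := ⟨fun x y h => by
    refine ⟨h.1.symm, ?_, ?_⟩
    · rcases h.2.1 with h' | h'
      · exact Or.inl h'.symm
      · right; rw [Sym2.eq_swap]; exact h'
    · rw [Sym2.eq_swap]; exact h.2.2⟩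
  loopless := ⟨fun _ h => h.1 rfl⟩

theorem exch_adj (G : SimpleGraph V) (e f : Sym2 V) (x y : V) :
    (exch G e f).Adj x y ↔ x ≠ y ∧ (G.Adj x y ∨ s(x, y) = e) ∧ s(x, y) ≠ f := Iff.rfl

theorem gw_exch (G : SimpleGraph V) (p : ℝ) (e f : Sym2 V) (he : ¬ e.IsDiag)
    (hef : e ≠ f) : gw (exch G e f) p = Function.update (Function.update (gw G p) e p) f 0 := by
  funext e'
  induction e' using Sym2.ind with
  | _ x y =>
    by_cases h1 : s(x, y) = f
    · rw [h1, Function.update_self, ← h1]
      exact gw_mk' _ _ _ _ (fun h => h.2.2 rfl)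
    · rw [Function.update_of_ne h1]
      by_cases h2 : s(x, y) = e
      · rw [h2, Function.update_self, ← h2]
        apply gw_mk
        refine ⟨?_, Or.inr rfl, h1⟩
        rintro rfl
        apply he
        rw [← h2]
        exact Sym2.mk_isDiag_iff.2 rfl
      · rw [Function.update_of_ne h2]
        by_cases h3 : G.Adj x y
        · rw [gw_mk _ _ _ _ h3, gw_mk]
          exact ⟨h3.ne, Or.inl h3, h1⟩
        · rw [gw_mk' _ _ _ _ h3, gw_mk']
          rintro ⟨_, h | h, _⟩
          · exact h3 h
          · exact h2 h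

open Classical in
/-- missing pairs not containing `v` -/
noncomputable def ms (G : SimpleGraph V) (v : V) : Finset (Sym2 V) :=
  univ.filter (fun e => ¬ e.IsDiag ∧ v ∉ e ∧ e ∉ G.edgeSet)

open Classical in
/-- non-neighbours of `v` -/
noncomputable def nn (G : SimpleGraph V) (v : V) : Finset V :=
  univ.filter (fun w => w ≠ v ∧ ¬ G.Adj v w)

open Classical in
/-- neighbours of `v` -/
noncomputable def nbs (G : SimpleGraph V) (v : V) : Finset V :=
  univ.filter (fun w => G.Adj v w)

theorem mem_ms {G : SimpleGraph V} {v x y : V} :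
    s(x, y) ∈ ms G v ↔ x ≠ y ∧ v ≠ x ∧ v ≠ y ∧ ¬ G.Adj x y := by
  classical
  unfold ms
  simp only [mem_filter, mem_univ, true_and, Sym2.mk_isDiag_iff, Sym2.mem_iff, not_or,
    SimpleGraph.mem_edgeSet, ne_eq]
  tauto

theorem mem_nn {G : SimpleGraph V} {v w : V} : w ∈ nn G v ↔ w ≠ v ∧ ¬ G.Adj v w := by
  classical
  unfold nn; simp

theorem mem_nbs {G : SimpleGraph V} {v w : V} : w ∈ nbs G v ↔ G.Adj v w := by
  classical
  unfold nbs; simp

theorem upd_comm3 (x : Sym2 V → ℝ) (e f g : Sym2 V) (a b c : ℝ) (h1 : e ≠ g) (h2 : f ≠ g) :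
    Function.update (Function.update (Function.update x e a) f b) g c =
      Function.update (Function.update (Function.update x g c) e a) f b := by
  rw [Function.update_comm h2, Function.update_comm h1]

theorem DS (p : ℝ) (hp0 : 0 ≤ p) (hp1 : p ≤ 1) (v a : V) (hva : v ≠ a) :
    ∀ (r : ℕ) (G : SimpleGraph V), ¬ G.Adj v a →
      (∀ u, G.Adj v u → ∀ t, t ≠ u → G.Adj u t) → (ms G v).card = r → r ≤ (nbs G v).card →
      ∃ T : Finset V, v ∉ T ∧ a ∈ T ∧ T.card = r + (nn G v).card ∧
        R (Function.update (gw G p) s(v, a) 1) ≤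
          R (Function.update (gw (starC v T) p) s(v, a) 1) := by
  classical
  intro r
  induction r with
  | zero =>
    intro G hva' hdom hms _
    refine ⟨nn G v, ?_, ?_, by simp, ?_⟩
    · rw [mem_nn]; tauto
    · rw [mem_nn]; exact ⟨hva.symm, hva'⟩
    · have hG : G = starC v (nn G v) := by
        ext x y
        rw [starC_adj, mem_nn, mem_nn]
        have hms0 := Finset.card_eq_zero.1 hms
        constructor
        · intro h
          refine ⟨h.ne, ?_, ?_⟩
          · rintro ⟨rfl, _, h2⟩; exact h2 h
          · rintro ⟨rfl, _, h2⟩; exact h2 h.symm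
        · rintro ⟨h1, h2, h3⟩
          by_cases hx : x = v
          · subst hx
            by_contra hcon
            exact h2 ⟨rfl, h1.symm, hcon⟩
          · by_cases hy : y = v
            · subst hy
              by_contra hcon
              exact h3 ⟨rfl, h1, fun h => hcon h.symm⟩
            · by_contra hcon
              have : s(x, y) ∈ ms G v := mem_ms.2 ⟨h1, Ne.symm hx, Ne.symm hy, hcon⟩
              rw [hms0] at this
              exact absurd this (Finset.notMem_empty _)
      rw [← hG]
  | succ r ih =>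
    intro G hva' hdom hms hnb
    -- a neighbour `u` of `v`
    obtain ⟨u, hu⟩ : (nbs G v).Nonempty := by
      rw [← Finset.card_pos]; omega
    have hvu : G.Adj v u := mem_nbs.1 hu
    have hvu' : v ≠ u := hvu.ne
    have hau : a ≠ u := by rintro rfl; exact hva' hvu
    -- general continuation
    have cont : ∀ e : Sym2 V, e ∈ ms G v →
        R (Function.update (gw G p) s(v, a) 1) ≤
          R (Function.update (Function.update (Function.update (gw G p) s(v, a) 1) e p)
            s(v, u) 0) →
        ∃ T : Finset V, v ∉ T ∧ a ∈ T ∧ T.card = r + 1 + (nn G v).card ∧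
        R (Function.update (gw G p) s(v, a) 1) ≤
          R (Function.update (gw (starC v T) p) s(v, a) 1) := by
      intro e he hR
      have he' := he
      unfold ms at he'
      simp only [mem_filter, mem_univ, true_and] at he'
      obtain ⟨hd, hve, hnG⟩ := he'
      have hef : e ≠ s(v, u) := by rintro rfl; simp at hve
      have hea : e ≠ s(v, a) := by rintro rfl; simp at hve
      have hfa : s(v, u) ≠ s(v, a) := s_ne (Or.inr hau.symm) (Or.inl hva)
      set G1 := exch G e s(v, u) with hG1
      have g1 : ¬ G1.Adj v a := by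
        rintro ⟨_, h | h, _⟩
        · exact hva' h
        · exact hea h.symm
      have g1v : ∀ w, G1.Adj v w ↔ G.Adj v w ∧ w ≠ u := by
        intro w
        rw [hG1, exch_adj]
        constructor
        · rintro ⟨h1, h | h, h3⟩
          · refine ⟨h, ?_⟩
            rintro rfl; exact h3 rfl
          · exfalso; apply hve; rw [← h]; simp
        · rintro ⟨h1, h2⟩
          exact ⟨h1.ne, Or.inl h1, s_ne (Or.inr h2) (Or.inl hvu')⟩
      have g2 : ∀ u', G1.Adj v u' → ∀ t, t ≠ u' → G1.Adj u' t := by
        intro u' h' t ht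
        obtain ⟨h1, h2⟩ := (g1v u').1 h'
        rw [hG1, exch_adj]
        refine ⟨ht.symm, Or.inl (hdom u' h1 t ht), ?_⟩
        exact s_ne (Or.inl h1.ne') (Or.inl h2)
      have g3 : ms G1 v = (ms G v).erase e := by
        ext e'
        induction e' using Sym2.ind with
        | _ x y =>
          rw [Finset.mem_erase, mem_ms, mem_ms, hG1, exch_adj]
          constructor
          · rintro ⟨h1, h2, h3, h4⟩
            have hne : s(x, y) ≠ s(v, u) := s_ne (Or.inl h2.symm) (Or.inr h3.symm)
            refine ⟨?_, h1, h2, h3, ?_⟩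
            · intro h; exact h4 ⟨h1, Or.inr h, hne⟩
            · intro h; exact h4 ⟨h1, Or.inl h, hne⟩
          · rintro ⟨h0, h1, h2, h3, h4⟩
            refine ⟨h1, h2, h3, ?_⟩
            rintro ⟨_, h | h, _⟩
            · exact h4 h
            · exact h0 h
      have g4 : nbs G1 v = (nbs G v).erase u := by
        ext w
        rw [Finset.mem_erase, mem_nbs, mem_nbs, g1v]; tauto
      have g5 : nn G1 v = insert u (nn G v) := by
        ext w
        rw [Finset.mem_insert, mem_nn, mem_nn, g1v]
        constructor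
        · rintro ⟨h1, h2⟩
          by_cases hw : w = u
          · exact Or.inl hw
          · exact Or.inr ⟨h1, fun h => h2 ⟨h, hw⟩⟩
        · rintro (rfl | ⟨h1, h2⟩)
          · exact ⟨hvu'.symm, fun h => h.2 rfl⟩
          · exact ⟨h1, fun h => h2 h.1⟩
      have hun : u ∉ nn G v := by rw [mem_nn]; tauto
      obtain ⟨T, t1, t2, t3, t4⟩ := ih G1 g1 g2 (by
        rw [g3, Finset.card_erase_of_mem he, hms]; rfl) (by
        rw [g4, Finset.card_erase_of_mem hu]; omega)
      refine ⟨T, t1, t2, ?_, ?_⟩
      · rw [t3, g5, Finset.card_insert_of_notMem hun]; ring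
      · refine hR.trans (le_trans (le_of_eq ?_) t4)
        rw [hG1, gw_exch G p e s(v, u) hd hef, upd_comm3 _ _ _ _ _ _ _ hea hfa]
    by_cases hcase : ∃ w, w ≠ v ∧ w ≠ a ∧ ¬ G.Adj a w
    · obtain ⟨w, hwv, hwa, haw⟩ := hcase
      have hvw : ¬ G.Adj v w := fun h => haw (hdom w h a hwa.symm).symm
      have hwu : w ≠ u := by rintro rfl; exact hvw hvu
      have he : s(a, w) ∈ ms G v := mem_ms.2 ⟨hwa.symm, hva, hwv.symm, haw⟩
      apply cont _ he
      have n1 : s(v, w) ≠ s(v, a) := s_ne (Or.inr hwa) (Or.inl hva)
      have n2 : s(a, w) ≠ s(v, a) := s_ne (Or.inl hva.symm) (Or.inr hwv)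
      have n3 : s(v, u) ≠ s(v, a) := s_ne (Or.inr hau.symm) (Or.inl hva)
      have n4 : s(a, u) ≠ s(v, a) := s_ne (Or.inl hva.symm) (Or.inr hvu'.symm)
      apply step_sp v a w u p hp0 hp1 hva hwv.symm hwa.symm hvu' hau hwu
      · exact upd_mem _ (gw_01 G p hp0 hp1) _ _ zero_le_one le_rfl
      · rw [Function.update_self]
      · rw [Function.update_of_ne n1]; exact gw_mk' _ _ _ _ hvw
      · rw [Function.update_of_ne n2]; exact gw_mk' _ _ _ _ haw
      · rw [Function.update_of_ne n3]; exact gw_mk _ _ _ _ hvu
      · rw [Function.update_of_ne n4]; exact gw_mk _ _ _ _ (hdom u hvu a hau).symm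
      · intro t t1 t2 t3 t4
        rw [Function.update_of_ne (s_ne (Or.inl hwv) (Or.inl hwa)),
          Function.update_of_ne (s_ne (Or.inl hvu'.symm) (Or.inl hau.symm)),
          gw_mk _ _ _ _ (hdom u hvu t t1)]
        exact gw_le G p hp0 _
    · push Not at hcase
      obtain ⟨e, he⟩ : (ms G v).Nonempty := by
        rw [← Finset.card_pos]; omega
      induction e using Sym2.ind with
      | _ y z =>
        obtain ⟨hyz, hvy, hvz, hnyz⟩ := mem_ms.1 he
        have hya : y ≠ a := by
          rintro rfl
          exact hnyz (hcase z hvz.symm hyz.symm)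
        have hza : z ≠ a := by
          rintro rfl
          exact hnyz (hcase y hvy.symm hyz).symm
        have hvy' : ¬ G.Adj v y := fun h => hnyz (hdom y h z hyz.symm)
        have hyu : y ≠ u := by rintro rfl; exact hvy' hvu
        have hzu : z ≠ u := by
          rintro rfl; exact hnyz (hdom z hvu y hyz).symm
        apply cont _ he
        set x := Function.update (gw G p) s(v, a) 1 with hx
        have hx01 : ∀ e, 0 ≤ x e ∧ x e ≤ 1 :=
          upd_mem _ (gw_01 G p hp0 hp1) _ _ zero_le_one le_rfl
        have xay : x s(a, y) = p := by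
          rw [hx, Function.update_of_ne (s_ne (Or.inl hva.symm) (Or.inr hvy.symm))]
          exact gw_mk _ _ _ _ (hcase y hvy.symm hya)
        have s1 : R x ≤ R (Function.update (Function.update x s(a, y) 0) s(y, z) p) := by
          apply step_ctx v a y z p hp0 hp1 hva hvy hya.symm hvz hza.symm hyz x hx01
          · rw [hx, Function.update_self]
          · rw [hx, Function.update_of_ne (s_ne (Or.inr hya) (Or.inl hva))]
            exact gw_mk' _ _ _ _ hvy'
          · rw [hx, Function.update_of_ne (s_ne (Or.inl hvy.symm) (Or.inl hya))]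
            exact gw_mk' _ _ _ _ hnyz
          · exact xay
          · intro t t1 t2 t3 t4
            rw [hx, Function.update_of_ne (s_ne (Or.inl hvz.symm) (Or.inl hza)),
              Function.update_of_ne (s_ne (Or.inl hva.symm) (Or.inr t3)),
              gw_mk _ _ _ _ (hcase t t3 t1)]
            exact gw_le G p hp0 _
        set x2 := Function.update (Function.update x s(a, y) 0) s(y, z) p with hx2
        have s2 : R x2 ≤ R (Function.update (Function.update x2 s(a, y) p) s(v, u) 0) := by
          apply step_sp v a y u p hp0 hp1 hva hvy hya.symm hvu' hau hyu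
          · exact upd_mem _ (upd_mem x hx01 _ _ le_rfl zero_le_one) _ _ hp0 hp1
          · rw [hx2, Function.update_of_ne (s_ne (Or.inl hvy) (Or.inl hvz)),
              Function.update_of_ne (s_ne (Or.inl hva) (Or.inl hvy)), hx, Function.update_self]
          · rw [hx2, Function.update_of_ne (s_ne (Or.inl hvy) (Or.inl hvz)),
              Function.update_of_ne (s_ne (Or.inl hva) (Or.inl hvy)), hx,
              Function.update_of_ne (s_ne (Or.inr hya) (Or.inl hva))]
            exact gw_mk' _ _ _ _ hvy'
          · rw [hx2, Function.update_of_ne (s_ne (Or.inl hya.symm) (Or.inl hza.symm)),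
              Function.update_self]
          · rw [hx2, Function.update_of_ne (s_ne (Or.inl hvy) (Or.inl hvz)),
              Function.update_of_ne (s_ne (Or.inl hva) (Or.inl hvy)), hx,
              Function.update_of_ne (s_ne (Or.inr hau.symm) (Or.inl hva))]
            exact gw_mk _ _ _ _ hvu
          · rw [hx2, Function.update_of_ne (s_ne (Or.inl hya.symm) (Or.inl hza.symm)),
              Function.update_of_ne (s_ne (Or.inr hyu.symm) (Or.inl hya.symm)), hx,
              Function.update_of_ne (s_ne (Or.inl hva.symm) (Or.inr hvu'.symm))]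
            exact gw_mk _ _ _ _ (hdom u hvu a hau).symm
          · intro t t1 t2 t3 t4
            have r1 : x2 s(u, t) = p := by
              rw [hx2, Function.update_of_ne (s_ne (Or.inl hyu.symm) (Or.inl hzu.symm)),
                Function.update_of_ne (s_ne (Or.inl hau.symm) (Or.inl hyu.symm)), hx,
                Function.update_of_ne (s_ne (Or.inl hvu'.symm) (Or.inl hau.symm))]
              exact gw_mk _ _ _ _ (hdom u hvu t t1)
            rw [r1]
            by_cases htz : t = z
            · subst htz
              rw [hx2, Function.update_self]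
            · rw [hx2, Function.update_of_ne (s_ne (Or.inr htz) (Or.inl hyz)),
                Function.update_of_ne (s_ne (Or.inl hya) (Or.inr t4)), hx,
                Function.update_of_ne (s_ne (Or.inl hvy.symm) (Or.inl hya))]
              exact gw_le G p hp0 _
        have e3 : Function.update (Function.update x2 s(a, y) p) s(v, u) 0 =
            Function.update (Function.update x s(y, z) p) s(v, u) 0 := by
          congr 1
          rw [hx2, Function.update_comm (s_ne (Or.inl hya) (Or.inr hza)),
            Function.update_idem]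
          rw [← xay, Function.update_eq_self]
        rw [← e3]
        exact s1.trans s2

end Pool.Agent.Helper291.RelDense
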