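import Mathlib
import Pool.Agent.Helper291.RelCore
import Pool.Agent.Helper291.RelTwo

set_option autoImplicit false

namespace Pool.Agent.Helper291.RelGain

open Finset Pool.Agent.Helper291.RelCore Pool.Agent.Helper291.RelTwo

set_option linter.unusedSectionVars false

variable {V : Type*} [Fintype V] [DecidableEq V]

theorem pm (q : ℝ) (h0 : 0 ≤ q) (h1 : q ≤ 1) (m : ℕ) : ((1 + q) / 2) ^ m ≤ (1 + q ^ m) / 2 := by
  induction m with
  | zero => norm_num
  | succ m ih =>
    rw [pow_succ]
    have hq : 0 ≤ (1 + q) / 2 := by linarith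
    have h2 : q ^ m ≤ 1 := pow_le_one₀ h0 h1
    calc ((1 + q) / 2) ^ m * ((1 + q) / 2) ≤ (1 + q ^ m) / 2 * ((1 + q) / 2) :=
          mul_le_mul_of_nonneg_right ih hq
      _ ≤ (1 + q ^ (m + 1)) / 2 := by
          rw [pow_succ]
          nlinarith [mul_nonneg (sub_nonneg.2 h1) (sub_nonneg.2 h2)]

theorem theta_pow (q : ℝ) (h0 : 0 ≤ q) (h1 : q ≤ 1) (m : ℕ) :
    2 * q ^ m ≤ (2 * q / (1 + q)) ^ m * (1 + q ^ m) := by
  have hp := pm q h0 h1 m
  have hpos : 0 < (1 + q) / 2 := by linarith
  have hpos' : 0 < ((1 + q) / 2) ^ m := pow_pos hpos m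
  have e : (2 * q / (1 + q)) ^ m = q ^ m / ((1 + q) / 2) ^ m := by
    rw [← div_pow]; congr 1; field_simp
  rw [e, div_mul_eq_mul_div, le_div_iff₀ hpos']
  have hqm : 0 ≤ q ^ m := pow_nonneg h0 m
  nlinarith [mul_le_mul_of_nonneg_left hp hqm]

theorem block (q : ℝ) (h0 : 0 ≤ q) (h1 : q ≤ 1) (m : ℕ) (a b : ℝ) (a0 : 0 ≤ a) (b0 : 0 ≤ b)
    (ha : a ≤ q ^ m) (hb : b ≤ q ^ m) :
    a + b - 2 * (a * b) ≤ (2 * q / (1 + q)) ^ m * (1 - a * b) := by
  have ht := theta_pow q h0 h1 m
  set Q := q ^ m with hQ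
  set τ := (2 * q / (1 + q)) ^ m with hτ
  have hQ0 : 0 ≤ Q := pow_nonneg h0 m
  have hQ1 : Q ≤ 1 := pow_le_one₀ h0 h1
  have hab : 0 ≤ 1 - a * b := by
    have : a * b ≤ 1 * 1 := mul_le_mul (ha.trans hQ1) (hb.trans hQ1) b0 zero_le_one
    linarith
  have key : (1 + Q) * (a + b - 2 * (a * b)) ≤ 2 * Q * (1 - a * b) := by
    rcases le_total a b with h | h
    · nlinarith [mul_nonneg (sub_nonneg.2 hb) (sub_nonneg.2 (ha.trans hQ1)),
        mul_nonneg (sub_nonneg.2 hQ1) (sub_nonneg.2 h)]
    · nlinarith [mul_nonneg (sub_nonneg.2 ha) (sub_nonneg.2 (hb.trans hQ1)),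
        mul_nonneg (sub_nonneg.2 hQ1) (sub_nonneg.2 h)]
  have h2 : 2 * Q * (1 - a * b) ≤ τ * (1 + Q) * (1 - a * b) := mul_le_mul_of_nonneg_right ht hab
  have h3 : 0 < 1 + Q := by linarith
  have h4 : (1 + Q) * (a + b - 2 * (a * b)) ≤ (1 + Q) * (τ * (1 - a * b)) := by
    calc _ ≤ _ := key
      _ ≤ _ := h2
      _ = _ := by ring
  exact le_of_mul_le_mul_left h4 h3

theorem iso_comp (Γ : SimpleGraph V) (h u : V) (H : ∀ a b, Γ.Adj a b → a ≠ h)
    (hu : Γ.connectedComponentMk u = Γ.connectedComponentMk h) : u = h := by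
  have hr : Γ.Reachable h u := (SimpleGraph.ConnectedComponent.exact hu).symm
  obtain ⟨p⟩ := hr
  cases p with
  | nil => rfl
  | cons hadj _ => exact absurd rfl (H _ _ hadj)

theorem bl_update (Γ : SimpleGraph V) (h z : V) (c : Γ.ConnectedComponent) (hc : c ∈ CC Γ h z)
    (v : V) (hv : v = h ∨ v = z) (x : Sym2 V → ℝ) (t : ℝ) :
    bl Γ v c (Function.update x s(h, z) t) = bl Γ v c x := by
  have : Ind (bl Γ v c) s(h, z) := by
    apply bl_ind
    intro w hw heq
    rcases hv with rfl | rfl
    · rcases Sym2.eq_iff.1 heq with ⟨_, h2⟩ | ⟨h1, h2⟩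
      · rw [h2] at hw; exact (mem_CC.1 hc).2 hw.symm
      · rw [h2] at hw; exact (mem_CC.1 hc).1 hw.symm
    · rcases Sym2.eq_iff.1 heq with ⟨_, h2⟩ | ⟨h1, h2⟩
      · rw [h2] at hw; exact (mem_CC.1 hc).2 hw.symm
      · rw [h2] at hw; exact (mem_CC.1 hc).1 hw.symm
  exact this x t

theorem gain (h z : V) (hz : h ≠ z) (x : Sym2 V → ℝ) (hx : ∀ e, 0 ≤ x e ∧ x e ≤ 1)
    (hhz : x s(h, z) = 0) (U : Finset V) (hUh : h ∉ U) (hUz : z ∉ U) (q : ℝ) (h0 : 0 ≤ q)
    (h1 : q ≤ 1) (hU : ∀ u ∈ U, 1 - x s(h, u) ≤ q ∧ 1 - x s(z, u) ≤ q) :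
    (1 - (2 * q / (1 + q)) ^ U.card) * R (Function.update x s(h, z) 1) ≤ R x := by
  classical
  have := compare (univ : Finset Bool) (fun b => if b then 1 else (2 * q / (1 + q)) ^ U.card - 1)
    (fun b => if b then x else Function.update x s(h, z) 1) h z hz x hx (by
      intro b _ e he1 he2
      cases b
      · simp only [Bool.false_eq_true, ↓reduceIte]
        rw [Function.update_of_ne]
        rintro rfl
        simp at he1
      · simp) (by
      intro Γ hΓ
      simp only [Fintype.univ_bool, mem_singleton, Bool.true_eq_false, not_false_eq_true,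
        sum_insert, ↓reduceIte, sum_singleton, Bool.false_eq_true, one_mul]
      set X := Function.update x s(h, z) 1 with hX
      have hbl : ∀ c ∈ CC Γ h z, ∀ v, (v = h ∨ v = z) → bl Γ v c X = bl Γ v c x := by
        intro c hc v hv
        exact bl_update Γ h z c hc v hv x 1
      have hP1 : P1 Γ h z X = P1 Γ h z x := by
        unfold P1
        exact Finset.prod_congr rfl (fun c hc => by
          rw [hbl c hc h (Or.inl rfl), hbl c hc z (Or.inr rfl)])
      have e1 : Psi Γ h z X = P1 Γ h z x := by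
        unfold Psi
        rw [hP1, hX, Function.update_self]; ring
      have e2 : Psi Γ h z x = P1 Γ h z x - P2 Γ h z x := by
        unfold Psi; rw [hhz]; ring
      rw [e1, e2]
      have hDc : ∀ c ∈ CC Γ h z, ∀ v, (v = h ∨ v = z) →
          bl Γ v c x ≤ q ^ (U.filter (fun u => Γ.connectedComponentMk u = c)).card := by
        intro c hc v hv
        unfold bl
        have hsub : U.filter (fun u => Γ.connectedComponentMk u = c) ⊆
            univ.filter (fun w => Γ.connectedComponentMk w = c) := by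
          intro w hw
          simp only [mem_filter, mem_univ, true_and] at hw ⊢
          exact hw.2
        rw [← Finset.prod_sdiff hsub]
        have p1 : (∏ w ∈ univ.filter (fun w => Γ.connectedComponentMk w = c) \
            U.filter (fun u => Γ.connectedComponentMk u = c), (1 - x s(v, w))) ≤ 1 :=
          Finset.prod_le_one (fun w _ => sub_nonneg.2 (hx _).2)
            (fun w _ => by linarith [(hx s(v, w)).1])
        have p2 : (∏ w ∈ U.filter (fun u => Γ.connectedComponentMk u = c), (1 - x s(v, w))) ≤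
            q ^ (U.filter (fun u => Γ.connectedComponentMk u = c)).card := by
          rw [← Finset.prod_const]
          apply Finset.prod_le_prod
          · intro w _; exact sub_nonneg.2 (hx _).2
          · intro w hw
            have hwU := (mem_filter.1 hw).1
            rcases hv with rfl | rfl
            · exact (hU w hwU).1
            · exact (hU w hwU).2
        have p3 : 0 ≤ (∏ w ∈ U.filter (fun u => Γ.connectedComponentMk u = c), (1 - x s(v, w))) :=
          Finset.prod_nonneg (fun w _ => sub_nonneg.2 (hx _).2)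
        calc _ ≤ 1 * (∏ w ∈ U.filter (fun u => Γ.connectedComponentMk u = c), (1 - x s(v, w))) :=
              mul_le_mul_of_nonneg_right p1 p3
          _ ≤ _ := by rw [one_mul]; exact p2
      have hcard : U.card = ∑ c ∈ CC Γ h z,
          (U.filter (fun u => Γ.connectedComponentMk u = c)).card := by
        apply Finset.card_eq_sum_card_fiberwise
        intro u hu
        have hu' : u ∈ U := hu
        apply mem_CC.2
        constructor
        · intro hh
          exact hUh (iso_comp Γ h u (fun a b hab => (hΓ a b hab).1) hh ▸ hu')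
        · intro hh
          exact hUz (iso_comp Γ z u (fun a b hab => (hΓ a b hab).2.1) hh ▸ hu')
      have hP2 : P2 Γ h z x ≤ (2 * q / (1 + q)) ^ U.card * P1 Γ h z x := by
        rw [hcard, ← Finset.prod_pow_eq_pow_sum]
        unfold P1 P2
        rw [← Finset.prod_mul_distrib]
        apply Finset.prod_le_prod
        · intro c _
          have a0 := bl_nonneg Γ h c x hx
          have a1 := bl_le_one Γ h c x hx
          have b0 := bl_nonneg Γ z c x hx
          have b1 := bl_le_one Γ z c x hx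
          nlinarith [mul_nonneg a0 (sub_nonneg.2 b1), mul_nonneg b0 (sub_nonneg.2 a1)]
        · intro c hc
          exact block q h0 h1 _ _ _ (bl_nonneg Γ h c x hx) (bl_nonneg Γ z c x hx)
            (hDc c hc h (Or.inl rfl)) (hDc c hc z (Or.inr rfl))
      linarith)
  simp only [Fintype.univ_bool, mem_singleton, Bool.true_eq_false, not_false_eq_true,
        sum_insert, ↓reduceIte, sum_singleton, Bool.false_eq_true, one_mul] at this
  linarith

/-- gain in terms of adding the edge with probability `1 - q` -/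
theorem gain' (h z : V) (hz : h ≠ z) (x : Sym2 V → ℝ) (hx : ∀ e, 0 ≤ x e ∧ x e ≤ 1)
    (hhz : x s(h, z) = 0) (U : Finset V) (hUh : h ∉ U) (hUz : z ∉ U) (hU1 : 1 ≤ U.card)
    (q : ℝ) (h0 : 0 ≤ q)
    (h1 : q < 1) (hU : ∀ u ∈ U, 1 - x s(h, u) ≤ q ∧ 1 - x s(z, u) ≤ q) :
    R (Function.update x s(h, z) (1 - q)) ≤
      (q + (1 - q) / (1 - (2 * q / (1 + q)) ^ U.card)) * R x := by
  have hg := gain h z hz x hx hhz U hUh hUz q h0 h1.le hU
  have hma := R_ma s(h, z) (Function.update x s(h, z) (1 - q))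
  rw [Function.update_self, Function.update_idem, Function.update_idem] at hma
  have hx0 : Function.update x s(h, z) 0 = x := by rw [← hhz, Function.update_eq_self]
  rw [hx0] at hma
  rw [hma]
  have hth1 : 2 * q / (1 + q) < 1 := by rw [div_lt_one (by linarith)]; linarith
  have hth0 : 0 ≤ 2 * q / (1 + q) := by positivity
  have hpos : 0 < 1 - (2 * q / (1 + q)) ^ U.card := by
    have : (2 * q / (1 + q)) ^ U.card < 1 := pow_lt_one₀ hth0 hth1 (by omega)
    linarith
  have h2 : R (Function.update x s(h, z) 1) ≤ R x / (1 - (2 * q / (1 + q)) ^ U.card) := by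
    rw [le_div_iff₀ hpos]; linarith
  have h3 : (1 - q) * R (Function.update x s(h, z) 1) ≤
      (1 - q) * (R x / (1 - (2 * q / (1 + q)) ^ U.card)) :=
    mul_le_mul_of_nonneg_left h2 (by linarith)
  have e : (q + (1 - q) / (1 - (2 * q / (1 + q)) ^ U.card)) * R x =
      (1 - q) * (R x / (1 - (2 * q / (1 + q)) ^ U.card)) + q * R x := by ring
  rw [e]
  linarith

end Pool.Agent.Helper291.RelGain
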