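import Mathlib

set_option autoImplicit false

namespace Pool.Agent.Helper291.RelA

open Finset

theorem kform (d : ℕ) (hd : 1 ≤ d) (q : ℝ) (h0 : 0 ≤ q) (h1 : q < 1) :
    q + (1 - q) / (1 - (2 * q / (1 + q)) ^ d) =
      1 + 2 * q * (2 * q / (1 + q)) ^ (d - 1) / ∑ i ∈ range d, (2 * q / (1 + q)) ^ i := by
  have hq : 0 < 1 + q := by linarith
  obtain ⟨y, hy⟩ : ∃ y, y = 2 * q / (1 + q) := ⟨_, rfl⟩
  have hy0 : 0 ≤ y := by rw [hy]; positivity
  have hyq : (1 + q) * y = 2 * q := by rw [hy]; field_simp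
  have hS : 0 < ∑ i ∈ range d, y ^ i := by
    have : y ^ 0 ≤ ∑ i ∈ range d, y ^ i :=
      single_le_sum (f := fun i => y ^ i) (fun i _ => pow_nonneg hy0 i) (mem_range.2 hd)
    rw [pow_zero] at this
    linarith
  rw [← hy]
  set S := ∑ i ∈ range d, y ^ i with hSdef
  have hgeo : (1 - y) * S = 1 - y ^ d := mul_neg_geom_sum y d
  have hy1 : (1 + q) * (1 - y) = 1 - q := by linarith
  have h1q : 0 < 1 - q := by linarith
  have hpos : 0 < 1 - y ^ d := by
    rw [← hgeo]
    have : 0 < 1 - y := by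
      by_contra hc
      push Not at hc
      have := mul_nonpos_of_nonneg_of_nonpos hq.le hc
      linarith
    positivity
  have hyd : y ^ d = y ^ (d - 1) * y := by
    rw [← pow_succ]
    congr 1
    omega
  rw [← sub_eq_zero]
  have e : (1 - q) / (1 - y ^ d) = (1 + q) / S := by
    rw [div_eq_div_iff hpos.ne' hS.ne', ← hgeo, ← hy1]
    ring
  rw [e]
  field_simp
  have e2 : (1 - q) * S = (1 + q) * (1 - y ^ d) := by
    rw [← hgeo, ← hy1]
    ring
  have e3 : (1 + q) * y ^ d = 2 * q * y ^ (d - 1) := by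
    rw [hyd, ← hyq]
    ring
  linarith

theorem kbound (d m : ℕ) (hd : 1 ≤ d) (hm : m ≤ d - 1) (q : ℝ) (h0 : 0 ≤ q) (h1 : q < 1)
    (hS : (d : ℝ) * (2 * q / (1 + q)) ^ m ≤ ∑ i ∈ range d, (2 * q / (1 + q)) ^ i) :
    q + (1 - q) / (1 - (2 * q / (1 + q)) ^ d) ≤
      1 + 2 / d * q * (2 * q / (1 + q)) ^ (d - 1 - m) := by
  rw [kform d hd q h0 h1]
  have hq : 0 < 1 + q := by linarith
  obtain ⟨y, hy⟩ : ∃ y, y = 2 * q / (1 + q) := ⟨_, rfl⟩
  have hy0 : 0 ≤ y := by rw [hy]; positivity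
  rw [← hy] at hS ⊢
  have hSpos : 0 < ∑ i ∈ range d, y ^ i := by
    have : y ^ 0 ≤ ∑ i ∈ range d, y ^ i :=
      single_le_sum (f := fun i => y ^ i) (fun i _ => pow_nonneg hy0 i) (mem_range.2 hd)
    rw [pow_zero] at this
    linarith
  have hd0 : (0 : ℝ) < d := by exact_mod_cast hd
  have hsplit : y ^ (d - 1) = y ^ (d - 1 - m) * y ^ m := by
    rw [← pow_add]
    congr 1
    omega
  apply add_le_add_right
  rw [div_le_iff₀ hSpos, hsplit]
  have h2 : 2 / (d : ℝ) * q * y ^ (d - 1 - m) * (d * y ^ m) ≤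
      2 / (d : ℝ) * q * y ^ (d - 1 - m) * ∑ i ∈ range d, y ^ i :=
    mul_le_mul_of_nonneg_left hS (by positivity)
  refine le_trans (le_of_eq ?_) h2
  field_simp

theorem geo_bound (y : ℝ) (h0 : 0 ≤ y) (h1 : y ≤ 1) (n : ℕ) :
    ((n + 5 : ℕ) : ℝ) * y ^ (n + 2) ≤ ∑ i ∈ range (n + 5), y ^ i := by
  induction n with
  | zero =>
    simp only [sum_range_succ, range_zero, sum_empty]
    norm_num
    nlinarith [sq_nonneg (y ^ 2 - 1), mul_nonneg h0 (sq_nonneg (y - 1))]
  | succ n ih =>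
    rw [show n + 1 + 5 = (n + 5) + 1 by ring, geom_sum_succ]
    have h2 := mul_le_mul_of_nonneg_left ih h0
    have h3 : y ^ (n + 1 + 2) ≤ 1 := pow_le_one₀ h0 h1
    have h4 : y * (((n + 5 : ℕ) : ℝ) * y ^ (n + 2)) = ((n + 5 : ℕ) : ℝ) * y ^ (n + 1 + 2) := by
      ring
    rw [h4] at h2
    push_cast at h2 ⊢
    linarith

theorem exp_bound8 (q : ℝ) (h0 : 0 ≤ q) (h1 : q ≤ 1) :
    Real.exp (2 * q ^ 2) ≤ ∑ i ∈ range 8, q ^ i := by
  have hs0 : 0 ≤ q ^ 2 := by positivity
  have hs1 : q ^ 2 ≤ 1 := pow_le_one₀ h0 h1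
  have h := Real.exp_bound' hs0 hs1 (n := 4) (by norm_num)
  have e : Real.exp (2 * q ^ 2) = Real.exp (q ^ 2) ^ 2 := by
    rw [← Real.exp_nat_mul]
    norm_num
  rw [e]
  have h2 : Real.exp (q ^ 2) ≤ 1 + q ^ 2 + q ^ 4 / 2 + q ^ 6 / 6 + q ^ 8 * (5 / 96) := by
    refine h.trans (le_of_eq ?_)
    simp only [sum_range_succ, range_zero, sum_empty, Nat.factorial]
    push_cast
    ring
  refine (pow_le_pow_left₀ (Real.exp_pos _).le h2 2).trans ?_
  simp only [sum_range_succ, range_zero, sum_empty]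
  have hp : ∀ a b : ℕ, a ≤ b → q ^ b ≤ q ^ a := fun a b hab => pow_le_pow_of_le_one h0 h1 hab
  have a1 := hp 1 2 (by norm_num)
  have a2 := hp 3 4 (by norm_num)
  have a3 := hp 5 6 (by norm_num)
  have a4 := hp 7 8 (by norm_num)
  have a5 := hp 7 10 (by norm_num)
  have a6 := hp 7 12 (by norm_num)
  have a7 := hp 7 14 (by norm_num)
  have a8 := hp 7 16 (by norm_num)
  have a9 := hp 5 7 (by norm_num)
  nlinarith [a1, a2, a3, a4, a5, a6, a7, a8, a9]

/-- target: purely real inequality -/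
theorem kappa_le (d : ℕ) (hd : 1 ≤ d) (q : ℝ) (h0 : 0 ≤ q) (h1 : q < 1) :
    (q + (1 - q) / (1 - (2 * q / (1 + q)) ^ d)) ^ (d - 1) ≤ ∑ i ∈ Finset.range d, q ^ i := by
  have hq : 0 < 1 + q := by linarith
  have hy0 : 0 ≤ 2 * q / (1 + q) := by positivity
  have hy1 : 2 * q / (1 + q) ≤ 1 := by
    rw [div_le_one hq]
    linarith
  have hk0 : 0 ≤ q + (1 - q) / (1 - (2 * q / (1 + q)) ^ d) := by
    have : (2 * q / (1 + q)) ^ d ≤ 1 := pow_le_one₀ hy0 hy1
    have : 0 ≤ (1 - q) / (1 - (2 * q / (1 + q)) ^ d) :=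
      div_nonneg (by linarith) (by linarith)
    linarith
  have hp : ∀ a b : ℕ, a ≤ b → q ^ b ≤ q ^ a :=
    fun a b hab => pow_le_pow_of_le_one h0 h1.le hab
  rcases Nat.lt_or_ge d 5 with hd5 | hd5
  · interval_cases d
    · simp
    · have h := kbound 2 1 (by norm_num) (by norm_num) q h0 h1 (by
        simp only [sum_range_succ, range_zero, sum_empty]
        norm_num
        linarith)
      simp only [sum_range_succ, range_zero, sum_empty]
      norm_num at h ⊢
      linarith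
    · have h := kbound 3 1 (by norm_num) (by norm_num) q h0 h1 (by
        simp only [sum_range_succ, range_zero, sum_empty]
        norm_num
        nlinarith [sq_nonneg (2 * q / (1 + q) - 1)])
      refine (pow_le_pow_left₀ hk0 h _).trans ?_
      simp only [sum_range_succ, range_zero, sum_empty]
      norm_num
      have e : (1 + 2 / 3 * q * (2 * q / (1 + q))) = (3 + 3 * q + 4 * q ^ 2) / (3 * (1 + q)) := by
        field_simp
        ring
      rw [e, div_pow, div_le_iff₀ (by positivity)]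
      nlinarith [hp 1 4 (by norm_num), hp 1 2 (by norm_num), hp 2 4 (by norm_num),
        hp 3 4 (by norm_num)]
    · have h := kbound 4 2 (by norm_num) (by norm_num) q h0 h1 (by
        simp only [sum_range_succ, range_zero, sum_empty]
        norm_num
        nlinarith [mul_nonneg (sub_nonneg.2 hy1) (by nlinarith :
          0 ≤ 1 + 2 * (2 * q / (1 + q)) - (2 * q / (1 + q)) ^ 2)])
      refine (pow_le_pow_left₀ hk0 h _).trans ?_
      simp only [sum_range_succ, range_zero, sum_empty]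
      norm_num
      have e : (1 + 1 / 2 * q * (2 * q / (1 + q))) = (1 + q + q ^ 2) / (1 + q) := by
        field_simp
      rw [e, div_pow, div_le_iff₀ (by positivity)]
      have : 0 ≤ q + q ^ 2 + q ^ 3 + q ^ 4 + q ^ 5 := by positivity
      nlinarith [this]
  · obtain ⟨n, rfl⟩ : ∃ n, d = n + 5 := ⟨d - 5, by omega⟩
    have h := kbound (n + 5) (n + 2) (by omega) (by omega) q h0 h1 (geo_bound _ hy0 hy1 n)
    rw [show n + 5 - 1 - (n + 2) = 2 by omega] at h
    have hy2 : (2 * q / (1 + q)) ^ 2 ≤ q := by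
      rw [div_pow, div_le_iff₀ (by positivity)]
      nlinarith [mul_nonneg h0 (sq_nonneg (q - 1))]
    have hn : (0 : ℝ) < ((n + 5 : ℕ) : ℝ) := by positivity
    have h2 : q + (1 - q) / (1 - (2 * q / (1 + q)) ^ (n + 5)) ≤
        1 + 2 / ((n + 5 : ℕ) : ℝ) * q ^ 2 := by
      refine h.trans ?_
      have : 2 / ((n + 5 : ℕ) : ℝ) * q * (2 * q / (1 + q)) ^ 2 ≤
          2 / ((n + 5 : ℕ) : ℝ) * q * q := mul_le_mul_of_nonneg_left hy2 (by positivity)
      rw [pow_two q, ← mul_assoc]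
      linarith
    refine (pow_le_pow_left₀ hk0 h2 _).trans ?_
    rcases Nat.lt_or_ge n 3 with hn3 | hn3
    · interval_cases n
      · simp only [sum_range_succ, range_zero, sum_empty]
        norm_num
        nlinarith [hp 1 2 (by norm_num), hp 3 6 (by norm_num), hp 3 8 (by norm_num),
          pow_nonneg h0 4, pow_nonneg h0 3]
      · simp only [sum_range_succ, range_zero, sum_empty]
        norm_num
        nlinarith [hp 1 2 (by norm_num), hp 3 4 (by norm_num), hp 5 6 (by norm_num),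
          hp 5 8 (by norm_num), hp 5 10 (by norm_num), pow_nonneg h0 4, pow_nonneg h0 3,
          pow_nonneg h0 5]
      · simp only [sum_range_succ, range_zero, sum_empty]
        norm_num
        nlinarith [hp 1 2 (by norm_num), hp 3 4 (by norm_num), hp 5 6 (by norm_num),
          hp 5 8 (by norm_num), hp 5 10 (by norm_num), hp 5 12 (by norm_num),
          pow_nonneg h0 4, pow_nonneg h0 3, pow_nonneg h0 5, pow_nonneg h0 6]
    · have h3 : 1 + 2 / ((n + 5 : ℕ) : ℝ) * q ^ 2 ≤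
          Real.exp (2 / ((n + 5 : ℕ) : ℝ) * q ^ 2) := by
        rw [add_comm]
        exact Real.add_one_le_exp _
      refine (pow_le_pow_left₀ (by positivity) h3 _).trans ?_
      rw [← Real.exp_nat_mul]
      have h4 : ((n + 5 - 1 : ℕ) : ℝ) * (2 / ((n + 5 : ℕ) : ℝ) * q ^ 2) ≤ 2 * q ^ 2 := by
        have h5 : ((n + 5 - 1 : ℕ) : ℝ) ≤ ((n + 5 : ℕ) : ℝ) := by
          exact_mod_cast Nat.sub_le _ _
        calc ((n + 5 - 1 : ℕ) : ℝ) * (2 / ((n + 5 : ℕ) : ℝ) * q ^ 2)
            ≤ ((n + 5 : ℕ) : ℝ) * (2 / ((n + 5 : ℕ) : ℝ) * q ^ 2) :=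
              mul_le_mul_of_nonneg_right h5 (by positivity)
          _ = 2 * q ^ 2 := by field_simp
      refine (Real.exp_le_exp.2 h4).trans ((exp_bound8 q h0 h1.le).trans ?_)
      apply sum_le_sum_of_subset_of_nonneg
      · intro i hi
        rw [mem_range] at hi ⊢
        omega
      · intro i _ _
        exact pow_nonneg h0 i

end Pool.Agent.Helper291.RelA
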