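import Mathlib
import Pool.Agent.Helper291.RelCore
import Pool.Agent.Helper291.RelTwo
import Pool.Agent.Helper291.RelVert
import Pool.Agent.Helper291.RelTrans
import Pool.Agent.Helper291.RelStep
import Pool.Agent.Helper291.RelNest
import Pool.Agent.Helper291.RelDense
import Pool.Agent.Helper291.RelGain
import Pool.Agent.Helper291.RelKappa

set_option autoImplicit false

namespace Pool.Agent.Helper291.RelMain

open Finset Pool.Agent.Helper291.RelCore Pool.Agent.Helper291.RelTwo
  Pool.Agent.Helper291.RelVert Pool.Agent.Helper291.RelTrans Pool.Agent.Helper291.RelStep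
  Pool.Agent.Helper291.RelDense Pool.Agent.Helper291.RelC

set_option linter.unusedSectionVars false

variable {V : Type*} [Fintype V] [DecidableEq V]

/-- Kelmans compression does not increase the reliability. -/
theorem kelmans (p : ℝ) (hp0 : 0 ≤ p) (hp1 : p ≤ 1) (G : SimpleGraph V) (u v : V) (huv : u ≠ v) :
    R (gw (compress G u v) p) ≤ R (gw G p) := by
  apply exchange v u huv.symm _ _ (gw_01 _ p hp0 hp1) (gw_01 _ p hp0 hp1)
  · intro e
    induction e using Sym2.ind with
    | _ x y =>
      intro h1 h2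
      simp only [Sym2.mem_iff, not_or] at h1 h2
      by_cases h : G.Adj x y
      · rw [gw_mk _ _ _ _ h, gw_mk]
        exact (comp_off G (Ne.symm h2.1) (Ne.symm h1.1) (Ne.symm h2.2) (Ne.symm h1.2)).2 h
      · rw [gw_mk' _ _ _ _ h, gw_mk']
        exact fun h' => h
          ((comp_off G (Ne.symm h2.1) (Ne.symm h1.1) (Ne.symm h2.2) (Ne.symm h1.2)).1 h')
  · rw [Sym2.eq_swap]
    by_cases h : G.Adj u v
    · rw [gw_mk _ _ _ _ h, gw_mk]; exact (comp_uv G huv).2 h
    · rw [gw_mk' _ _ _ _ h, gw_mk']; exact fun h' => h ((comp_uv G huv).1 h')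
  · intro w hwv hwu
    by_cases h1 : G.Adj u w
    · by_cases h2 : G.Adj v w
      · refine ⟨1, zero_le_one, le_rfl, ?_, ?_, ?_⟩
        · rw [gw_mk _ _ _ _ ((comp_v G huv hwu hwv).2 (Or.inl h1)), gw_mk _ _ _ _ h2]; ring
        · rw [gw_mk _ _ _ _ ((comp_u G huv hwu hwv).2 ⟨h1, h2⟩), gw_mk _ _ _ _ h1]; ring
        · rw [gw_mk _ _ _ _ ((comp_u G huv hwu hwv).2 ⟨h1, h2⟩), gw_mk _ _ _ _ h2]
      · refine ⟨1 - p, by linarith, by linarith, ?_, ?_, ?_⟩
        · rw [gw_mk _ _ _ _ ((comp_v G huv hwu hwv).2 (Or.inl h1)), gw_mk' _ _ _ _ h2]; ring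
        · rw [gw_mk' _ _ _ _ (fun h => h2 ((comp_u G huv hwu hwv).1 h).2), gw_mk _ _ _ _ h1]; ring
        · rw [gw_mk' _ _ _ _ (fun h => h2 ((comp_u G huv hwu hwv).1 h).2), gw_mk' _ _ _ _ h2]
    · by_cases h2 : G.Adj v w
      · refine ⟨1, zero_le_one, le_rfl, ?_, ?_, ?_⟩
        · rw [gw_mk _ _ _ _ ((comp_v G huv hwu hwv).2 (Or.inr h2)), gw_mk _ _ _ _ h2]; ring
        · rw [gw_mk' _ _ _ _ (fun h => h1 ((comp_u G huv hwu hwv).1 h).1), gw_mk' _ _ _ _ h1]; ring
        · rw [gw_mk' _ _ _ _ (fun h => h1 ((comp_u G huv hwu hwv).1 h).1), gw_mk _ _ _ _ h2]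
          linarith
      · refine ⟨1, zero_le_one, le_rfl, ?_, ?_, ?_⟩
        · rw [gw_mk' _ _ _ _ (fun h => ((comp_v G huv hwu hwv).1 h).elim h1 h2),
            gw_mk' _ _ _ _ h2]; ring
        · rw [gw_mk' _ _ _ _ (fun h => h1 ((comp_u G huv hwu hwv).1 h).1), gw_mk' _ _ _ _ h1]; ring
        · rw [gw_mk' _ _ _ _ (fun h => h1 ((comp_u G huv hwu hwv).1 h).1), gw_mk' _ _ _ _ h2]

theorem R_iso {W : Type*} [Fintype W] [DecidableEq W] (G : SimpleGraph V) (H : SimpleGraph W)
    (f : V ≃ W) (hf : ∀ a b, G.Adj a b ↔ H.Adj (f a) (f b)) (p : ℝ) :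
    R (gw G p) = R (gw H p) := by
  rw [← R_equiv f (gw H p)]
  congr 1
  funext e
  induction e using Sym2.ind with
  | _ x y =>
    rw [Function.comp_apply, Sym2.map_mk]
    by_cases h : G.Adj x y
    · rw [gw_mk _ _ _ _ h, gw_mk _ _ _ _ ((hf x y).1 h)]
    · rw [gw_mk' _ _ _ _ h, gw_mk' _ _ _ _ (fun h' => h ((hf x y).2 h'))]

theorem star_relabel {W : Type*} [Fintype W] [DecidableEq W] (v : V) (T : Finset V) (v' : W)
    (T' : Finset W) (hv : v ∉ T) (hv' : v' ∉ T') (hT : T.card = T'.card)
    (hc : Fintype.card V = Fintype.card W) (p : ℝ) :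
    R (gw (starC v T) p) = R (gw (starC v' T') p) := by
  classical
  let cl : V → Fin 3 := fun w => if w = v then 0 else if w ∈ T then 1 else 2
  let cl' : W → Fin 3 := fun w => if w = v' then 0 else if w ∈ T' then 1 else 2
  have hcard : ∀ i, Fintype.card {w // cl w = i} = Fintype.card {w // cl' w = i} := by
    have c0 : Fintype.card {w // cl w = 0} = 1 := by
      rw [Fintype.card_subtype]
      have : univ.filter (fun w => cl w = 0) = {v} := by
        ext w; simp only [cl, mem_filter, mem_univ, true_and, mem_singleton]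
        split_ifs <;> simp_all
      rw [this, card_singleton]
    have c0' : Fintype.card {w // cl' w = 0} = 1 := by
      rw [Fintype.card_subtype]
      have : univ.filter (fun w => cl' w = 0) = {v'} := by
        ext w; simp only [cl', mem_filter, mem_univ, true_and, mem_singleton]
        split_ifs <;> simp_all
      rw [this, card_singleton]
    have c1 : Fintype.card {w // cl w = 1} = T.card := by
      rw [Fintype.card_subtype]
      congr 1
      ext w; simp only [cl, mem_filter, mem_univ, true_and]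
      split_ifs with h1 h2 <;> simp_all
    have c1' : Fintype.card {w // cl' w = 1} = T'.card := by
      rw [Fintype.card_subtype]
      congr 1
      ext w; simp only [cl', mem_filter, mem_univ, true_and]
      split_ifs with h1 h2 <;> simp_all
    have tot : Fintype.card V = ∑ i, Fintype.card {w // cl w = i} := by
      rw [← Fintype.card_sigma]
      exact Fintype.card_congr (Equiv.sigmaFiberEquiv cl).symm
    have tot' : Fintype.card W = ∑ i, Fintype.card {w // cl' w = i} := by
      rw [← Fintype.card_sigma]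
      exact Fintype.card_congr (Equiv.sigmaFiberEquiv cl').symm
    rw [Fin.sum_univ_three] at tot tot'
    intro i
    fin_cases i
    · exact c0.trans c0'.symm
    · exact c1.trans (hT.trans c1'.symm)
    · simp only [Fin.reduceFinMk]
      omega
  let e : ∀ i, {w // cl w = i} ≃ {w // cl' w = i} := fun i => Fintype.equivOfCardEq (hcard i)
  let f : V ≃ W := (Equiv.sigmaFiberEquiv cl).symm.trans
    ((Equiv.sigmaCongrRight e).trans (Equiv.sigmaFiberEquiv cl'))
  have hf : ∀ w, cl' (f w) = cl w := by
    intro w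
    exact (e (cl w) ⟨w, rfl⟩).2
  have hfv : ∀ w, f w = v' ↔ w = v := by
    intro w
    have h1 : cl w = 0 ↔ w = v := by
      simp only [cl]; split_ifs <;> simp_all
    have h2 : cl' (f w) = 0 ↔ f w = v' := by
      simp only [cl']; split_ifs <;> simp_all
    rw [← h1, ← h2, hf]
  have hfT : ∀ w, f w ∈ T' ↔ w ∈ T := by
    intro w
    have h1 : cl w = 1 ↔ w ∈ T := by
      simp only [cl]; split_ifs with a b <;> simp_all
    have h2 : ∀ y, cl' y = 1 ↔ y ∈ T' := by
      intro y
      simp only [cl']; split_ifs with a b <;> simp_all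
    rw [← h1, ← h2, hf]
  apply R_iso _ _ f
  intro a b
  rw [starC_adj, starC_adj, hfv, hfv, hfT, hfT, f.injective.ne_iff]

open Classical in
/-- missing pairs -/
noncomputable def mt (G : SimpleGraph V) : Finset (Sym2 V) :=
  univ.filter (fun e => ¬ e.IsDiag ∧ e ∉ G.edgeSet)

theorem mem_mt {G : SimpleGraph V} {x y : V} : s(x, y) ∈ mt G ↔ x ≠ y ∧ ¬ G.Adj x y := by
  classical
  unfold mt
  simp only [mem_filter, mem_univ, true_and, Sym2.mk_isDiag_iff, SimpleGraph.mem_edgeSet, ne_eq]

theorem mt_card (G : SimpleGraph V) : (mt G).card + G.edgeSet.ncard =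
    (Fintype.card V).choose 2 := by
  classical
  have h1 : G.edgeSet.ncard = (univ.filter (fun e => e ∈ G.edgeSet) : Finset (Sym2 V)).card := by
    rw [← Set.ncard_coe_finset]
    congr 1
    ext e; simp
  have h2 : (univ.filter (fun e : Sym2 V => ¬ e.IsDiag)).card = (Fintype.card V).choose 2 := by
    rw [← Sym2.card_subtype_not_diag, Fintype.card_subtype]
  rw [h1, ← h2, ← Finset.card_union_of_disjoint]
  · congr 1
    ext e
    unfold mt
    simp only [mem_union, mem_filter, mem_univ, true_and]
    constructor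
    · rintro (h | h)
      · exact h.1
      · exact G.not_isDiag_of_mem_edgeSet h
    · intro h
      by_cases he : e ∈ G.edgeSet
      · exact Or.inr he
      · exact Or.inl ⟨h, he⟩
  · rw [Finset.disjoint_left]
    intro e h1 h2
    unfold mt at h1
    simp only [mem_filter, mem_univ, true_and] at h1 h2
    exact h1.2 h2

theorem mt_split (G : SimpleGraph V) (v : V) : (mt G).card = (ms G v).card + (nn G v).card := by
  classical
  have h : mt G = ms G v ∪ (nn G v).image (fun w => s(v, w)) := by
    ext e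
    induction e using Sym2.ind with
    | _ x y =>
      rw [mem_union, mem_mt, mem_ms, mem_image]
      constructor
      · rintro ⟨h1, h2⟩
        by_cases hx : v = x
        · subst hx
          right; exact ⟨y, mem_nn.2 ⟨h1.symm, h2⟩, rfl⟩
        · by_cases hy : v = y
          · subst hy
            right; exact ⟨x, mem_nn.2 ⟨h1, fun h => h2 h.symm⟩, Sym2.eq_swap⟩
          · left; exact ⟨h1, hx, hy, h2⟩
      · rintro (⟨h1, _, _, h4⟩ | ⟨w, hw, he⟩)
        · exact ⟨h1, h4⟩
        · rw [mem_nn] at hw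
          rcases Sym2.eq_iff.1 he with ⟨rfl, rfl⟩ | ⟨rfl, rfl⟩
          · exact ⟨hw.1.symm, hw.2⟩
          · exact ⟨hw.1, fun h => hw.2 h.symm⟩
  rw [h, Finset.card_union_of_disjoint, Finset.card_image_of_injOn]
  · intro a _ b _ hab
    simp only [] at hab
    rcases Sym2.eq_iff.1 hab with ⟨_, h2⟩ | ⟨h1, h2⟩
    · exact h2
    · exact h2.trans h1
  · rw [Finset.disjoint_left]
    intro e h1 h2
    rw [mem_image] at h2
    obtain ⟨w, _, rfl⟩ := h2
    rw [mem_ms] at h1
    exact h1.2.1 rfl

theorem nn_nbs (G : SimpleGraph V) (v : V) :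
    (nn G v).card + (nbs G v).card + 1 = Fintype.card V := by
  classical
  have h : (univ : Finset V) = insert v (nn G v ∪ nbs G v) := by
    ext w
    simp only [mem_univ, mem_insert, mem_union, mem_nn, mem_nbs, true_iff]
    by_cases hw : w = v
    · exact Or.inl hw
    · by_cases h : G.Adj v w
      · exact Or.inr (Or.inr h)
      · exact Or.inr (Or.inl ⟨hw, h⟩)
  have h1 : v ∉ nn G v ∪ nbs G v := by
    rw [mem_union, mem_nn, mem_nbs]
    rintro (h | h)
    · exact h.1 rfl
    · exact G.loopless.irrefl v h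
  have h2 : Disjoint (nn G v) (nbs G v) := by
    rw [Finset.disjoint_left]
    intro w h1 h2
    exact (mem_nn.1 h1).2 (mem_nbs.1 h2)
  have : Fintype.card V = (univ : Finset V).card := rfl
  rw [this, h, Finset.card_insert_of_notMem h1, Finset.card_union_of_disjoint h2]

/-- in a nested graph the neighbours of a vertex of minimum degree are dominating -/
theorem nested_dom (G : SimpleGraph V) (hN : Nested G) (v : V)
    (hmin : ∀ w, (nbs G v).card ≤ (nbs G w).card) :
    ∀ u, G.Adj v u → ∀ t, t ≠ u → G.Adj u t := by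
  classical
  intro u hvu t htu
  by_cases htv : t = v
  · subst htv; exact hvu.symm
  · rcases hN v t (Ne.symm htv) with h | h
    · exact (h u htu.symm hvu).symm
    · -- N(t) \ v ⊆ N(v) \ t, sizes equal
      have hsub : (nbs G t).erase v ⊆ (nbs G v).erase t := by
        intro w hw
        rw [mem_erase, mem_nbs] at hw ⊢
        exact ⟨hw.2.ne', h w hw.1 hw.2⟩
      have hcard : ((nbs G v).erase t).card ≤ ((nbs G t).erase v).card := by
        by_cases hvt : G.Adj v t
        · rw [Finset.card_erase_of_mem (mem_nbs.2 hvt), Finset.card_erase_of_mem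
            (mem_nbs.2 hvt.symm)]
          have := hmin t
          omega
        · rw [Finset.erase_eq_of_notMem (fun h => hvt (mem_nbs.1 h)),
            Finset.erase_eq_of_notMem (fun h => hvt (mem_nbs.1 h).symm)]
          exact hmin t
      have heq := Finset.eq_of_subset_of_card_le hsub hcard
      have : u ∈ (nbs G v).erase t := by
        rw [mem_erase, mem_nbs]; exact ⟨htu.symm, hvu⟩
      rw [← heq, mem_erase, mem_nbs] at this
      exact this.2.symm

theorem R_one (G : SimpleGraph V) (hG : G.Connected) : R (gw G 1) = 1 := by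
  rw [R_Tg _ (by intro e; unfold gw; split_ifs <;> simp)]
  have : Tg (gw G 1) = G := by
    ext x y
    rw [Tg_adj]
    by_cases h : G.Adj x y
    · rw [gw_mk _ _ _ _ h]; simp [h, h.ne]
    · rw [gw_mk' _ _ _ _ h]; simp [h]
  rw [this, if_pos hG]

theorem R_one_le (G : SimpleGraph V) : R (gw G 1) ≤ 1 := by
  rw [R_Tg _ (by intro e; unfold gw; split_ifs <;> simp)]
  split_ifs <;> norm_num

/-- `G` plus the pair `e` -/
def addE (G : SimpleGraph V) (e : Sym2 V) : SimpleGraph V where
  Adj x y := x ≠ y ∧ (G.Adj x y ∨ s(x, y) = e)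
  symm := ⟨fun x y h => by
    refine ⟨h.1.symm, ?_⟩
    rcases h.2 with h' | h'
    · exact Or.inl h'.symm
    · right; rw [Sym2.eq_swap]; exact h'⟩
  loopless := ⟨fun _ h => h.1 rfl⟩

theorem addE_adj (G : SimpleGraph V) (e : Sym2 V) (x y : V) :
    (addE G e).Adj x y ↔ x ≠ y ∧ (G.Adj x y ∨ s(x, y) = e) := Iff.rfl

theorem le_addE (G : SimpleGraph V) (e : Sym2 V) : G ≤ addE G e := by
  intro x y h
  exact ⟨h.ne, Or.inl h⟩

theorem gw_addE (G : SimpleGraph V) (p : ℝ) (e : Sym2 V) (he : ¬ e.IsDiag) :
    gw (addE G e) p = Function.update (gw G p) e p := by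
  funext e'
  induction e' using Sym2.ind with
  | _ x y =>
    by_cases h2 : s(x, y) = e
    · rw [h2, Function.update_self, ← h2]
      apply gw_mk
      refine ⟨?_, Or.inr rfl⟩
      rintro rfl
      apply he
      rw [← h2]
      exact Sym2.mk_isDiag_iff.2 rfl
    · rw [Function.update_of_ne h2]
      by_cases h3 : G.Adj x y
      · rw [gw_mk _ _ _ _ h3, gw_mk]
        exact ⟨h3.ne, Or.inl h3⟩
      · rw [gw_mk' _ _ _ _ h3, gw_mk']
        rintro ⟨_, h | h⟩
        · exact h3 h
        · exact h2 h

theorem mt_addE (G : SimpleGraph V) (e : Sym2 V) : mt (addE G e) = (mt G).erase e := by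
  ext e'
  induction e' using Sym2.ind with
  | _ x y =>
    rw [mem_erase, mem_mt, mem_mt, addE_adj]
    constructor
    · rintro ⟨h1, h2⟩
      exact ⟨fun h => h2 ⟨h1, Or.inr h⟩, h1, fun h => h2 ⟨h1, Or.inl h⟩⟩
    · rintro ⟨h0, h1, h2⟩
      refine ⟨h1, ?_⟩
      rintro ⟨_, h | h⟩
      · exact h2 h
      · exact h0 h

/-- conditioning on a missing edge -/
theorem cond_edge (G : SimpleGraph V) (p : ℝ) (a b : V) (hab : a ≠ b) (h : ¬ G.Adj a b) :
    R (gw (addE G s(a, b)) p) = p * R (Function.update (gw G p) s(a, b) 1) +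
      (1 - p) * R (gw G p) := by
  rw [gw_addE G p _ (by rw [Sym2.mk_isDiag_iff]; exact hab)]
  rw [R_ma s(a, b) (Function.update (gw G p) s(a, b) p), Function.update_self,
    Function.update_idem, Function.update_idem]
  congr 3
  rw [← gw_mk' G p a b h, Function.update_eq_self]

theorem dense (p : ℝ) (hp0 : 0 ≤ p) (hp1 : p ≤ 1) : ∀ (c : ℕ) (G : SimpleGraph V),
    G.Connected → (mt G).card = c → c + 2 ≤ Fintype.card V →
    ∀ (v : V) (T : Finset V), v ∉ T → T.card = c → R (gw (starC v T) p) ≤ R (gw G p) := by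
  classical
  intro c
  induction c with
  | zero =>
    intro G _ hG _ v T _ hT
    have h1 : G = starC v T := by
      ext x y
      rw [Finset.card_eq_zero] at hT hG
      rw [starC_adj, hT]
      constructor
      · intro h; exact ⟨h.ne, by simp, by simp⟩
      · rintro ⟨h, _, _⟩
        by_contra hcon
        have := mem_mt.2 ⟨h, hcon⟩
        rw [hG] at this
        exact absurd this (Finset.notMem_empty _)
    rw [← h1]
  | succ c ih =>
    intro G hGc hG hcard v T hv hT
    rcases eq_or_lt_of_le hp1 with rfl | hp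
    · rw [R_one G hGc]; exact R_one_le _
    obtain ⟨H, hHc, hHe, hHN, hHP⟩ := exists_nested (fun G => R (gw G p))
      (fun G u v huv => kelmans p hp0 hp1 G u v huv) G hGc
    refine le_trans ?_ hHP
    have hHm : (mt H).card = c + 1 := by
      have h1 := mt_card G
      have h2 := mt_card H
      omega
    obtain ⟨v0, _, hv0⟩ := Finset.exists_min_image (univ : Finset V) (fun w => (nbs H w).card)
      ⟨v, mem_univ v⟩
    have hdom := nested_dom H hHN v0 (fun w => hv0 w (mem_univ w))
    have hsplit := mt_split H v0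
    have hnn := nn_nbs H v0
    -- v0 has a non-neighbour
    have hne : (nn H v0).Nonempty := by
      by_contra hcon
      rw [Finset.not_nonempty_iff_eq_empty] at hcon
      have h0 : (nbs H v0).card + 1 = Fintype.card V := by
        rw [hcon] at hnn; simpa using hnn
      have : (ms H v0).card = 0 := by
        rw [Finset.card_eq_zero, Finset.eq_empty_iff_forall_notMem]
        intro e
        induction e using Sym2.ind with
        | _ x y =>
          intro he
          rw [mem_ms] at he
          have hx : x ∈ nn H v0 ∨ H.Adj v0 x := by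
            by_cases h : H.Adj v0 x
            · exact Or.inr h
            · exact Or.inl (mem_nn.2 ⟨he.2.1.symm, h⟩)
          rw [hcon] at hx
          rcases hx with hx | hx
          · exact absurd hx (Finset.notMem_empty _)
          · exact he.2.2.2 (hdom x hx y he.1.symm)
      rw [hcon] at hsplit
      simp at hsplit
      omega
    obtain ⟨a, ha⟩ := hne
    rw [mem_nn] at ha
    have hva : v0 ≠ a := ha.1.symm
    obtain ⟨T0, t1, t2, t3, t4⟩ := DS p hp0 hp1 v0 a hva (ms H v0).card H ha.2 hdom rfl (by omega)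
    have hT0 : T0.card = c + 1 := by rw [t3, ← hsplit, hHm]
    -- induction hypothesis
    have hadd := ih (addE H s(v0, a)) (hHc.mono (le_addE H _)) (by
      rw [mt_addE, Finset.card_erase_of_mem (mem_mt.2 ⟨hva, ha.2⟩), hHm]; rfl) (by omega)
      v0 (T0.erase a) (fun h => t1 (Finset.mem_of_mem_erase h)) (by
      rw [Finset.card_erase_of_mem t2, hT0]; rfl)
    have hstar : starC v0 (T0.erase a) = addE (starC v0 T0) s(v0, a) := by
      ext x y
      rw [addE_adj, starC_adj, starC_adj, mem_erase, mem_erase]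
      constructor
      · rintro ⟨h1, h2, h3⟩
        refine ⟨h1, ?_⟩
        by_cases hxy : s(x, y) = s(v0, a)
        · exact Or.inr hxy
        · left
          refine ⟨h1, ?_, ?_⟩
          · rintro ⟨rfl, hy⟩
            apply h2
            refine ⟨rfl, ?_, hy⟩
            rintro rfl; exact hxy rfl
          · rintro ⟨rfl, hx⟩
            apply h3
            refine ⟨rfl, ?_, hx⟩
            rintro rfl; exact hxy Sym2.eq_swap
      · rintro ⟨h1, ⟨_, h2, h3⟩ | h⟩
        · exact ⟨h1, fun h => h2 ⟨h.1, h.2.2⟩, fun h => h3 ⟨h.1, h.2.2⟩⟩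
        · rcases Sym2.eq_iff.1 h with ⟨rfl, rfl⟩ | ⟨rfl, rfl⟩
          · exact ⟨h1, by simp, fun h => h1.symm h.1⟩
          · exact ⟨h1, fun h => h1 h.1, by simp⟩
    have hsna : ¬ (starC v0 T0).Adj v0 a := by
      rw [starC_adj]; rintro ⟨_, h, _⟩; exact h ⟨rfl, t2⟩
    rw [hstar, cond_edge _ p v0 a hva hsna, cond_edge H p v0 a hva ha.2] at hadd
    have hfin : R (gw (starC v0 T0) p) ≤ R (gw H p) := by
      have h1 : p * R (Function.update (gw H p) s(v0, a) 1) ≤
          p * R (Function.update (gw (starC v0 T0) p) s(v0, a) 1) :=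
        mul_le_mul_of_nonneg_left t4 hp0
      have h2 : (1 - p) * R (gw (starC v0 T0) p) ≤ (1 - p) * R (gw H p) := by linarith
      exact le_of_mul_le_mul_left h2 (by linarith)
    rw [star_relabel v T v0 T0 hv t1 (hT.trans hT0.symm) rfl p]
    exact hfin

end Pool.Agent.Helper291.RelMain
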