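import Mathlib
import Pool.Agent.Helper291.RelMain

set_option autoImplicit false

namespace Pool.Agent.Helper291.RelFinal

open Finset Pool.Agent.Helper291.RelCore Pool.Agent.Helper291.RelTwo
  Pool.Agent.Helper291.RelVert Pool.Agent.Helper291.RelTrans Pool.Agent.Helper291.RelStep
  Pool.Agent.Helper291.RelDense Pool.Agent.Helper291.RelC Pool.Agent.Helper291.RelMain
  Pool.Agent.Helper291.RelGain

set_option linter.unusedSectionVars false

universe u

section

variable {V : Type u} [Fintype V] [DecidableEq V]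

/-- `G` plus the pairs in `F` -/
def addF (G : SimpleGraph V) (F : Finset (Sym2 V)) : SimpleGraph V where
  Adj x y := x ≠ y ∧ (G.Adj x y ∨ s(x, y) ∈ F)
  symm := ⟨fun x y h => by
    refine ⟨h.1.symm, ?_⟩
    rcases h.2 with h' | h'
    · exact Or.inl h'.symm
    · right; rw [Sym2.eq_swap]; exact h'⟩
  loopless := ⟨fun _ h => h.1 rfl⟩

theorem addF_adj (G : SimpleGraph V) (F : Finset (Sym2 V)) (x y : V) :
    (addF G F).Adj x y ↔ x ≠ y ∧ (G.Adj x y ∨ s(x, y) ∈ F) := Iff.rfl

theorem addF_insert (G : SimpleGraph V) (F : Finset (Sym2 V)) (e : Sym2 V) :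
    addF G (insert e F) = addE (addF G F) e := by
  ext x y
  rw [addF_adj, addE_adj, addF_adj, Finset.mem_insert]
  tauto

theorem mt_addF (G : SimpleGraph V) (F : Finset (Sym2 V)) : mt (addF G F) = mt G \ F := by
  ext e
  induction e using Sym2.ind with
  | _ x y =>
    rw [mem_sdiff, mem_mt, mem_mt, addF_adj]
    tauto

theorem add_edges (p : ℝ) (hp0 : 0 < p) (hp1 : p ≤ 1) (G : SimpleGraph V) (U : Finset V)
    (hU : ∀ u ∈ U, ∀ t, t ≠ u → G.Adj u t) (hUc : 1 ≤ U.card) (F : Finset (Sym2 V)) :
    F ⊆ mt G → R (gw (addF G F) p) ≤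
      ((1 - p) + (1 - (1 - p)) / (1 - (2 * (1 - p) / (1 + (1 - p))) ^ U.card)) ^ F.card *
        R (gw G p) := by
  classical
  set q := 1 - p with hq
  set κ := q + (1 - q) / (1 - (2 * q / (1 + q)) ^ U.card) with hκ
  have hq0 : 0 ≤ q := by linarith
  have hq1 : q < 1 := by linarith
  have hth1 : 2 * q / (1 + q) < 1 := by rw [div_lt_one (by linarith)]; linarith
  have hth0 : 0 ≤ 2 * q / (1 + q) := by positivity
  have hpos : 0 < 1 - (2 * q / (1 + q)) ^ U.card := by
    have : (2 * q / (1 + q)) ^ U.card < 1 := pow_lt_one₀ hth0 hth1 (by omega)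
    linarith
  have hκ0 : 0 ≤ κ := by
    have : 0 ≤ (1 - q) / (1 - (2 * q / (1 + q)) ^ U.card) := div_nonneg (by linarith) hpos.le
    linarith
  induction F using Finset.induction_on with
  | empty =>
    intro _
    have : addF G ∅ = G := by
      ext x y; rw [addF_adj]; simp only [Finset.notMem_empty, or_false]
      exact ⟨fun h => h.2, fun h => ⟨h.ne, h⟩⟩
    rw [this]; simp
  | insert e F he ih =>
    intro hF
    have hF' : F ⊆ mt G := fun x hx => hF (Finset.mem_insert_of_mem hx)
    have heM : e ∈ mt G := hF (Finset.mem_insert_self e F)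
    have ih' := ih hF'
    rw [addF_insert, Finset.card_insert_of_notMem he, pow_succ]
    induction e using Sym2.ind with
    | _ h z =>
      obtain ⟨hz, hnadj⟩ := mem_mt.1 heM
      rw [gw_addE _ _ _ (by rw [Sym2.mk_isDiag_iff]; exact hz)]
      have h0 : gw (addF G F) p s(h, z) = 0 := by
        apply gw_mk'
        rw [addF_adj]
        rintro ⟨_, h' | h'⟩
        · exact hnadj h'
        · exact he h'
      have hhU : h ∉ U := fun hh => hnadj (hU h hh z hz.symm)
      have hzU : z ∉ U := fun hh => hnadj (hU z hh h hz).symm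
      have hg := gain' h z hz (gw (addF G F) p) (gw_01 _ p hp0.le hp1) h0 U hhU hzU hUc q hq0 hq1
        (by
          intro u hu
          have a1 : (addF G F).Adj h u :=
            ⟨fun hh => hhU (hh ▸ hu), Or.inl (hU u hu h (fun hh => hhU (hh ▸ hu))).symm⟩
          have a2 : (addF G F).Adj z u :=
            ⟨fun hh => hzU (hh ▸ hu), Or.inl (hU u hu z (fun hh => hzU (hh ▸ hu))).symm⟩
          rw [gw_mk _ _ _ _ a1, gw_mk _ _ _ _ a2]
          exact ⟨le_rfl, le_rfl⟩)
      have e1 : (1 - q) = p := by rw [hq]; ring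
      rw [e1] at hg
      have e2 : κ = q + p / (1 - (2 * q / (1 + q)) ^ U.card) := by rw [hκ, e1]
      rw [← e2] at hg
      calc _ ≤ κ * R (gw (addF G F) p) := hg
        _ ≤ κ * (κ ^ F.card * R (gw G p)) := mul_le_mul_of_nonneg_left ih' hκ0
        _ = _ := by ring

/-- deletion of a vertex -/
def delV (G : SimpleGraph V) (v : V) : SimpleGraph {w : V // w ≠ v} := G.comap Subtype.val

theorem delV_adj (G : SimpleGraph V) (v : V) (a b : {w : V // w ≠ v}) :
    (delV G v).Adj a b ↔ G.Adj a.1 b.1 := Iff.rfl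

theorem rs_gw (G : SimpleGraph V) (v : V) (p : ℝ) : rs v (gw G p) = gw (delV G v) p := by
  funext e
  induction e using Sym2.ind with
  | _ x y =>
    unfold rs
    rw [Function.comp_apply, Sym2.map_mk]
    by_cases h : G.Adj x.1 y.1
    · rw [gw_mk _ _ _ _ h, gw_mk _ _ _ _ ((delV_adj G v x y).2 h)]
    · rw [gw_mk' _ _ _ _ h, gw_mk' _ _ _ _ (fun h' => h ((delV_adj G v x y).1 h'))]

theorem nb_gw (G : SimpleGraph V) (v : V) (p : ℝ) :
    nb v (gw G p) = 1 - (1 - p) ^ (nbs G v).card := by
  classical
  unfold nb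
  congr 1
  have hsub : nbs G v ⊆ univ.erase v := by
    intro w hw
    rw [mem_nbs] at hw
    exact Finset.mem_erase.2 ⟨hw.ne', mem_univ w⟩
  rw [← Finset.prod_sdiff hsub, Finset.prod_eq_one, one_mul, ← Finset.prod_const]
  · apply Finset.prod_congr rfl
    intro w hw
    rw [gw_mk _ _ _ _ (mem_nbs.1 hw)]
  · intro w hw
    rw [mem_sdiff, mem_nbs] at hw
    rw [gw_mk' _ _ _ _ hw.2]; ring

theorem card_sub (v : V) : Fintype.card {w : V // w ≠ v} + 1 = Fintype.card V := by
  have h := Fintype.card_subtype_compl (fun w : V => w = v)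
  rw [Fintype.card_subtype_eq] at h
  have hpos : 0 < Fintype.card V := Fintype.card_pos_iff.2 ⟨v⟩
  have h' : Fintype.card {w : V // w ≠ v} = Fintype.card V - 1 := h
  omega

theorem ms_card (G : SimpleGraph V) (v : V) : (ms G v).card = (mt (delV G v)).card := by
  classical
  have h : ms G v = (mt (delV G v)).image (Sym2.map Subtype.val) := by
    ext e
    induction e using Sym2.ind with
    | _ x y =>
      rw [mem_ms, mem_image]
      constructor
      · rintro ⟨h1, h2, h3, h4⟩
        refine ⟨s(⟨x, h2.symm⟩, ⟨y, h3.symm⟩), ?_, rfl⟩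
        rw [mem_mt]
        refine ⟨?_, h4⟩
        intro h; exact h1 (Subtype.ext_iff.1 h)
      · rintro ⟨e', he', heq⟩
        induction e' using Sym2.ind with
        | _ a b =>
          rw [mem_mt] at he'
          rw [Sym2.map_mk] at heq
          have hab : a.1 ≠ b.1 := fun h => he'.1 (Subtype.ext h)
          rcases Sym2.eq_iff.1 heq with ⟨h1, h2⟩ | ⟨h1, h2⟩
          · rw [← h1, ← h2]
            exact ⟨hab, a.2.symm, b.2.symm, he'.2⟩
          · rw [← h1, ← h2]
            exact ⟨hab.symm, b.2.symm, a.2.symm, fun h => he'.2 h.symm⟩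
  rw [h, Finset.card_image_of_injective _ (Sym2.map.injective Subtype.val_injective)]

theorem conn_of_dom (G : SimpleGraph V) (u : V) (hu : ∀ t, t ≠ u → G.Adj u t) : G.Connected := by
  have hr : ∀ a, G.Reachable u a := by
    intro a
    by_cases h : a = u
    · subst h; exact SimpleGraph.Reachable.refl _
    · exact (hu a h).reachable
  have : Nonempty V := ⟨u⟩
  exact SimpleGraph.Connected.mk (fun a b => (hr a).symm.trans (hr b))

end

/-- The graph `L_{n,m}` (parameters `s`, `k`, attachment function `f`). -/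
def Lg (n s k : ℕ) (f : ℕ → ℕ) : SimpleGraph (Fin n) where
  Adj i j := i ≠ j ∧ (max i.1 j.1 < s ∨ (max i.1 j.1 = s ∧ min i.1 j.1 < k) ∨
    (s < max i.1 j.1 ∧ min i.1 j.1 = f (max i.1 j.1)))
  symm := ⟨fun i j h => by
    rw [max_comm j.1 i.1, min_comm j.1 i.1]
    exact ⟨h.1.symm, h.2⟩⟩
  loopless := ⟨fun _ h => h.1 rfl⟩

theorem Lg_adj (n s k : ℕ) (f : ℕ → ℕ) (i j : Fin n) : (Lg n s k f).Adj i j ↔
    i ≠ j ∧ (max i.1 j.1 < s ∨ (max i.1 j.1 = s ∧ min i.1 j.1 < k) ∨
    (s < max i.1 j.1 ∧ min i.1 j.1 = f (max i.1 j.1))) := Iff.rfl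

theorem Lg_pendant (m s k : ℕ) (f : ℕ → ℕ) (hs : s < m) (hf : f m < m) (p : ℝ) :
    R (gw (Lg (m + 1) s k f) p) = p * R (gw (Lg m s k f) p) := by
  have hne : (⟨f m, by omega⟩ : Fin (m + 1)) ≠ Fin.last m := by
    intro h
    have := Fin.ext_iff.1 h
    simp at this
    omega
  rw [pendant (Fin.last m) ⟨f m, by omega⟩ hne]
  · rw [rs_gw]
    congr 1
    · apply gw_mk
      rw [Lg_adj]
      refine ⟨hne.symm, Or.inr (Or.inr ?_)⟩
      have h1 : max (Fin.last m).1 (f m) = m := by simp; omega
      have h2 : min (Fin.last m).1 (f m) = f m := by simp; omega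
      simp only [h1, h2]
      exact ⟨hs, trivial⟩
    · apply (R_iso _ _ (finSuccAboveEquiv (Fin.last m)) _ p).symm
      intro a b
      rw [delV_adj, Lg_adj, Lg_adj]
      simp only [finSuccAboveEquiv_apply, Fin.succAbove_last]
      simp
  · intro w h1 h2
    apply gw_mk'
    rw [Lg_adj]
    have hw : w.1 < m := by
      have := w.2
      have h3 : w.1 ≠ m := fun h => h2 (Fin.ext h)
      omega
    have e1 : max (Fin.last m).1 w.1 = m := by simp; omega
    have e2 : min (Fin.last m).1 w.1 = w.1 := by simp; omega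
    rw [e1, e2]
    rintro ⟨_, h | h | h⟩
    · omega
    · omega
    · apply h1; exact Fin.ext h.2

theorem Lg_dense (s k : ℕ) (f : ℕ → ℕ) : Lg (s + 1) s k f =
    starC (Fin.last s) (univ.filter (fun i : Fin (s + 1) => k ≤ i.1 ∧ i.1 < s)) := by
  ext i j
  rw [Lg_adj, starC_adj]
  simp only [mem_filter, mem_univ, true_and]
  have hi := i.2
  have hj := j.2
  constructor
  · rintro ⟨h1, h⟩
    refine ⟨h1, ?_, ?_⟩
    · rintro ⟨rfl, h2, h3⟩
      simp only [Fin.val_last] at h
      rw [max_eq_left (by omega), min_eq_right (by omega)] at h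
      omega
    · rintro ⟨rfl, h2, h3⟩
      simp only [Fin.val_last] at h
      rw [max_eq_right (by omega), min_eq_left (by omega)] at h
      omega
  · rintro ⟨h1, h2, h3⟩
    refine ⟨h1, ?_⟩
    have h1' : i.1 ≠ j.1 := fun h => h1 (Fin.ext h)
    by_cases hil : i = Fin.last s
    · have hjs : j.1 < s := by
        have : i.1 = s := by rw [hil]; simp
        omega
      have his : i.1 = s := by rw [hil]; simp
      have : ¬ (k ≤ j.1 ∧ j.1 < s) := fun h => h2 ⟨hil, h⟩
      right; left
      rw [max_eq_left (by omega), min_eq_right (by omega)]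
      omega
    · by_cases hjl : j = Fin.last s
      · have hjs : j.1 = s := by rw [hjl]; simp
        have : ¬ (k ≤ i.1 ∧ i.1 < s) := fun h => h3 ⟨hjl, h⟩
        right; left
        rw [max_eq_right (by omega), min_eq_left (by omega)]
        omega
      · left
        have a1 : i.1 ≠ s := fun h => hil (Fin.ext (by simpa using h))
        have a2 : j.1 ≠ s := fun h => hjl (Fin.ext (by simpa using h))
        rw [max_lt_iff]; omega

theorem main (p : ℝ) (hp0 : 0 ≤ p) (hp1 : p ≤ 1) (f : ℕ → ℕ) (s k : ℕ) (hk : 1 ≤ k) (hks : k ≤ s) :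
    ∀ (n : ℕ), s + 1 ≤ n → (∀ j, s < j → j < n → f j < j) →
      ∀ (V : Type u) [Fintype V] [DecidableEq V] (G : SimpleGraph V), Fintype.card V = n →
      G.Connected → G.edgeSet.ncard = s.choose 2 + k + (n - s - 1) →
      R (gw (Lg n s k f) p) ≤ R (gw G p) := by
  intro n hn
  induction n, hn using Nat.le_induction with
  | base =>
    intro _ V _ _ G hV hG hE
    classical
    have hm := mt_card G
    have hch : (s + 1).choose 2 = s.choose 2 + s := by
      rw [Nat.choose_succ_succ' s 1, Nat.choose_one_right]; ring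
    have hmt : (mt G).card = s - k := by
      rw [hV, hch] at hm
      have : G.edgeSet.ncard = s.choose 2 + k := by rw [hE]; omega
      omega
    have hne : Nonempty V := hG.nonempty
    obtain ⟨v⟩ := hne
    obtain ⟨T, hT1, hT2⟩ := Finset.exists_subset_card_eq
      (s := (univ.erase v : Finset V)) (n := s - k) (by
        rw [Finset.card_erase_of_mem (mem_univ v), Finset.card_univ, hV]; omega)
    have hvT : v ∉ T := fun h => by
      have := hT1 h
      simp at this
    have hd := dense p hp0 hp1 (s - k) G hG hmt (by omega) v T hvT hT2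
    refine le_trans (le_of_eq ?_) hd
    rw [Lg_dense]
    apply star_relabel
    · simp
    · exact hvT
    · rw [hT2]
      have : (univ.filter (fun i : Fin (s + 1) => k ≤ i.1 ∧ i.1 < s)) =
          (Finset.Ico k s).attachFin (fun i hi => by
            have := (Finset.mem_Ico.1 hi).2; omega) := by
        ext i
        simp [Finset.mem_attachFin]
      rw [this, Finset.card_attachFin, Nat.card_Ico]
    · rw [hV, Fintype.card_fin]
  | succ m hm ih =>
    intro hf V _ _ G hV hG hE
    classical
    have hLp := Lg_pendant m s k f (by omega) (hf m (by omega) (by omega)) p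
    rcases eq_or_lt_of_le hp0 with rfl | hp
    · rw [hLp, zero_mul]
      exact R_nonneg _ (gw_01 G 0 le_rfl zero_le_one)
    obtain ⟨H, hHc, hHe, hHN, hHP⟩ := exists_nested (fun G => R (gw G p))
      (fun G u v huv => kelmans p hp0 hp1 G u v huv) G hG
    refine le_trans ?_ hHP
    have hne : Nonempty V := hG.nonempty
    obtain ⟨v1⟩ := hne
    obtain ⟨v, _, hv⟩ := Finset.exists_min_image (univ : Finset V) (fun w => (nbs H w).card)
      ⟨v1, mem_univ v1⟩
    have hdom := nested_dom H hHN v (fun w => hv w (mem_univ w))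
    -- v has a neighbour
    have hnb : (nbs H v).Nonempty := by
      have : 1 < Fintype.card V := by omega
      obtain ⟨w, hw⟩ := Fintype.exists_ne_of_one_lt_card this v
      obtain ⟨q⟩ := hHc.preconnected v w
      cases q with
      | nil => exact absurd rfl hw
      | cons h _ => exact ⟨_, mem_nbs.2 h⟩
    set d := (nbs H v).card with hd
    have hd1 : 1 ≤ d := Finset.card_pos.2 hnb
    have hcV' : Fintype.card {w : V // w ≠ v} = m := by
      have := card_sub v
      omega
    set H' := delV H v with hH'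
    set U : Finset {w : V // w ≠ v} := univ.filter (fun w => H.Adj v w.1) with hU
    have hUd : U.card = d := by
      rw [hd]
      have : nbs H v = U.image Subtype.val := by
        ext w
        rw [mem_nbs, mem_image]
        constructor
        · intro h; exact ⟨⟨w, h.ne'⟩, by simp [hU, h], rfl⟩
        · rintro ⟨a, ha, rfl⟩; simpa [hU] using ha
      rw [this, Finset.card_image_of_injective _ Subtype.val_injective]
    have hUdom : ∀ u ∈ U, ∀ t, t ≠ u → H'.Adj u t := by
      intro u hu t ht
      rw [hH', delV_adj]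
      apply hdom u.1 (by simpa [hU] using hu)
      intro h; exact ht (Subtype.ext h)
    -- counting
    have c1 := mt_card H
    have c2 := mt_split H v
    have c3 := nn_nbs H v
    have c4 := ms_card H v
    have c5 := mt_card H'
    have hch : (m + 1).choose 2 = m.choose 2 + m := by
      rw [Nat.choose_succ_succ' m 1, Nat.choose_one_right]; ring
    have hchs : s.choose 2 + m ≤ m.choose 2 + 1 := by
      obtain ⟨r, rfl⟩ : ∃ r, m = r + 1 := ⟨m - 1, by omega⟩
      have h1 : s.choose 2 ≤ r.choose 2 := Nat.choose_le_choose 2 (by omega)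
      have h2 : (r + 1).choose 2 = r.choose 2 + r := by
        rw [Nat.choose_succ_succ' r 1, Nat.choose_one_right]; ring
      omega
    rw [hV, hch] at c1
    have hE' : H.edgeSet.ncard = s.choose 2 + k + (m - s) := by
      rw [hHe, hE]
      have : m + 1 - s - 1 = m - s := by omega
      rw [this]
    rw [← hH'] at c4
    rw [← hd] at c3
    rw [hE'] at c1
    rw [c2, c4] at c1
    rw [hV] at c3
    have c6 : (mt H').card + s.choose 2 + k + (m - s) = m.choose 2 + d := by
      omega
    obtain ⟨F, hF1, hF2⟩ := Finset.exists_subset_card_eq (s := mt H') (n := d - 1) (by omega)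
    -- the new graph
    have hH''c : (addF H' F).Connected := by
      obtain ⟨u, hu⟩ : U.Nonempty := by rw [← Finset.card_pos]; omega
      apply conn_of_dom _ u
      intro t ht
      exact ⟨ht.symm, Or.inl (hUdom u hu t ht)⟩
    have hH''e : (addF H' F).edgeSet.ncard = s.choose 2 + k + (m - s - 1) := by
      have h1 := mt_card (addF H' F)
      rw [mt_addF, Finset.card_sdiff_of_subset hF1, hF2, hcV'] at h1
      have h2 : d - 1 ≤ (mt H').card := hF2 ▸ Finset.card_le_card hF1
      omega
    have hIH := ih (fun j h1 h2 => hf j h1 (by omega)) {w : V // w ≠ v} (addF H' F) hcV' hH''c hH''e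
    have hadd := add_edges p hp hp1 H' U hUdom (by omega) F hF1
    rw [hF2, hUd] at hadd
    have hkap := Pool.Agent.Helper291.RelA.kappa_le d hd1 (1 - p) (by linarith) (by linarith)
    have hdel := del_vertex v (gw H p) (gw_01 H p hp0 hp1)
    rw [nb_gw, rs_gw, ← hd, ← hH'] at hdel
    have hR0 : 0 ≤ R (gw H' p) := R_nonneg _ (gw_01 H' p hp0 hp1)
    have hgeo : 1 - (1 - p) ^ d = p * ∑ i ∈ Finset.range d, (1 - p) ^ i := by
      have := geom_sum_mul (1 - p) d
      have h2 : (∑ i ∈ Finset.range d, (1 - p) ^ i) * (1 - p - 1) = (1 - p) ^ d - 1 := this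
      linarith
    rw [hLp]
    calc p * R (gw (Lg m s k f) p) ≤ p * R (gw (addF H' F) p) :=
          mul_le_mul_of_nonneg_left hIH hp0
      _ ≤ p * ((∑ i ∈ Finset.range d, (1 - p) ^ i) * R (gw H' p)) := by
          apply mul_le_mul_of_nonneg_left _ hp0
          exact hadd.trans (mul_le_mul_of_nonneg_right hkap hR0)
      _ = (1 - (1 - p) ^ d) * R (gw H' p) := by rw [hgeo]; ring
      _ ≤ R (gw H p) := hdel

end Pool.Agent.Helper291.RelFinal
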